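import Pool.Agent.Run7.h262.TB.Flg
import Pool.Agent.Run7.h262.SV.Dim

/-!
Equivariant families on domains which need not be convex.
-/

set_option autoImplicit false

open Filter Topology

namespace Run7.h262.TB

open Run7.h262.SV

section
variable {Γ E : Type} [Group Γ] [NormedAddCommGroup E] [NormedSpace ℝ E] [FiniteDimensional ℝ E]
  {hol : Γ →* (E ≃ᵃ[ℝ] E)} {Ω : Set E}

theorem AffAct.fin2 {Ω : Set E} (h : AffAct Γ E hol Ω) {K K' : Set E} (hK : IsCompact K)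
    (hK' : IsCompact K') (hKΩ : K ⊆ Ω) (hK'Ω : K' ⊆ Ω) :
    {γ : Γ | ∃ x ∈ K, hol γ⁻¹ x ∈ K'}.Finite := by
  have h1 := h.pd (K ∪ K') (hK.union hK') (Set.union_subset hKΩ hK'Ω)
  refine (h1.preimage (inv_injective.injOn)).subset ?_
  rintro γ ⟨x, hx, h2⟩
  exact ⟨x, Or.inl hx, Or.inr h2⟩

theorem AffAct.base {Ω : Set E} (h : AffAct Γ E hol Ω) :
    ∃ l : Γ → E → ℝ, PreW Γ Γ E hol Ω l ∧ ∀ γ, ∀ x ∈ Ω, 0 ≤ l γ x := by
  obtain ⟨K, hK, hKΩ, hcc⟩ := h.cc
  obtain ⟨ψ, K', hψ1, hK', hK'Ω, hψ2, hψ0, hψp⟩ := exists_bump h.isOpen hK hKΩ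
  let b : Γ → E → ℝ := fun γ x => ψ (hol γ⁻¹ x)
  have hbs : ∀ γ, ContDiffOn ℝ 1 (b γ) Ω := fun γ => (hψ1.comp (hol_contDiff γ⁻¹)).contDiffOn
  have hbf : ∀ K : Set E, IsCompact K → K ⊆ Ω → {γ | ∃ x ∈ K, b γ x ≠ 0}.Finite := by
    intro K₁ hK₁ hK₁Ω
    refine (h.fin2 hK₁ hK' hK₁Ω hK'Ω).subset ?_
    rintro γ ⟨x, hx, h0⟩
    exact ⟨x, hx, hψ2 _ h0⟩
  let Ψ : E → ℝ := fun x => ∑ᶠ γ, b γ x
  have hΨs : ContDiffOn ℝ 1 Ψ Ω := by
    have := lf_smooth h.isOpen hbs hbf (fun _ => (1 : ℝ))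
    simpa using this
  have hbfin : ∀ x ∈ Ω, (Function.support fun γ => b γ x).Finite := by
    intro x hx
    refine (hbf {x} isCompact_singleton (by simpa using hx)).subset fun γ hγ => ?_
    exact ⟨x, rfl, hγ⟩
  have hΨp : ∀ x ∈ Ω, 0 < Ψ x := by
    intro x hx
    obtain ⟨γ, hγ⟩ := hcc x hx
    have h1 : b γ⁻¹ x ≠ 0 := by
      simp only [b, inv_inv]
      exact (hψp _ hγ).ne'
    exact finsum_pos (fun γ => hψ0 _) ⟨γ⁻¹, by simpa [b] using hψp _ hγ⟩ (hbfin x hx)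
  have hbe : ∀ γ δ : Γ, ∀ x, b (γ * δ) (hol γ x) = b δ x := by
    intro γ δ x
    simp only [b]
    rw [mul_inv_rev, hol_mul, hol_inv]
  have hΨe : ∀ γ : Γ, ∀ x, Ψ (hol γ x) = Ψ x := by
    intro γ x
    simp only [Ψ]
    rw [← finsum_comp_equiv (Equiv.mulLeft γ)]
    exact finsum_congr fun δ => hbe γ δ x
  refine ⟨fun γ x => b γ x / Ψ x, ⟨?_, ?_, ?_, ?_⟩,
    fun γ x hx => div_nonneg (hψ0 _) (hΨp x hx).le⟩
  · intro γ
    exact (hbs γ).div hΨs fun x hx => (hΨp x hx).ne'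
  · intro K₁ hK₁ hK₁Ω
    refine (hbf K₁ hK₁ hK₁Ω).subset ?_
    rintro γ ⟨x, hx, h0⟩
    refine ⟨x, hx, fun h1 => h0 ?_⟩
    rw [h1, zero_div]
  · intro x hx
    have h1 : ∑ᶠ γ, b γ x / Ψ x = (∑ᶠ γ, b γ x) / Ψ x := by
      simp only [div_eq_mul_inv]
      exact (finsum_mul _ _).symm
    rw [h1]
    exact div_self (hΨp x hx).ne'
  · intro γ δ x hx
    simp only [smul_eq_mul]
    rw [hbe, hΨe]

theorem exists_lin_map {U : Type} [NormedAddCommGroup U] [NormedSpace ℝ U]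
    (h : AffAct Γ E hol Ω) (σ : Γ → U →L[ℝ] U) (hσ : ∀ γ δ u, σ (γ * δ) u = σ γ (σ δ u))
    {C : Set U} (hC : Convex ℝ C) (u₀ : U) (hu₀ : ∀ γ, σ γ u₀ ∈ C) :
    ∃ F : E → U, ContDiffOn ℝ 1 F Ω ∧ (∀ x ∈ Ω, F x ∈ C) ∧
      ∀ γ : Γ, ∀ x ∈ Ω, F (hol γ x) = σ γ (F x) := by
  classical
  obtain ⟨b, hb, hb0⟩ := h.base
  have hfin : ∀ x ∈ Ω, {γ | b γ x ≠ 0}.Finite := fun x hx => hb.fin1 hx
  have hsum : ∀ x (hx : x ∈ Ω) (c : Γ → U),
      ∑ᶠ γ, b γ x • c γ = ∑ γ ∈ (hfin x hx).toFinset, b γ x • c γ := by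
    intro x hx c
    refine finsum_eq_sum_of_support_subset _ fun s hs => ?_
    rw [Finset.mem_coe, Set.Finite.mem_toFinset]
    exact left_ne_zero_of_smul hs
  have hone : ∀ x (hx : x ∈ Ω), ∑ γ ∈ (hfin x hx).toFinset, b γ x = 1 := by
    intro x hx
    rw [← hb.one x hx]
    symm
    refine finsum_eq_sum_of_support_subset _ fun s hs => ?_
    rw [Finset.mem_coe, Set.Finite.mem_toFinset]
    exact hs
  refine ⟨fun x => ∑ᶠ γ, b γ x • σ γ u₀, lf_smooth h.isOpen hb.smooth hb.fin _, ?_, ?_⟩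
  · intro x hx
    simp only
    rw [hsum x hx]
    exact hC.sum_mem (fun γ _ => hb0 γ x hx) (hone x hx) fun γ _ => hu₀ γ
  · intro γ x hx
    simp only
    rw [← finsum_comp_equiv (Equiv.mulLeft γ)]
    have e1 : ∀ δ : Γ, b ((Equiv.mulLeft γ) δ) (hol γ x) • σ ((Equiv.mulLeft γ) δ) u₀ =
        b δ x • σ γ (σ δ u₀) := by
      intro δ
      have h1 := hb.equi γ δ x hx
      rw [Equiv.coe_mulLeft, hσ]
      rw [smul_eq_mul] at h1
      rw [h1]
    rw [finsum_congr e1, hsum x hx, hsum x hx, map_sum]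
    exact Finset.sum_congr rfl fun δ _ => (map_smul _ _ _).symm

theorem block_factor (h : AffAct Γ E hol Ω) {K : Set E} (hK : IsCompact K) (hKΩ : K ⊆ Ω)
    {Sa Sb : Submodule ℝ E} (hlt : Sa < Sb) (hSa : ∀ γ : Γ, ∀ v ∈ Sa, (hol γ).linear v ∈ Sa)
    (hSb : ∀ γ : Γ, ∀ v ∈ Sb, (hol γ).linear v ∈ Sb) {Q : Submodule ℝ (E → ℝ)}
    (hQ : NormSpace hol Sa Sb Q) :
    ∃ (F : E → EuclideanSpace ℝ (Fin (Module.finrank ℝ Q))) (g : Γ → E → ℝ),
      Factor hol Ω K g ∧ ContDiffOn ℝ 1 F Ω ∧ (∀ x ∈ Ω, F x ≠ 0) ∧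
      (∀ x ∈ Ω, ∀ v, ∀ c : ℝ, fderiv ℝ F x v = c • F x → ∀ γ, fderiv ℝ (g γ) x v = 0) ∧
      ∀ K₁ : Set E, IsCompact K₁ → K₁ ⊆ Ω → ∃ c : ℝ, ∀ γ, ∀ x ∈ K₁, g γ x ≠ 0 →
        BddBlock hol Sa Sb c γ := by
  classical
  have hQf := hQ.finite
  let U := EuclideanSpace ℝ (Fin (Module.finrank ℝ Q))
  have hfr : Module.finrank ℝ U = Module.finrank ℝ Q := finrank_euclideanSpace_fin
  let e : U ≃ₗ[ℝ] Q := LinearEquiv.ofFinrankEq U Q hfr
  let ev : U → E → ℝ := fun u v => (e u : E → ℝ) v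
  have ev_add : ∀ u u' v, ev (u + u') v = ev u v + ev u' v := by
    intro u u' v
    change (e (u + u') : E → ℝ) v = _
    rw [map_add]
    rfl
  have ev_smul : ∀ (r : ℝ) u v, ev (r • u) v = r * ev u v := by
    intro r u v
    change (e (r • u) : E → ℝ) v = _
    rw [map_smul]
    rfl
  let σ' : Γ → U →ₗ[ℝ] U := fun γ =>
    { toFun := fun u => e.symm ⟨fun v => ev u ((hol γ⁻¹).linear v), hQ.inv γ⁻¹ _ (e u).2⟩
      map_add' := fun u u' => by
        rw [← map_add]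
        congr 1
        refine Subtype.ext (funext fun v => ?_)
        exact ev_add u u' _
      map_smul' := fun r u => by
        rw [RingHom.id_apply, ← map_smul]
        congr 1
        refine Subtype.ext (funext fun v => ?_)
        exact ev_smul r u _ }
  let σ : Γ → U →L[ℝ] U := fun γ => LinearMap.toContinuousLinearMap (σ' γ)
  have evσ : ∀ γ u v, ev (σ γ u) v = ev u ((hol γ⁻¹).linear v) := by
    intro γ u v
    change (e (e.symm ⟨fun v => ev u ((hol γ⁻¹).linear v), _⟩) : E → ℝ) v = _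
    rw [LinearEquiv.apply_symm_apply]
  have ev_ext : ∀ u u' : U, (∀ v, ev u v = ev u' v) → u = u' := by
    intro u u' h1
    exact e.injective (Subtype.ext (funext h1))
  have hσ : ∀ γ δ u, σ (γ * δ) u = σ γ (σ δ u) := by
    intro γ δ u
    refine ev_ext _ _ fun v => ?_
    rw [evσ, evσ, evσ, mul_inv_rev, lin_mul]
  have hσi : ∀ γ u, σ γ⁻¹ (σ γ u) = u := by
    intro γ u
    refine ev_ext _ _ fun v => ?_
    rw [evσ, evσ, inv_inv, lin_inv]
  have hσ1 : ∀ u, σ 1 u = u := by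
    intro u
    refine ev_ext _ _ fun v => ?_
    rw [evσ, inv_one, map_one]
    rfl
  obtain ⟨π, hπ1, hπ2⟩ := exists_pi Sa
  -- the unit sphere of the block
  let Z : Set Sb := {z | π (z : E) = 0 ∧ ‖z‖ = 1}
  have hZc : IsCompact Z := by
    refine Metric.isCompact_of_isClosed_isBounded ?_ ?_
    · refine IsClosed.inter ?_ ?_
      · exact isClosed_eq (π.continuous.comp continuous_subtype_val) continuous_const
      · exact isClosed_eq continuous_norm continuous_const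
    · refine isBounded_iff_forall_norm_le.2 ⟨1, fun z hz => hz.2.le⟩
  have evc : Continuous fun p : U × Sb => ev p.1 (p.2 : E) := by
    refine joint_cont (fun u (z : Sb) => ev u z) (fun u v t => ev_add u v t)
      (fun r u t => ev_smul r u t) fun u => ?_
    exact continuousOn_iff_continuous_restrict.1 (hQ.cont _ (e u).2)
  let C : Set U := {u | ∀ z ∈ Z, 0 < ev u (z : E)}
  have hproj : ∀ v ∈ Sb, v - π v ∈ Sb := fun v hv => Sb.sub_mem hv (hlt.le (hπ1 v))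
  have hππ : ∀ v, π (v - π v) = 0 := fun v => by rw [map_sub, hπ2 _ (hπ1 v), sub_self]
  have ev_red : ∀ u, ∀ v ∈ Sb, ev u v = ev u (v - π v) := by
    intro u v hv
    have := hQ.add _ (e u).2 (v - π v) (hproj v hv) (π v) (hπ1 v)
    rw [sub_add_cancel] at this
    exact this
  have hsc : ∀ u, ∀ v ∈ Sb, v - π v ≠ 0 → ∃ z ∈ Z, ev u v = ‖v - π v‖ ^ 2 * ev u (z : E) := by
    intro u v hv hne
    have hn : ‖v - π v‖ ≠ 0 := norm_ne_zero_iff.2 hne
    refine ⟨⟨‖v - π v‖⁻¹ • (v - π v), Sb.smul_mem _ (hproj v hv)⟩, ⟨?_, ?_⟩, ?_⟩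
    · change π (‖v - π v‖⁻¹ • (v - π v)) = 0
      rw [map_smul, hππ, smul_zero]
    · change ‖‖v - π v‖⁻¹ • (v - π v)‖ = 1
      rw [norm_smul, norm_inv, norm_norm, inv_mul_cancel₀ hn]
    · rw [ev_red u v hv]
      have h2 : ev u (‖v - π v‖⁻¹ • (v - π v)) = ‖v - π v‖⁻¹ ^ 2 * ev u (v - π v) :=
        hQ.hom _ (e u).2 _ _ (hproj v hv)
      rw [h2]
      field_simp
  have hCiff : ∀ u, u ∈ C ↔ ∀ v ∈ Sb, v ∉ Sa → 0 < ev u v := by
    intro u
    constructor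
    · intro hu v hv hva
      have hne : v - π v ≠ 0 := by
        intro h0
        rw [sub_eq_zero] at h0
        rw [h0] at hva
        exact hva (hπ1 v)
      obtain ⟨z, hz, h1⟩ := hsc u v hv hne
      rw [h1]
      have := norm_pos_iff.2 hne
      have := hu z hz
      positivity
    · intro hu z hz
      refine hu z z.2 fun hza => ?_
      have h1 := hπ2 _ hza
      rw [hz.1] at h1
      have h2 : ‖z‖ = 0 := by
        change ‖(z : E)‖ = 0
        rw [← h1, norm_zero]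
      rw [hz.2] at h2
      exact one_ne_zero h2
  have hCo : IsOpen C := by
    rw [isOpen_iff_mem_nhds]
    intro u hu
    have h1 : ∀ᶠ u' in 𝓝 u, ∀ z ∈ Z, 0 < ev u' (z : E) :=
      hZc.eventually_forall_of_forall_eventually fun z hz =>
        evc.continuousAt.eventually (lt_mem_nhds (hu z hz))
    exact h1
  have hCc : Convex ℝ C := by
    intro u hu u' hu' a b ha hb hab z hz
    rw [ev_add, ev_smul, ev_smul]
    have h1 := hu z hz
    have h2 := hu' z hz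
    rcases ha.eq_or_lt with rfl | ha'
    · have : b = 1 := by linarith
      subst this
      simpa using h2
    · have := mul_pos ha' h1
      have := mul_nonneg hb h2.le
      linarith
  have hCσ : ∀ γ, ∀ u ∈ C, σ γ u ∈ C := by
    intro γ u hu
    rw [hCiff] at hu ⊢
    intro v hv hva
    rw [evσ]
    refine hu _ (hSb _ v hv) fun h1 => hva ?_
    have := hSa γ _ h1
    rwa [lin_inv'] at this
  have hCs : ∀ t : ℝ, 0 < t → ∀ u ∈ C, t • u ∈ C := by
    intro t ht u hu z hz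
    rw [ev_smul]
    exact mul_pos ht (hu z hz)
  have hC0 : ∀ u ∈ C, u ≠ 0 := by
    rintro u hu rfl
    obtain ⟨v, hv, hva⟩ := SetLike.exists_of_lt hlt
    have h1 := (hCiff 0).1 hu v hv hva
    have h2 : ev 0 v = 0 := by
      have := ev_smul 0 (0 : U) v
      rwa [zero_smul, zero_mul] at this
    rw [h2] at h1
    exact lt_irrefl _ h1
  obtain ⟨f₀, hf₀, hf₀p⟩ := hQ.pos
  have hu₀ : e.symm ⟨f₀, hf₀⟩ ∈ C := by
    rw [hCiff]
    intro v hv hva
    change 0 < (e (e.symm ⟨f₀, hf₀⟩) : E → ℝ) v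
    rw [LinearEquiv.apply_symm_apply]
    exact hf₀p v hv hva
  obtain ⟨F, hF1, hF2, hF3⟩ := exists_lin_map h σ hσ hCc _ (fun γ => hCσ γ _ hu₀)
  have hnC : ∀ u ∈ C, nrm u ∈ C := fun u hu =>
    hCs _ (inv_pos.2 (norm_pos_iff.2 (hC0 u hu))) u hu
  have hncont : ContinuousOn (nrm : U → U) C :=
    nrm_smooth.continuousOn.mono fun u hu => hC0 u hu
  -- the bump function
  have hK1 : IsCompact ((fun x => nrm (F x)) '' K) :=
    hK.image_of_continuousOn (hncont.comp (hF1.continuousOn.mono hKΩ) fun x hx =>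
      hF2 x (hKΩ hx))
  have hK2 : (fun x => nrm (F x)) '' K ⊆ C := by
    rintro _ ⟨x, hx, rfl⟩
    exact hnC _ (hF2 x (hKΩ hx))
  obtain ⟨χ, K', hχ1, hK', hK'C, hχ2, hχ0, hχp⟩ := exists_bump hCo hK1 hK2
  refine ⟨F, fun γ x => χ (nrm (σ γ⁻¹ (F x))), ⟨?_, ?_, ?_, ?_⟩, hF1, fun x hx =>
    hC0 _ (hF2 x hx), ?_, ?_⟩
  · intro γ
    refine hχ1.comp_contDiffOn ?_
    refine (nrm_smooth (U := U)).comp ((σ γ⁻¹).contDiff.comp_contDiffOn hF1) fun x hx => ?_
    exact hC0 _ (hCσ _ _ (hF2 x hx))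
  · intro γ x hx
    exact hχ0 _
  · intro γ δ x hx
    rw [mul_inv_rev, hσ, hF3 γ x hx, hσi]
  · intro x hx
    rw [inv_one, hσ1]
    exact hχp _ ⟨x, hx, rfl⟩
  · intro x hx v c hv γ
    have hFd : DifferentiableAt ℝ F x :=
      (hF1.differentiableOn one_ne_zero).differentiableAt (h.isOpen.mem_nhds hx)
    have h1 := path_deriv hFd v
    have h2 : HasDerivAt (fun t : ℝ => σ γ⁻¹ (F (x + t • v))) (σ γ⁻¹ (fderiv ℝ F x v)) 0 :=
      (σ γ⁻¹).hasFDerivAt.comp_hasDerivAt (0 : ℝ) h1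
    rw [hv, map_smul] at h2
    have e0 : σ γ⁻¹ (F (x + (0 : ℝ) • v)) = σ γ⁻¹ (F x) := by rw [zero_smul, add_zero]
    have h3 := nrm_deriv (y := fun t : ℝ => σ γ⁻¹ (F (x + t • v))) (c := c)
      (by
        rw [e0]
        exact hC0 _ (hCσ _ _ (hF2 x hx)))
      (by
        rw [e0]
        exact h2)
    have h4 : HasDerivAt (fun t : ℝ => χ (nrm (σ γ⁻¹ (F (x + t • v))))) 0 0 := by
      have h5 : DifferentiableAt ℝ χ (nrm (σ γ⁻¹ (F (x + (0 : ℝ) • v)))) :=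
        hχ1.differentiable one_ne_zero _
      have h6 := h5.hasFDerivAt.comp_hasDerivAt (0 : ℝ) h3
      rw [map_zero] at h6
      exact h6
    have hgd : DifferentiableAt ℝ (fun x => χ (nrm (σ γ⁻¹ (F x)))) x := by
      have h7 : ContDiffOn ℝ 1 (fun x => χ (nrm (σ γ⁻¹ (F x)))) Ω := by
        refine hχ1.comp_contDiffOn ?_
        refine (nrm_smooth (U := U)).comp ((σ γ⁻¹).contDiff.comp_contDiffOn hF1) fun x hx => ?_
        exact hC0 _ (hCσ _ _ (hF2 x hx))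
      exact (h7.differentiableOn one_ne_zero).differentiableAt (h.isOpen.mem_nhds hx)
    exact (path_deriv hgd v).unique h4
  · intro K₁ hK₁ hK₁Ω
    have hA : IsCompact ((F '' K₁) ∪ K') :=
      (hK₁.image_of_continuousOn (hF1.continuousOn.mono hK₁Ω)).union hK'
    have hAC : (F '' K₁) ∪ K' ⊆ C := by
      refine Set.union_subset ?_ hK'C
      rintro _ ⟨x, hx, rfl⟩
      exact hF2 x (hK₁Ω hx)
    obtain ⟨m, M, hm, hM, hmM⟩ := cpt_bounds (hA.prod hZc) (f := fun p : U × Sb => ev p.1 (p.2 : E))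
      evc.continuousOn fun p hp => hAC hp.1 p.2 hp.2
    have low : ∀ u ∈ (F '' K₁) ∪ K', ∀ v ∈ Sb, m * ‖v - π v‖ ^ 2 ≤ ev u v := by
      intro u hu v hv
      by_cases hne : v - π v = 0
      · rw [hne, norm_zero]
        have h1 : ev u v = 0 := by
          rw [ev_red u v hv, hne]
          have := hQ.hom _ (e u).2 0 0 Sb.zero_mem
          rw [zero_smul] at this
          simpa using this
        rw [h1]
        simp
      · obtain ⟨z, hz, h1⟩ := hsc u v hv hne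
        rw [h1, mul_comm]
        exact mul_le_mul_of_nonneg_left (hmM (u, z) ⟨hu, hz⟩).1 (by positivity)
    have upp : ∀ u ∈ (F '' K₁) ∪ K', ∀ v ∈ Sb, ev u v ≤ M * ‖v - π v‖ ^ 2 := by
      intro u hu v hv
      by_cases hne : v - π v = 0
      · rw [hne, norm_zero]
        have h1 : ev u v = 0 := by
          rw [ev_red u v hv, hne]
          have := hQ.hom _ (e u).2 0 0 Sb.zero_mem
          rw [zero_smul] at this
          simpa using this
        rw [h1]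
        simp
      · obtain ⟨z, hz, h1⟩ := hsc u v hv hne
        rw [h1, mul_comm]
        exact mul_le_mul_of_nonneg_right (hmM (u, z) ⟨hu, hz⟩).2 (by positivity)
    set N : ℝ := 1 + ‖π‖ with hN
    have hN0 : 0 < N := by positivity
    have hvN : ∀ v, ‖v - π v‖ ≤ N * ‖v‖ := by
      intro v
      calc ‖v - π v‖ ≤ ‖v‖ + ‖π v‖ := norm_sub_le _ _
        _ ≤ ‖v‖ + ‖π‖ * ‖v‖ := by gcongr; exact π.le_opNorm v
        _ = N * ‖v‖ := by rw [hN]; ring
    set c : ℝ := Real.sqrt (M / m) * N with hc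
    refine ⟨c, fun γ x hx hgx => ?_⟩
    have hu : F x ∈ (F '' K₁) ∪ K' := Or.inl ⟨x, hx, rfl⟩
    have hu' : nrm (σ γ⁻¹ (F x)) ∈ (F '' K₁) ∪ K' := Or.inr (hχ2 _ hgx)
    have hw0 : 0 < ‖σ γ⁻¹ (F x)‖ := norm_pos_iff.2 (hC0 _ (hCσ _ _ (hF2 x (hK₁Ω hx))))
    set τ : ℝ := ‖σ γ⁻¹ (F x)‖⁻¹ with hτ
    have hτ0 : 0 < τ := inv_pos.2 hw0
    have key : ∀ v, ev (nrm (σ γ⁻¹ (F x))) v = τ * ev (F x) ((hol γ).linear v) := by
      intro v
      change ev (τ • σ γ⁻¹ (F x)) v = _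
      rw [ev_smul, evσ, inv_inv]
    have hsq : ∀ a b t : ℝ, 0 ≤ a → 0 ≤ b → 0 < t → m * a ^ 2 ≤ t * (M * b ^ 2) →
        (Real.sqrt t)⁻¹ * a ≤ Real.sqrt (M / m) * b := by
      intro a b t ha hb ht hab
      have h1 : ((Real.sqrt t)⁻¹ * a) ^ 2 ≤ (Real.sqrt (M / m) * b) ^ 2 := by
        rw [mul_pow, mul_pow, inv_pow, Real.sq_sqrt ht.le, Real.sq_sqrt (by positivity)]
        rw [inv_mul_le_iff₀ ht, ← mul_le_mul_iff_right₀ hm]
        calc m * a ^ 2 ≤ t * (M * b ^ 2) := hab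
          _ = m * (t * (M / m * b ^ 2)) := by field_simp
      exact (sq_le_sq₀ (by positivity) (by positivity)).1 h1
    refine ⟨Real.sqrt τ, Real.sqrt_pos.2 hτ0, fun v hv => ⟨?_, ?_⟩⟩
    · refine ⟨Real.sqrt τ • π ((hol γ).linear v), Sa.smul_mem _ (hπ1 _), ?_⟩
      rw [← smul_sub, norm_smul, Real.norm_of_nonneg (Real.sqrt_nonneg _)]
      have h1 := low _ hu _ (hSb γ v hv)
      have h2 := upp _ hu' v hv
      rw [key] at h2
      have h3 := hsq ‖(hol γ).linear v - π ((hol γ).linear v)‖ ‖v - π v‖ τ⁻¹ (norm_nonneg _)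
        (norm_nonneg _) (inv_pos.2 hτ0) (by
          rw [← div_eq_inv_mul, le_div_iff₀ hτ0]
          calc _ = τ * (m * ‖(hol γ).linear v - π ((hol γ).linear v)‖ ^ 2) := by ring
            _ ≤ τ * ev (F x) ((hol γ).linear v) := mul_le_mul_of_nonneg_left h1 hτ0.le
            _ ≤ _ := h2)
      rw [Real.sqrt_inv, inv_inv] at h3
      refine h3.trans ?_
      rw [hc, mul_assoc]
      exact mul_le_mul_of_nonneg_left (hvN v) (Real.sqrt_nonneg _)
    · refine ⟨(Real.sqrt τ)⁻¹ • π ((hol γ⁻¹).linear v), Sa.smul_mem _ (hπ1 _), ?_⟩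
      rw [← smul_sub, norm_smul, Real.norm_of_nonneg (inv_nonneg.2 (Real.sqrt_nonneg _))]
      have h1 := low _ hu' _ (hSb γ⁻¹ v hv)
      have h2 := upp _ hu v hv
      rw [key, lin_inv'] at h1
      have h3 := hsq ‖(hol γ⁻¹).linear v - π ((hol γ⁻¹).linear v)‖ ‖v - π v‖ τ (norm_nonneg _)
        (norm_nonneg _) hτ0 (h1.trans (mul_le_mul_of_nonneg_left h2 hτ0.le))
      refine h3.trans ?_
      rw [hc, mul_assoc]
      exact mul_le_mul_of_nonneg_left (hvN v) (Real.sqrt_nonneg _)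

theorem AffAct.discrete (h : AffAct Γ E hol Ω) (hinj : Function.Injective hol) :
    ∃ r > 0, ∀ γ : Γ, ‖(hat.comp hol) γ - 1‖ < r → γ = 1 := by
  obtain ⟨x, hx⟩ := h.nonempty
  obtain ⟨K, hK, hxK, hKΩ⟩ := exists_compact_subset h.isOpen hx
  have hfin := h.pd K hK hKΩ
  have h1 : ∀ᶠ Y : AA E in 𝓝 1, actp Y x ∈ K := by
    have h2 : Continuous fun Y : AA E => actp Y x :=
      actp_cont.comp (continuous_const.prodMk continuous_id)
    refine (h2.tendsto 1).eventually ?_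
    exact mem_interior_iff_mem_nhds.1 hxK
  have h2 : ∀ᶠ Y : AA E in 𝓝 1, Y ∉
      ((fun a => hat (hol a)) '' {γ : Γ | ∃ x ∈ K, hol γ x ∈ K}) \ {1} := by
    have h3 : IsClosed (((fun a => hat (hol a)) '' {γ : Γ | ∃ x ∈ K, hol γ x ∈ K}) \ {1} :
        Set (AA E)) := ((hfin.image _).subset Set.diff_subset).isClosed
    exact h3.isOpen_compl.mem_nhds fun h4 => h4.2 rfl
  obtain ⟨ε, hε, hball⟩ := Metric.eventually_nhds_iff.1 (h1.and h2)
  refine ⟨ε, hε, fun γ hγ => ?_⟩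
  obtain ⟨h3, h4⟩ := hball (show dist (hat (hol γ)) 1 < ε by rw [dist_eq_norm]; exact hγ)
  by_contra hne
  refine h4 ⟨⟨γ, ⟨x, interior_subset hxK, ?_⟩, rfl⟩, fun h5 => hne (hinj ?_)⟩
  · rwa [actp_hat] at h3
  · rw [map_one]
    exact hat_inj (h5.trans (map_one hat).symm)

theorem AffAct.small_blocks (h : AffAct Γ E hol Ω) (hinj : Function.Injective hol) (S : ℕ → Submodule ℝ E) (m : ℕ)
    (h0 : S 0 = ⊥) (hn : S m = ⊤) (hm : ∀ i < m, S i ≤ S (i + 1))
    (hinv : ∀ i ≤ m, ∀ γ : Γ, ∀ v ∈ S i, (hol γ).linear v ∈ S i) (hsm : SmallBlocks hol S m) :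
    ∃ A : Subgroup Γ, A.Normal ∧ A ≠ ⊥ ∧ ∀ a ∈ A, ∀ b ∈ A, a * b = b * a := by
  classical
  let S' : ℕ → Submodule ℝ (E × ℝ) := fun i => if i ≤ m then (S i).prod ⊥ else ⊤
  have hS' : ∀ i ≤ m, S' i = (S i).prod ⊥ := fun i hi => if_pos hi
  have hS'' : S' (m + 1) = ⊤ := if_neg (by omega)
  have hd : ∃ r > 0, ∀ γ : Γ, ‖(hat.comp hol) γ - 1‖ < r → γ = 1 := h.discrete hinj
  refine flag_zas (V := E × ℝ) (S := S') (n := m + 1) (hat.comp hol) hd ?_ hS'' ?_ ?_ ?_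
  · rw [hS' 0 (Nat.zero_le m), h0, Submodule.prod_bot]
  · intro i hi
    by_cases him : i < m
    · rw [hS' i him.le, hS' (i + 1) him]
      exact Submodule.prod_mono (hm i him) le_rfl
    · have : i = m := by omega
      subst this
      rw [hS'']
      exact le_top
  · intro i hi γ v hv
    by_cases him : i ≤ m
    · rw [hS' i him] at hv ⊢
      obtain ⟨h1, h2⟩ := hv
      replace h2 : v.2 = 0 := h2
      have e1 : (hat.comp hol) γ v = ((hol γ).linear v.1, 0) := by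
        change hat (hol γ) v = _
        rw [hat_apply, h2, zero_smul, add_zero]
      rw [e1]
      exact ⟨hinv i him γ _ h1, rfl⟩
    · have : i = m + 1 := by omega
      subst this
      rw [hS'']
      trivial
  · intro δ hδ
    obtain ⟨γ, hγ, s, hs, h1⟩ := hsm δ hδ
    refine ⟨γ, hγ, fun i => if i < m then s i else 1, fun i => ?_, fun i hi v hv => ?_⟩
    · simp only
      split_ifs
      · exact hs i
      · exact one_ne_zero
    · by_cases him : i < m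
      · rw [hS' (i + 1) him] at hv
        obtain ⟨h2, h3⟩ := hv
        replace h3 : v.2 = 0 := h3
        obtain ⟨w, hw, h4⟩ := h1 i him v.1 h2
        refine ⟨(w, 0), ?_, ?_⟩
        · rw [hS' i him.le]
          exact ⟨hw, rfl⟩
        · have e1 : (hat.comp hol) γ v = ((hol γ).linear v.1, 0) := by
            change hat (hol γ) v = _
            rw [hat_apply, h3, zero_smul, add_zero]
          rw [e1]
          simp only [if_pos him]
          have e2 : s i • (((hol γ).linear v.1, 0) : E × ℝ) - v - (w, 0) =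
              (s i • (hol γ).linear v.1 - v.1 - w, 0) := by
            ext
            · rfl
            · simp [h3]
          rw [e2, Prod.norm_mk, norm_zero, max_eq_left (norm_nonneg _)]
          exact h4.trans (mul_le_mul_of_nonneg_left (norm_fst_le v) hδ.le)
      · have : i = m := by omega
        subst this
        refine ⟨(hat.comp hol) γ v - v, ?_, ?_⟩
        · rw [hS' i le_rfl, hn]
          refine ⟨trivial, ?_⟩
          rw [SetLike.mem_coe, Submodule.mem_bot]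
          change v.2 - v.2 = 0
          exact sub_self _
        · simp only [if_neg him, one_smul]
          rw [sub_self, norm_zero]
          positivity

theorem finite_inv {G : Type} [Group G] {s : Set G} (h : s.Finite) : {g | g⁻¹ ∈ s}.Finite :=
  h.preimage inv_injective.injOn

/-- small elements give commutative normal subgroups; otherwise there are equivariant partitions of
unity of deficient rank -/
theorem AffAct.weights (h : AffAct Γ E hol Ω) (hinj : Function.Injective hol)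
    (S : ℕ → Submodule ℝ E) (r : ℕ) (h0 : S 0 = ⊥) (hr : S r = ⊤)
    (hm : ∀ i < r, S i < S (i + 1))
    (hinv : ∀ i ≤ r, ∀ γ : Γ, ∀ v ∈ S i, (hol γ).linear v ∈ S i)
    (Q : ℕ → Submodule ℝ (E → ℝ)) (hQ : ∀ i < r, NormSpace hol (S i) (S (i + 1)) (Q i))
    (hdim : ∑ i ∈ Finset.range r, Module.finrank ℝ (Q i) < Module.finrank ℝ E + r) :
    (∃ A : Subgroup Γ, A.Normal ∧ A ≠ ⊥ ∧ ∀ a ∈ A, ∀ b ∈ A, a * b = b * a) ∨
      ∃ l : Γ → E → ℝ, RankW Γ Γ E hol Ω l := by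
  classical
  by_cases hsm : SmallBlocks hol S r
  · left
    exact h.small_blocks hinj S r h0 hr (fun i hi => (hm i hi).le) hinv hsm
  right
  have hsm' : ∃ δ > 0, ∀ γ : Γ, (∃ s : ℕ → ℝ, (∀ i, s i ≠ 0) ∧
      ∀ i < r, ∀ v ∈ S (i + 1), ∃ w ∈ S i, ‖s i • linH hol γ v - v - w‖ ≤ δ * ‖v‖) →
        γ = 1 := by
    unfold SmallBlocks at hsm
    push Not at hsm
    obtain ⟨δ, hδ, h1⟩ := hsm
    refine ⟨δ, hδ, fun γ hγ => ?_⟩
    by_contra hne
    obtain ⟨s, hs, h2⟩ := hγ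
    obtain ⟨i, hi, v, hv, h3⟩ := h1 γ hne s hs
    obtain ⟨w, hw, h4⟩ := h2 i hi v hv
    exact absurd h4 (not_le.2 (h3 w hw))
  obtain ⟨K, hKc, hKD, hK⟩ := h.cc
  have hbl := fun i : Fin r => block_factor h hKc hKD (hm i i.2)
    (fun γ v hv => hinv i i.2.le γ v hv) (fun γ v hv => hinv (i + 1) i.2 γ v hv) (hQ i i.2)
  choose F g hg hF hF0 hker hbd using hbl
  have hgs : ∀ γ, ContDiffOn ℝ 1 (fun x => ∏ i, g i γ x) Ω := fun γ =>
    contDiffOn_prod fun i _ => (hg i).smooth γ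
  have hnn : ∀ γ, ∀ x ∈ Ω, 0 ≤ ∏ i, g i γ x := fun γ x hx =>
    Finset.prod_nonneg fun i _ => (hg i).nonneg γ x hx
  have hpos : ∀ x ∈ Ω, ∃ γ, 0 < ∏ i, g i γ x := by
    intro x hx
    obtain ⟨γ, hγ⟩ := hK x hx
    refine ⟨γ⁻¹, Finset.prod_pos fun i _ => ?_⟩
    have h1 := (hg i).equi γ⁻¹ 1 (hol γ x) (hKD hγ)
    rw [mul_one, hol_inv] at h1
    rw [h1]
    exact (hg i).pos _ hγ
  have hequi : ∀ γ δ : Γ, ∀ x ∈ Ω, ∏ i, g i (γ * δ) (hol γ x) = ∏ i, g i δ x := fun γ δ x hx =>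
    Finset.prod_congr rfl fun i _ => (hg i).equi γ δ x hx
  have hlf : ∀ K : Set E, IsCompact K → K ⊆ Ω → {γ | ∃ x ∈ K, ∏ i, g i γ x ≠ 0}.Finite := by
    intro K₁ hK₁ hK₁D
    choose c hc using fun i : Fin r => hbd i K₁ hK₁ hK₁D
    set C : ℝ := ∑ i, |c i| with hC
    have hCi : ∀ i, c i ≤ C := by
      intro i
      have h1 : |c i| ≤ ∑ i, |c i| :=
        Finset.single_le_sum (f := fun i => |c i|) (fun i _ => abs_nonneg _) (Finset.mem_univ i)
      exact (le_abs_self (c i)).trans h1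
    refine (bdd_finite (linH hol) h0 hr (fun i hi => (hm i hi).le) hinv hsm' C).subset ?_
    rintro γ ⟨x, hx, hγ⟩
    have h1 : ∀ i, ∃ s : ℝ, i < r → 0 < s ∧ ∀ v ∈ S (i + 1),
        (∃ w ∈ S i, ‖s • linH hol γ v - w‖ ≤ C * ‖v‖) ∧
          ∃ w ∈ S i, ‖s⁻¹ • linH hol γ⁻¹ v - w‖ ≤ C * ‖v‖ := by
      intro i
      by_cases hi : i < r
      · have h2 := (Finset.prod_ne_zero_iff.1 hγ) ⟨i, hi⟩ (Finset.mem_univ _)
        obtain ⟨s, hs, h3⟩ := (hc ⟨i, hi⟩ γ x hx h2).mono (hCi ⟨i, hi⟩)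
        exact ⟨s, fun _ => ⟨hs, h3⟩⟩
      · exact ⟨1, fun h2 => absurd h2 hi⟩
    choose s hs using h1
    exact ⟨s, fun i hi => (hs i hi).1, fun i hi => (hs i hi).2⟩
  obtain ⟨l, hl, hl'⟩ := normalise (hol := hol) h.isOpen (fun γ x => ∏ i, g i γ x) hgs hlf hnn
    hpos hequi
  refine ⟨l, ⟨hl, fun x hx => ?_⟩⟩
  have hN : ∑ i : Fin r, Module.finrank ℝ (Q i) < Module.finrank ℝ (⊤ : Submodule ℝ E) + r := by
    rw [finrank_top, Fin.sum_univ_eq_sum_range (fun i => Module.finrank ℝ (Q i)) r]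
    exact hdim
  obtain ⟨v, -, hv0, hv⟩ := exists_kernel ⊤ hN (fun i => fderiv ℝ (F i) x) (fun i => F i x)
    fun i => hF0 i x hx
  refine ⟨v, hv0, hl' x hx v fun γ => ?_⟩
  have hdiff : ∀ {f : E → ℝ}, ContDiffOn ℝ 1 f Ω → DifferentiableAt ℝ f x :=
    fun hf => (hf.differentiableOn one_ne_zero).differentiableAt (h.isOpen.mem_nhds hx)
  have h2 := path_deriv (hdiff (hgs γ)) v
  have h3 : ∀ i ∈ (Finset.univ : Finset (Fin r)),
      HasDerivAt (fun t : ℝ => g i γ (x + t • v)) 0 0 := by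
    intro i _
    have h4 := path_deriv (hdiff ((hg i).smooth γ)) v
    obtain ⟨c, hc⟩ := hv i
    rwa [hker i x hx v c hc γ] at h4
  have h5 := HasDerivAt.fun_finsetProd (u := Finset.univ) h3
  simp only [smul_zero, Finset.sum_const_zero] at h5
  exact h2.unique h5

end

end Run7.h262.TB
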