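import Pool.Agent.Run7.h262.TB.Qf
import Pool.Agent.Run7.h262.SV.Solv

/-!
Virtually solvable normal subgroups.
-/

set_option autoImplicit false

namespace Run7.h262.TB

open Run7.h262.SV

theorem solv_sup {N : Type} [Group N] (K K' : Subgroup N) (hK : K.Normal)
    (hs : Group.IsSolvable K) (hs' : Group.IsSolvable K') :
    Group.IsSolvable (K ⊔ K' : Subgroup N) := by
  have h1 : Group.IsSolvable (K'.map (QuotientGroup.mk' K)) :=
    solvable_of_surjective ((QuotientGroup.mk' K).subgroupMap_surjective K')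
  let g : (K ⊔ K' : Subgroup N) →* K'.map (QuotientGroup.mk' K) :=
    MonoidHom.codRestrict ((QuotientGroup.mk' K).comp (K ⊔ K').subtype) _ (by
      rintro ⟨x, hx⟩
      have h2 : QuotientGroup.mk' K x ∈ (K ⊔ K').map (QuotientGroup.mk' K) := ⟨x, hx, rfl⟩
      rw [Subgroup.map_sup] at h2
      have h3 : K.map (QuotientGroup.mk' K) = ⊥ := by
        rw [eq_bot_iff]
        rintro _ ⟨y, hy, rfl⟩
        rw [Subgroup.mem_bot, QuotientGroup.mk'_apply, QuotientGroup.eq_one_iff]
        exact hy
      rw [h3, bot_sup_eq] at h2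
      exact h2)
  refine solvable_of_ker_le_range (Subgroup.inclusion (le_sup_left : K ≤ K ⊔ K')) g ?_
  rintro ⟨x, hx⟩ h2
  rw [MonoidHom.mem_ker] at h2
  have h3 : QuotientGroup.mk' K x = 1 := congrArg Subtype.val h2
  rw [QuotientGroup.mk'_apply, QuotientGroup.eq_one_iff] at h3
  exact ⟨⟨x, h3⟩, rfl⟩

/-- the largest solvable normal subgroup of finite index -/
theorem exists_char {Γ : Type} [Group Γ] (N : Subgroup Γ) (hN : N.Normal) (S : Subgroup N)
    (hS : S.FiniteIndex) (hs : Group.IsSolvable S) :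
    ∃ K : Subgroup N, K.FiniteIndex ∧ Group.IsSolvable K ∧ (K.map N.subtype).Normal := by
  classical
  have hex : ∃ m : ℕ, ∃ K : Subgroup N, K.Normal ∧ Group.IsSolvable K ∧ K.index ≠ 0 ∧
      K.index = m := by
    refine ⟨_, S.normalCore, Subgroup.normalCore_normal S, ?_,
      (Subgroup.finiteIndex_normalCore S).index_ne_zero, rfl⟩
    exact solvable_of_solvable_injective (Subgroup.inclusion_injective (Subgroup.normalCore_le S))
  obtain ⟨K, hK, hKs, hK0, hKm⟩ := Nat.find_spec hex
  have hmin := fun j => @Nat.find_min _ _ hex j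
  rw [← hKm] at hmin
  refine ⟨K, ⟨hK0⟩, hKs, ⟨?_⟩⟩
  rintro _ ⟨k, hk, rfl⟩ γ
  let φ : N ≃* N := MulAut.conjNormal γ
  set K' : Subgroup N := K.map φ.toMonoidHom with hK'
  have hK'n : K'.Normal := hK.map _ φ.surjective
  have hK's : Group.IsSolvable K' := solvable_of_surjective (φ.toMonoidHom.subgroupMap_surjective K)
  have hsup : (K ⊔ K').Normal := Subgroup.sup_normal K K'
  have h1 := solv_sup K K' hK hKs hK's
  have h2 : K.relIndex (K ⊔ K') * (K ⊔ K').index = K.index :=
    Subgroup.relIndex_mul_index le_sup_left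
  have h3 : (K ⊔ K').index ≠ 0 := by
    intro h4
    rw [h4, mul_zero] at h2
    exact hK0 h2.symm
  have h4 : K.index ≤ (K ⊔ K').index := by
    by_contra hlt
    push Not at hlt
    exact hmin _ hlt ⟨K ⊔ K', hsup, h1, h3, rfl⟩
  have h5 : K.relIndex (K ⊔ K') = 1 := by
    have h6 : K.relIndex (K ⊔ K') ≠ 0 := by
      intro h7
      rw [h7, zero_mul] at h2
      exact hK0 h2.symm
    have h7 : K.relIndex (K ⊔ K') * (K ⊔ K').index ≤ 1 * (K ⊔ K').index := by
      rw [h2, one_mul]
      exact h4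
    have h8 := Nat.le_of_mul_le_mul_right h7 (Nat.pos_of_ne_zero h3)
    omega
  have h6 : K' ≤ K := le_sup_right.trans (Subgroup.relIndex_eq_one.1 h5)
  refine ⟨φ k, h6 ⟨k, hk, rfl⟩, ?_⟩
  exact MulAut.conjNormal_apply γ k

variable {Γ E : Type} [Group Γ] [NormedAddCommGroup E] [NormedSpace ℝ E] [FiniteDimensional ℝ E]
  {hol : Γ →* (E ≃ᵃ[ℝ] E)} {Ω : Set E}

/-- finite normal subgroups of the holonomy group are trivial -/
theorem VolAct.fin_normal (h : VolAct Γ E hol Ω) (hinj : Function.Injective hol)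
    (N : Subgroup Γ) (hN : N.Normal) (hf : Finite N) : N = ⊥ := by
  classical
  have := Fintype.ofFinite N
  obtain ⟨x, hx⟩ := h.nonempty
  set c : ℝ := (Fintype.card N : ℝ)⁻¹ with hc
  have hcard : (Fintype.card N : ℝ) ≠ 0 := Nat.cast_ne_zero.2 Fintype.card_ne_zero
  set y : E := ∑ n : N, c • hol n x with hy
  have hC : {p : E | ∀ a ∈ N, hol a p = p} = Set.univ := by
    refine h.cvx ⟨y, fun a ha => ?_⟩ ?_ ?_
    · have h4 : hol a 0 = ∑ n : N, c • hol a 0 := by
        rw [Finset.sum_const, Finset.card_univ, ← Nat.cast_smul_eq_nsmul ℝ, smul_smul, hc,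
          mul_inv_cancel₀ hcard, one_smul]
      have h5 : hol a y = ∑ n : N, c • hol (a * n) x := by
        rw [aff_apply, hy, map_sum]
        conv_lhs => rw [h4]
        rw [← Finset.sum_add_distrib]
        refine Finset.sum_congr rfl fun i _ => ?_
        rw [map_smul, ← smul_add, ← aff_apply, ← hol_mul]
      rw [h5, hy]
      exact Fintype.sum_equiv (Equiv.mulLeft (⟨a, ha⟩ : N)) _ _ fun n => rfl
    · intro p hp q hq s t hs ht hst a ha
      have h1 := hp a ha
      have h2 := hq a ha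
      rw [aff_apply] at h1 h2 ⊢
      rw [map_add, map_smul, map_smul]
      have h3 : (hol a) 0 = s • (hol a) 0 + t • (hol a) 0 := by
        rw [← add_smul, hst, one_smul]
      rw [h3]
      conv_rhs => rw [← h1, ← h2]
      simp only [smul_add]
      abel
    · intro γ q hq a ha
      have h1 := hq (γ⁻¹ * a * γ) (by
        have := hN.conj_mem a ha γ⁻¹
        rwa [inv_inv] at this)
      rw [hol_mul, hol_mul] at h1
      have h2 := congrArg (hol γ) h1
      rwa [hol_inv'] at h2
  rw [eq_bot_iff]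
  intro a ha
  rw [Subgroup.mem_bot]
  apply hinj
  rw [map_one]
  refine AffineEquiv.ext fun p => ?_
  have : p ∈ {p : E | ∀ a ∈ N, hol a p = p} := by rw [hC]; trivial
  exact this a ha

theorem VolAct.exists_abelian (h : VolAct Γ E hol Ω) (hinj : Function.Injective hol)
    (N : Subgroup Γ) (hN : N.Normal) (hne : N ≠ ⊥) (S : Subgroup N) (hS : S.FiniteIndex)
    (hs : Group.IsSolvable S) :
    ∃ A : Subgroup Γ, A.Normal ∧ A ≠ ⊥ ∧ ∀ a ∈ A, ∀ b ∈ A, a * b = b * a := by
  obtain ⟨K, hKf, hKs, hKn⟩ := exists_char N hN S hS hs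
  refine SV.exists_abelian (K.map N.subtype) hKn ?_ ?_
  · intro hbot
    have h1 : K = ⊥ := by
      rwa [Subgroup.map_eq_bot_iff_of_injective K N.subtype_injective] at hbot
    have h2 : Finite N := by
      rw [h1] at hKf
      have h3 := hKf.index_ne_zero
      rw [Subgroup.index_bot] at h3
      exact Nat.finite_of_card_ne_zero h3
    exact hne (h.fin_normal hinj N hN h2)
  · exact solvable_of_surjective (N.subtype.subgroupMap_surjective K)

end Run7.h262.TB
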