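import Pool.Agent.Run7.h262.TB.Three2

/-!
Completely reducible linear holonomy.
-/

set_option autoImplicit false

open Filter Topology

namespace Run7.h262.TB

open Run7.h262.SV

section expo
variable {V : Type} [NormedAddCommGroup V] [NormedSpace ℝ V] [FiniteDimensional ℝ V]

theorem exp_apply (X : V →L[ℝ] V) (w : V) : HasSum (fun k : ℕ => ((k.factorial : ℝ)⁻¹) • (X ^ k) w)
    ((NormedSpace.exp X) w) := by
  have : CompleteSpace V := FiniteDimensional.complete ℝ V
  have h1 := NormedSpace.exp_series_hasSum_exp' (𝕂 := ℝ) X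
  generalize NormedSpace.exp X = Y at h1 ⊢
  have h2 := (ContinuousLinearMap.apply ℝ V w).hasSum h1
  simp only [ContinuousLinearMap.apply_apply, _root_.smul_apply] at h2
  exact h2

theorem cpow (X : V →L[ℝ] V) (m : ℕ) (w : V) : (X ^ m) w = ((X : V →ₗ[ℝ] V) ^ m) w := by
  induction m generalizing w with
  | zero => rfl
  | succ m ih =>
    rw [pow_succ, pow_succ]
    exact ih (X w)

theorem mulapp (X Y : V →L[ℝ] V) (w : V) : (X * Y) w = X (Y w) := rfl

theorem exp_fix {X : V →L[ℝ] V} (m : ℕ) : ∀ w : V, (X ^ m) w = 0 →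
    (NormedSpace.exp X) w = w → X w = 0 := by
  haveI : CompleteSpace V := FiniteDimensional.complete ℝ V
  induction m with
  | zero =>
    intro w hw _
    have h1 : w = 0 := hw
    rw [h1, map_zero]
  | succ m ih =>
    intro w hw hfix
    have hcomm : (NormedSpace.exp X) (X w) = X ((NormedSpace.exp X) w) := by
      have h1 : Commute (NormedSpace.exp X) X := (Commute.refl X).exp_left
      have h2 := DFunLike.congr_fun h1.eq w
      rw [mulapp, mulapp] at h2
      exact h2
    have h2 : X (X w) = 0 := by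
      refine ih (X w) ?_ (by rw [hcomm, hfix])
      rw [pow_succ, mulapp] at hw
      exact hw
    have h3 : (NormedSpace.exp X) w = w + X w := by
      refine (exp_apply X w).unique ?_
      have h4 : HasSum (fun k : ℕ => ((k.factorial : ℝ)⁻¹) • (X ^ k) w)
          (∑ k ∈ Finset.range 2, ((k.factorial : ℝ)⁻¹) • (X ^ k) w) := by
        refine hasSum_sum_of_ne_finset_zero fun k hk => ?_
        rw [Finset.mem_range, not_lt] at hk
        obtain ⟨j, rfl⟩ := Nat.exists_eq_add_of_le hk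
        rw [add_comm, pow_add, pow_two]
        change _ • (X ^ j) (X (X w)) = 0
        rw [h2, map_zero, smul_zero]
      have h5 : ∑ k ∈ Finset.range 2, ((k.factorial : ℝ)⁻¹) • (X ^ k) w = w + X w := by
        simp [Finset.sum_range_succ]
      rwa [h5] at h4
    rw [hfix] at h3
    exact (left_eq_add.1 h3)

theorem exp_functional {X : V →L[ℝ] V} {P : Submodule ℝ V} (hP : ∀ w ∈ P, X w ∈ P)
    (f : V →ₗ[ℝ] ℝ) (hf : ∀ w ∈ P, f (X w) = 0) {w : V} (hw : w ∈ P) :
    f ((NormedSpace.exp X) w) = f w := by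
  let fc : V →L[ℝ] ℝ := LinearMap.toContinuousLinearMap f
  have h1 := fc.hasSum (exp_apply X w)
  have hpow : ∀ k : ℕ, (X ^ k) w ∈ P := by
    intro k
    induction k with
    | zero => exact hw
    | succ k ih =>
      rw [pow_succ']
      exact hP _ ih
  have h2 : HasSum (fun k : ℕ => fc (((k.factorial : ℝ)⁻¹) • (X ^ k) w))
      (∑ k ∈ Finset.range 1, fc (((k.factorial : ℝ)⁻¹) • (X ^ k) w)) := by
    refine hasSum_sum_of_ne_finset_zero fun k hk => ?_
    rw [Finset.mem_range, not_lt] at hk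
    obtain ⟨j, rfl⟩ := Nat.exists_eq_add_of_le hk
    rw [map_smul, add_comm, pow_succ']
    change _ • f (X ((X ^ j) w)) = 0
    rw [hf _ (hpow j), smul_zero]
  have h3 := h1.unique h2
  rw [Finset.sum_range_one] at h3
  simpa [fc] using h3

end expo

variable {Γ E : Type} [Group Γ] [NormedAddCommGroup E] [NormedSpace ℝ E] [FiniteDimensional ℝ E]
  {hol : Γ →* (E ≃ᵃ[ℝ] E)} {Ω : Set E}

/-- completely reducible linear holonomy -/
def CR (hol : Γ →* (E ≃ᵃ[ℝ] E)) : Prop :=
  ∀ W : Submodule ℝ E, (∀ γ : Γ, ∀ v ∈ W, (hol γ).linear v ∈ W) →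
    ∃ W' : Submodule ℝ E, (∀ γ : Γ, ∀ v ∈ W', (hol γ).linear v ∈ W') ∧ IsCompl W W'

/-- commutative normal subgroups consist of translations, up to squares -/
theorem VolAct.cr_lin {A : Subgroup Γ} (hA : ∀ a ∈ A, ∀ b ∈ A, a * b = b * a)
    (h : VolAct Γ E hol Ω) (hN : A.Normal) (hcr : CR hol) :
    ∀ X ∈ HH hol A hA, ∀ v, Lp X v = 0 := by
  classical
  have hcm := LF_comm (hol := hol) hA
  have hnil := LF_nil hA h hN
  set F := LF (hol := hol) hA with hF
  set I := act F ⊤ with hI
  have hIF : Inv F I := act_inv fun _ _ _ _ => trivial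
  have hIinv : ∀ γ : Γ, ∀ v ∈ I, (hol γ).linear v ∈ I := fun γ =>
    act_norm ((hol γ).linear : E →ₗ[ℝ] E) (LF_conj hA hN γ) fun _ _ => trivial
  obtain ⟨I', hI', hcompl⟩ := hcr I hIinv
  have hXI : ∀ X ∈ HH hol A hA, ∀ v, Lp X v ∈ I := fun X hX v =>
    Submodule.subset_span ⟨_, ⟨X, hX, rfl⟩, v, trivial, rfl⟩
  -- elements of the lattice vanish on the complement
  have h1 : ∀ X ∈ LL hol A hA, ∀ v ∈ I', Lp X v = 0 := by
    intro X hX v hv
    have hX' : X ∈ HH hol A hA := Submodule.subset_span hX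
    obtain ⟨a, ha, hexp⟩ := hX.2.2
    have h2 : (NormedSpace.exp X) (v, 0) = ((hol a).linear v, 0) := by
      rw [hexp, hat_apply, zero_smul, add_zero]
    have h3 : (hol a).linear v - v ∈ I := by
      by_contra hno
      obtain ⟨f, hf, hfI⟩ := Submodule.exists_le_ker_of_notMem hno
      apply hf
      let P : Submodule ℝ (E × ℝ) := LinearMap.ker (LinearMap.snd ℝ E ℝ)
      have h4 := exp_functional (X := X) (P := P) (fun w _ => HH_snd hol A hA hX' w)
        (f ∘ₗ LinearMap.fst ℝ E ℝ) (fun w hw => by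
          have hw2 : w.2 = 0 := hw
          have e1 : X w = (Lp X w.1 + w.2 • tp X, 0) := form_apply (HH_snd hol A hA hX') w.1 w.2
          change f (X w).1 = 0
          rw [e1, hw2, zero_smul, add_zero]
          exact LinearMap.mem_ker.1 (hfI (hXI X hX' _))) (w := (v, 0)) rfl
      rw [h2] at h4
      change f ((hol a).linear v) = f v at h4
      rw [map_sub, h4, sub_self]
    have h4 : (hol a).linear v - v ∈ I' := I'.sub_mem (hI' a v hv) hv
    have h5 : (hol a).linear v - v = 0 := by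
      have h6 : (hol a).linear v - v ∈ I ⊓ I' := ⟨h3, h4⟩
      rw [hcompl.inf_eq_bot] at h6
      exact h6
    obtain ⟨m, hm⟩ := hnil _ ⟨X, hX', rfl⟩
    have h6 := exp_fix (X := X) m (v, 0) (by
      have h7 := pow_form (HH_snd hol A hA hX') m v
      rw [hm v] at h7
      rw [cpow]
      exact h7) (by rw [h2, sub_eq_zero.1 h5])
    rw [Lp_apply, h6]
    rfl
  have h2 : ∀ X ∈ HH hol A hA, ∀ v ∈ I', Lp X v = 0 := by
    intro X hX v hv
    have h3 : HH hol A hA ≤ LinearMap.ker ((LinearMap.applyₗ v : (E →ₗ[ℝ] E) →ₗ[ℝ] E) ∘ₗ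
        (Lp : AA E →ₗ[ℝ] (E →ₗ[ℝ] E))) := by
      refine Submodule.span_le.2 fun Y hY => ?_
      exact h1 Y hY v hv
    exact h3 hX
  have h3 : act F I = I := by
    refine le_antisymm (act_le hIF) ?_
    conv_lhs => rw [hI, act]
    refine Submodule.span_le.2 ?_
    rintro _ ⟨Y, ⟨X, hX, rfl⟩, w, -, rfl⟩
    have h4 : w ∈ I ⊔ I' := by rw [hcompl.sup_eq_top]; trivial
    obtain ⟨i, hi, j, hj, rfl⟩ := Submodule.mem_sup.1 h4
    rw [map_add, h2 X hX j hj, add_zero]
    exact Submodule.subset_span ⟨_, ⟨X, hX, rfl⟩, i, hi, rfl⟩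
  have h4 : I = ⊥ := by
    by_contra hne
    exact nakayama F hcm hnil I hIF hne h3
  intro X hX v
  have h5 := hXI X hX v
  rw [h4] at h5
  exact h5

end Run7.h262.TB
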