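import Mathlib

/-!
Automorphisms of lattices have determinant one up to sign.
-/

set_option autoImplicit false

open Filter Topology

namespace Run7.h262.TB

section
variable {V : Type} [NormedAddCommGroup V] [NormedSpace ℝ V] [FiniteDimensional ℝ V]

theorem exists_lattice_basis (L : AddSubgroup V) (hs : ∃ ε > 0, ∀ l ∈ L, ‖l‖ < ε → l = 0)
    (hL : Submodule.span ℝ (L : Set V) = ⊤) :
    ∃ (ι : Type) (_ : Fintype ι) (B : Module.Basis ι ℝ V), (∀ i, B i ∈ L) ∧
      ∀ x ∈ L, ∀ i, ∃ n : ℤ, B.repr x i = n := by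
  obtain ⟨ε, hε, hs⟩ := hs
  let L' : Submodule ℤ V := AddSubgroup.toIntSubmodule L
  have hd : DiscreteTopology L' := by
    refine discreteTopology_iff_isOpen_singleton_zero.2 ?_
    rw [Metric.isOpen_singleton_iff]
    refine ⟨ε, hε, fun y hy => Subtype.ext ?_⟩
    refine hs _ y.2 ?_
    rw [dist_zero_right] at hy
    exact hy
  have hz : IsZLattice ℝ L' := ⟨hL⟩
  have h1 : Module.Finite ℤ L' := ZLattice.module_finite ℝ L'
  have h2 : Module.Free ℤ L' := ZLattice.module_free ℝ L'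
  let b := Module.Free.chooseBasis ℤ L'
  refine ⟨Module.Free.ChooseBasisIndex ℤ L', inferInstance, b.ofZLatticeBasis ℝ L', fun i => ?_,
    fun x hx i => ?_⟩
  · rw [Module.Basis.ofZLatticeBasis_apply]
    exact (b i).2
  · refine ⟨b.repr ⟨x, hx⟩ i, ?_⟩
    exact Module.Basis.ofZLatticeBasis_repr_apply ℝ L' b ⟨x, hx⟩ i

theorem det_lattice (L : AddSubgroup V) (hs : ∃ ε > 0, ∀ l ∈ L, ‖l‖ < ε → l = 0)
    (hL : Submodule.span ℝ (L : Set V) = ⊤) (f g : V →ₗ[ℝ] V) (hf : ∀ l ∈ L, f l ∈ L)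
    (hg : ∀ l ∈ L, g l ∈ L) (hfg : f ∘ₗ g = LinearMap.id) : |LinearMap.det f| = 1 := by
  classical
  obtain ⟨ι, _, B, hB, hr⟩ := exists_lattice_basis L hs hL
  have key : ∀ f : V →ₗ[ℝ] V, (∀ l ∈ L, f l ∈ L) → ∃ n : ℤ, LinearMap.det f = n := by
    intro f hf
    choose N hN using fun (i j : ι) => hr (f (B j)) (hf _ (hB j)) i
    refine ⟨Matrix.det (Matrix.of N), ?_⟩
    rw [← LinearMap.det_toMatrix B]
    have e1 : LinearMap.toMatrix B B f = (Matrix.of N).map (Int.cast : ℤ → ℝ) := by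
      ext i j
      rw [LinearMap.toMatrix_apply, Matrix.map_apply, Matrix.of_apply, hN]
    rw [e1]
    exact (Int.cast_det (R := ℝ) (Matrix.of N)).symm
  obtain ⟨a, ha⟩ := key f hf
  obtain ⟨b, hb⟩ := key g hg
  have h1 : LinearMap.det f * LinearMap.det g = 1 := by
    rw [← LinearMap.det_comp, hfg, LinearMap.det_id]
  rw [ha, hb] at h1
  have h2 : a * b = 1 := by exact_mod_cast h1
  rw [ha]
  rcases Int.eq_one_or_neg_one_of_mul_eq_one h2 with h3 | h3
  · rw [h3]
    simp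
  · rw [h3]
    simp

end

end Run7.h262.TB
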