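import Pool.Agent.Run7.h262.TB.Fin3
import Pool.Agent.Run7.h262.SV.Cones

/-!
Proper actions on low dimensional cones force commutative normal subgroups.
-/

set_option autoImplicit false

open Filter Topology

namespace Run7.h262.TB

open Run7.h262.SV

variable {Γ E : Type} [Group Γ] [NormedAddCommGroup E] [NormedSpace ℝ E] [FiniteDimensional ℝ E]
  {hol : Γ →* (E ≃ᵃ[ℝ] E)} {Ω : Set E}

theorem rep_factor' (h : AffAct Γ E hol Ω) {K : Set E} (hK : IsCompact K) (hKΩ : K ⊆ Ω)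
    {U : Type} [NormedAddCommGroup U] [NormedSpace ℝ U] [FiniteDimensional ℝ U]
    (σ : Γ → U →L[ℝ] U) (hσ : ∀ γ δ u, σ (γ * δ) u = σ γ (σ δ u)) (hσ1 : ∀ u, σ 1 u = u)
    {C : Set U} (hCo : IsOpen C) (hCc : Convex ℝ C) (hCn : C.Nonempty) (hC0 : (0 : U) ∉ C)
    (hCs : ∀ t : ℝ, 0 < t → ∀ u ∈ C, t • u ∈ C) (hCσ : ∀ γ, ∀ u ∈ C, σ γ u ∈ C) :
    ∃ (F : E → U) (g : Γ → E → ℝ),
      Factor hol Ω K g ∧ ContDiffOn ℝ 1 F Ω ∧ (∀ x ∈ Ω, F x ≠ 0) ∧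
      (∀ x ∈ Ω, ∀ v, ∀ c : ℝ, fderiv ℝ F x v = c • F x → ∀ γ, fderiv ℝ (g γ) x v = 0) ∧
      ∀ K₁ : Set E, IsCompact K₁ → K₁ ⊆ Ω → ∃ A : Set U, IsCompact A ∧ A ⊆ C ∧
        ∀ γ, ∀ x ∈ K₁, g γ x ≠ 0 → ∃ u ∈ A, ∃ t : ℝ, 0 < t ∧ t • σ γ⁻¹ u ∈ A := by
  classical
  have hσi : ∀ γ u, σ γ⁻¹ (σ γ u) = u := by
    intro γ u
    rw [← hσ, inv_mul_cancel, hσ1]
  have hC0' : ∀ u ∈ C, u ≠ 0 := by
    rintro u hu rfl
    exact hC0 hu
  obtain ⟨u₀, hu₀⟩ := hCn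
  obtain ⟨F, hF1, hF2, hF3⟩ := TB.exists_lin_map h σ hσ hCc u₀ (fun γ => hCσ γ _ hu₀)
  let T := toEuclidean (E := U)
  have hT0 : ∀ u ∈ C, T u ≠ 0 := by
    intro u hu h0
    exact hC0' u hu (T.injective (h0.trans (map_zero T).symm))
  let ν : U → U := fun u => T.symm (nrm (T u))
  have hν : ∀ u, ν u = ‖T u‖⁻¹ • u := by
    intro u
    simp only [ν, nrm]
    rw [map_smul, ContinuousLinearEquiv.symm_apply_apply]
  have hνC : ∀ u ∈ C, ν u ∈ C := by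
    intro u hu
    rw [hν]
    exact hCs _ (inv_pos.2 (norm_pos_iff.2 (hT0 u hu))) u hu
  have hνs : ContDiffOn ℝ 1 ν C := by
    refine T.symm.contDiff.comp_contDiffOn ?_
    refine (nrm_smooth (U := EuclideanSpace ℝ (Fin (Module.finrank ℝ U)))).comp
      T.contDiff.contDiffOn fun u hu => ?_
    exact hT0 u hu
  -- the bump function
  have hK1 : IsCompact ((fun x => ν (F x)) '' K) :=
    hK.image_of_continuousOn (hνs.continuousOn.comp (hF1.continuousOn.mono hKΩ) fun x hx =>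
      hF2 x (hKΩ hx))
  have hK2 : (fun x => ν (F x)) '' K ⊆ C := by
    rintro _ ⟨x, hx, rfl⟩
    exact hνC _ (hF2 x (hKΩ hx))
  obtain ⟨χ, K', hχ1, hK', hK'C, hχ2, hχ0, hχp⟩ := exists_bump hCo hK1 hK2
  have hgs : ∀ γ, ContDiffOn ℝ 1 (fun x => χ (ν (σ γ⁻¹ (F x)))) Ω := by
    intro γ
    refine hχ1.comp_contDiffOn ?_
    exact hνs.comp ((σ γ⁻¹).contDiff.comp_contDiffOn hF1) fun x hx => hCσ _ _ (hF2 x hx)
  refine ⟨F, fun γ x => χ (ν (σ γ⁻¹ (F x))), ⟨hgs, ?_, ?_, ?_⟩, hF1, fun x hx =>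
    hC0' _ (hF2 x hx), ?_, ?_⟩
  · intro γ x hx
    exact hχ0 _
  · intro γ δ x hx
    rw [mul_inv_rev, hσ, hF3 γ x hx, hσi]
  · intro x hx
    rw [inv_one, hσ1]
    exact hχp _ ⟨x, hx, rfl⟩
  · intro x hx v c hv γ
    have hFd : DifferentiableAt ℝ F x :=
      (hF1.differentiableOn one_ne_zero).differentiableAt (h.isOpen.mem_nhds hx)
    have h1 := path_deriv hFd v
    have h2 : HasDerivAt (fun t : ℝ => σ γ⁻¹ (F (x + t • v))) (σ γ⁻¹ (fderiv ℝ F x v)) 0 :=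
      (σ γ⁻¹).hasFDerivAt.comp_hasDerivAt (0 : ℝ) h1
    have h2' : HasDerivAt (fun t : ℝ => T (σ γ⁻¹ (F (x + t • v))))
        (T (σ γ⁻¹ (fderiv ℝ F x v))) 0 :=
      T.toContinuousLinearMap.hasFDerivAt.comp_hasDerivAt (0 : ℝ) h2
    rw [hv, map_smul, map_smul] at h2'
    have e0 : σ γ⁻¹ (F (x + (0 : ℝ) • v)) = σ γ⁻¹ (F x) := by rw [zero_smul, add_zero]
    have h3 := nrm_deriv (y := fun t : ℝ => T (σ γ⁻¹ (F (x + t • v)))) (c := c)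
      (by
        rw [e0]
        exact hT0 _ (hCσ _ _ (hF2 x hx)))
      (by
        rw [e0]
        exact h2')
    have h3' : HasDerivAt (fun t : ℝ => ν (σ γ⁻¹ (F (x + t • v)))) 0 0 := by
      have h5 := T.symm.toContinuousLinearMap.hasFDerivAt.comp_hasDerivAt (0 : ℝ) h3
      rw [map_zero] at h5
      exact h5
    have h4 : HasDerivAt (fun t : ℝ => χ (ν (σ γ⁻¹ (F (x + t • v))))) 0 0 := by
      have h5 : DifferentiableAt ℝ χ (ν (σ γ⁻¹ (F (x + (0 : ℝ) • v)))) :=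
        hχ1.differentiable one_ne_zero _
      have h6 := h5.hasFDerivAt.comp_hasDerivAt (0 : ℝ) h3'
      rw [map_zero] at h6
      exact h6
    have hgd : DifferentiableAt ℝ (fun x => χ (ν (σ γ⁻¹ (F x)))) x :=
      ((hgs γ).differentiableOn one_ne_zero).differentiableAt (h.isOpen.mem_nhds hx)
    exact (path_deriv hgd v).unique h4
  · intro K₁ hK₁ hK₁Ω
    refine ⟨(F '' K₁) ∪ K', (hK₁.image_of_continuousOn (hF1.continuousOn.mono hK₁Ω)).union hK',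
      ?_, fun γ x hx hg => ?_⟩
    · refine Set.union_subset ?_ hK'C
      rintro _ ⟨x, hx, rfl⟩
      exact hF2 x (hK₁Ω hx)
    · refine ⟨F x, Or.inl ⟨x, hx, rfl⟩, ‖T (σ γ⁻¹ (F x))‖⁻¹, inv_pos.2 (norm_pos_iff.2
        (hT0 _ (hCσ _ _ (hF2 x (hK₁Ω hx))))), Or.inr ?_⟩
      have h1 := hχ2 _ hg
      rwa [hν] at h1


/-- proper actions on low dimensional products of cones -/
theorem AffAct.cones (h : AffAct Γ E hol Ω) (hinj : Function.Injective hol)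
    (hu : ∀ γ : Γ, |LinearMap.det ((hol γ).linear : E →ₗ[ℝ] E)| = 1)
    (S : ℕ → Submodule ℝ E) (r : ℕ) (h0 : S 0 = ⊥) (hr : S r = ⊤)
    (hm : ∀ i < r, S i ≤ S (i + 1))
    (hinv : ∀ i ≤ r, ∀ γ : Γ, ∀ v ∈ S i, (hol γ).linear v ∈ S i)
    {p : ℕ} {U : Fin p → Type} [∀ j, NormedAddCommGroup (U j)]
    [∀ j, NormedSpace ℝ (U j)] [∀ j, FiniteDimensional ℝ (U j)]
    (σ : ∀ j, Γ →* (U j ≃ₗ[ℝ] U j)) (C : ∀ j, Set (U j)) (hC : ∀ j, ICone (σ j) (C j))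
    (hP : ∀ A : ∀ j, Set (U j), (∀ j, IsCompact (A j)) → (∀ j, A j ⊆ C j) → ∃ c : ℝ, ∀ γ : Γ,
      (∀ j, ∃ u ∈ A j, ∃ t : ℝ, 0 < t ∧ t • σ j γ u ∈ A j) →
        ∀ i < r, BddBlock hol (S i) (S (i + 1)) c γ)
    (hdim : ∑ j, Module.finrank ℝ (U j) < Module.finrank ℝ E + p) :
    ∃ A : Subgroup Γ, A.Normal ∧ A ≠ ⊥ ∧ ∀ a ∈ A, ∀ b ∈ A, a * b = b * a := by
  classical
  by_cases hsm : SmallBlocks hol S r
  · exact h.small_blocks hinj S r h0 hr hm hinv hsm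
  exfalso
  have hsm' : ∃ δ > 0, ∀ γ : Γ, (∃ s : ℕ → ℝ, (∀ i, s i ≠ 0) ∧
      ∀ i < r, ∀ v ∈ S (i + 1), ∃ w ∈ S i, ‖s i • linH hol γ v - v - w‖ ≤ δ * ‖v‖) →
        γ = 1 := by
    unfold SmallBlocks at hsm
    push Not at hsm
    obtain ⟨δ, hδ, h1⟩ := hsm
    refine ⟨δ, hδ, fun γ hγ => ?_⟩
    by_contra hne
    obtain ⟨s, hs, h2⟩ := hγ
    obtain ⟨i, hi, v, hv, h3⟩ := h1 γ hne s hs
    obtain ⟨w, hw, h4⟩ := h2 i hi v hv
    exact absurd h4 (not_le.2 (h3 w hw))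
  obtain ⟨K, hKc, hKD, hK⟩ := h.cc
  have hbl := fun j : Fin p => rep_factor' h hKc hKD
    (fun γ => LinearMap.toContinuousLinearMap ((σ j γ : U j ≃ₗ[ℝ] U j) : U j →ₗ[ℝ] U j))
    (fun γ δ u => by
      change σ j (γ * δ) u = σ j γ (σ j δ u)
      rw [map_mul]
      rfl)
    (fun u => by
      change σ j 1 u = u
      rw [map_one]
      rfl) (hC j).isOpen (hC j).convex (hC j).nonempty (hC j).zero (hC j).smul (hC j).inv
  choose F g hg hF hF0 hker hbd using hbl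
  have hgs : ∀ γ, ContDiffOn ℝ 1 (fun x => ∏ i, g i γ x) Ω := fun γ =>
    contDiffOn_prod fun i _ => (hg i).smooth γ
  have hnn : ∀ γ, ∀ x ∈ Ω, 0 ≤ ∏ i, g i γ x := fun γ x hx =>
    Finset.prod_nonneg fun i _ => (hg i).nonneg γ x hx
  have hpos : ∀ x ∈ Ω, ∃ γ, 0 < ∏ i, g i γ x := by
    intro x hx
    obtain ⟨γ, hγ⟩ := hK x hx
    refine ⟨γ⁻¹, Finset.prod_pos fun i _ => ?_⟩
    have h1 := (hg i).equi γ⁻¹ 1 (hol γ x) (hKD hγ)
    rw [mul_one, hol_inv] at h1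
    rw [h1]
    exact (hg i).pos _ hγ
  have hequi : ∀ γ δ : Γ, ∀ x ∈ Ω, ∏ i, g i (γ * δ) (hol γ x) = ∏ i, g i δ x := fun γ δ x hx =>
    Finset.prod_congr rfl fun i _ => (hg i).equi γ δ x hx
  have hlf : ∀ K : Set E, IsCompact K → K ⊆ Ω → {γ | ∃ x ∈ K, ∏ i, g i γ x ≠ 0}.Finite := by
    intro K₁ hK₁ hK₁D
    choose A hA1 hA2 hA3 using fun j : Fin p => hbd j K₁ hK₁ hK₁D
    obtain ⟨c, hc⟩ := hP A hA1 hA2
    refine (bdd_finite (linH hol) h0 hr hm hinv hsm' c).subset ?_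
    rintro γ ⟨x, hx, hγ⟩
    have hγ1 : ∀ i < r, BddBlock hol (S i) (S (i + 1)) c γ := by
      intro i hi
      refine BddBlock.inv (hc γ⁻¹ (fun j => ?_) i hi)
      exact hA3 j γ x hx ((Finset.prod_ne_zero_iff.1 hγ) j (Finset.mem_univ _))
    have h1 : ∀ i, ∃ s : ℝ, i < r → 0 < s ∧ ∀ v ∈ S (i + 1),
        (∃ w ∈ S i, ‖s • linH hol γ v - w‖ ≤ c * ‖v‖) ∧
          ∃ w ∈ S i, ‖s⁻¹ • linH hol γ⁻¹ v - w‖ ≤ c * ‖v‖ := by
      intro i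
      by_cases hi : i < r
      · obtain ⟨s, hs, h3⟩ := hγ1 i hi
        exact ⟨s, fun _ => ⟨hs, h3⟩⟩
      · exact ⟨1, fun h2 => absurd h2 hi⟩
    choose s hs using h1
    exact ⟨s, fun i hi => (hs i hi).1, fun i hi => (hs i hi).2⟩
  obtain ⟨l, hl, hl'⟩ := normalise (hol := hol) h.isOpen (fun γ x => ∏ i, g i γ x) hgs hlf hnn
    hpos hequi
  refine h.no_rank hu (l := l) ⟨hl, fun x hx => ?_⟩
  have hN : ∑ j, Module.finrank ℝ (U j) < Module.finrank ℝ (⊤ : Submodule ℝ E) + p := by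
    rw [finrank_top]
    exact hdim
  obtain ⟨v, -, hv0, hv⟩ := exists_kernel' ⊤ hN (fun i => fderiv ℝ (F i) x) (fun i => F i x)
    fun i => hF0 i x hx
  refine ⟨v, hv0, hl' x hx v fun γ => ?_⟩
  have hdiff : ∀ {f : E → ℝ}, ContDiffOn ℝ 1 f Ω → DifferentiableAt ℝ f x :=
    fun hf => (hf.differentiableOn one_ne_zero).differentiableAt (h.isOpen.mem_nhds hx)
  have h2 := path_deriv (hdiff (hgs γ)) v
  have h3 : ∀ i ∈ (Finset.univ : Finset (Fin p)),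
      HasDerivAt (fun t : ℝ => g i γ (x + t • v)) 0 0 := by
    intro i _
    have h4 := path_deriv (hdiff ((hg i).smooth γ)) v
    obtain ⟨c, hc⟩ := hv i
    rwa [hker i x hx v c hc γ] at h4
  have h5 := HasDerivAt.fun_finsetProd (u := Finset.univ) h3
  simp only [smul_zero, Finset.sum_const_zero] at h5
  exact h2.unique h5

end Run7.h262.TB
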