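import Pool.Agent.Run7.h262.SV.Torus

/-!
Domains divided by a group normalised vector flow: the orbits of the flow stay in the domain.
-/

set_option autoImplicit false

open Filter Topology MeasureTheory

namespace Run7.h262.TB

/-- a group `Γ` of homeomorphisms dividing the open set `Ω`, together with an action `φ` of a
vector group `V` normalised by `Γ`, a lattice `L` of which acts through elements of `Γ` -/
structure Dat (Γ V E : Type) [Group Γ] [NormedAddCommGroup V] [NormedSpace ℝ V]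
    [TopologicalSpace E] [MulAction Γ E] (φ : V → E → E) (L : AddSubgroup V)
    (α : Γ →* (V ≃L[ℝ] V)) (Ω : Set E) : Prop where
  cont : Continuous fun p : V × E => φ p.1 p.2
  zero : ∀ x, φ 0 x = x
  add : ∀ X Y x, φ (X + Y) x = φ X (φ Y x)
  closed : IsClosed (L : Set V)
  cocpt : ∃ Q : Set V, IsCompact Q ∧ ∀ x, ∃ q ∈ Q, x - q ∈ L
  lift : ∀ l ∈ L, ∃ n : Γ, α n = 1 ∧ ∀ x, n • x = φ l x
  pres : ∀ γ : Γ, ∀ l ∈ L, α γ l ∈ L
  conj : ∀ (γ : Γ) (X : V) (x : E), γ • φ X x = φ (α γ X) (γ • x)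
  op : IsOpen Ω
  ne : Ω.Nonempty
  inv : ∀ γ : Γ, ∀ x ∈ Ω, γ • x ∈ Ω
  pd : ∀ K : Set E, IsCompact K → K ⊆ Ω → {γ : Γ | ∃ x ∈ K, γ • x ∈ K}.Finite
  cc : ∃ K : Set E, IsCompact K ∧ K ⊆ Ω ∧ ∀ x ∈ Ω, ∃ γ : Γ, γ • x ∈ K

/-- the normalised measure of the torus, for subsets of the vector group -/
theorem exists_meas {V : Type} [NormedAddCommGroup V] [NormedSpace ℝ V] [FiniteDimensional ℝ V]
    (L : AddSubgroup V) (hc : IsClosed (L : Set V))
    (hL : ∃ Q : Set V, IsCompact Q ∧ ∀ x, ∃ q ∈ Q, x - q ∈ L) :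
    ∃ M : Set V → ENNReal, (∀ S T : Set V, S ⊆ T → M S ≤ M T) ∧ M Set.univ = 1 ∧
      (∀ S : Set V, IsOpen S → S.Nonempty → M S ≠ 0) ∧
      (∀ (v : V) (S : Set V), M ((fun x => x + v) ⁻¹' S) = M S) ∧
      (∀ (α : V ≃L[ℝ] V), (∀ x ∈ L, α x ∈ L) → (∀ x ∈ L, α.symm x ∈ L) →
        ∀ S : Set V, M (α ⁻¹' S) = M S) ∧
      (∀ (S : Set V) (c : ENNReal), IsOpen S → c < M S → ∃ C, IsCompact C ∧ C ⊆ S ∧ c < M C) ∧
      (∀ (A B S : Set V) (c : ENNReal), IsCompact A → A ⊆ S → B ⊆ S → c < M A → c < M B →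
        M S ≤ c + c → ∃ a ∈ A, ∃ b ∈ B, a - b ∈ L) := by
  classical
  obtain ⟨Q, hQ, hQL⟩ := hL
  have hT : CompactSpace (V ⧸ L) := by
    refine ⟨?_⟩
    have : (Set.univ : Set (V ⧸ L)) = (QuotientAddGroup.mk : V → V ⧸ L) '' Q := by
      symm
      rw [Set.eq_univ_iff_forall]
      intro θ
      obtain ⟨x, rfl⟩ := QuotientAddGroup.mk_surjective θ
      obtain ⟨q, hq, hxq⟩ := hQL x
      refine ⟨q, hq, ?_⟩
      rw [QuotientAddGroup.eq]
      have e : -q + x = x - q := by abel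
      rw [e]
      exact hxq
    rw [this]
    exact hQ.image QuotientAddGroup.continuous_mk
  have hc' : IsClosed ((L : AddSubgroup V) : Set V) := hc
  have hT2 : T3Space (V ⧸ L) := inferInstance
  let _ : MeasurableSpace (V ⧸ L) := borel _
  have : BorelSpace (V ⧸ L) := ⟨rfl⟩
  let K₀ : TopologicalSpace.PositiveCompacts (V ⧸ L) := ⊤
  let μ : Measure (V ⧸ L) := Measure.addHaarMeasure K₀
  have hμ1 : IsProbabilityMeasure μ := ⟨Measure.addHaarMeasure_self⟩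
  let π : V → V ⧸ L := QuotientAddGroup.mk
  have hπ : Continuous π := QuotientAddGroup.continuous_mk
  have hπo : IsOpenMap π := QuotientAddGroup.isOpenMap_coe
  have hπs : Function.Surjective π := QuotientAddGroup.mk_surjective
  have hinv : ∀ (α : V ≃L[ℝ] V), (∀ x ∈ L, α x ∈ L) → (∀ x ∈ L, α.symm x ∈ L) →
      ∀ S : Set V, μ (π '' (α ⁻¹' S)) = μ (π '' S) := by
    intro α hα hα' S
    let A : (V ⧸ L) →+ (V ⧸ L) := QuotientAddGroup.map L L (α : V →+ V) hα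
    have hA : ∀ x : V, A (x : V ⧸ L) = ((α x : V) : V ⧸ L) := fun x => rfl
    let B : (V ⧸ L) →+ (V ⧸ L) := QuotientAddGroup.map L L (α.symm : V →+ V) hα'
    have hB : ∀ x : V, B (x : V ⧸ L) = ((α.symm x : V) : V ⧸ L) := fun x => rfl
    have hAc : Continuous A := by
      rw [(QuotientAddGroup.isQuotientMap_mk L).continuous_iff]
      exact QuotientAddGroup.continuous_mk.comp α.continuous
    have hBc : Continuous B := by
      rw [(QuotientAddGroup.isQuotientMap_mk L).continuous_iff]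
      exact QuotientAddGroup.continuous_mk.comp α.symm.continuous
    have hAB : ∀ θ, A (B θ) = θ := by
      intro θ
      obtain ⟨x, rfl⟩ := QuotientAddGroup.mk_surjective θ
      rw [hB, hA, ContinuousLinearEquiv.apply_symm_apply]
    have hBA : ∀ θ, B (A θ) = θ := by
      intro θ
      obtain ⟨x, rfl⟩ := QuotientAddGroup.mk_surjective θ
      rw [hA, hB, ContinuousLinearEquiv.symm_apply_apply]
    let e : (V ⧸ L) ≃ₜ (V ⧸ L) := ⟨⟨A, B, hBA, hAB⟩, hAc, hBc⟩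
    have hAs : Function.Surjective A := e.surjective
    have h1 : (Measure.map A μ).IsAddHaarMeasure :=
      Measure.isAddHaarMeasure_map_of_isFiniteMeasure μ A hAc hAs
    have h2 : IsProbabilityMeasure (Measure.map A μ) :=
      Measure.isProbabilityMeasure_map hAc.measurable.aemeasurable
    have h3 : Measure.map A μ = μ := Measure.isAddHaarMeasure_eq_of_isProbabilityMeasure _ _
    have h4 : π '' (α ⁻¹' S) = A ⁻¹' (π '' S) := by
      ext θ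
      constructor
      · rintro ⟨x, hx, rfl⟩
        exact ⟨α x, hx, rfl⟩
      · rintro ⟨y, hy, hyθ⟩
        refine ⟨α.symm y, ?_, ?_⟩
        · rw [Set.mem_preimage, ContinuousLinearEquiv.apply_symm_apply]
          exact hy
        · change B (π y) = θ
          rw [hyθ, hBA]
    rw [h4]
    have h5 : Measure.map e.toMeasurableEquiv μ (π '' S) = μ (e.toMeasurableEquiv ⁻¹' (π '' S)) :=
      MeasurableEquiv.map_apply _ _
    have h6 : Measure.map e.toMeasurableEquiv μ = μ := h3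
    rw [h6] at h5
    exact h5.symm
  refine ⟨fun S => μ (π '' S), ?_, ?_, ?_, ?_, hinv, ?_, ?_⟩
  · intro S T hST
    exact measure_mono (Set.image_mono hST)
  · simp only
    rw [Set.image_univ_of_surjective hπs]
    exact measure_univ
  · intro S hS hne
    exact ((hπo S hS).measure_pos μ (hne.image π)).ne'
  · intro v S
    have h4 : π '' ((fun x => x + v) ⁻¹' S) = (fun θ => θ + π v) ⁻¹' (π '' S) := by
      ext θ
      constructor
      · rintro ⟨x, hx, rfl⟩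
        exact ⟨x + v, hx, rfl⟩
      · rintro ⟨y, hy, hyθ⟩
        refine ⟨y - v, ?_, ?_⟩
        · rw [Set.mem_preimage, sub_add_cancel]
          exact hy
        · have h5 : π (y - v) = π y - π v := rfl
          rw [h5, hyθ, add_sub_cancel_right]
    simp only
    rw [h4]
    exact measure_preimage_add_right μ (π v) (π '' S)
  · intro S c hS hcS
    obtain ⟨K, hKS, hK, hcK⟩ := (hπo S hS).exists_lt_isCompact hcS
    have h1 : ∀ x ∈ S, ∃ N : Set V, IsCompact N ∧ x ∈ interior N ∧ N ⊆ S := fun x hx =>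
      exists_compact_subset hS hx
    choose! N hN1 hN2 hN3 using h1
    have h2 : K ⊆ ⋃ x ∈ S, π '' (interior (N x)) := by
      intro θ hθ
      obtain ⟨x, hx, rfl⟩ := hKS hθ
      exact Set.mem_biUnion hx ⟨x, hN2 x hx, rfl⟩
    obtain ⟨t, htS, htf, ht⟩ := hK.elim_finite_subcover_image
      (fun x _ => hπo _ isOpen_interior) h2
    refine ⟨⋃ x ∈ t, N x, htf.isCompact_biUnion fun x hx => hN1 x (htS hx),
      Set.iUnion₂_subset fun x hx => hN3 x (htS hx), ?_⟩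
    refine lt_of_lt_of_le hcK (measure_mono ?_)
    intro θ hθ
    obtain ⟨x, hx, y, hy, rfl⟩ := Set.mem_iUnion₂.1 (ht hθ)
    exact ⟨y, Set.mem_biUnion hx (interior_subset hy), rfl⟩
  · intro A B S c hA hAS hBS hcA hcB hS
    by_contra hcon
    push Not at hcon
    have hdis : Disjoint (π '' B) (π '' A) := by
      rw [Set.disjoint_left]
      rintro _ ⟨b, hb, rfl⟩ ⟨a, ha, hab⟩
      refine hcon a ha b hb ?_
      have h1 : -a + b ∈ L := QuotientAddGroup.eq.1 hab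
      have h2 : a - b = -(-a + b) := by abel
      rw [h2]
      exact L.neg_mem h1
    have hAm : MeasurableSet (π '' A) := (hA.image hπ).isClosed.measurableSet
    have h1 : μ (π '' B ∪ π '' A) = μ (π '' B) + μ (π '' A) := measure_union hdis hAm
    have h2 : μ (π '' B ∪ π '' A) ≤ μ (π '' S) :=
      measure_mono (Set.union_subset (Set.image_mono hBS) (Set.image_mono hAS))
    rw [h1] at h2
    have h3 : c + c < μ (π '' B) + μ (π '' A) := ENNReal.add_lt_add hcB hcA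
    exact absurd (h2.trans hS) (not_le.2 h3)


section
variable {Γ V E : Type} [Group Γ] [NormedAddCommGroup V] [NormedSpace ℝ V] [FiniteDimensional ℝ V]
  [TopologicalSpace E] [T2Space E] [LocallyCompactSpace E] [MulAction Γ E] [ContinuousConstSMul Γ E]
  {φ : V → E → E} {L : AddSubgroup V} {α : Γ →* (V ≃L[ℝ] V)} {Ω : Set E}

theorem compact_lim {X Y : Type} [TopologicalSpace Y] (u : Ultrafilter X) (f : X → Y) {K : Set Y}
    (hK : IsCompact K) (h : ∀ᶠ x in u, f x ∈ K) : ∃ y ∈ K, Tendsto f u (𝓝 y) := by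
  have h1 := isCompact_iff_ultrafilter_le_nhds'.1 hK (u.map f) h
  obtain ⟨y, hy, h2⟩ := h1
  exact ⟨y, hy, h2⟩

theorem Dat.flow_iff (D : Dat Γ V E φ L α Ω) (γ : Γ) (x : E) : γ • x ∈ Ω ↔ x ∈ Ω := by
  refine ⟨fun h => ?_, D.inv γ x⟩
  have := D.inv γ⁻¹ _ h
  rwa [inv_smul_smul] at this

theorem al_mul (α : Γ →* (V ≃L[ℝ] V)) (γ δ : Γ) (X : V) : α γ (α δ X) = α (γ * δ) X := by
  rw [map_mul]
  rfl

theorem Dat.conj' (D : Dat Γ V E φ L α Ω) (γ : Γ) (X : V) (x : E) :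
    φ X (γ • x) = γ • φ (α γ⁻¹ X) x := by
  rw [D.conj, al_mul, mul_inv_cancel, map_one]
  rfl

theorem Dat.openO (D : Dat Γ V E φ L α Ω) (x : E) : IsOpen {X | φ X x ∈ Ω} := by
  have h1 : Continuous fun X : V => φ X x := D.cont.comp (Continuous.prodMk_left x)
  exact D.op.preimage h1

theorem Dat.key (D : Dat Γ V E φ L α Ω) (M : Set V → ENNReal)
    (hM : ∀ (S : Set V) (c : ENNReal), IsOpen S → c < M S → ∃ C, IsCompact C ∧ C ⊆ S ∧ c < M C)
    (z : E) (c : ENNReal) (hc : c < M {X | φ X z ∈ Ω}) :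
    ∃ C : Set V, ∃ K : Set E, IsCompact C ∧ IsCompact K ∧ K ⊆ Ω ∧ c < M C ∧
      ∀ᶠ z' in 𝓝 z, ∀ X ∈ C, φ X z' ∈ K := by
  obtain ⟨C, hC, hCO, hcC⟩ := hM _ c (D.openO z) hc
  have h1 : Continuous fun X : V => φ X z := D.cont.comp (Continuous.prodMk_left z)
  obtain ⟨K, hK, hCK, hKΩ⟩ := exists_compact_between (hC.image h1) D.op (by
    rintro _ ⟨X, hX, rfl⟩
    exact hCO hX)
  refine ⟨C, K, hC, hK, hKΩ, hcC, ?_⟩
  refine hC.eventually_forall_of_forall_eventually fun X hX => ?_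
  have h2 : Continuous fun p : E × V => φ p.2 p.1 := D.cont.comp continuous_swap
  have h3 : φ X z ∈ interior K := hCK ⟨X, hX, rfl⟩
  exact (h2.tendsto (z, X)).eventually (mem_interior_iff_mem_nhds.1 h3)

theorem Dat.full (D : Dat Γ V E φ L α Ω) (M : Set V → ENNReal)
    (hM1 : ∀ S T : Set V, S ⊆ T → M S ≤ M T) (hM2 : M Set.univ = 1)
    (hM3 : ∀ S : Set V, IsOpen S → S.Nonempty → M S ≠ 0)
    (hM4 : ∀ (v : V) (S : Set V), M ((fun x => x + v) ⁻¹' S) = M S)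
    (hM5 : ∀ (α : V ≃L[ℝ] V), (∀ x ∈ L, α x ∈ L) → (∀ x ∈ L, α.symm x ∈ L) →
        ∀ S : Set V, M (α ⁻¹' S) = M S)
    (hM6 : ∀ (S : Set V) (c : ENNReal), IsOpen S → c < M S → ∃ C, IsCompact C ∧ C ⊆ S ∧ c < M C)
    (hM7 : ∀ (A B S : Set V) (c : ENNReal), IsCompact A → A ⊆ S → B ⊆ S → c < M A → c < M B →
        M S ≤ c + c → ∃ a ∈ A, ∃ b ∈ B, a - b ∈ L)
    (x₀ : E) (hx₀ : x₀ ∈ Ω) (hmin : ∀ x ∈ Ω, M {X | φ X x₀ ∈ Ω} ≤ M {X | φ X x ∈ Ω}) :
    ∀ X, φ X x₀ ∈ Ω := by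
  classical
  by_contra hcon
  push Not at hcon
  obtain ⟨X₁, hX₁⟩ := hcon
  set O : E → Set V := fun x => {X | φ X x ∈ Ω} with hO
  have hαsymm : ∀ (γ : Γ) (l : V), l ∈ L → (α γ).symm l ∈ L := by
    intro γ l hl
    have := D.pres γ⁻¹ l hl
    rw [map_inv] at this
    exact this
  have hcF : ∀ X : V, Continuous fun x : E => φ X x := fun X =>
    D.cont.comp (Continuous.prodMk_right X)
  -- invariance
  have hMγ : ∀ (γ : Γ) (x : E), M (O (γ • x)) = M (O x) := by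
    intro γ x
    have h1 : O (γ • x) = (α γ⁻¹) ⁻¹' (O x) := by
      ext X
      change φ X (γ • x) ∈ Ω ↔ φ (α γ⁻¹ X) x ∈ Ω
      rw [D.conj', D.flow_iff]
    rw [h1]
    exact hM5 _ (D.pres γ⁻¹) (hαsymm γ⁻¹) _
  have hMφ : ∀ (Y : V) (x : E), M (O (φ Y x)) = M (O x) := by
    intro Y x
    have h1 : O (φ Y x) = (fun X => X + Y) ⁻¹' (O x) := by
      ext X
      change φ X (φ Y x) ∈ Ω ↔ φ (X + Y) x ∈ Ω
      rw [D.add]
    rw [h1]
    exact hM4 _ _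
  set m := M (O x₀) with hm
  have h0O : (0 : V) ∈ O x₀ := by
    change φ 0 x₀ ∈ Ω
    rw [D.zero]
    exact hx₀
  have hm0 : m ≠ 0 := hM3 _ (D.openO x₀) ⟨0, h0O⟩
  have hmt : m ≠ ⊤ := ne_top_of_le_ne_top ENNReal.one_ne_top (hM2 ▸ hM1 _ _ (Set.subset_univ _))
  -- a frontier point
  obtain ⟨ξ, hξ1, hξ2⟩ : ∃ ξ, ξ ∈ closure (O x₀) ∧ ξ ∉ O x₀ := by
    by_contra hcon
    push Not at hcon
    have h1 : IsClosed (O x₀) := isClosed_of_closure_subset hcon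
    have h2 : O x₀ = Set.univ := IsClopen.eq_univ ⟨h1, D.openO x₀⟩ ⟨0, h0O⟩
    have h3 : X₁ ∈ O x₀ := by
      rw [h2]
      trivial
    exact hX₁ h3
  obtain ⟨u, hu1, hu2⟩ := mem_closure_iff_ultrafilter.1 hξ1
  obtain ⟨K₀, hK₀, hK₀Ω, hcc⟩ := D.cc
  have h1 : ∀ Y : V, ∃ γ : Γ, Y ∈ O x₀ → γ • φ Y x₀ ∈ K₀ := by
    intro Y
    by_cases hY : Y ∈ O x₀
    · obtain ⟨γ, hγ⟩ := hcc _ hY
      exact ⟨γ, fun _ => hγ⟩
    · exact ⟨1, fun h => absurd h hY⟩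
  choose γ hγ using h1
  obtain ⟨z, hz, hzlim⟩ := compact_lim u (fun Y => γ Y • φ Y x₀) hK₀
    (Filter.mem_of_superset hu1 fun Y hY => hγ Y hY)
  have hzΩ : z ∈ Ω := hK₀Ω hz
  obtain ⟨C, K, hC, hK, hKΩ, hcC, hev⟩ := D.key M hM6 z (m / 2)
    (lt_of_lt_of_le (ENNReal.half_lt_self hm0 hmt) (hmin z hzΩ))
  have hev0 : ∀ᶠ Y in (u : Filter V), Y ∈ O x₀ := hu1
  have hev1 : ∀ᶠ Y in (u : Filter V), Y ∈ O x₀ ∧ ∀ X ∈ C, φ X (γ Y • φ Y x₀) ∈ K :=
    hev0.and (hzlim.eventually hev)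
  obtain ⟨Y₀, hY₀, hY₀K⟩ := hev1.exists
  -- the comparison elements
  have hcmp : ∀ Y : V, ∃ (c c' : V) (l : V) (n : Γ), (Y ∈ O x₀ ∧ ∀ X ∈ C, φ X (γ Y • φ Y x₀) ∈ K) →
      c ∈ C ∧ c' ∈ C ∧ l ∈ L ∧ α n = 1 ∧ (∀ x, n • x = φ l x) ∧
      l = c - α (γ Y * (γ Y₀)⁻¹) c' + α (γ Y) (Y - Y₀) ∧
      n * (γ Y * (γ Y₀)⁻¹) ∈ {γ : Γ | ∃ x ∈ K, γ • x ∈ K} := by
    intro Y
    by_cases hY : Y ∈ O x₀ ∧ ∀ X ∈ C, φ X (γ Y • φ Y x₀) ∈ K
    swap
    · exact ⟨0, 0, 0, 1, fun h => absurd h hY⟩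
    obtain ⟨hY1, hY2⟩ := hY
    set g := γ Y * (γ Y₀)⁻¹ with hg
    set η := α (γ Y) (Y - Y₀) with hη
    set zY := γ Y • φ Y x₀ with hzY
    set z₀ := γ Y₀ • φ Y₀ x₀ with hz₀
    have e1 : zY = φ η (g • z₀) := by
      have e2 : g • z₀ = γ Y • φ Y₀ x₀ := by
        rw [hg, hz₀, smul_smul, inv_mul_cancel_right]
      rw [e2, hη, ← D.conj, ← D.add, sub_add_cancel]
    have e3 : φ (-η) zY = g • z₀ := by
      rw [e1, ← D.add, neg_add_cancel, D.zero]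
    have hBS : (fun x => x + η) ⁻¹' ((α g⁻¹) ⁻¹' C) ⊆ O zY := by
      intro X hX
      have hX' : α g⁻¹ (X + η) ∈ C := hX
      change φ X zY ∈ Ω
      have e4 : X = (X + η) + -η := by abel
      rw [e4, D.add, e3, D.conj', D.flow_iff]
      exact hKΩ (hY₀K _ hX')
    have hBM : M ((fun x => x + η) ⁻¹' ((α g⁻¹) ⁻¹' C)) = M C := by
      rw [hM4, hM5 _ (D.pres g⁻¹) (hαsymm g⁻¹)]
    have hSM : M (O zY) ≤ m / 2 + m / 2 := by
      rw [ENNReal.add_halves, hzY, hMγ, hMφ]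
    obtain ⟨a, ha, b, hb, hab⟩ := hM7 C _ (O zY) (m / 2) hC (fun X hX => hKΩ (hY2 X hX)) hBS hcC
      (by rw [hBM]; exact hcC) hSM
    obtain ⟨n, hn1, hn2⟩ := D.lift _ hab
    have hb' : α g⁻¹ (b + η) ∈ C := hb
    have e5 : α g (α g⁻¹ (b + η)) = b + η := by
      rw [al_mul, mul_inv_cancel, map_one]
      rfl
    refine ⟨a, α g⁻¹ (b + η), a - b, n, fun _ => ⟨ha, hb', hab, hn1, hn2, ?_, ?_⟩⟩
    · rw [e5]
      abel
    · refine ⟨φ (α g⁻¹ (b + η)) z₀, hY₀K _ hb', ?_⟩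
      rw [mul_smul, D.conj, e5, ← e3, ← D.add, hn2, ← D.add]
      have e6 : a - b + (b + η + -η) = a := by abel
      rw [e6]
      exact hY2 a ha
  choose c c' l n hcmp using hcmp
  have hfin := D.pd K hK hKΩ
  obtain ⟨δ, hδ, hδe⟩ : ∃ δ ∈ {γ : Γ | ∃ x ∈ K, γ • x ∈ K},
      ∀ᶠ Y in (u : Filter V), n Y * (γ Y * (γ Y₀)⁻¹) = δ := by
    refine (Ultrafilter.eventually_exists_mem_iff hfin).1 ?_
    filter_upwards [hev1] with Y hY
    exact ⟨_, (hcmp Y hY).2.2.2.2.2.2, rfl⟩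
  obtain ⟨c₁, hc₁, hc₁l⟩ := compact_lim u c hC (hev1.mono fun Y hY => (hcmp Y hY).1)
  obtain ⟨c₂, hc₂, hc₂l⟩ := compact_lim u c' hC (hev1.mono fun Y hY => (hcmp Y hY).2.1)
  -- the formula for the lattice element
  have hform : ∀ᶠ Y in (u : Filter V),
      l Y = c Y - α δ (c' Y) + α (δ * γ Y₀) (Y - Y₀) := by
    filter_upwards [hev1, hδe] with Y hY hYδ
    obtain ⟨-, -, -, hn1, -, hl, -⟩ := hcmp Y hY
    rw [hl, ← hYδ]
    have e1 : α (n Y * (γ Y * (γ Y₀)⁻¹)) = α (γ Y * (γ Y₀)⁻¹) := by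
      rw [map_mul, hn1, one_mul]
    have e2 : α (n Y * (γ Y * (γ Y₀)⁻¹) * γ Y₀) = α (γ Y) := by
      rw [map_mul, e1, ← map_mul, inv_mul_cancel_right]
    rw [e1, e2]
  have hid : Tendsto (fun Y : V => Y) u (𝓝 ξ) := hu2
  set lim := c₁ - α δ c₂ + α (δ * γ Y₀) (ξ - Y₀) with hlim
  have hllim : Tendsto l u (𝓝 lim) := by
    have h2 : Tendsto (fun Y => c Y - α δ (c' Y) + α (δ * γ Y₀) (Y - Y₀)) u (𝓝 lim) := by
      refine (hc₁l.sub (((α δ).continuous.tendsto _).comp hc₂l)).add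
        (((α (δ * γ Y₀)).continuous.tendsto _).comp (hid.sub tendsto_const_nhds))
    refine h2.congr' ?_
    filter_upwards [hform] with Y hY
    exact hY.symm
  have hlimL : lim ∈ L := by
    refine D.closed.mem_of_tendsto hllim ?_
    filter_upwards [hev1] with Y hY
    exact (hcmp Y hY).2.2.1
  obtain ⟨n₁, -, hn₁⟩ := D.lift _ hlimL
  have ht1 : Tendsto (fun Y => φ (l Y) (γ Y • φ Y x₀)) u (𝓝 (φ lim z)) :=
    (D.cont.tendsto (lim, z)).comp (hllim.prodMk_nhds hzlim)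
  have ht2 : Tendsto (fun Y => (δ * γ Y₀) • φ Y x₀) u (𝓝 ((δ * γ Y₀) • φ ξ x₀)) := by
    have h3 : Continuous fun Y : V => (δ * γ Y₀) • φ Y x₀ :=
      (D.cont.comp (Continuous.prodMk_left x₀)).const_smul _
    exact (h3.tendsto ξ).comp hid
  have heq : φ lim z = (δ * γ Y₀) • φ ξ x₀ := by
    refine tendsto_nhds_unique_of_eventuallyEq ht1 ht2 ?_
    filter_upwards [hev1, hδe] with Y hY hYδ
    obtain ⟨-, -, -, -, hn2, -, -⟩ := hcmp Y hY
    rw [← hn2, ← hYδ, mul_assoc, inv_mul_cancel_right, mul_smul]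
  have hfinal : φ ξ x₀ ∈ Ω := by
    rw [← D.flow_iff (δ * γ Y₀), ← heq, ← hn₁, D.flow_iff]
    exact hzΩ
  exact hξ2 hfinal

/-- the orbits of the flow stay in the domain -/
theorem Dat.mem (D : Dat Γ V E φ L α Ω) (x : E) (hx : x ∈ Ω) (X : V) : φ X x ∈ Ω := by
  obtain ⟨M, hM1, hM2, hM3, hM4, hM5, hM6, hM7⟩ := exists_meas L D.closed D.cocpt
  have hfull := D.full M hM1 hM2 hM3 hM4 hM5 hM6 hM7
  obtain ⟨K₀, hK₀, hK₀Ω, hcc⟩ := D.cc
  have hαsymm : ∀ (γ : Γ) (l : V), l ∈ L → (α γ).symm l ∈ L := by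
    intro γ l hl
    have := D.pres γ⁻¹ l hl
    rw [map_inv] at this
    exact this
  have hMγ : ∀ (γ : Γ) (x : E), M {X | φ X (γ • x) ∈ Ω} = M {X | φ X x ∈ Ω} := by
    intro γ x
    have h1 : {X | φ X (γ • x) ∈ Ω} = (α γ⁻¹) ⁻¹' {X | φ X x ∈ Ω} := by
      ext X
      change φ X (γ • x) ∈ Ω ↔ φ (α γ⁻¹ X) x ∈ Ω
      rw [D.conj', D.flow_iff]
    rw [h1]
    exact hM5 _ (D.pres γ⁻¹) (hαsymm γ⁻¹) _
  have hlsc : LowerSemicontinuousOn (fun x => M {X | φ X x ∈ Ω}) K₀ := by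
    intro z _ c hc
    obtain ⟨C, K, hC, hK, hKΩ, hcC, hev⟩ := D.key M hM6 z c hc
    refine eventually_nhdsWithin_of_eventually_nhds ?_
    filter_upwards [hev] with z' hz'
    exact lt_of_lt_of_le hcC (hM1 _ _ fun X hX => hKΩ (hz' X hX))
  have hne : K₀.Nonempty := by
    obtain ⟨γ, hγ⟩ := hcc x hx
    exact ⟨_, hγ⟩
  obtain ⟨x₀, hx₀, hmin⟩ := hlsc.exists_isMinOn hne hK₀
  have hmin' : ∀ x ∈ Ω, M {X | φ X x₀ ∈ Ω} ≤ M {X | φ X x ∈ Ω} := by
    intro x hx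
    obtain ⟨γ, hγ⟩ := hcc x hx
    rw [← hMγ γ x]
    exact hmin hγ
  have h1 : {X | φ X x₀ ∈ Ω} = Set.univ := Set.eq_univ_iff_forall.2 (hfull x₀ (hK₀Ω hx₀) hmin')
  refine hfull x hx (fun y hy => ?_) X
  refine le_trans (hM1 _ _ (Set.subset_univ _)) ?_
  rw [← h1]
  exact hmin' y hy

end

end Run7.h262.TB
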