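import Pool.Agent.Run7.h262.TB.CrQuot

/-!
Completely reducible linear holonomy: the final statements.
-/

set_option autoImplicit false

open Filter Topology

namespace Run7.h262.TB

open Run7.h262.SV

variable {Γ E : Type} [Group Γ] [NormedAddCommGroup E] [NormedSpace ℝ E] [FiniteDimensional ℝ E]
  {hol : Γ →* (E ≃ᵃ[ℝ] E)} {Ω : Set E}

theorem CR.range (h : CR hol) : CR hol.range.subtype := by
  intro W hW
  obtain ⟨W', h1, h2⟩ := h W fun γ v hv => hW ⟨hol γ, γ, rfl⟩ v hv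
  refine ⟨W', ?_, h2⟩
  rintro ⟨_, γ, rfl⟩ v hv
  exact h1 γ v hv

theorem VolAct.cr (h : VolAct Γ E hol Ω) (hc : IsPreconnected Ω) (hcr : CR hol)
    {S : ℕ → Submodule ℝ E} {r i₀ : ℕ} (hS : GoodFlag hol S r i₀) : Ω = Set.univ :=
  cr_main _ _ E hol.range.subtype Ω rfl h.rangeV Subtype.val_injective hc hcr.range _ r i₀
    (hS.map LinearMap.id Function.surjective_id hol fun _ _ => rfl)

theorem Irr.cr (h : Irr hol ⊥ ⊤) : CR hol := by
  intro W hW
  rcases h W bot_le le_top hW with rfl | rfl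
  · exact ⟨⊤, fun _ _ _ => trivial, isCompl_bot_top⟩
  · refine ⟨⊥, fun γ v hv => ?_, isCompl_top_bot⟩
    rw [(Submodule.mem_bot ℝ).1 hv, map_zero]
    exact Submodule.zero_mem _

theorem VolAct.irr (h : VolAct Γ E hol Ω) (hinj : Function.Injective hol) (hc : IsPreconnected Ω)
    (hirr : Irr hol ⊥ ⊤)
    (hA : ∃ A : Subgroup Γ, A.Normal ∧ A ≠ ⊥ ∧ ∀ a ∈ A, ∀ b ∈ A, a * b = b * a) :
    Ω = Set.univ := by
  have h1 := h.cr_trans hinj hirr.cr hA
  refine h.codim_two hc ?_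
  rcases hirr _ bot_le le_top (Tr_inv (hol := hol)) with h2 | h2
  · exact absurd h2 h1
  · rw [h2, finrank_top]
    omega

theorem VolAct.irr_small (h : VolAct Γ E hol Ω) (hinj : Function.Injective hol)
    (hc : IsPreconnected Ω) (hirr : Irr hol ⊥ ⊤)
    (hs : ∀ δ > 0, ∃ γ : Γ, γ ≠ 1 ∧ ∃ s : ℝ, s ≠ 0 ∧ ∀ v,
      ‖s • (hol γ).linear v - v‖ ≤ δ * ‖v‖) : Ω = Set.univ := by
  refine h.irr hinj hc hirr ?_
  let S : ℕ → Submodule ℝ E := fun i =>
    match i with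
    | 0 => ⊥
    | _ + 1 => ⊤
  refine h.toAffAct.small_blocks hinj S 1 rfl rfl ?_ ?_ ?_
  · intro i hi
    interval_cases i
    exact bot_le
  · intro i hi γ v hv
    interval_cases i
    · have h1 : v = 0 := hv
      change _ ∈ (⊥ : Submodule ℝ E)
      rw [h1, map_zero]
      exact Submodule.zero_mem _
    · trivial
  · intro δ hδ
    obtain ⟨γ, hγ, s, hs0, h1⟩ := hs δ hδ
    refine ⟨γ, hγ, fun _ => s, fun _ => hs0, fun i hi v _ => ⟨0, Submodule.zero_mem _, ?_⟩⟩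
    rw [sub_zero]
    exact h1 v

end Run7.h262.TB
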