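import Pool.Agent.Run7.h262.TB.Gm

/-!
Completely reducible linear holonomy: induction on the dimension.
-/

set_option autoImplicit false

open Filter Topology

namespace Run7.h262.TB

open Run7.h262.SV

section
variable {Γ E : Type} [Group Γ] [NormedAddCommGroup E] [NormedSpace ℝ E] [FiniteDimensional ℝ E]
  {hol : Γ →* (E ≃ᵃ[ℝ] E)} {Ω : Set E}

theorem telescope (a : ℕ → ℕ) (r : ℕ) (h : ∀ i < r, a i ≤ a (i + 1)) :
    ∑ i ∈ Finset.range r, (a (i + 1) - a i) = a r - a 0 ∧ a 0 ≤ a r := by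
  induction r with
  | zero => simp
  | succ r ih =>
    obtain ⟨h1, h2⟩ := ih fun i hi => h i (by omega)
    have h3 := h r (by omega)
    rw [Finset.sum_range_succ, h1]
    omega

/-- composition series with small constituents -/
structure GoodFlag (hol : Γ →* (E ≃ᵃ[ℝ] E)) (S : ℕ → Submodule ℝ E) (r i₀ : ℕ) : Prop where
  bot : S 0 = ⊥
  top : S r = ⊤
  mono : ∀ i < r, S i ≤ S (i + 1)
  inv : ∀ i ≤ r, ∀ γ : Γ, ∀ v ∈ S i, (hol γ).linear v ∈ S i
  irr : ∀ i < r, Irr hol (S i) (S (i + 1))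
  type : ∀ i < r, S i = S (i + 1) ∨ SmallAct hol (S i) (S (i + 1)) ∨
    HalfOrbit hol (S i) (S (i + 1)) ∨
    (i = i₀ ∧ Module.finrank ℝ (S (i + 1)) ≤ Module.finrank ℝ (S i) + 2)

theorem GoodFlag.abelian (h : VolAct Γ E hol Ω) (hinj : Function.Injective hol)
    {S : ℕ → Submodule ℝ E} {r i₀ : ℕ} (hS : GoodFlag hol S r i₀)
    (hE : 2 < Module.finrank ℝ E) :
    ∃ A : Subgroup Γ, A.Normal ∧ A ≠ ⊥ ∧ ∀ a ∈ A, ∀ b ∈ A, a * b = b * a := by
  classical
  let d : ℕ → ℕ := fun i => Module.finrank ℝ (S (i + 1)) - Module.finrank ℝ (S i)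
  obtain ⟨ht, -⟩ := telescope (fun i => Module.finrank ℝ (S i)) r
    fun i hi => Submodule.finrank_mono (hS.mono i hi)
  have hd : ∑ i ∈ Finset.range r, d i = Module.finrank ℝ E := by
    change ∑ i ∈ Finset.range r,
      (Module.finrank ℝ (S (i + 1)) - Module.finrank ℝ (S i)) = _
    rw [ht, hS.top, hS.bot, finrank_top, finrank_bot, Nat.sub_zero]
  let P : ℕ → Prop := fun i => S i ≠ S (i + 1) ∧
    (SmallAct hol (S i) (S (i + 1)) ∨ HalfOrbit hol (S i) (S (i + 1)))
  have hdpos : ∀ i < r, S i ≠ S (i + 1) → 1 ≤ d i := by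
    intro i hi hne
    have h1 := Submodule.finrank_lt_finrank_of_lt (lt_of_le_of_ne (hS.mono i hi) hne)
    change 1 ≤ Module.finrank ℝ (S (i + 1)) - Module.finrank ℝ (S i)
    omega
  have hexc : ∀ i < r, ¬ P i → S i ≠ S (i + 1) → i = i₀ ∧ d i ≤ 2 := by
    intro i hi hP hne
    rcases hS.type i hi with h1 | h1 | h1 | ⟨h1, h2⟩
    · exact absurd h1 hne
    · exact absurd ⟨hne, Or.inl h1⟩ hP
    · exact absurd ⟨hne, Or.inr h1⟩ hP
    · refine ⟨h1, ?_⟩
      change Module.finrank ℝ (S (i + 1)) - Module.finrank ℝ (S i) ≤ 2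
      omega
  -- some block is not exceptional
  have hex : ∃ i < r, P i := by
    by_contra hno
    push Not at hno
    have h1 : ∀ i ∈ Finset.range r, i ≠ i₀ → d i = 0 := by
      intro i hi hne
      rw [Finset.mem_range] at hi
      by_cases h2 : S i = S (i + 1)
      · change Module.finrank ℝ (S (i + 1)) - Module.finrank ℝ (S i) = 0
        rw [h2, Nat.sub_self]
      · exact absurd (hexc i hi (hno i hi) h2).1 hne
    by_cases h3 : i₀ ∈ Finset.range r
    · rw [Finset.sum_eq_single_of_mem i₀ h3 h1] at hd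
      have h4 : d i₀ ≤ 2 := by
        by_cases h2 : S i₀ = S (i₀ + 1)
        · change Module.finrank ℝ (S (i₀ + 1)) - Module.finrank ℝ (S i₀) ≤ 2
          rw [h2, Nat.sub_self]
          omega
        · exact (hexc i₀ (Finset.mem_range.1 h3) (hno i₀ (Finset.mem_range.1 h3)) h2).2
      omega
    · rw [Finset.sum_eq_zero fun i hi => h1 i hi fun h4 => h3 (h4 ▸ hi)] at hd
      omega
  let m : ℕ → ℕ := fun i => if P i then d i - 1 else d i
  refine h.toAffAct.gm_blocks hinj h.unimod S r hS.bot hS.top hS.mono hS.inv m ?_ ?_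
  · intro K hK hKΩ i hi
    by_cases h1 : S i = S (i + 1)
    · have h2 : ¬ P i := fun h3 => h3.1 h1
      have h3 : m i = 0 := by
        change (if P i then d i - 1 else d i) = 0
        rw [if_neg h2]
        change Module.finrank ℝ (S (i + 1)) - Module.finrank ℝ (S i) = 0
        rw [h1, Nat.sub_self]
      rw [h3]
      exact gm_triv h1 (hS.inv (i + 1) hi)
    have hlt := lt_of_le_of_ne (hS.mono i hi) h1
    have hSa := hS.inv i hi.le
    have hSb := hS.inv (i + 1) hi
    by_cases h2 : P i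
    · have h3 : m i = d i - 1 := if_pos h2
      rw [h3]
      rcases h2.2 with h4 | h4
      · exact gm_small h.toAffAct hK hKΩ h4
      · refine Gd.gm ?_
        rw [Nat.sub_add_cancel (hdpos i hi h1)]
        exact gd_cone h.toAffAct hK hKΩ hlt hSa hSb (hS.irr i hi) h4
    · have h3 : m i = d i := if_neg h2
      rw [h3]
      obtain ⟨-, h4⟩ := hexc i hi h2 h1
      obtain ⟨m', hm', h5⟩ := gd_dim h.toAffAct hK hKΩ hlt hSa hSb
      refine Gd.gm ⟨m', hm'.trans ?_, h5⟩
      change (d i + 1).choose 2 ≤ d i + 1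
      have h6 := hdpos i hi h1
      interval_cases d i <;> decide
  · rw [← hd]
    obtain ⟨i, hi, hP⟩ := hex
    refine Finset.sum_lt_sum (fun j _ => ?_) ⟨i, Finset.mem_range.2 hi, ?_⟩
    · change (if P j then d j - 1 else d j) ≤ d j
      split_ifs <;> omega
    · change (if P i then d i - 1 else d i) < d i
      rw [if_pos hP]
      have h1 := hdpos i hi hP.1
      omega

end

end Run7.h262.TB
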