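import Pool.Agent.Run7.h262.TB.CrInd

/-!
Completely reducible linear holonomy: passing to quotients.
-/

set_option autoImplicit false

open Filter Topology

namespace Run7.h262.TB

open Run7.h262.SV

section
variable {Γ E F : Type} [Group Γ] [NormedAddCommGroup E] [NormedSpace ℝ E] [FiniteDimensional ℝ E]
  [NormedAddCommGroup F] [NormedSpace ℝ F] [FiniteDimensional ℝ F]
  {hol : Γ →* (E ≃ᵃ[ℝ] E)}

/-- sections over a block -/
theorem exists_section (p : E →ₗ[ℝ] F) (Sb : Submodule ℝ E) :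
    ∃ s : F →ₗ[ℝ] E, ∀ v ∈ Sb, s (p v) ∈ Sb ∧ p (s (p v)) = p v := by
  let p' : Sb →ₗ[ℝ] Sb.map p := p.submoduleMap Sb
  have hp' : Function.Surjective p' := p.submoduleMap_surjective Sb
  obtain ⟨s', hs'⟩ := p'.exists_rightInverse_of_surjective (LinearMap.range_eq_top.2 hp')
  obtain ⟨s, hs⟩ := LinearMap.exists_extend (Sb.subtype ∘ₗ s')
  refine ⟨s, fun v hv => ?_⟩
  have h1 : s (p v) = (s' ⟨p v, v, hv, rfl⟩ : Sb) := by
    have h2 := LinearMap.congr_fun hs ⟨p v, v, hv, rfl⟩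
    exact h2
  rw [h1]
  refine ⟨(s' _).2, ?_⟩
  have h3 := LinearMap.congr_fun hs' ⟨p v, v, hv, rfl⟩
  exact congrArg Subtype.val h3

theorem block_map (p : E →ₗ[ℝ] F) (q : Γ →* (F ≃ᵃ[ℝ] F))
    (hq : ∀ γ x, (q γ).linear (p x) = p ((hol γ).linear x)) (Sa Sb : Submodule ℝ E) (hab : Sa ≤ Sb)
    (hSa : ∀ γ : Γ, ∀ v ∈ Sa, (hol γ).linear v ∈ Sa)
    (hSb : ∀ γ : Γ, ∀ v ∈ Sb, (hol γ).linear v ∈ Sb)
    (hirr : Irr hol Sa Sb) :
    Sa.map p = Sb.map p ∨ (Irr q.range.subtype (Sa.map p) (Sb.map p) ∧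
      (SmallAct hol Sa Sb → SmallAct q.range.subtype (Sa.map p) (Sb.map p)) ∧
      (HalfOrbit hol Sa Sb → HalfOrbit q.range.subtype (Sa.map p) (Sb.map p))) := by
  let Y : Submodule ℝ E := Sb ⊓ (Sa.map p).comap p
  have hYinv : ∀ γ : Γ, ∀ v ∈ Y, (hol γ).linear v ∈ Y := by
    rintro γ v ⟨hv1, w, hw, hwv⟩
    refine ⟨hSb γ v hv1, (hol γ).linear w, hSa γ w hw, ?_⟩
    rw [← hq, hwv, hq]
  rcases hirr Y (fun v hv => ⟨hab hv, v, hv, rfl⟩) (fun v hv => hv.1) hYinv with hY | hY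
  swap
  · left
    refine le_antisymm (Submodule.map_mono hab) ?_
    rintro _ ⟨v, hv, rfl⟩
    have h1 : v ∈ Y := by rw [hY]; exact hv
    exact h1.2
  right
  have hYS : ∀ v ∈ Sb, p v ∈ Sa.map p → v ∈ Sa := by
    intro v hv h1
    rw [← hY]
    exact ⟨hv, h1⟩
  obtain ⟨s, hs⟩ := exists_section p Sb
  have hsd : ∀ v ∈ Sb, s (p v) - v ∈ Sa := by
    intro v hv
    refine hYS _ (Sb.sub_mem (hs v hv).1 hv) ?_
    rw [map_sub, (hs v hv).2, sub_self]
    exact Submodule.zero_mem _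
  have hsa : ∀ v ∈ Sa, s (p v) ∈ Sa := by
    intro v hv
    have h1 := hsd v (hab hv)
    have h2 := Sa.add_mem h1 hv
    rwa [sub_add_cancel] at h2
  refine ⟨?_, ?_, ?_⟩
  · intro V hV1 hV2 hV3
    let V' : Submodule ℝ E := Sb ⊓ V.comap p
    have hVp : V = V'.map p := by
      refine le_antisymm (fun w hw => ?_) ?_
      · obtain ⟨v, hv, rfl⟩ := hV2 hw
        exact ⟨v, ⟨hv, hw⟩, rfl⟩
      · rintro _ ⟨v, hv, rfl⟩
        exact hv.2
    rcases hirr V' (fun v hv => ⟨hab hv, hV1 ⟨v, hv, rfl⟩⟩) (fun v hv => hv.1) (by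
      rintro γ v ⟨hv1, hv2⟩
      refine ⟨hSb γ v hv1, ?_⟩
      have h1 := hV3 ⟨q γ, γ, rfl⟩ (p v) hv2
      change p ((hol γ).linear v) ∈ V
      rw [← hq]
      exact h1) with h1 | h1
    · left
      rw [hVp, h1]
    · right
      rw [hVp, h1]
  · rintro ⟨k, n, σ, C, hC, hker, hP, hdim⟩
    have hrr : Function.Surjective q.rangeRestrict := q.rangeRestrict_surjective
    have hkd : ∀ γ : Γ, (∀ v' ∈ Sb.map p, (q γ).linear v' - v' ∈ Sa.map p) → ∀ j, σ j γ = 1 := by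
      intro γ hγ
      refine hker γ fun v hv => ?_
      refine hYS _ (Sb.sub_mem (hSb γ v hv) hv) ?_
      rw [map_sub, ← hq]
      exact hγ (p v) ⟨v, hv, rfl⟩
    have hkk : ∀ j, q.rangeRestrict.ker ≤ (σ j).ker := by
      intro j γ hγ
      have h1 : q γ = 1 := congrArg Subtype.val hγ
      refine hkd γ (fun v' _ => ?_) j
      rw [h1]
      have h2 : (1 : F ≃ᵃ[ℝ] F).linear v' = v' := rfl
      rw [h2, sub_self]
      exact Submodule.zero_mem _
    let τ : ∀ j, q.range →* ((Fin (n j) → ℝ) ≃ₗ[ℝ] (Fin (n j) → ℝ)) := fun j =>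
      MonoidHom.liftOfSurjective q.rangeRestrict hrr ⟨σ j, hkk j⟩
    have hτ : ∀ j γ, τ j ⟨q γ, γ, rfl⟩ = σ j γ := fun j γ =>
      MonoidHom.liftOfRightInverse_comp_apply q.rangeRestrict _ (Function.rightInverse_surjInv hrr)
        ⟨σ j, hkk j⟩ γ
    refine ⟨k, n, τ, C, fun j => ⟨(hC j).isOpen, (hC j).convex, (hC j).nonempty, (hC j).zero,
      (hC j).smul, ?_⟩, ?_, ?_, ?_⟩
    · rintro ⟨_, γ, rfl⟩ u hu
      rw [hτ]
      exact (hC j).inv γ u hu
    · rintro ⟨_, γ, rfl⟩ hγ j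
      rw [hτ]
      exact hkd γ hγ j
    · intro A hA hAC
      obtain ⟨c, hc⟩ := hP A hA hAC
      let pc : E →L[ℝ] F := LinearMap.toContinuousLinearMap p
      let sc : F →L[ℝ] E := LinearMap.toContinuousLinearMap s
      have hpn : ∀ v, ‖p v‖ ≤ ‖pc‖ * ‖v‖ := fun v => pc.le_opNorm v
      have hsn : ∀ v, ‖s v‖ ≤ ‖sc‖ * ‖v‖ := fun v => sc.le_opNorm v
      refine ⟨‖pc‖ * (|c| * ‖sc‖), ?_⟩
      rintro ⟨_, γ, rfl⟩ hγ
      obtain ⟨t, ht, h1⟩ := hc γ fun j => by
        obtain ⟨u, hu, t, ht, hut⟩ := hγ j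
        rw [hτ] at hut
        exact ⟨u, hu, t, ht, hut⟩
      have key : ∀ (a : ℝ) (δ : Γ), (∀ v ∈ Sb, ∃ w ∈ Sa, ‖a • (hol δ).linear v - w‖ ≤ c * ‖v‖) →
          ∀ v' ∈ Sb.map p, ∃ w' ∈ Sa.map p, ‖a • (q δ).linear v' - w'‖ ≤
            ‖pc‖ * (|c| * ‖sc‖) * ‖v'‖ := by
        rintro a δ h2 _ ⟨v, hv, rfl⟩
        obtain ⟨w, hw, h3⟩ := h2 (s (p v)) (hs v hv).1
        refine ⟨p w, ⟨w, hw, rfl⟩, ?_⟩
        have h4 : a • (q δ).linear (p v) - p w = p (a • (hol δ).linear (s (p v)) - w) := by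
          rw [map_sub, map_smul, ← hq, (hs v hv).2]
        rw [h4]
        refine (hpn _).trans ?_
        rw [mul_assoc]
        refine mul_le_mul_of_nonneg_left ?_ (norm_nonneg _)
        refine h3.trans ?_
        rw [mul_assoc]
        calc c * ‖s (p v)‖ ≤ |c| * ‖s (p v)‖ :=
              mul_le_mul_of_nonneg_right (le_abs_self c) (norm_nonneg _)
          _ ≤ |c| * (‖sc‖ * ‖p v‖) := mul_le_mul_of_nonneg_left (hsn _) (abs_nonneg _)
      refine ⟨t, ht, fun v' hv' => ⟨key t γ (fun v hv => (h1 v hv).1) v' hv', ?_⟩⟩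
      have h5 : (q.range.subtype (⟨q γ, γ, rfl⟩ : q.range)⁻¹) = q γ⁻¹ := by
        rw [map_inv, map_inv]
        rfl
      rw [h5]
      exact key t⁻¹ γ⁻¹ (fun v hv => (h1 v hv).2) v' hv'
    · have hrn : ∀ S' : Submodule ℝ E, Module.finrank ℝ (S'.map p) +
          Module.finrank ℝ (S' ⊓ LinearMap.ker p : Submodule ℝ E) = Module.finrank ℝ S' := by
        intro S'
        have h1 := LinearMap.finrank_range_add_finrank_ker (p.domRestrict S')
        rw [LinearMap.range_domRestrict] at h1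
        have h2 : (LinearMap.ker (p.domRestrict S')).map S'.subtype = S' ⊓ LinearMap.ker p := by
          ext v
          constructor
          · rintro ⟨w, hw, rfl⟩
            exact ⟨w.2, hw⟩
          · rintro ⟨hv, hv'⟩
            exact ⟨⟨v, hv⟩, hv', rfl⟩
        rw [← h2, Submodule.finrank_map_subtype_eq]
        exact h1
      have h1 := hrn Sa
      have h2 := hrn Sb
      have h3 : Module.finrank ℝ (Sb ⊓ LinearMap.ker p : Submodule ℝ E) ≤
          Module.finrank ℝ (Sa ⊓ LinearMap.ker p : Submodule ℝ E) := by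
        refine Submodule.finrank_mono ?_
        rintro v ⟨hv, hv'⟩
        refine ⟨hYS v hv ?_, hv'⟩
        rw [LinearMap.mem_ker.1 hv']
        exact Submodule.zero_mem _
      omega
  · rintro ⟨v, f, hv, hva, hf, ⟨u, hu, hfu⟩, hpos⟩
    have hfs : ∀ w ∈ Sb, f (s (p w)) = f w := by
      intro w hw
      have e1 : s (p w) = w + (s (p w) - w) := by abel
      rw [e1, map_add, hf _ (hsd w hw), add_zero]
    refine ⟨p v, f ∘ₗ s, ⟨v, hv, rfl⟩, fun h1 => hva (hYS v hv h1), ?_, ⟨p u, ⟨u, hu, rfl⟩, ?_⟩, ?_⟩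
    · rintro _ ⟨w, hw, rfl⟩
      change f (s (p w)) = 0
      rw [hfs w (hab hw), hf w hw]
    · change f (s (p u)) ≠ 0
      rwa [hfs u hu]
    · rintro ⟨_, γ, rfl⟩
      have h1 : (q.range.subtype ⟨q γ, γ, rfl⟩).linear (p v) = p ((hol γ).linear v) := hq γ v
      rw [h1]
      change 0 ≤ f (s (p ((hol γ).linear v)))
      rw [hfs _ (hSb γ v hv)]
      exact hpos γ

theorem GoodFlag.map (p : E →ₗ[ℝ] F) (hp : Function.Surjective p) (q : Γ →* (F ≃ᵃ[ℝ] F))
    (hq : ∀ γ x, (q γ).linear (p x) = p ((hol γ).linear x)) {S : ℕ → Submodule ℝ E} {r i₀ : ℕ}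
    (hS : GoodFlag hol S r i₀) : GoodFlag q.range.subtype (fun i => (S i).map p) r i₀ := by
  refine ⟨?_, ?_, fun i hi => Submodule.map_mono (hS.mono i hi), ?_, ?_, ?_⟩
  · simp only [hS.bot, Submodule.map_bot]
  · simp only [hS.top, Submodule.map_top]
    exact LinearMap.range_eq_top.2 hp
  · rintro i hi ⟨_, γ, rfl⟩ _ ⟨v, hv, rfl⟩
    exact ⟨_, hS.inv i hi γ v hv, (hq γ v).symm⟩
  · intro i hi
    rcases block_map p q hq _ _ (hS.mono i hi) (hS.inv i hi.le) (hS.inv (i + 1) hi)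
      (hS.irr i hi) with h1 | ⟨h1, -, -⟩
    · intro V hV1 hV2 _
      left
      refine le_antisymm ?_ hV1
      simp only [h1]
      exact hV2
    · exact h1
  · intro i hi
    rcases block_map p q hq _ _ (hS.mono i hi) (hS.inv i hi.le) (hS.inv (i + 1) hi)
      (hS.irr i hi) with h1 | ⟨-, h2, h3⟩
    · exact Or.inl h1
    · rcases hS.type i hi with h4 | h4 | h4 | ⟨h4, h5⟩
      · left
        rw [h4]
      · exact Or.inr (Or.inl (h2 h4))
      · exact Or.inr (Or.inr (Or.inl (h3 h4)))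
      · refine Or.inr (Or.inr (Or.inr ⟨h4, ?_⟩))
        obtain ⟨W, -, hW2, hW3⟩ := compl_within (S i) (S (i + 1)) (hS.mono i hi)
        rw [← hW2, Submodule.map_sup]
        have h6 := Submodule.finrank_add_le_finrank_add_finrank ((S i).map p) (W.map p)
        have h7 := Submodule.finrank_map_le p W
        omega

end

section
variable {Γ E : Type} [Group Γ] [NormedAddCommGroup E] [NormedSpace ℝ E] [FiniteDimensional ℝ E]
  {hol : Γ →* (E ≃ᵃ[ℝ] E)} {Ω : Set E}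

theorem Tr_inv : ∀ γ : Γ, ∀ v ∈ Submodule.span ℝ (Tr hol : Set E),
    (hol γ).linear v ∈ Submodule.span ℝ (Tr hol : Set E) := by
  intro γ
  have h1 : Submodule.span ℝ (Tr hol : Set E) ≤
      (Submodule.span ℝ (Tr hol : Set E)).comap ((hol γ).linear : E →ₗ[ℝ] E) := by
    rw [Submodule.span_le]
    intro u hu
    exact Submodule.subset_span (Tr_lin γ hu)
  exact fun v hv => h1 hv

/-- commutative normal subgroups give translations -/
theorem VolAct.cr_trans (h : VolAct Γ E hol Ω) (hinj : Function.Injective hol) (hcr : CR hol)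
    (hA : ∃ A : Subgroup Γ, A.Normal ∧ A ≠ ⊥ ∧ ∀ a ∈ A, ∀ b ∈ A, a * b = b * a) :
    Submodule.span ℝ (Tr hol : Set E) ≠ ⊥ := by
  obtain ⟨A, hN, hne, hA⟩ := hA
  obtain ⟨a, ha, ha2⟩ := h.not_invol hinj hA hN hne
  obtain ⟨X₀, hX₀, hX₁⟩ := LL_square hol A hA ha
  have hX₂ : X₀ ∈ HH hol A hA := Submodule.subset_span hX₀
  have hX₀0 : X₀ ≠ 0 := by
    rintro rfl
    rw [NormedSpace.exp_zero] at hX₁
    apply ha2
    apply hat_inj
    rw [← hX₁, map_one]
  have h0 := h.cr_lin hA hN hcr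
  have h1 : X₀ = tau (tp X₀) := by
    refine ContinuousLinearMap.ext fun w => ?_
    have e1 : X₀ w = (Lp X₀ w.1 + w.2 • tp X₀, 0) := form_apply (HH_snd hol A hA hX₂) w.1 w.2
    rw [e1, h0 X₀ hX₂, zero_add, tau_apply]
  have h2 : tp X₀ ∈ Tr hol := by
    refine ⟨a * a, fun x => ?_⟩
    rw [← actp_hat, ← hX₁]
    conv_lhs => rw [h1]
    rw [exp_sq _ (tau_sq _)]
    change (((x, 1) : E × ℝ) + tau (tp X₀) (x, 1)).1 = x + tp X₀
    rw [tau_apply, one_smul]
    rfl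
  intro h4
  have h5 : tp X₀ ∈ Submodule.span ℝ (Tr hol : Set E) := Submodule.subset_span h2
  rw [h4, Submodule.mem_bot] at h5
  rw [h5, map_zero] at h1
  exact hX₀0 h1

end

/-- completely reducible linear holonomy with small constituents -/
theorem cr_main (n : ℕ) : ∀ (Γ E : Type) [Group Γ] [NormedAddCommGroup E] [NormedSpace ℝ E]
    [FiniteDimensional ℝ E] (hol : Γ →* (E ≃ᵃ[ℝ] E)) (Ω : Set E), Module.finrank ℝ E = n →
    VolAct Γ E hol Ω → Function.Injective hol → IsPreconnected Ω → CR hol →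
    ∀ (S : ℕ → Submodule ℝ E) (r i₀ : ℕ), GoodFlag hol S r i₀ → Ω = Set.univ := by
  induction n using Nat.strong_induction_on with
  | _ n ih =>
  intro Γ E _ _ _ _ hol Ω hn h hinj hc hcr S r i₀ hS
  rcases Nat.lt_or_ge 2 (Module.finrank ℝ E) with hE | hE
  swap
  · exact h.plane hc hE
  have hT := h.cr_trans hinj hcr (hS.abelian h hinj hE)
  set U := Submodule.span ℝ (Tr hol : Set E) with hUdef
  obtain ⟨W, hWinv, hW⟩ := hcr U Tr_inv
  let p : E →ₗ[ℝ] W := W.linearProjOfIsCompl U hW.symm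
  have hk : LinearMap.ker p = U := Submodule.linearProjOfIsCompl_ker hW.symm
  have hp : Function.Surjective p := Submodule.linearProjOfIsCompl_surjective hW.symm
  have hpW : ∀ w : W, p w = w := fun w => Submodule.linearProjOfIsCompl_apply_left hW.symm w
  obtain ⟨q, hq1, hq2, hq⟩ := h.quot p hp hk
  have hqW : ∀ (γ : Γ) (w : W), (((q γ).linear w : W) : E) = (hol γ).linear (w : E) := by
    intro γ w
    have h1 := hq2 γ (w : E)
    rw [hpW] at h1
    rw [h1]
    exact congrArg Subtype.val (hpW ⟨_, hWinv γ w w.2⟩)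
  have hfr : Module.finrank ℝ W < n := by
    have h1 := Submodule.finrank_add_eq_of_isCompl hW
    have h2 : 0 < Module.finrank ℝ U := by
      rw [Nat.pos_iff_ne_zero]
      intro h3
      exact hT (Submodule.finrank_eq_zero.1 h3)
    omega
  have hcr' : CR q.range.subtype := by
    intro V hV
    have hV' : ∀ γ : Γ, ∀ v ∈ V.map W.subtype, (hol γ).linear v ∈ V.map W.subtype := by
      rintro γ _ ⟨v, hv, rfl⟩
      exact ⟨(q γ).linear v, hV ⟨q γ, γ, rfl⟩ v hv, hqW γ v⟩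
    obtain ⟨C, hC, hVC⟩ := hcr _ hV'
    refine ⟨C.comap W.subtype, ?_, ?_⟩
    · rintro ⟨_, γ, rfl⟩ w hw
      change (((q γ).linear w : W) : E) ∈ C
      rw [hqW]
      exact hC γ _ hw
    · constructor
      · rw [disjoint_iff, eq_bot_iff]
        rintro w ⟨hw1, hw2⟩
        have h1 : (w : E) ∈ V.map W.subtype ⊓ C := ⟨⟨w, hw1, rfl⟩, hw2⟩
        rw [hVC.inf_eq_bot, Submodule.mem_bot] at h1
        rw [Submodule.mem_bot]
        exact Subtype.ext h1
      · rw [codisjoint_iff, eq_top_iff]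
        intro w _
        have h1 : (w : E) ∈ V.map W.subtype ⊔ C := by rw [hVC.sup_eq_top]; trivial
        obtain ⟨_, ⟨v, hv, rfl⟩, c, hc', hvc⟩ := Submodule.mem_sup.1 h1
        have h2 : c = ((w - v : W) : E) := by
          rw [Submodule.coe_sub, ← hvc]
          exact (add_sub_cancel_left _ _).symm
        refine Submodule.mem_sup.2 ⟨v, hv, w - v, ?_, by abel⟩
        rw [Submodule.mem_comap, Submodule.subtype_apply, ← h2]
        exact hc'
  have h1 : p '' Ω = Set.univ :=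
    ih _ hfr q.range W q.range.subtype (p '' Ω) rfl hq Subtype.val_injective
      (hc.image p p.continuous_of_finiteDimensional.continuousOn) hcr' _ r i₀ (hS.map p hp q hq2)
  refine Set.eq_univ_iff_forall.2 fun x => ?_
  have h2 : p x ∈ p '' Ω := by
    rw [h1]
    trivial
  obtain ⟨y, hy, hyx⟩ := h2
  have h3 : x = y + (x - y) := by abel
  rw [h3]
  refine h.toAffAct.tr_mem ?_ hy
  rw [← hUdef, ← hk, LinearMap.mem_ker, map_sub, hyx, sub_self]

end Run7.h262.TB
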