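import Pool.Agent.Run7.h262.TB.Port

/-!
Equivariant maps from the domain of a closed affine manifold with parallel volume to the affine
space have maximal rank somewhere.
-/

set_option autoImplicit false

open Filter Topology MeasureTheory

namespace Run7.h262.TB

open Run7.h262.SV

section interp

/-- the values of the determinant along a line are determined by its values at finitely many small
times -/
theorem det_interp {E : Type} [AddCommGroup E] [Module ℝ E] [FiniteDimensional ℝ E] {t₀ : ℝ}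
    (ht₀ : 0 < t₀) : ∃ (m : ℕ) (t w : ℕ → ℝ), (∀ j < m, 0 < t j ∧ t j < t₀) ∧
      ∑ j ∈ Finset.range m, w j = 1 ∧
      ∀ B : E →ₗ[ℝ] E, LinearMap.det (LinearMap.id + B) =
        ∑ j ∈ Finset.range m, w j * LinearMap.det (LinearMap.id + t j • B) := by
  classical
  set n := Module.finrank ℝ E with hn
  let t : ℕ → ℝ := fun j => t₀ / (j + 2)
  have htinj : Set.InjOn t (Finset.range (n + 1)) := by
    intro i _ j _ hij
    have h1 : t₀ / ((i : ℝ) + 2) = t₀ / ((j : ℝ) + 2) := hij
    have hi : (0 : ℝ) < (i : ℝ) + 2 := by positivity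
    have hj : (0 : ℝ) < (j : ℝ) + 2 := by positivity
    rw [div_eq_div_iff hi.ne' hj.ne'] at h1
    have h2 := mul_left_cancel₀ ht₀.ne' h1
    have h3 : (j : ℝ) = i := by linarith
    exact_mod_cast h3.symm
  refine ⟨n + 1, t, fun j => Polynomial.eval 1 (Lagrange.basis (Finset.range (n + 1)) t j), ?_, ?_,
    ?_⟩
  · intro j _
    have hj : (0 : ℝ) < (j : ℝ) + 2 := by positivity
    refine ⟨div_pos ht₀ hj, ?_⟩
    rw [div_lt_iff₀ hj]
    have : (0 : ℝ) ≤ (j : ℝ) := Nat.cast_nonneg j
    nlinarith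
  · rw [← Polynomial.eval_finsetSum, Lagrange.sum_basis htinj ⟨0, by simp⟩, Polynomial.eval_one]
  · intro B
    let b := Module.finBasis ℝ E
    let M : Matrix (Fin n) (Fin n) ℝ := LinearMap.toMatrix b b B
    let p : Polynomial ℝ := Matrix.det ((Polynomial.X : Polynomial ℝ) • M.map Polynomial.C +
      (1 : Matrix (Fin n) (Fin n) ℝ).map Polynomial.C)
    have hp : ∀ s : ℝ, p.eval s = LinearMap.det (LinearMap.id + s • B) := by
      intro s
      rw [← LinearMap.det_toMatrix b, map_add, map_smul, LinearMap.toMatrix_id]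
      change Polynomial.eval s (Matrix.det _) = _
      rw [← Polynomial.coe_evalRingHom, RingHom.map_det]
      congr 1
      ext i j
      simp only [RingHom.mapMatrix_apply, Matrix.map_apply, Matrix.add_apply, Matrix.smul_apply,
        smul_eq_mul, map_add, Polynomial.coe_evalRingHom, Polynomial.eval_C]
      rw [Polynomial.eval_mul, Polynomial.eval_X, Polynomial.eval_C, add_comm]
    have hdeg : p.degree < (Finset.range (n + 1)).card := by
      have h1 := Polynomial.natDegree_det_X_add_C_le M 1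
      rw [Fintype.card_fin] at h1
      rw [Finset.card_range]
      refine lt_of_le_of_lt Polynomial.degree_le_natDegree ?_
      exact_mod_cast Nat.lt_succ_of_le h1
    have h1 := Lagrange.eq_interpolate htinj hdeg
    have h2 := congrArg (Polynomial.eval 1) h1
    rw [Lagrange.interpolate_apply, Polynomial.eval_finsetSum] at h2
    rw [← one_smul ℝ B, ← hp 1, h2, one_smul]
    refine Finset.sum_congr rfl fun j _ => ?_
    rw [Polynomial.eval_mul, Polynomial.eval_C, hp, mul_comm]

end interp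

section ext
variable {E F : Type} [TopologicalSpace E] [T2Space E] [NormedAddCommGroup F]

/-- continuous functions on an open set with support in a compact subset -/
theorem cont_ext {Ω K : Set E} (hΩ : IsOpen Ω) (hK : IsCompact K) (hKΩ : K ⊆ Ω) {f : E → F}
    (hf : ContinuousOn f Ω) (h0 : ∀ x, x ∉ K → f x = 0) : Continuous f := by
  rw [continuous_iff_continuousAt]
  intro x
  by_cases hx : x ∈ Ω
  · exact hf.continuousAt (hΩ.mem_nhds hx)
  · have h1 : Kᶜ ∈ 𝓝 x := hK.isClosed.isOpen_compl.mem_nhds fun h2 => hx (hKΩ h2)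
    have h2 : f =ᶠ[𝓝 x] fun _ => 0 := by
      filter_upwards [h1] with y hy
      exact h0 y hy
    exact (continuousAt_const.congr h2.symm)

end ext

variable {Γ E : Type} [Group Γ] [NormedAddCommGroup E] [NormedSpace ℝ E] [FiniteDimensional ℝ E]
  {hol : Γ →* (E ≃ᵃ[ℝ] E)} {Ω : Set E}

/-- partitions of unity with compact supports -/
theorem AffAct.unit (h : AffAct Γ E hol Ω) : ∃ (b : E → ℝ) (K : Set E), IsCompact K ∧ K ⊆ Ω ∧
    Continuous b ∧ (∀ x, x ∉ K → b x = 0) ∧ (∀ x, 0 ≤ b x) ∧ (∀ x ∈ Ω, ∑ᶠ γ, b (hol γ x) = 1) := by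
  classical
  obtain ⟨K, hK, hKΩ, hcc⟩ := h.cc
  obtain ⟨ψ, K', hψ1, hK', hK'Ω, hψ2, hψ0, hψp⟩ := exists_bump h.isOpen hK hKΩ
  let c : Γ → E → ℝ := fun γ x => ψ (hol γ x)
  have hcs : ∀ γ, ContDiffOn ℝ 1 (c γ) Ω := fun γ => (hψ1.comp (hol_contDiff γ)).contDiffOn
  have hcf : ∀ K : Set E, IsCompact K → K ⊆ Ω → {γ | ∃ x ∈ K, c γ x ≠ 0}.Finite := by
    intro K₁ hK₁ hK₁Ω
    refine (h.pd (K₁ ∪ K') (hK₁.union hK') (Set.union_subset hK₁Ω hK'Ω)).subset ?_
    rintro γ ⟨x, hx, h0⟩
    exact ⟨x, Or.inl hx, Or.inr (hψ2 _ h0)⟩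
  let Ψ : E → ℝ := fun x => ∑ᶠ γ, c γ x
  have hΨs : ContDiffOn ℝ 1 Ψ Ω := by
    have := lf_smooth h.isOpen hcs hcf (fun _ => (1 : ℝ))
    simpa using this
  have hfin : ∀ x ∈ Ω, (Function.support fun γ => c γ x).Finite := by
    intro x hx
    refine (hcf {x} isCompact_singleton (by simpa using hx)).subset fun γ hγ => ?_
    exact ⟨x, rfl, hγ⟩
  have hΨp : ∀ x ∈ Ω, 0 < Ψ x := by
    intro x hx
    obtain ⟨γ, hγ⟩ := hcc x hx
    exact finsum_pos (fun γ => hψ0 _) ⟨γ, hψp _ hγ⟩ (hfin x hx)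
  have hΨe : ∀ γ : Γ, ∀ x, Ψ (hol γ x) = Ψ x := by
    intro γ x
    simp only [Ψ]
    rw [← finsum_comp_equiv (Equiv.mulRight γ) (f := fun δ => c δ x)]
    refine finsum_congr fun δ => ?_
    simp only [c]
    rw [Equiv.coe_mulRight, hol_mul]
  refine ⟨fun x => ψ x / Ψ x, K', hK', hK'Ω, ?_, ?_, ?_, ?_⟩
  · refine cont_ext h.isOpen hK' hK'Ω ?_ ?_
    · exact hψ1.continuous.continuousOn.div hΨs.continuousOn fun x hx => (hΨp x hx).ne'
    · intro x hx
      have : ψ x = 0 := by
        by_contra h1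
        exact hx (hψ2 x h1)
      rw [this, zero_div]
  · intro x hx
    have : ψ x = 0 := by
      by_contra h1
      exact hx (hψ2 x h1)
    simp only
    rw [this, zero_div]
  · intro x
    by_cases h1 : ψ x = 0
    · simp only
      rw [h1, zero_div]
    · exact div_nonneg (hψ0 x) (hΨp x (hK'Ω (hψ2 x h1))).le
  · intro x hx
    have h1 : ∑ᶠ γ, ψ (hol γ x) / Ψ (hol γ x) = (∑ᶠ γ, c γ x) / Ψ x := by
      simp only [hΨe, div_eq_mul_inv]
      exact (finsum_mul _ _).symm
    simp only
    rw [h1]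
    exact div_self (hΨp x hx).ne'

/-- small equivariant perturbations of the identity -/
theorem AffAct.small (h : AffAct Γ E hol Ω) (V : E → E) (hV : ContDiffOn ℝ 1 V Ω)
    (hVe : ∀ γ : Γ, ∀ x ∈ Ω, V (hol γ x) = (hol γ).linear (V x)) :
    ∃ t₀ > 0, ∀ t : ℝ, 0 < t → t < t₀ → (∀ x ∈ Ω, x + t • V x ∈ Ω) ∧
      Set.InjOn (fun x => x + t • V x) Ω ∧ (∀ y ∈ Ω, ∃ x ∈ Ω, x + t • V x = y) ∧
      ∀ x ∈ Ω, 0 < LinearMap.det (LinearMap.id + t • (fderiv ℝ V x : E →ₗ[ℝ] E)) := by
  classical
  obtain ⟨K, hK, hKΩ, hcc⟩ := h.cc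
  obtain ⟨r, hr, hrΩ⟩ := hK.exists_cthickening_subset_open h.isOpen hKΩ
  set K' := Metric.cthickening r K with hK'def
  have hK' : IsCompact K' := hK.cthickening
  have hKK' : K ⊆ K' := Metric.self_subset_cthickening K
  obtain ⟨M, hM⟩ := hK'.exists_bound_of_continuousOn (hV.continuousOn.mono hrΩ)
  have hfin := h.pd K' hK' hrΩ
  -- the compact set where the images are compared
  set K'' : Set E := K' ∪ ⋃ γ ∈ {γ : Γ | ∃ x ∈ K', hol γ x ∈ K'}, hol γ '' K with hK''def
  have hK'' : IsCompact K'' := by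
    refine hK'.union (hfin.isCompact_biUnion fun γ _ => hK.image (hol_cont γ))
  have hK''Ω : K'' ⊆ Ω := by
    refine Set.union_subset hrΩ (Set.iUnion₂_subset fun γ _ => ?_)
    rintro _ ⟨x, hx, rfl⟩
    exact h.inv γ x (hKΩ hx)
  have hloc : LocallyLipschitzOn K'' V := by
    intro x hx
    obtain ⟨C, s, hs, hC⟩ := ((hV.contDiffAt (h.isOpen.mem_nhds (hK''Ω hx)))).exists_lipschitzOnWith
    exact ⟨C, s, mem_nhdsWithin_of_mem_nhds hs, hC⟩
  obtain ⟨C, hC⟩ := hloc.exists_lipschitzOnWith_of_compact hK''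
  -- the determinant
  have hdet : ∀ᶠ t : ℝ in 𝓝 0, ∀ x ∈ K,
      0 < LinearMap.det (LinearMap.id + t • (fderiv ℝ V x : E →ₗ[ℝ] E)) := by
    refine hK.eventually_forall_of_forall_eventually fun x hx => ?_
    have h1 : ContinuousAt (fun p : ℝ × E =>
        ContinuousLinearMap.det (ContinuousLinearMap.id ℝ E + p.1 • fderiv ℝ V p.2)) (0, x) := by
      have h2 : ContinuousAt (fderiv ℝ V) x :=
        (hV.continuousOn_fderiv_of_isOpen h.isOpen le_rfl).continuousAt (h.isOpen.mem_nhds (hKΩ hx))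
      have h3 : ContinuousAt (fun p : ℝ × E =>
          ContinuousLinearMap.id ℝ E + p.1 • fderiv ℝ V p.2) (0, x) := by
        refine continuousAt_const.add (continuousAt_fst.smul ?_)
        exact ContinuousAt.comp (f := fun p : ℝ × E => p.2) (x := (0, x)) h2 continuousAt_snd
      exact (ContinuousLinearMap.continuous_det (𝕜 := ℝ) (E := E)).continuousAt.comp h3
    have h2 : (0 : ℝ) < ContinuousLinearMap.det (ContinuousLinearMap.id ℝ E +
        (0 : ℝ) • fderiv ℝ V x) := by
      rw [zero_smul, add_zero]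
      have : ContinuousLinearMap.det (ContinuousLinearMap.id ℝ E) = 1 := LinearMap.det_id
      rw [this]
      exact one_pos
    have h3 := h1.eventually (lt_mem_nhds h2)
    exact h3
  obtain ⟨δ, hδ, hdet⟩ := Metric.eventually_nhds_iff.1 hdet
  refine ⟨min δ (min (r / (|M| + 1)) (1 / (C + 1))), by positivity, fun t ht0 ht => ?_⟩
  have ht1 : t < δ := ht.trans_le (min_le_left _ _)
  have ht2 : t * |M| ≤ r := by
    have h1 : t < r / (|M| + 1) := ht.trans_le ((min_le_right _ _).trans (min_le_left _ _))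
    rw [lt_div_iff₀ (by positivity)] at h1
    nlinarith
  have ht3 : t * C < 1 := by
    have h1 : t < 1 / (C + 1) := ht.trans_le ((min_le_right _ _).trans (min_le_right _ _))
    rw [lt_div_iff₀ (by positivity)] at h1
    nlinarith
  have hFe : ∀ γ : Γ, ∀ x ∈ Ω, hol γ x + t • V (hol γ x) = hol γ (x + t • V x) := by
    intro γ x hx
    rw [hVe γ x hx, hol_add, map_smul]
  have htV : ∀ x ∈ K', ‖t • V x‖ ≤ r := by
    intro x hx
    rw [norm_smul, Real.norm_of_nonneg ht0.le]
    have h1 : t * ‖V x‖ ≤ t * |M| :=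
      mul_le_mul_of_nonneg_left ((hM x hx).trans (le_abs_self M)) ht0.le
    exact h1.trans ht2
  have hFK : ∀ x ∈ K, x + t • V x ∈ K' := by
    intro x hx
    refine Metric.mem_cthickening_of_dist_le _ x r K hx ?_
    rw [dist_eq_norm, add_sub_cancel_left]
    exact htV x (hKK' hx)
  have hmaps : ∀ x ∈ Ω, x + t • V x ∈ Ω := by
    intro x hx
    obtain ⟨γ, hγ⟩ := hcc x hx
    have h1 := hFK _ hγ
    rw [hFe γ x hx] at h1
    have h2 := h.inv γ⁻¹ _ (hrΩ h1)
    rwa [hol_inv] at h2
  have hcontr : ∀ x ∈ K'', ∀ y ∈ K'', ‖t • V x - t • V y‖ ≤ t * C * ‖x - y‖ := by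
    intro x hx y hy
    rw [← smul_sub, norm_smul, Real.norm_of_nonneg ht0.le, mul_assoc]
    refine mul_le_mul_of_nonneg_left ?_ ht0.le
    rw [← dist_eq_norm, ← dist_eq_norm]
    exact hC.dist_le_mul x hx y hy
  refine ⟨hmaps, ?_, ?_, ?_⟩
  · -- injectivity
    have key : ∀ x ∈ K, ∀ y ∈ Ω, x + t • V x = y + t • V y → x = y := by
      intro x hx y hy hxy
      obtain ⟨γ, hγ⟩ := hcc y hy
      have hyK'' : y ∈ K'' := by
        right
        refine Set.mem_biUnion (x := γ⁻¹) ?_ ⟨hol γ y, hγ, hol_inv γ y⟩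
        refine ⟨_, hFK _ hγ, ?_⟩
        rw [hFe γ y hy, hol_inv, ← hxy]
        exact hFK x hx
      have hxK'' : x ∈ K'' := Or.inl (hKK' hx)
      have h1 := hcontr x hxK'' y hyK''
      have h2 : x - y = -(t • V x - t • V y) := by
        have : x - y + (t • V x - t • V y) = 0 := by
          have e : x - y + (t • V x - t • V y) = (x + t • V x) - (y + t • V y) := by abel
          rw [e, hxy, sub_self]
        exact eq_neg_of_add_eq_zero_left this
      have h3 : ‖x - y‖ ≤ t * C * ‖x - y‖ := by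
        conv_lhs => rw [h2, norm_neg]
        exact h1
      by_contra hne
      have h4 : 0 < ‖x - y‖ := norm_pos_iff.2 (sub_ne_zero.2 hne)
      nlinarith
    intro x hx y hy hxy
    obtain ⟨γ, hγ⟩ := hcc x hx
    have h1 : hol γ x + t • V (hol γ x) = hol γ y + t • V (hol γ y) := by
      rw [hFe γ x hx, hFe γ y hy]
      exact congrArg (hol γ) hxy
    have h2 := key _ hγ _ (h.inv γ y hy) h1
    exact (hol γ).injective h2
  · -- surjectivity
    have key : ∀ y ∈ K, ∃ x ∈ Ω, x + t • V x = y := by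
      intro y hy
      have hsub : Metric.closedBall y r ⊆ K' := by
        intro z hz
        exact Metric.mem_cthickening_of_dist_le _ y r K hy hz
      have hmapsto : Set.MapsTo (fun x => y - t • V x) (Metric.closedBall y r)
          (Metric.closedBall y r) := by
        intro x hx
        rw [Metric.mem_closedBall, dist_eq_norm, sub_sub_cancel_left, norm_neg]
        exact htV x (hsub hx)
      have hcw : ContractingWith (Real.toNNReal (t * C))
          (hmapsto.restrict (fun x => y - t • V x) _ _) := by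
        refine ⟨?_, ?_⟩
        · rw [← NNReal.coe_lt_coe, Real.coe_toNNReal _ (by positivity)]
          exact ht3
        · refine LipschitzWith.of_dist_le_mul fun x z => ?_
          rw [Real.coe_toNNReal _ (by positivity)]
          change dist (y - t • V (x : E)) (y - t • V (z : E)) ≤ t * C * dist (x : E) (z : E)
          rw [dist_eq_norm, dist_eq_norm, sub_sub_sub_cancel_left, norm_sub_rev]
          exact hcontr _ (Or.inl (hsub x.2)) _ (Or.inl (hsub z.2))
      obtain ⟨x, hx, hfix, -⟩ := ContractingWith.exists_fixedPoint'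
        (isCompact_closedBall y r).isComplete hmapsto hcw (Metric.mem_closedBall_self hr.le)
        (edist_ne_top _ _)
      refine ⟨x, hrΩ (hsub hx), ?_⟩
      have h1 : y - t • V x = x := hfix
      rw [eq_comm, ← sub_eq_iff_eq_add]
      exact h1
    intro y hy
    obtain ⟨γ, hγ⟩ := hcc y hy
    obtain ⟨x, hx, h1⟩ := key _ hγ
    refine ⟨hol γ⁻¹ x, h.inv γ⁻¹ x hx, ?_⟩
    rw [hFe γ⁻¹ x hx, h1, hol_inv]
  · -- the determinant
    intro x hx
    obtain ⟨γ, hγ⟩ := hcc x hx
    have h1 := hdet (show dist t 0 < δ by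
      rw [Real.dist_eq, sub_zero, abs_of_pos ht0]
      exact ht1) _ hγ
    have hVd : ∀ z ∈ Ω, HasFDerivAt V (fderiv ℝ V z) z := fun z hz =>
      ((hV.differentiableOn one_ne_zero).differentiableAt (h.isOpen.mem_nhds hz)).hasFDerivAt
    -- equivariance of the derivative
    let L : E →L[ℝ] E := LinearMap.toContinuousLinearMap ((hol γ).linear : E →ₗ[ℝ] E)
    have hhol : HasFDerivAt (fun z => hol γ z) L x := by
      have e1 : (fun z : E => hol γ z) = fun z => L z + hol γ 0 := by
        funext z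
        exact aff_apply (hol γ) z
      rw [e1]
      exact L.hasFDerivAt.add_const _
    have h2 : HasFDerivAt (fun z => V (hol γ z)) ((fderiv ℝ V (hol γ x)).comp L) x :=
      HasFDerivAt.comp x (hVd _ (h.inv γ x hx)) hhol
    have h3 : HasFDerivAt (fun z => V (hol γ z)) (L.comp (fderiv ℝ V x)) x := by
      refine (L.hasFDerivAt.comp x (hVd x hx)).congr_of_eventuallyEq ?_
      filter_upwards [h.isOpen.mem_nhds hx] with z hz
      exact hVe γ z hz
    have h4 := h2.unique h3
    have h5 : LinearMap.id + t • (fderiv ℝ V (hol γ x) : E →ₗ[ℝ] E) =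
        ((hol γ).linear : E →ₗ[ℝ] E) ∘ₗ (LinearMap.id + t • (fderiv ℝ V x : E →ₗ[ℝ] E)) ∘ₗ
          ((hol γ).linear.symm : E →ₗ[ℝ] E) := by
      refine LinearMap.ext fun v => ?_
      have h6 : (fderiv ℝ V (hol γ x)) v =
          (hol γ).linear ((fderiv ℝ V x) ((hol γ).linear.symm v)) := by
        have h7 := congrArg (fun Y : E →L[ℝ] E => Y ((hol γ).linear.symm v)) h4
        have h8 : (fderiv ℝ V (hol γ x)) ((hol γ).linear ((hol γ).linear.symm v)) =
          (hol γ).linear ((fderiv ℝ V x) ((hol γ).linear.symm v)) := h7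
        rwa [LinearEquiv.apply_symm_apply] at h8
      change v + t • (fderiv ℝ V (hol γ x)) v = (hol γ).linear ((hol γ).linear.symm v +
        t • (fderiv ℝ V x) ((hol γ).linear.symm v))
      rw [map_add, LinearEquiv.apply_symm_apply, map_smul, h6]
    rw [h5, LinearMap.det_conj] at h1
    exact h1

end Run7.h262.TB
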