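import Pool.Agent.Run7.h262.TB.Deg

/-!
Equivariant maps from the domain of a closed affine manifold with parallel volume to the affine
space have maximal rank somewhere.
-/

set_option autoImplicit false

open Filter Topology MeasureTheory

namespace Run7.h262.TB

open Run7.h262.SV

variable {Γ E : Type} [Group Γ] [NormedAddCommGroup E] [NormedSpace ℝ E] [FiniteDimensional ℝ E]
  {hol : Γ →* (E ≃ᵃ[ℝ] E)} {Ω : Set E}

/-- the group is countable -/
theorem AffAct.countable (h : AffAct Γ E hol Ω) : Countable Γ := by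
  haveI : SecondCountableTopology E := by
    haveI : ProperSpace E := FiniteDimensional.proper ℝ E
    infer_instance
  haveI : LocallyCompactSpace Ω := h.isOpen.locallyCompactSpace
  obtain ⟨x₀, hx₀⟩ := h.nonempty
  let K : ℕ → Set E := fun n => Subtype.val '' (compactCovering Ω n)
  have hK : ∀ n, IsCompact (K n) := fun n =>
    (isCompact_compactCovering Ω n).image continuous_subtype_val
  have hKΩ : ∀ n, K n ⊆ Ω := by
    rintro n _ ⟨x, -, rfl⟩
    exact x.2
  have hcov : ∀ x ∈ Ω, ∃ n, x ∈ K n := by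
    intro x hx
    obtain ⟨n, hn⟩ := exists_mem_compactCovering (⟨x, hx⟩ : Ω)
    exact ⟨n, _, hn, rfl⟩
  have hmono : ∀ m n, m ≤ n → K m ⊆ K n := by
    intro m n hmn
    exact Set.image_mono (compactCovering_subset Ω hmn)
  have huniv : (Set.univ : Set Γ) = ⋃ n, {γ : Γ | ∃ x ∈ K n, hol γ x ∈ K n} := by
    refine (Set.eq_univ_of_forall fun γ => ?_).symm
    obtain ⟨m, hm⟩ := hcov x₀ hx₀
    obtain ⟨n, hn⟩ := hcov _ (h.inv γ x₀ hx₀)
    refine Set.mem_iUnion.2 ⟨max m n, x₀, hmono _ _ (le_max_left _ _) hm,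
      hmono _ _ (le_max_right _ _) hn⟩
  rw [← Set.countable_univ_iff, huniv]
  exact Set.countable_iUnion fun n => (h.pd _ (hK n) (hKΩ n)).countable

theorem tsum_one {ι : Type} {f : ι → ℝ} (h0 : ∀ i, 0 ≤ f i) (h1 : ∑ᶠ i, f i = 1) :
    ∑' i, ENNReal.ofReal (f i) = 1 := by
  have hfin : (Function.support f).Finite := by
    by_contra hinf
    rw [finsum_of_infinite_support hinf] at h1
    exact zero_ne_one h1
  have h2 : Summable f := summable_of_hasFiniteSupport hfin
  rw [← ENNReal.ofReal_tsum_of_nonneg h0 h2, tsum_eq_finsum hfin, h1, ENNReal.ofReal_one]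

section unfold
variable [MeasurableSpace E] [BorelSpace E] (μ : Measure E) [μ.IsAddHaarMeasure]

theorem AffAct.change (h : AffAct Γ E hol Ω)
    (hu : ∀ γ : Γ, |LinearMap.det ((hol γ).linear : E →ₗ[ℝ] E)| = 1) (g : E → ENNReal) (γ : Γ) :
    ∫⁻ x in Ω, g x ∂μ = ∫⁻ x in Ω, g (hol γ x) ∂μ := by
  let L : E →L[ℝ] E := LinearMap.toContinuousLinearMap ((hol γ).linear : E →ₗ[ℝ] E)
  have hhol : ∀ x, HasFDerivAt (fun z => hol γ z) L x := by
    intro x
    have e1 : (fun z : E => hol γ z) = fun z => L z + hol γ 0 := by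
      funext z
      exact aff_apply (hol γ) z
    rw [e1]
    exact L.hasFDerivAt.add_const _
  have himg : (fun z => hol γ z) '' Ω = Ω := by
    ext y
    constructor
    · rintro ⟨x, hx, rfl⟩
      exact h.inv γ x hx
    · intro hy
      exact ⟨hol γ⁻¹ y, h.inv γ⁻¹ y hy, hol_inv' γ y⟩
  have h1 := lintegral_image_eq_lintegral_abs_det_fderiv_mul μ h.isOpen.measurableSet
    (f := fun z => hol γ z) (f' := fun _ => L) (fun x _ => (hhol x).hasFDerivWithinAt)
    ((hol γ).injective.injOn) g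
  rw [himg] at h1
  rw [h1]
  refine lintegral_congr fun x => ?_
  have h2 : |L.det| = 1 := hu γ
  rw [h2, ENNReal.ofReal_one, one_mul]

theorem AffAct.unfold (h : AffAct Γ E hol Ω)
    (hu : ∀ γ : Γ, |LinearMap.det ((hol γ).linear : E →ₗ[ℝ] E)| = 1) (b c J : E → ENNReal)
    (hbm : ContinuousOn b Ω) (hcm : ContinuousOn c Ω) (hJm : ContinuousOn J Ω)
    (hb : ∀ x ∈ Ω, ∑' γ, b (hol γ x) = 1) (hc : ∀ x ∈ Ω, ∑' γ, c (hol γ x) = 1)
    (hJ : ∀ γ : Γ, ∀ x ∈ Ω, J (hol γ x) = J x) :
    ∫⁻ x in Ω, b x * J x ∂μ = ∫⁻ x in Ω, c x * J x ∂μ := by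
  haveI := h.countable
  have hms := h.isOpen.measurableSet
  have hcomp : ∀ (f : E → ENNReal), ContinuousOn f Ω → ∀ γ : Γ,
      AEMeasurable (fun x => f (hol γ x)) (μ.restrict Ω) := by
    intro f hf γ
    have h1 : ContinuousOn (fun x => f (hol γ x)) Ω :=
      hf.comp (hol_cont γ).continuousOn fun x hx => h.inv γ x hx
    exact h1.aemeasurable hms
  have h1 : ∫⁻ x in Ω, b x * J x ∂μ = ∫⁻ x in Ω, ∑' γ, (b x * c (hol γ x) * J x) ∂μ := by
    refine setLIntegral_congr_fun hms fun x hx => ?_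
    rw [ENNReal.tsum_mul_right, ENNReal.tsum_mul_left, hc x hx, mul_one]
  have h2 : ∫⁻ x in Ω, c x * J x ∂μ = ∫⁻ x in Ω, ∑' γ, (b (hol γ x) * c x * J x) ∂μ := by
    refine setLIntegral_congr_fun hms fun x hx => ?_
    rw [ENNReal.tsum_mul_right, ENNReal.tsum_mul_right, hb x hx, one_mul]
  rw [h1, h2, lintegral_tsum, lintegral_tsum]
  · rw [← (Equiv.inv Γ).tsum_eq]
    refine tsum_congr fun γ => ?_
    rw [h.change μ hu _ γ]
    refine setLIntegral_congr_fun hms fun x hx => ?_
    simp only [Equiv.inv_apply]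
    rw [hol_inv, hJ γ x hx]
  · intro γ
    exact ((hcomp b hbm γ).mul (hcm.aemeasurable hms)).mul (hJm.aemeasurable hms)
  · intro γ
    exact ((hbm.aemeasurable hms).mul (hcomp c hcm γ)).mul (hJm.aemeasurable hms)

end unfold

/-- invariance of the determinant -/
theorem AffAct.det_inv (h : AffAct Γ E hol Ω) (V : E → E) (hV : ContDiffOn ℝ 1 V Ω)
    (hVe : ∀ γ : Γ, ∀ x ∈ Ω, V (hol γ x) = (hol γ).linear (V x)) (t : ℝ) (γ : Γ) (x : E)
    (hx : x ∈ Ω) : LinearMap.det (LinearMap.id + t • (fderiv ℝ V (hol γ x) : E →ₗ[ℝ] E)) =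
      LinearMap.det (LinearMap.id + t • (fderiv ℝ V x : E →ₗ[ℝ] E)) := by
  have hVd : ∀ z ∈ Ω, HasFDerivAt V (fderiv ℝ V z) z := fun z hz =>
    ((hV.differentiableOn one_ne_zero).differentiableAt (h.isOpen.mem_nhds hz)).hasFDerivAt
  let L : E →L[ℝ] E := LinearMap.toContinuousLinearMap ((hol γ).linear : E →ₗ[ℝ] E)
  have hhol : HasFDerivAt (fun z => hol γ z) L x := by
    have e1 : (fun z : E => hol γ z) = fun z => L z + hol γ 0 := by
      funext z
      exact aff_apply (hol γ) z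
    rw [e1]
    exact L.hasFDerivAt.add_const _
  have h2 : HasFDerivAt (fun z => V (hol γ z)) ((fderiv ℝ V (hol γ x)).comp L) x :=
    HasFDerivAt.comp x (hVd _ (h.inv γ x hx)) hhol
  have h3 : HasFDerivAt (fun z => V (hol γ z)) (L.comp (fderiv ℝ V x)) x := by
    refine (L.hasFDerivAt.comp x (hVd x hx)).congr_of_eventuallyEq ?_
    filter_upwards [h.isOpen.mem_nhds hx] with z hz
    exact hVe γ z hz
  have h4 := h2.unique h3
  have h5 : LinearMap.id + t • (fderiv ℝ V (hol γ x) : E →ₗ[ℝ] E) =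
      ((hol γ).linear : E →ₗ[ℝ] E) ∘ₗ (LinearMap.id + t • (fderiv ℝ V x : E →ₗ[ℝ] E)) ∘ₗ
        ((hol γ).linear.symm : E →ₗ[ℝ] E) := by
    refine LinearMap.ext fun v => ?_
    have h6 : (fderiv ℝ V (hol γ x)) v =
        (hol γ).linear ((fderiv ℝ V x) ((hol γ).linear.symm v)) := by
      have h7 := congrArg (fun Y : E →L[ℝ] E => Y ((hol γ).linear.symm v)) h4
      have h8 : (fderiv ℝ V (hol γ x)) ((hol γ).linear ((hol γ).linear.symm v)) =
        (hol γ).linear ((fderiv ℝ V x) ((hol γ).linear.symm v)) := h7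
      rwa [LinearEquiv.apply_symm_apply] at h8
    change v + t • (fderiv ℝ V (hol γ x)) v = (hol γ).linear ((hol γ).linear.symm v +
      t • (fderiv ℝ V x) ((hol γ).linear.symm v))
    rw [map_add, LinearEquiv.apply_symm_apply, map_smul, h6]
  rw [h5, LinearMap.det_conj]

theorem AffAct.Jcont (h : AffAct Γ E hol Ω) (V : E → E) (hV : ContDiffOn ℝ 1 V Ω) (t : ℝ) :
    ContinuousOn (fun x => LinearMap.det (LinearMap.id + t • (fderiv ℝ V x : E →ₗ[ℝ] E))) Ω := by
  have h2 : ContinuousOn (fderiv ℝ V) Ω := hV.continuousOn_fderiv_of_isOpen h.isOpen le_rfl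
  have h3 : ContinuousOn (fun x => ContinuousLinearMap.id ℝ E + t • fderiv ℝ V x) Ω :=
    continuousOn_const.add (h2.const_smul t)
  exact (ContinuousLinearMap.continuous_det (𝕜 := ℝ) (E := E)).comp_continuousOn h3

/-- the degree argument: equivariant maps into the affine space have maximal rank somewhere -/
theorem AffAct.degree (h : AffAct Γ E hol Ω)
    (hu : ∀ γ : Γ, |LinearMap.det ((hol γ).linear : E →ₗ[ℝ] E)| = 1) (G : E → E)
    (hG : ContDiffOn ℝ 1 G Ω) (hGe : ∀ γ : Γ, ∀ x ∈ Ω, G (hol γ x) = hol γ (G x)) :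
    ∃ x ∈ Ω, LinearMap.det (fderiv ℝ G x : E →ₗ[ℝ] E) ≠ 0 := by
  classical
  borelize E
  obtain ⟨μ, hμ⟩ : ∃ μ : Measure E, μ.IsAddHaarMeasure := ⟨Measure.addHaar, inferInstance⟩
  have hms := h.isOpen.measurableSet
  let V : E → E := fun x => G x - x
  have hV : ContDiffOn ℝ 1 V Ω := hG.sub contDiffOn_id
  have hVe : ∀ γ : Γ, ∀ x ∈ Ω, V (hol γ x) = (hol γ).linear (V x) := by
    intro γ x hx
    simp only [V]
    rw [hGe γ x hx, lin_sub]
  obtain ⟨b, K, hK, hKΩ, hbc, hb0, hbn, hb1⟩ := h.unit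
  obtain ⟨t₀, ht₀, hsm⟩ := h.small V hV hVe
  obtain ⟨m, t, w, ht, hw, hdet⟩ := det_interp (E := E) ht₀
  have hVd : ∀ z ∈ Ω, HasFDerivAt V (fderiv ℝ V z) z := fun z hz =>
    ((hV.differentiableOn one_ne_zero).differentiableAt (h.isOpen.mem_nhds hz)).hasFDerivAt
  -- all the averages agree
  have hI : ∀ s : ℝ, 0 < s → s < t₀ → ∫⁻ x in Ω, ENNReal.ofReal (b x) *
      ENNReal.ofReal (LinearMap.det (LinearMap.id + s • (fderiv ℝ V x : E →ₗ[ℝ] E))) ∂μ =
      ∫⁻ x in Ω, ENNReal.ofReal (b x) ∂μ := by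
    intro s hs0 hs1
    obtain ⟨hm, hinj, hsurj, hpos⟩ := hsm s hs0 hs1
    have hFc : ContinuousOn (fun x => x + s • V x) Ω :=
      continuousOn_id.add (hV.continuousOn.const_smul s)
    have hFe : ∀ γ : Γ, ∀ x ∈ Ω, hol γ x + s • V (hol γ x) = hol γ (x + s • V x) := by
      intro γ x hx
      rw [hVe γ x hx, hol_add, map_smul]
    have h1 := h.unfold μ hu (fun x => ENNReal.ofReal (b x))
      (fun x => ENNReal.ofReal (b (x + s • V x)))
      (fun x => ENNReal.ofReal (LinearMap.det (LinearMap.id + s • (fderiv ℝ V x : E →ₗ[ℝ] E))))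
      (ENNReal.continuous_ofReal.comp hbc).continuousOn
      ((ENNReal.continuous_ofReal.comp hbc).comp_continuousOn hFc)
      (ENNReal.continuous_ofReal.comp_continuousOn (h.Jcont V hV s))
      (fun x hx => tsum_one (fun γ => hbn _) (hb1 x hx))
      (fun x hx => ?_) (fun γ x hx => by
        rw [h.det_inv V hV hVe s γ x hx])
    · rw [h1]
      have himg : (fun x => x + s • V x) '' Ω = Ω := by
        ext y
        constructor
        · rintro ⟨x, hx, rfl⟩
          exact hm x hx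
        · intro hy
          obtain ⟨x, hx, hxy⟩ := hsurj y hy
          exact ⟨x, hx, hxy⟩
      have h2 := lintegral_image_eq_lintegral_abs_det_fderiv_mul μ hms
        (f := fun x => x + s • V x) (f' := fun x => ContinuousLinearMap.id ℝ E + s • fderiv ℝ V x)
        (fun x hx => ((hasFDerivAt_id x).add ((hVd x hx).const_smul s)).hasFDerivWithinAt) hinj
        (fun x => ENNReal.ofReal (b x))
      rw [himg] at h2
      rw [h2]
      refine setLIntegral_congr_fun hms fun x hx => ?_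
      have h3 : (ContinuousLinearMap.id ℝ E + s • fderiv ℝ V x).det =
        LinearMap.det (LinearMap.id + s • (fderiv ℝ V x : E →ₗ[ℝ] E)) := rfl
      rw [h3, abs_of_pos (hpos x hx), mul_comm]
    · refine tsum_one (fun γ => hbn _) ?_
      have h2 : ∀ γ : Γ, b (hol γ x + s • V (hol γ x)) = b (hol γ (x + s • V x)) := by
        intro γ
        rw [hFe γ x hx]
      simp only [h2]
      exact hb1 _ (hm x hx)
  -- integrability
  have hint : ∀ s : ℝ, Integrable (fun x => b x *
      LinearMap.det (LinearMap.id + s • (fderiv ℝ V x : E →ₗ[ℝ] E))) μ := by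
    intro s
    have hc : Continuous (fun x => b x *
        LinearMap.det (LinearMap.id + s • (fderiv ℝ V x : E →ₗ[ℝ] E))) := by
      refine cont_ext h.isOpen hK hKΩ (hbc.continuousOn.mul (h.Jcont V hV s)) fun x hx => ?_
      rw [hb0 x hx, zero_mul]
    refine hc.integrable_of_hasCompactSupport ?_
    refine HasCompactSupport.intro hK fun x hx => ?_
    rw [hb0 x hx, zero_mul]
  have hbint : Integrable b μ :=
    hbc.integrable_of_hasCompactSupport (HasCompactSupport.intro hK hb0)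
  have hzero : ∀ x, x ∉ Ω → b x = 0 := fun x hx => hb0 x fun h1 => hx (hKΩ h1)
  -- the real averages
  have hR : ∀ s : ℝ, 0 < s → s < t₀ → ∫ x, b x *
      LinearMap.det (LinearMap.id + s • (fderiv ℝ V x : E →ₗ[ℝ] E)) ∂μ = ∫ x, b x ∂μ := by
    intro s hs0 hs1
    obtain ⟨hm, hinj, hsurj, hpos⟩ := hsm s hs0 hs1
    rw [← setIntegral_eq_integral_of_forall_compl_eq_zero (s := Ω) (μ := μ) (f := b) hzero,
      ← setIntegral_eq_integral_of_forall_compl_eq_zero (s := Ω) (μ := μ) (f := fun x => b x *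
      LinearMap.det (LinearMap.id + s • (fderiv ℝ V x : E →ₗ[ℝ] E))) (fun x hx => by
        rw [hzero x hx, zero_mul])]
    rw [integral_eq_lintegral_of_nonneg_ae, integral_eq_lintegral_of_nonneg_ae]
    · rw [← hI s hs0 hs1]
      congr 1
      refine setLIntegral_congr_fun hms fun x hx => ?_
      exact ENNReal.ofReal_mul (hbn x)
    · exact Filter.Eventually.of_forall fun x => hbn x
    · exact hbint.aestronglyMeasurable.restrict
    · filter_upwards [ae_restrict_mem hms] with x hx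
      exact mul_nonneg (hbn x) (hpos x hx).le
    · exact (hint s).aestronglyMeasurable.restrict
  by_contra hcon
  push Not at hcon
  have hsum : ∫ x, b x * LinearMap.det (LinearMap.id + (fderiv ℝ V x : E →ₗ[ℝ] E)) ∂μ =
      ∫ x, b x ∂μ := by
    have h1 : ∀ x, b x * LinearMap.det (LinearMap.id + (fderiv ℝ V x : E →ₗ[ℝ] E)) =
        ∑ j ∈ Finset.range m, w j * (b x *
          LinearMap.det (LinearMap.id + t j • (fderiv ℝ V x : E →ₗ[ℝ] E))) := by
      intro x
      rw [hdet, Finset.mul_sum]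
      exact Finset.sum_congr rfl fun j _ => by ring
    simp only [h1]
    rw [integral_finsetSum _ fun j _ => (hint (t j)).const_mul (w j)]
    have h2 : ∀ j ∈ Finset.range m, ∫ x, w j * (b x *
        LinearMap.det (LinearMap.id + t j • (fderiv ℝ V x : E →ₗ[ℝ] E))) ∂μ =
        w j * ∫ x, b x ∂μ := by
      intro j hj
      rw [integral_const_mul, hR (t j) (ht j (Finset.mem_range.1 hj)).1
        (ht j (Finset.mem_range.1 hj)).2]
    rw [Finset.sum_congr rfl h2, ← Finset.sum_mul, hw, one_mul]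
  have hz : ∀ x, b x * LinearMap.det (LinearMap.id + (fderiv ℝ V x : E →ₗ[ℝ] E)) = 0 := by
    intro x
    by_cases hx : x ∈ Ω
    · have h1 : LinearMap.id + (fderiv ℝ V x : E →ₗ[ℝ] E) = (fderiv ℝ G x : E →ₗ[ℝ] E) := by
        have hGd : HasFDerivAt G (fderiv ℝ G x) x :=
          ((hG.differentiableOn one_ne_zero).differentiableAt
            (h.isOpen.mem_nhds hx)).hasFDerivAt
        have h2 : fderiv ℝ V x = fderiv ℝ G x - ContinuousLinearMap.id ℝ E :=
          (hGd.sub (hasFDerivAt_id x)).fderiv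
        rw [h2]
        ext v
        simp
      rw [h1, hcon x hx, mul_zero]
    · rw [hzero x hx, zero_mul]
  simp only [hz, integral_zero] at hsum
  -- positivity of the total mass
  obtain ⟨x₀, hx₀⟩ := h.nonempty
  have hex : ∃ y, b y ≠ 0 := by
    by_contra hno
    push Not at hno
    have h1 := hb1 x₀ hx₀
    simp only [hno, finsum_zero] at h1
    exact zero_ne_one h1
  obtain ⟨y, hy⟩ := hex
  have hpos : 0 < ∫ x, b x ∂μ :=
    hbc.integral_pos_of_hasCompactSupport_nonneg_nonzero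
      (HasCompactSupport.intro hK hb0) hbn hy
  rw [← hsum] at hpos
  exact lt_irrefl _ hpos

end Run7.h262.TB
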