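import Pool.Agent.Run7.h262.TB.Vs

/-!
Dimension three.
-/

set_option autoImplicit false

namespace Run7.h262.TB

open Run7.h262.SV

variable {Γ E : Type} [Group Γ] [NormedAddCommGroup E] [NormedSpace ℝ E] [FiniteDimensional ℝ E]
  {hol : Γ →* (E ≃ᵃ[ℝ] E)} {Ω : Set E}

theorem VolAct.three' (h : VolAct Γ E hol Ω) (hinj : Function.Injective hol)
    (hc : IsPreconnected Ω) (hE : Module.finrank ℝ E = 3)
    (hA : ∃ A : Subgroup Γ, A.Normal ∧ A ≠ ⊥ ∧ ∀ a ∈ A, ∀ b ∈ A, a * b = b * a) :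
    Ω = Set.univ := by
  obtain ⟨A, hN, hne, hA⟩ := hA
  obtain ⟨a, ha, ha2⟩ := h.not_invol hinj hA hN hne
  exact h.three hA hc hE hN a ha ha2

/-- reducible linear holonomy -/
theorem VolAct.three_red (h : VolAct Γ E hol Ω) (hinj : Function.Injective hol)
    (hc : IsPreconnected Ω) (hE : Module.finrank ℝ E = 3) (W : Submodule ℝ E) (hW0 : W ≠ ⊥)
    (hW1 : W ≠ ⊤) (hW : ∀ γ : Γ, ∀ v ∈ W, (hol γ).linear v ∈ W) : Ω = Set.univ := by
  refine h.three' hinj hc hE ?_
  let S : ℕ → Submodule ℝ E := fun i =>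
    match i with
    | 0 => ⊥
    | 1 => W
    | _ + 2 => ⊤
  have hpos : 0 < Module.finrank ℝ W := by
    rw [Nat.pos_iff_ne_zero]
    intro h1
    exact hW0 (Submodule.finrank_eq_zero.1 h1)
  have hlt : Module.finrank ℝ W < 3 := by
    rw [← hE]
    exact Submodule.finrank_lt (lt_of_le_of_ne le_top hW1).ne
  refine h.toAffAct.blocks hinj h.unimod S 2 rfl rfl ?_ ?_ ?_
  · intro i hi
    interval_cases i
    · exact bot_lt_iff_ne_bot.2 hW0
    · exact lt_top_iff_ne_top.2 hW1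
  · intro i hi γ v hv
    interval_cases i
    · have h1 : v = 0 := hv
      change _ ∈ (⊥ : Submodule ℝ E)
      rw [h1, map_zero]
      exact Submodule.zero_mem _
    · exact hW γ v hv
    · trivial
  · rw [Finset.sum_range_succ, Finset.sum_range_one]
    change (Module.finrank ℝ W - Module.finrank ℝ (⊥ : Submodule ℝ E) + 1).choose 2 +
      (Module.finrank ℝ (⊤ : Submodule ℝ E) - Module.finrank ℝ W + 1).choose 2 < _
    rw [finrank_bot, finrank_top, hE]
    have h1 : Module.finrank ℝ W = 1 ∨ Module.finrank ℝ W = 2 := by omega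
    rcases h1 with h1 | h1 <;> rw [h1] <;> decide

/-- holonomy which is not faithful or not discrete modulo scalars -/
theorem VolAct.three_small (h : VolAct Γ E hol Ω) (hinj : Function.Injective hol)
    (hc : IsPreconnected Ω) (hE : Module.finrank ℝ E = 3)
    (hs : ∀ δ > 0, ∃ γ : Γ, γ ≠ 1 ∧ ∃ s : ℝ, s ≠ 0 ∧ ∀ v,
      ‖s • (hol γ).linear v - v‖ ≤ δ * ‖v‖) : Ω = Set.univ := by
  refine h.three' hinj hc hE ?_
  let S : ℕ → Submodule ℝ E := fun i =>
    match i with
    | 0 => ⊥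
    | _ + 1 => ⊤
  refine h.toAffAct.small_blocks hinj S 1 rfl rfl ?_ ?_ ?_
  · intro i hi
    interval_cases i
    exact bot_le
  · intro i hi γ v hv
    interval_cases i
    · have h1 : v = 0 := hv
      change _ ∈ (⊥ : Submodule ℝ E)
      rw [h1, map_zero]
      exact Submodule.zero_mem _
    · trivial
  · intro δ hδ
    obtain ⟨γ, hγ, s, hs0, h1⟩ := hs δ hδ
    refine ⟨γ, hγ, fun _ => s, fun _ => hs0, fun i hi v _ => ⟨0, Submodule.zero_mem _, ?_⟩⟩
    rw [sub_zero]
    exact h1 v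

theorem VolAct.rangeV (h : VolAct Γ E hol Ω) : VolAct hol.range E hol.range.subtype Ω := by
  refine ⟨h.toAffAct.range, ?_⟩
  rintro ⟨_, γ, rfl⟩
  exact h.unimod γ

end Run7.h262.TB
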