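import Pool.Agent.Run7.h262.TB.Vol
import Pool.Agent.N520.RO.Asm
import Pool.Agent.N520.RO.Plane

/-!
Flags.
-/

set_option autoImplicit false

open Filter Topology

namespace Run7.h262.TB

open Run7.h262.SV

variable {Γ E : Type} [Group Γ] [NormedAddCommGroup E] [NormedSpace ℝ E] [FiniteDimensional ℝ E]
  {hol : Γ →* (E ≃ᵃ[ℝ] E)} {Ω : Set E}

theorem univ_of_homeo (h : IsHomeomorph (Subtype.val : Ω → E)) : Ω = Set.univ := by
  rw [← Subtype.range_coe (s := Ω)]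
  exact Set.range_eq_univ.2 h.surjective

/-- planes -/
theorem VolAct.plane (h : VolAct Γ E hol Ω) (hc : IsPreconnected Ω)
    (h2 : Module.finrank ℝ E ≤ 2) : Ω = Set.univ := by
  rcases Nat.lt_or_ge (Module.finrank ℝ E) 2 with h3 | h3
  · rcases Nat.lt_or_ge (Module.finrank ℝ E) 1 with h4 | h4
    · have h5 : Subsingleton E := by
        rw [← Module.finrank_zero_iff (R := ℝ)]
        omega
      obtain ⟨x, hx⟩ := h.nonempty
      refine Set.eq_univ_iff_forall.2 fun y => ?_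
      rw [Subsingleton.elim y x]
      exact hx
    · have h5 : Module.finrank ℝ E = 1 := by omega
      obtain ⟨e⟩ := FiniteDimensional.nonempty_linearEquiv_of_finrank_eq (R := ℝ)
        (M := E) (M' := ℝ) (by rw [h5, Module.finrank_self])
      refine h.hyper hc (e : E →ₗ[ℝ] ℝ) fun x hx u hu => ?_
      have h6 : u = 0 := by
        have h7 : e u = e 0 := by
          rw [map_zero]
          exact hu
        exact e.injective h7
      rwa [h6, add_zero]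
  · have h5 : Module.finrank ℝ E = 2 := le_antisymm h2 h3
    let _ : MulAction Γ Ω := h.toAffAct.act
    have : ConnectedSpace Ω := isConnected_iff_connectedSpace.1 ⟨h.nonempty, hc⟩
    refine univ_of_homeo (Pool.Agent.N520.RO.plane_case Ω Γ E Subtype.val hol h.data
      Subtype.val_injective ⊤ inferInstance ⊤ ?_ fun _ _ _ => trivial)
    rw [finrank_top, h5]

/-- quasi-conformal flags -/
theorem VolAct.qcf (h : VolAct Γ E hol Ω) (H : Subgroup Γ) (hH : H.FiniteIndex)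
    (S : ℕ → Submodule ℝ E) (m : ℕ) (h0 : S 0 = ⊥) (hm : S m = ⊤) (hS : ∀ i < m, S i ≤ S (i + 1))
    (hinv : ∀ i ≤ m, ∀ γ ∈ H, ∀ v ∈ S i, (hol γ).linear v ∈ S i)
    (N : ℕ → E → ℝ) (C : ℝ) (hN1 : ∀ i < m, ∀ v, N i v ≤ C * ‖v‖)
    (hN2 : ∀ i < m, ∀ v ∈ S (i + 1), ∃ w ∈ S i, ‖v - w‖ ≤ C * N i v)
    (hN3 : ∀ i < m, ∀ γ ∈ H, ∃ c > 0, ∀ v ∈ S (i + 1), N i ((hol γ).linear v) = c * N i v)
    (hN0 : ∀ i v, 0 ≤ N i v) : Ω = Set.univ := by
  let _ : MulAction Γ Ω := h.toAffAct.act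
  have : Nonempty Ω := h.nonempty.to_subtype
  have hC : 0 ≤ |C| := abs_nonneg C
  refine univ_of_homeo (Pool.Agent.N520.RO.quasi Ω Γ E Subtype.val hol h.data
    Subtype.val_injective H hH S m ⟨h0, hm, hS, hinv, |C| * |C|, fun i hi γ hγ => ?_⟩).1
  obtain ⟨c, hc, h1⟩ := hN3 i hi γ hγ
  refine ⟨c, hc, fun v hv => ⟨?_, ?_⟩⟩
  · have h2 := hinv (i + 1) hi γ hγ v hv
    obtain ⟨w, hw, h3⟩ := hN2 i hi _ h2
    refine ⟨w, hw, h3.trans ?_⟩
    rw [h1 v hv]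
    have h4 : C * (c * N i v) ≤ |C| * (c * N i v) :=
      mul_le_mul_of_nonneg_right (le_abs_self C) (mul_nonneg hc.le (hN0 i v))
    refine h4.trans ?_
    have h5 : N i v ≤ |C| * ‖v‖ :=
      (hN1 i hi v).trans (mul_le_mul_of_nonneg_right (le_abs_self C) (norm_nonneg v))
    calc |C| * (c * N i v) ≤ |C| * (c * (|C| * ‖v‖)) :=
          mul_le_mul_of_nonneg_left (mul_le_mul_of_nonneg_left h5 hc.le) hC
      _ = |C| * |C| * c * ‖v‖ := by ring
  · have h2 := hinv (i + 1) hi γ⁻¹ (H.inv_mem hγ) v hv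
    obtain ⟨w, hw, h3⟩ := hN2 i hi _ h2
    refine ⟨w, hw, h3.trans ?_⟩
    have e1 : N i v = c * N i ((hol γ⁻¹).linear v) := by
      rw [← h1 _ h2]
      congr 1
      have := lin_inv (hol := hol) γ⁻¹ v
      rw [inv_inv] at this
      exact this.symm
    have e2 : N i ((hol γ⁻¹).linear v) = c⁻¹ * N i v := by
      rw [e1, ← mul_assoc, inv_mul_cancel₀ hc.ne', one_mul]
    rw [e2]
    have hc' : 0 ≤ c⁻¹ := (inv_pos.2 hc).le
    have h4 : C * (c⁻¹ * N i v) ≤ |C| * (c⁻¹ * N i v) :=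
      mul_le_mul_of_nonneg_right (le_abs_self C) (mul_nonneg hc' (hN0 i v))
    refine h4.trans ?_
    have h5 : N i v ≤ |C| * ‖v‖ :=
      (hN1 i hi v).trans (mul_le_mul_of_nonneg_right (le_abs_self C) (norm_nonneg v))
    calc |C| * (c⁻¹ * N i v) ≤ |C| * (c⁻¹ * (|C| * ‖v‖)) :=
          mul_le_mul_of_nonneg_left (mul_le_mul_of_nonneg_left h5 hc') hC
      _ = |C| * |C| * c⁻¹ * ‖v‖ := by ring

/-- functionals vanishing on a subspace of codimension one -/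
theorem exists_fun (W W' : Submodule ℝ E) (hW : W ≤ W')
    (hr : Module.finrank ℝ W' ≤ Module.finrank ℝ W + 1) (hne : W ≠ W') :
    ∃ (f : E →ₗ[ℝ] ℝ) (e : E), e ∈ W' ∧ f e = 1 ∧ ∀ v ∈ W', f v = 0 ↔ v ∈ W := by
  obtain ⟨e, he, heW⟩ := SetLike.exists_of_lt (lt_of_le_of_ne hW hne)
  obtain ⟨f, hf, hfW⟩ := Submodule.exists_le_ker_of_notMem heW
  have h1 : (f e)⁻¹ • f ≠ 0 := by
    intro h2
    have h3 := LinearMap.congr_fun h2 e
    rw [LinearMap.smul_apply, smul_eq_mul, inv_mul_cancel₀ hf] at h3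
    exact one_ne_zero h3
  refine ⟨(f e)⁻¹ • f, e, he, ?_, fun v hv => ⟨fun h2 => ?_, fun h2 => ?_⟩⟩
  · rw [LinearMap.smul_apply, smul_eq_mul, inv_mul_cancel₀ hf]
  · rw [LinearMap.smul_apply, smul_eq_mul, mul_eq_zero] at h2
    have h3 : f v = 0 := h2.resolve_left (inv_ne_zero hf)
    have h4 : W ≤ LinearMap.ker f ⊓ W' := le_inf hfW hW
    have h5 : LinearMap.ker f ⊓ W' < W' := by
      refine lt_of_le_of_ne inf_le_right fun h6 => ?_
      have h7 : e ∈ LinearMap.ker f ⊓ W' := by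
        rw [h6]
        exact he
      exact hf h7.1
    have h6 := Submodule.finrank_lt_finrank_of_lt h5
    have h7 := Submodule.eq_of_le_of_finrank_le h4 (by omega)
    rw [h7]
    exact ⟨h3, hv⟩
  · rw [LinearMap.smul_apply, LinearMap.mem_ker.1 (hfW h2), smul_zero]

theorem fun_scale (γ : Γ) (W W' : Submodule ℝ E) (hW : ∀ v ∈ W, (hol γ).linear v ∈ W)
    (hWi : ∀ v ∈ W, (hol γ⁻¹).linear v ∈ W) (hW' : ∀ v ∈ W', (hol γ).linear v ∈ W')
    {f : E →ₗ[ℝ] ℝ} {e : E} (he : e ∈ W') (hfe : f e = 1) (hf : ∀ v ∈ W', f v = 0 ↔ v ∈ W) :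
    ∃ c > 0, ∀ v ∈ W', |f ((hol γ).linear v)| = c * |f v| := by
  refine ⟨|f ((hol γ).linear e)|, ?_, fun v hv => ?_⟩
  · rw [gt_iff_lt, abs_pos]
    intro h1
    rw [hf _ (hW' e he)] at h1
    have h2 := hWi _ h1
    rw [lin_inv] at h2
    rw [← hf e he, hfe] at h2
    exact one_ne_zero h2
  · have h1 : f (v - f v • e) = 0 := by
      rw [map_sub, map_smul, hfe, smul_eq_mul, mul_one, sub_self]
    rw [hf _ (Submodule.sub_mem _ hv (Submodule.smul_mem _ _ he))] at h1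
    have h2 := hW _ h1
    rw [← hf _ (hW' _ (Submodule.sub_mem _ hv (Submodule.smul_mem _ _ he))), map_sub, map_sub,
      map_smul, map_smul, smul_eq_mul, sub_eq_zero] at h2
    rw [h2, abs_mul, mul_comm]

/-- quasi-conformal data on one quotient of a flag -/
def QC (hol : Γ →* (E ≃ᵃ[ℝ] E)) (H : Subgroup Γ) (W W' : Submodule ℝ E) : Prop :=
  ∃ (N : E → ℝ) (C : ℝ), (∀ v, 0 ≤ N v) ∧ (∀ v, N v ≤ C * ‖v‖) ∧
    (∀ v ∈ W', ∃ w ∈ W, ‖v - w‖ ≤ C * N v) ∧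
    ∀ γ ∈ H, ∃ c > 0, ∀ v ∈ W', N ((hol γ).linear v) = c * N v

theorem VolAct.qcf' (h : VolAct Γ E hol Ω) (H : Subgroup Γ) (hH : H.FiniteIndex)
    (S : ℕ → Submodule ℝ E) (m : ℕ) (h0 : S 0 = ⊥) (hm : S m = ⊤) (hS : ∀ i < m, S i ≤ S (i + 1))
    (hinv : ∀ i ≤ m, ∀ γ ∈ H, ∀ v ∈ S i, (hol γ).linear v ∈ S i)
    (hQ : ∀ i < m, QC hol H (S i) (S (i + 1))) : Ω = Set.univ := by
  classical
  have hQ' : ∀ i, ∃ (N : E → ℝ) (C : ℝ), (∀ v, 0 ≤ N v) ∧ (i < m → (∀ v, N v ≤ C * ‖v‖) ∧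
    (∀ v ∈ S (i + 1), ∃ w ∈ S i, ‖v - w‖ ≤ C * N v) ∧
    ∀ γ ∈ H, ∃ c > 0, ∀ v ∈ S (i + 1), N ((hol γ).linear v) = c * N v) := by
    intro i
    by_cases hi : i < m
    · obtain ⟨N, C, h1, h2⟩ := hQ i hi
      exact ⟨N, C, h1, fun _ => h2⟩
    · exact ⟨fun _ => 0, 0, fun _ => le_rfl, fun h => absurd h hi⟩
  choose N C hN0 hN using hQ'
  have hle : ∀ i < m, C i ≤ ∑ j ∈ Finset.range m, |C j| := fun i hi =>
    (le_abs_self _).trans (Finset.single_le_sum (f := fun j => |C j|) (fun j _ => abs_nonneg _)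
      (Finset.mem_range.2 hi))
  refine h.qcf H hH S m h0 hm hS hinv N (∑ j ∈ Finset.range m, |C j|) ?_ ?_ ?_ hN0
  · intro i hi v
    exact ((hN i hi).1 v).trans (mul_le_mul_of_nonneg_right (hle i hi) (norm_nonneg v))
  · intro i hi v hv
    obtain ⟨w, hw, h1⟩ := (hN i hi).2.1 v hv
    exact ⟨w, hw, h1.trans (mul_le_mul_of_nonneg_right (hle i hi) (hN0 i v))⟩
  · intro i hi
    exact (hN i hi).2.2

theorem QC_line (H : Subgroup Γ) (W W' : Submodule ℝ E) (hW : W ≤ W')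
    (hr : Module.finrank ℝ W' ≤ Module.finrank ℝ W + 1) (hne : W ≠ W')
    (h1 : ∀ γ ∈ H, ∀ v ∈ W, (hol γ).linear v ∈ W)
    (h2 : ∀ γ ∈ H, ∀ v ∈ W', (hol γ).linear v ∈ W') : QC hol H W W' := by
  obtain ⟨f, e, he, hfe, hf⟩ := exists_fun W W' hW hr hne
  let g : E →L[ℝ] ℝ := LinearMap.toContinuousLinearMap f
  refine ⟨fun v => |f v|, max ‖g‖ ‖e‖, fun v => abs_nonneg _, fun v => ?_, fun v hv => ?_,
    fun γ hγ => ?_⟩
  · have h3 : |f v| ≤ ‖g‖ * ‖v‖ := by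
      rw [← Real.norm_eq_abs]
      exact g.le_opNorm v
    exact h3.trans (mul_le_mul_of_nonneg_right (le_max_left _ _) (norm_nonneg v))
  · refine ⟨v - f v • e, ?_, ?_⟩
    · rw [← hf _ (Submodule.sub_mem _ hv (Submodule.smul_mem _ _ he)), map_sub, map_smul, hfe,
        smul_eq_mul, mul_one, sub_self]
    · rw [sub_sub_cancel, norm_smul, Real.norm_eq_abs, mul_comm]
      exact mul_le_mul_of_nonneg_right (le_max_right _ _) (abs_nonneg _)
  · exact fun_scale γ W W' (h1 γ hγ) (h1 γ⁻¹ (H.inv_mem hγ)) (h2 γ hγ) he hfe hf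

/-- invariant lines in invariant planes -/
theorem VolAct.lines (h : VolAct Γ E hol Ω) (H : Subgroup Γ) (hH : H.FiniteIndex)
    (l P : Submodule ℝ E) (hlP : l ≤ P) (hl : Module.finrank ℝ l = 1)
    (hP : Module.finrank ℝ P = 2) (hE : Module.finrank ℝ E = 3)
    (hl' : ∀ γ ∈ H, ∀ v ∈ l, (hol γ).linear v ∈ l)
    (hP' : ∀ γ ∈ H, ∀ v ∈ P, (hol γ).linear v ∈ P) : Ω = Set.univ := by
  let S : ℕ → Submodule ℝ E := fun i =>
    match i with
    | 0 => ⊥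
    | 1 => l
    | 2 => P
    | _ + 3 => ⊤
  have hne0 : (⊥ : Submodule ℝ E) ≠ l := by
    rintro rfl
    rw [finrank_bot] at hl
    omega
  have hne1 : l ≠ P := by
    rintro rfl
    omega
  have hne2 : P ≠ ⊤ := by
    rintro rfl
    rw [finrank_top] at hP
    omega
  have hbot : ∀ γ ∈ H, ∀ v ∈ (⊥ : Submodule ℝ E), (hol γ).linear v ∈ (⊥ : Submodule ℝ E) := by
    intro γ _ v hv
    rw [(Submodule.mem_bot ℝ).1 hv, map_zero]
    exact Submodule.zero_mem _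
  have htop : ∀ γ ∈ H, ∀ v ∈ (⊤ : Submodule ℝ E), (hol γ).linear v ∈ (⊤ : Submodule ℝ E) :=
    fun _ _ _ _ => trivial
  refine h.qcf' H hH S 3 rfl rfl ?_ ?_ ?_
  · intro i hi
    interval_cases i
    · exact bot_le
    · exact hlP
    · exact le_top
  · intro i hi
    interval_cases i
    · exact hbot
    · exact hl'
    · exact hP'
    · exact htop
  · intro i hi
    interval_cases i
    · refine QC_line H _ _ bot_le ?_ hne0 hbot hl'
      rw [finrank_bot, hl]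
    · refine QC_line H _ _ hlP ?_ hne1 hl' hP'
      rw [hl, hP]
    · refine QC_line H _ _ le_top ?_ hne2 hP' htop
      rw [finrank_top, hE, hP]

/-- invariant lines, and a conformal structure on the quotient -/
theorem VolAct.line_conf (h : VolAct Γ E hol Ω) (H : Subgroup Γ) (hH : H.FiniteIndex)
    (l : Submodule ℝ E) (hl : Module.finrank ℝ l = 1)
    (hl' : ∀ γ ∈ H, ∀ v ∈ l, (hol γ).linear v ∈ l)
    (hQ : QC hol H l ⊤) : Ω = Set.univ := by
  let S : ℕ → Submodule ℝ E := fun i =>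
    match i with
    | 0 => ⊥
    | 1 => l
    | _ + 2 => ⊤
  have hne0 : (⊥ : Submodule ℝ E) ≠ l := by
    rintro rfl
    rw [finrank_bot] at hl
    omega
  have hbot : ∀ γ ∈ H, ∀ v ∈ (⊥ : Submodule ℝ E), (hol γ).linear v ∈ (⊥ : Submodule ℝ E) := by
    intro γ _ v hv
    rw [(Submodule.mem_bot ℝ).1 hv, map_zero]
    exact Submodule.zero_mem _
  refine h.qcf' H hH S 2 rfl rfl ?_ ?_ ?_
  · intro i hi
    interval_cases i
    · exact bot_le
    · exact le_top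
  · intro i hi
    interval_cases i
    · exact hbot
    · exact hl'
    · exact fun _ _ _ _ => trivial
  · intro i hi
    interval_cases i
    · refine QC_line H _ _ bot_le ?_ hne0 hbot hl'
      rw [finrank_bot, hl]
    · exact hQ

/-- conformal structures from quadratic forms -/
theorem QC_quad (H : Subgroup Γ) (W : Submodule ℝ E) (q : E → ℝ) (hq : Continuous q)
    (hq2 : ∀ (r : ℝ) v, q (r • v) = r ^ 2 * q v) (hqW : ∀ v, ∀ w ∈ W, q (v + w) = q v)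
    (hq0 : ∀ v, q v = 0 → v ∈ W)
    (hqγ : ∀ γ ∈ H, ∃ c : ℝ, c ≠ 0 ∧ ∀ v, q ((hol γ).linear v) = c * q v) : QC hol H W ⊤ := by
  obtain ⟨W', hW'⟩ := W.exists_isCompl
  -- upper bound
  obtain ⟨C₁, hC₁⟩ : ∃ C, ∀ v, |q v| ≤ C ^ 2 * ‖v‖ ^ 2 := by
    obtain ⟨C, hC⟩ := (isCompact_closedBall (0 : E) 1).exists_bound_of_continuousOn
      hq.continuousOn
    have hC0 : 0 ≤ C := (norm_nonneg _).trans (hC 0 (Metric.mem_closedBall_self zero_le_one))
    refine ⟨√C, fun v => ?_⟩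
    rw [Real.sq_sqrt hC0]
    by_cases hv : v = 0
    · rw [hv]
      have h1 := hq2 0 0
      rw [smul_zero] at h1
      simp at h1
      rw [h1, abs_zero, norm_zero]
      simp
    · have h1 : v = ‖v‖ • (‖v‖⁻¹ • v) := by
        rw [smul_smul, mul_inv_cancel₀ (norm_ne_zero_iff.2 hv), one_smul]
      have h2 : ‖‖v‖⁻¹ • v‖ = 1 := by
        rw [norm_smul, norm_inv, norm_norm, inv_mul_cancel₀ (norm_ne_zero_iff.2 hv)]
      have h3 := hC (‖v‖⁻¹ • v) (by rw [mem_closedBall_zero_iff, h2])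
      rw [Real.norm_eq_abs] at h3
      have h4 : |q v| = ‖v‖ ^ 2 * |q (‖v‖⁻¹ • v)| := by
        conv_lhs => rw [h1]
        rw [hq2, abs_mul, abs_of_nonneg (sq_nonneg _)]
      rw [h4, mul_comm]
      exact mul_le_mul_of_nonneg_right h3 (sq_nonneg _)
  -- lower bound
  obtain ⟨C₂, hC₂0, hC₂⟩ : ∃ C, 0 < C ∧ ∀ v ∈ W', ‖v‖ ^ 2 ≤ C ^ 2 * |q v| := by
    have hcpt : IsCompact (Metric.sphere (0 : E) 1 ∩ (W' : Set E)) :=
      (isCompact_sphere 0 1).inter_right W'.closed_of_finiteDimensional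
    obtain ⟨c, hc0, hc⟩ : ∃ c > 0, ∀ v ∈ Metric.sphere (0 : E) 1 ∩ (W' : Set E), c ≤ |q v| := by
      rcases (Metric.sphere (0 : E) 1 ∩ (W' : Set E)).eq_empty_or_nonempty with he | hne
      · refine ⟨1, one_pos, fun v hv => ?_⟩
        rw [he] at hv
        exact absurd hv (Set.notMem_empty v)
      · obtain ⟨v₀, hv₀, hmin⟩ := hcpt.exists_isMinOn hne hq.abs.continuousOn
        refine ⟨|q v₀|, ?_, fun v hv => hmin hv⟩
        rw [gt_iff_lt, abs_pos]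
        intro h1
        have h2 : v₀ ∈ W ⊓ W' := ⟨hq0 _ h1, hv₀.2⟩
        rw [hW'.inf_eq_bot, Submodule.mem_bot] at h2
        have h3 := hv₀.1
        rw [mem_sphere_zero_iff_norm, h2, norm_zero] at h3
        exact zero_ne_one h3
    refine ⟨√c⁻¹, Real.sqrt_pos.2 (inv_pos.2 hc0), fun v hv => ?_⟩
    rw [Real.sq_sqrt (inv_pos.2 hc0).le]
    by_cases hv0 : v = 0
    · rw [hv0, norm_zero]
      have : 0 ≤ c⁻¹ * |q 0| := mul_nonneg (inv_pos.2 hc0).le (abs_nonneg _)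
      simpa using this
    · have h1 : v = ‖v‖ • (‖v‖⁻¹ • v) := by
        rw [smul_smul, mul_inv_cancel₀ (norm_ne_zero_iff.2 hv0), one_smul]
      have h2 : ‖‖v‖⁻¹ • v‖ = 1 := by
        rw [norm_smul, norm_inv, norm_norm, inv_mul_cancel₀ (norm_ne_zero_iff.2 hv0)]
      have h3 := hc (‖v‖⁻¹ • v) ⟨by rw [mem_sphere_zero_iff_norm, h2], W'.smul_mem _ hv⟩
      have h4 : |q v| = ‖v‖ ^ 2 * |q (‖v‖⁻¹ • v)| := by
        conv_lhs => rw [h1]
        rw [hq2, abs_mul, abs_of_nonneg (sq_nonneg _)]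
      rw [h4]
      have h5 : ‖v‖ ^ 2 * c ≤ ‖v‖ ^ 2 * |q (‖v‖⁻¹ • v)| :=
        mul_le_mul_of_nonneg_left h3 (sq_nonneg _)
      calc ‖v‖ ^ 2 = c⁻¹ * (‖v‖ ^ 2 * c) := by field_simp
        _ ≤ c⁻¹ * (‖v‖ ^ 2 * |q (‖v‖⁻¹ • v)|) :=
          mul_le_mul_of_nonneg_left h5 (inv_pos.2 hc0).le
  refine ⟨fun v => √|q v|, max |C₁| C₂, fun v => Real.sqrt_nonneg _, fun v => ?_, fun v _ => ?_,
    fun γ hγ => ?_⟩
  · have h1 : √|q v| ≤ |C₁| * ‖v‖ := by
      rw [Real.sqrt_le_left (mul_nonneg (abs_nonneg _) (norm_nonneg _)), mul_pow, sq_abs]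
      exact hC₁ v
    exact h1.trans (mul_le_mul_of_nonneg_right (le_max_left _ _) (norm_nonneg v))
  · have hv : v ∈ W ⊔ W' := by
      rw [hW'.sup_eq_top]
      trivial
    obtain ⟨w, hw, w', hw', rfl⟩ := Submodule.mem_sup.1 hv
    refine ⟨w, hw, ?_⟩
    rw [add_sub_cancel_left, add_comm w w']
    simp only
    rw [hqW w' w hw]
    have h1 : ‖w'‖ ≤ C₂ * √|q w'| := by
      have h2 : ‖w'‖ = √(‖w'‖ ^ 2) := (Real.sqrt_sq (norm_nonneg _)).symm
      rw [h2]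
      have h3 : C₂ * √|q w'| = √(C₂ ^ 2 * |q w'|) := by
        rw [Real.sqrt_mul (sq_nonneg _), Real.sqrt_sq hC₂0.le]
      rw [h3]
      exact Real.sqrt_le_sqrt (hC₂ w' hw')
    exact h1.trans (mul_le_mul_of_nonneg_right (le_max_right _ _) (Real.sqrt_nonneg _))
  · obtain ⟨c, hc0, hc⟩ := hqγ γ hγ
    refine ⟨√|c|, Real.sqrt_pos.2 (abs_pos.2 hc0), fun v _ => ?_⟩
    simp only
    rw [hc, abs_mul, Real.sqrt_mul (abs_nonneg _)]

end Run7.h262.TB
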