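import Mathlib

/-!
Commuting families of linear maps.
-/

set_option autoImplicit false

open Filter Topology

namespace Run7.h262.TB

section
variable {V : Type} [AddCommGroup V] [Module ℝ V] [FiniteDimensional ℝ V]

/-- invariant subspaces of a family -/
def Inv (H : Set (V →ₗ[ℝ] V)) (W : Submodule ℝ V) : Prop := ∀ Y ∈ H, ∀ v ∈ W, Y v ∈ W

theorem fit (Y : V →ₗ[ℝ] V) (W : Submodule ℝ V) (hW : ∀ v ∈ W, Y v ∈ W) (w : V) (hw : w ∈ W) :
    ∃ w₀ ∈ W, ∃ m : ℕ, (Y ^ m) w₀ = 0 ∧ ∃ w' ∈ W, w - w₀ = Y w' := by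
  let Z : W →ₗ[ℝ] W := Y.restrict hW
  have hZ : ∀ (m : ℕ) (v : W), (((Z ^ m) v : W) : V) = (Y ^ m) v := by
    intro m
    induction m with
    | zero => intro v; rfl
    | succ m ih =>
      intro v
      rw [pow_succ', pow_succ']
      change Y (((Z ^ m) v : W) : V) = Y ((Y ^ m) v)
      rw [ih]
  obtain ⟨m, hm, hm1⟩ := ((LinearMap.eventually_isCompl_ker_pow_range_pow Z).and
    (eventually_ge_atTop 1)).exists
  obtain ⟨k, rfl⟩ := Nat.exists_eq_add_of_le hm1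
  have h1 : (⟨w, hw⟩ : W) ∈ LinearMap.ker (Z ^ (1 + k)) ⊔ LinearMap.range (Z ^ (1 + k)) := by
    rw [hm.sup_eq_top]
    trivial
  obtain ⟨w₀, h0, w₁, ⟨w₂, h2⟩, h3⟩ := Submodule.mem_sup.1 h1
  refine ⟨w₀, w₀.2, 1 + k, ?_, ((Z ^ k) w₂ : W), ((Z ^ k) w₂ : W).2, ?_⟩
  · rw [← hZ, LinearMap.mem_ker.1 h0]
    rfl
  · have h4 : w = (w₀ : V) + w₁ := by
      rw [← Submodule.coe_add, h3]
    rw [h4, ← h2, add_comm 1 k, pow_succ']
    change (w₀ : V) + Y (((Z ^ k) w₂ : W) : V) - w₀ = Y (((Z ^ k) w₂ : W) : V)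
    abel

theorem comm_pow {Y Z : V →ₗ[ℝ] V} (h : ∀ v, Y (Z v) = Z (Y v)) (m : ℕ) (v : V) :
    (Y ^ m) (Z v) = Z ((Y ^ m) v) := by
  induction m with
  | zero => rfl
  | succ m ih =>
    rw [pow_succ']
    change Y ((Y ^ m) (Z v)) = Z (Y ((Y ^ m) v))
    rw [ih, h]

/-- generalised kernel -/
def nilk (Y : V →ₗ[ℝ] V) : Submodule ℝ V where
  carrier := {v | ∃ m : ℕ, (Y ^ m) v = 0}
  add_mem' := by
    rintro v w ⟨m, hm⟩ ⟨n, hn⟩
    refine ⟨m + n, ?_⟩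
    rw [map_add, pow_add]
    have h1 : (Y ^ m * Y ^ n) w = 0 := by
      change (Y ^ m) ((Y ^ n) w) = 0
      rw [hn, map_zero]
    have h2 : (Y ^ m * Y ^ n) v = 0 := by
      rw [← pow_add, add_comm, pow_add]
      change (Y ^ n) ((Y ^ m) v) = 0
      rw [hm, map_zero]
    rw [h1, h2, add_zero]
  zero_mem' := ⟨0, map_zero _⟩
  smul_mem' := by
    rintro r v ⟨m, hm⟩
    exact ⟨m, by rw [map_smul, hm, smul_zero]⟩

theorem exists_null (H : Set (V →ₗ[ℝ] V)) (hH : ∀ Y ∈ H, ∀ Z ∈ H, ∀ v, Y (Z v) = Z (Y v))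
    (f : V →ₗ[ℝ] ℝ) (hf : ∀ Y ∈ H, ∀ v, f (Y v) = 0) (w : V) (hw : f w = 1) :
    ∃ w, f w = 1 ∧ ∀ Y ∈ H, ∃ m : ℕ, (Y ^ m) w = 0 := by
  classical
  have hex : ∃ d, ∃ W : Submodule ℝ V, (∃ w ∈ W, f w = 1) ∧ Inv H W ∧ Module.finrank ℝ W = d :=
    ⟨_, ⊤, ⟨w, trivial, hw⟩, fun _ _ _ _ => trivial, rfl⟩
  obtain ⟨W, ⟨w, hwW, hw⟩, hW, hd⟩ := Nat.find_spec hex
  have hmin := fun j => @Nat.find_min _ _ hex j
  rw [← hd] at hmin
  refine ⟨w, hw, fun Y hY => ?_⟩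
  obtain ⟨w₀, hw₀, m, hm, w', hw', h1⟩ := fit Y W (hW Y hY) w hwW
  have h2 : f w₀ = 1 := by
    have h3 : f (w - w₀) = 0 := by rw [h1, hf Y hY]
    rw [map_sub, hw] at h3
    linarith
  have h3 : W ⊓ nilk Y = W := by
    refine Submodule.eq_of_le_of_finrank_le inf_le_left ?_
    by_contra hcon
    push Not at hcon
    refine hmin _ hcon ⟨W ⊓ nilk Y, ⟨w₀, ⟨hw₀, m, hm⟩, h2⟩, ?_, rfl⟩
    rintro Z hZ v ⟨hv, n, hn⟩
    refine ⟨hW Z hZ v hv, n, ?_⟩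
    rw [comm_pow (hH Y hY Z hZ), hn, map_zero]
  have h4 : w ∈ W ⊓ nilk Y := by
    rw [h3]
    exact hwW
  exact h4.2

/-- the span of the values of a family on a subspace -/
def act (H : Set (V →ₗ[ℝ] V)) (W : Submodule ℝ V) : Submodule ℝ V :=
  Submodule.span ℝ {u | ∃ Y ∈ H, ∃ w ∈ W, Y w = u}

theorem nakayama (H : Set (V →ₗ[ℝ] V)) (hH : ∀ Y ∈ H, ∀ Z ∈ H, ∀ v, Y (Z v) = Z (Y v))
    (hn : ∀ Y ∈ H, ∃ m : ℕ, ∀ v, (Y ^ m) v = 0) (W : Submodule ℝ V) (hW : Inv H W)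
    (h0 : W ≠ ⊥) : act H W ≠ W := by
  classical
  have hex : ∃ d, ∃ M : Submodule ℝ V, M < W ∧ Inv H M ∧
      Module.finrank ℝ W - Module.finrank ℝ M = d := by
    refine ⟨_, ⊥, bot_lt_iff_ne_bot.2 h0, fun Y _ v hv => ?_, rfl⟩
    rw [(Submodule.mem_bot ℝ).1 hv, map_zero]
    exact Submodule.zero_mem _
  obtain ⟨M, hM, hMi, hd⟩ := Nat.find_spec hex
  have hmin := fun j => @Nat.find_min _ _ hex j
  rw [← hd] at hmin
  have key : ∀ Y ∈ H, ∀ w ∈ W, Y w ∈ M := by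
    intro Y hY
    have h1 : M ⊔ W.map Y ≤ W := by
      refine sup_le hM.le ?_
      rintro _ ⟨w, hw, rfl⟩
      exact hW Y hY w hw
    have h2 : Inv H (M ⊔ W.map Y) := by
      intro Z hZ v hv
      obtain ⟨a, ha, b, hb, rfl⟩ := Submodule.mem_sup.1 hv
      obtain ⟨w, hw, rfl⟩ := hb
      rw [map_add, ← hH Y hY Z hZ]
      exact Submodule.add_mem _ (Submodule.mem_sup_left (hMi Z hZ a ha))
        (Submodule.mem_sup_right ⟨Z w, hW Z hZ w hw, rfl⟩)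
    by_cases h3 : M ⊔ W.map Y = W
    · exfalso
      obtain ⟨m, hm⟩ := hn Y hY
      have h4 : ∀ k : ℕ, W ≤ M ⊔ W.map (Y ^ k) := by
        intro k
        induction k with
        | zero =>
          rw [pow_zero]
          intro w hw
          exact Submodule.mem_sup_right ⟨w, hw, rfl⟩
        | succ k ih =>
          intro w hw
          rw [← h3] at hw
          obtain ⟨a, ha, b, hb, rfl⟩ := Submodule.mem_sup.1 hw
          obtain ⟨w', hw', rfl⟩ := hb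
          obtain ⟨c, hc, d, hd', rfl⟩ := Submodule.mem_sup.1 (ih hw')
          obtain ⟨w'', hw'', rfl⟩ := hd'
          rw [map_add, ← add_assoc]
          refine Submodule.add_mem _ (Submodule.mem_sup_left
            (Submodule.add_mem _ ha (hMi Y hY c hc))) (Submodule.mem_sup_right ⟨w'', hw'', ?_⟩)
          rw [pow_succ']
          rfl
      have h5 : W ≤ M := by
        intro w hw
        obtain ⟨a, ha, b, hb, rfl⟩ := Submodule.mem_sup.1 (h4 m hw)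
        obtain ⟨w', _, rfl⟩ := hb
        rw [hm, add_zero]
        exact ha
      exact absurd (lt_of_le_of_lt h5 hM) (lt_irrefl _)
    · have h4 : M ⊔ W.map Y < W := lt_of_le_of_ne h1 h3
      have h5 : M = M ⊔ W.map Y := by
        refine Submodule.eq_of_le_of_finrank_le le_sup_left ?_
        by_contra hcon
        push Not at hcon
        have h6 := Submodule.finrank_mono (R := ℝ) h1
        exact hmin (Module.finrank ℝ W - Module.finrank ℝ (M ⊔ W.map Y : Submodule ℝ V))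
          (by omega) ⟨_, h4, h2, rfl⟩
      intro w hw
      rw [h5]
      exact Submodule.mem_sup_right ⟨w, hw, rfl⟩
  intro h
  have h1 : act H W ≤ M := by
    rw [act, Submodule.span_le]
    rintro _ ⟨Y, hY, w, hw, rfl⟩
    exact key Y hY w hw
  rw [h] at h1
  exact absurd (lt_of_le_of_lt h1 hM) (lt_irrefl _)

theorem act_le {H : Set (V →ₗ[ℝ] V)} {W : Submodule ℝ V} (hW : Inv H W) : act H W ≤ W := by
  rw [act, Submodule.span_le]
  rintro _ ⟨Y, hY, w, hw, rfl⟩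
  exact hW Y hY w hw

theorem act_inv {H : Set (V →ₗ[ℝ] V)} {W : Submodule ℝ V} (hW : Inv H W) : Inv H (act H W) := by
  intro Y hY v hv
  exact Submodule.subset_span ⟨Y, hY, v, act_le hW hv, rfl⟩

/-- the family is normalised by linear maps -/
theorem act_norm {H : Set (V →ₗ[ℝ] V)} {W : Submodule ℝ V} (g : V →ₗ[ℝ] V)
    (hg : ∀ Y ∈ H, ∃ Z ∈ H, ∀ v, g (Y v) = Z (g v)) (hW : ∀ v ∈ W, g v ∈ W) :
    ∀ v ∈ act H W, g v ∈ act H W := by
  have h1 : act H W ≤ (act H W).comap g := by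
    conv_lhs => rw [act]
    rw [Submodule.span_le]
    rintro _ ⟨Y, hY, w, hw, rfl⟩
    obtain ⟨Z, hZ, h2⟩ := hg Y hY
    change g (Y w) ∈ act H W
    rw [h2]
    exact Submodule.subset_span ⟨Z, hZ, g w, hW w hw, rfl⟩
  exact fun v hv => h1 hv

/-- the common kernel -/
def ker (H : Set (V →ₗ[ℝ] V)) : Submodule ℝ V where
  carrier := {v | ∀ Y ∈ H, Y v = 0}
  add_mem' := fun hv hw Y hY => by rw [map_add, hv Y hY, hw Y hY, add_zero]
  zero_mem' := fun Y _ => map_zero Y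
  smul_mem' := fun r v hv Y hY => by rw [map_smul, hv Y hY, smul_zero]

theorem ker_norm {H : Set (V →ₗ[ℝ] V)} (g g' : V →ₗ[ℝ] V) (hgg : ∀ v, g' (g v) = v)
    (hgg' : ∀ v, g (g' v) = v)
    (hg : ∀ Y ∈ H, ∃ Z ∈ H, ∀ v, g' (Y v) = Z (g' v)) : ∀ v ∈ ker H, g v ∈ ker H := by
  intro v hv Y hY
  obtain ⟨Z, hZ, h1⟩ := hg Y hY
  have h2 := h1 (g v)
  rw [hgg, hv Z hZ] at h2
  have h3 := congrArg g h2
  rwa [hgg', map_zero] at h3

end

end Run7.h262.TB
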