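import Pool.Agent.Run7.h262.TB.Vol
import Pool.Agent.Run7.h262.TB.Nil

/-!
The Lie algebra of the torus of a commutative normal subgroup is nilpotent when there is a parallel
volume, and it acts freely.
-/

set_option autoImplicit false

open Filter Topology

namespace Run7.h262.TB

open Run7.h262.SV

variable {Γ E : Type} [Group Γ] [NormedAddCommGroup E] [NormedSpace ℝ E] [FiniteDimensional ℝ E]
  {hol : Γ →* (E ≃ᵃ[ℝ] E)} {A : Subgroup Γ} {Ω : Set E}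

/-- the linear maps of the Lie algebra -/
def HL (hol : Γ →* (E ≃ᵃ[ℝ] E)) (A : Subgroup Γ) (hA : ∀ a ∈ A, ∀ b ∈ A, a * b = b * a) :
    Set (E × ℝ →ₗ[ℝ] E × ℝ) := {Y | ∃ X ∈ HH hol A hA, Y = (X : E × ℝ →ₗ[ℝ] E × ℝ)}

theorem HL_comm (hA : ∀ a ∈ A, ∀ b ∈ A, a * b = b * a) :
    ∀ Y ∈ HL hol A hA, ∀ Z ∈ HL hol A hA, ∀ v, Y (Z v) = Z (Y v) := by
  rintro _ ⟨X, hX, rfl⟩ _ ⟨Z, hZ, rfl⟩ v
  have h1 := SS_comm hol A hA (HH_le hol A hA hX) (HH_le hol A hA hZ)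
  exact congrArg (fun Y : AA E => Y v) h1

theorem semi_pow {V : Type} [AddCommGroup V] [Module ℝ V] {X Y g : V →ₗ[ℝ] V}
    (h : ∀ v, X (g v) = g (Y v)) (m : ℕ) (v : V) : (X ^ m) (g v) = g ((Y ^ m) v) := by
  induction m with
  | zero => rfl
  | succ m ih =>
    rw [pow_succ', pow_succ']
    change X ((X ^ m) (g v)) = g (Y ((Y ^ m) v))
    rw [ih, h]

theorem VolAct.nilp (h : VolAct Γ E hol Ω) (hA : ∀ a ∈ A, ∀ b ∈ A, a * b = b * a)
    (hN : A.Normal) : ∀ Y ∈ HL hol A hA, ∀ w, ∃ m : ℕ, (Y ^ m) w = 0 := by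
  obtain ⟨w, hw, hw1⟩ := exists_null (HL hol A hA) (HL_comm hA) (LinearMap.snd ℝ E ℝ)
    (by
      rintro _ ⟨X, hX, rfl⟩ v
      exact HH_snd hol A hA hX v) (0, 1) rfl
  let C : Set E := {p | ∀ Y ∈ HL hol A hA, ((p, 1) : E × ℝ) ∈ nilk Y}
  have hC : C = Set.univ := by
    refine h.cvx ⟨w.1, ?_⟩ ?_ ?_
    · intro Y hY
      have : ((w.1, 1) : E × ℝ) = w := Prod.ext rfl hw.symm
      rw [this]
      exact hw1 Y hY
    · intro p hp q hq a b ha hb hab Y hY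
      have : ((a • p + b • q, 1) : E × ℝ) = a • (p, 1) + b • (q, 1) := by
        ext
        · rfl
        · simp [hab]
      rw [this]
      exact Submodule.add_mem _ (Submodule.smul_mem _ _ (hp Y hY))
        (Submodule.smul_mem _ _ (hq Y hY))
    · rintro γ p hp _ ⟨X, hX, rfl⟩
      have hX' := HH_conj hol A hA hN γ⁻¹ hX
      rw [inv_inv] at hX'
      obtain ⟨m, hm⟩ := hp _ ⟨_, hX', rfl⟩
      refine ⟨m, ?_⟩
      have e1 : ((hol γ p, 1) : E × ℝ) = (hat (hol γ) : E × ℝ →ₗ[ℝ] E × ℝ) (p, 1) :=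
        (hat_pt (hol γ) p).symm
      rw [e1, semi_pow (Y := ((hat (hol γ⁻¹) * X * hat (hol γ) : AA E) : E × ℝ →ₗ[ℝ] E × ℝ)), hm,
        map_zero]
      intro v
      change X (hat (hol γ) v) = hat (hol γ) ((hat (hol γ⁻¹) * X * hat (hol γ)) v)
      have e2 : hat (hol γ) * (hat (hol γ⁻¹) * X * hat (hol γ)) = X * hat (hol γ) := by
        rw [← mul_assoc, ← mul_assoc, hat_mul_inv, one_mul]
      exact (congrArg (fun Y : AA E => Y v) e2).symm
  intro Y hY w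
  have h1 : ∀ p : E, ((p, 1) : E × ℝ) ∈ nilk Y := by
    intro p
    have : p ∈ C := by
      rw [hC]
      trivial
    exact this Y hY
  have h2 : w = ((w.1, 1) : E × ℝ) - (1 - w.2) • (0, 1) := by
    ext
    · simp
    · simp
  change w ∈ nilk Y
  rw [h2]
  exact Submodule.sub_mem _ (h1 _) (Submodule.smul_mem _ _ (h1 0))

/-- the action is free, if the Lie algebra consists of elements of square zero -/
theorem AffAct.free (h : AffAct Γ E hol Ω) (hA : ∀ a ∈ A, ∀ b ∈ A, a * b = b * a)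
    (hN : A.Normal) (hsq : ∀ X ∈ HH hol A hA, X * X = 0) {X : AA E} (hX : X ∈ HH hol A hA)
    {x : E} (hx : x ∈ Ω) (h0 : X (x, 1) = 0) : X = 0 := by
  obtain ⟨Q, hQ, hQ1, hQL⟩ := hh_cpt (hol := hol) hA
  let K : Set E := (fun q : AA E => actp (NormedSpace.exp (-q)) x) '' Q
  have hK : IsCompact K := by
    refine hQ.image ?_
    exact actp_cont.comp (continuous_const.prodMk (exp_cont'.comp continuous_neg))
  have hKΩ : K ⊆ Ω := by
    rintro _ ⟨q, hq, rfl⟩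
    exact h.flow_mem hA hN (Submodule.neg_mem _ (hQ1 hq)) hx
  have hfin := h.pd (K ∪ {x}) (hK.union isCompact_singleton)
    (Set.union_subset hKΩ (Set.singleton_subset_iff.2 hx))
  obtain ⟨C₁, hC₁⟩ := (hfin.image fun a => ‖hat (hol a) - 1‖).bddAbove
  obtain ⟨C₂, hC₂⟩ := hQ.isBounded.exists_norm_le
  have key : ∀ n : ℕ, ‖(n : ℝ) • X‖ ≤ C₁ + C₂ := by
    intro n
    have hnX : (n : ℝ) • X ∈ HH hol A hA := Submodule.smul_mem _ _ hX
    obtain ⟨q, hq, hl⟩ := hQL _ hnX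
    have hlH : (n : ℝ) • X - q ∈ HH hol A hA := Submodule.subset_span hl
    obtain ⟨_, _, a, ha, he⟩ := hl
    rw [exp_sq _ (hsq _ hlH)] at he
    have e1 : hol a x = actp (NormedSpace.exp (-q)) x := by
      rw [← actp_hat, ← he, exp_sq _ (hsq _ (Submodule.neg_mem _ (hQ1 hq)))]
      change (((x, 1) : E × ℝ) + ((n : ℝ) • X (x, 1) - q (x, 1))).1 =
        (((x, 1) : E × ℝ) + (-q (x, 1))).1
      rw [h0, smul_zero, zero_sub]
    have e2 : a ∈ {γ : Γ | ∃ y ∈ K ∪ {x}, hol γ y ∈ K ∪ {x}} :=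
      ⟨x, Or.inr rfl, Or.inl ⟨q, hq, e1.symm⟩⟩
    have e3 : ‖(n : ℝ) • X - q‖ ≤ C₁ := by
      have e4 : (n : ℝ) • X - q = hat (hol a) - 1 := by
        rw [← he, add_sub_cancel_left]
      rw [e4]
      exact hC₁ ⟨a, e2, rfl⟩
    calc ‖(n : ℝ) • X‖ = ‖((n : ℝ) • X - q) + q‖ := by rw [sub_add_cancel]
      _ ≤ ‖(n : ℝ) • X - q‖ + ‖q‖ := norm_add_le _ _
      _ ≤ C₁ + C₂ := add_le_add e3 (hC₂ q hq)
  by_contra hne
  have h1 : 0 < ‖X‖ := norm_pos_iff.2 hne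
  obtain ⟨n, hn⟩ := exists_nat_gt ((C₁ + C₂) / ‖X‖)
  rw [div_lt_iff₀ h1] at hn
  have h2 := key n
  rw [norm_smul, Real.norm_natCast] at h2
  exact absurd (lt_of_le_of_lt h2 hn) (lt_irrefl _)

end Run7.h262.TB
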