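import Pool.Agent.Run7.h262.TB.Cone2

/-!
Flags whose blocks have equivariant maps to small spaces.
-/

set_option autoImplicit false

open Filter Topology

namespace Run7.h262.TB

open Run7.h262.SV

variable {Γ E : Type} [Group Γ] [NormedAddCommGroup E] [NormedSpace ℝ E] [FiniteDimensional ℝ E]
  {hol : Γ →* (E ≃ᵃ[ℝ] E)} {Ω : Set E}

/-- equivariant families of small rank which control a block -/
def Gd (hol : Γ →* (E ≃ᵃ[ℝ] E)) (Ω K : Set E) (Sa Sb : Submodule ℝ E) (m : ℕ) : Prop :=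
  ∃ m' ≤ m, ∃ (F : E → EuclideanSpace ℝ (Fin m')) (g : Γ → E → ℝ), Factor hol Ω K g ∧
    ContDiffOn ℝ 1 F Ω ∧ (∀ x ∈ Ω, F x ≠ 0) ∧
    (∀ x ∈ Ω, ∀ v, ∀ c : ℝ, fderiv ℝ F x v = c • F x → ∀ γ, fderiv ℝ (g γ) x v = 0) ∧
    ∀ K₁ : Set E, IsCompact K₁ → K₁ ⊆ Ω → ∃ c : ℝ, ∀ γ, ∀ x ∈ K₁, g γ x ≠ 0 →
      BddBlock hol Sa Sb c γ

theorem AffAct.gd_blocks (h : AffAct Γ E hol Ω) (hinj : Function.Injective hol)
    (hu : ∀ γ : Γ, |LinearMap.det ((hol γ).linear : E →ₗ[ℝ] E)| = 1)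
    (S : ℕ → Submodule ℝ E) (r : ℕ) (h0 : S 0 = ⊥) (hr : S r = ⊤)
    (hm : ∀ i < r, S i ≤ S (i + 1))
    (hinv : ∀ i ≤ r, ∀ γ : Γ, ∀ v ∈ S i, (hol γ).linear v ∈ S i) (m : ℕ → ℕ)
    (hG : ∀ K : Set E, IsCompact K → K ⊆ Ω → ∀ i < r, Gd hol Ω K (S i) (S (i + 1)) (m i))
    (hdim : ∑ i ∈ Finset.range r, m i < Module.finrank ℝ E + r) :
    ∃ A : Subgroup Γ, A.Normal ∧ A ≠ ⊥ ∧ ∀ a ∈ A, ∀ b ∈ A, a * b = b * a := by
  classical
  by_cases hsm : SmallBlocks hol S r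
  · exact h.small_blocks hinj S r h0 hr hm hinv hsm
  exfalso
  have hsm' : ∃ δ > 0, ∀ γ : Γ, (∃ s : ℕ → ℝ, (∀ i, s i ≠ 0) ∧
      ∀ i < r, ∀ v ∈ S (i + 1), ∃ w ∈ S i, ‖s i • linH hol γ v - v - w‖ ≤ δ * ‖v‖) →
        γ = 1 := by
    unfold SmallBlocks at hsm
    push Not at hsm
    obtain ⟨δ, hδ, h1⟩ := hsm
    refine ⟨δ, hδ, fun γ hγ => ?_⟩
    by_contra hne
    obtain ⟨s, hs, h2⟩ := hγ
    obtain ⟨i, hi, v, hv, h3⟩ := h1 γ hne s hs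
    obtain ⟨w, hw, h4⟩ := h2 i hi v hv
    exact absurd h4 (not_le.2 (h3 w hw))
  obtain ⟨K, hKc, hKD, hK⟩ := h.cc
  have hG' := fun i : Fin r => hG K hKc hKD i i.2
  choose m' hm' F g hg hF hF0 hker hbd using hG'
  have hgs : ∀ γ, ContDiffOn ℝ 1 (fun x => ∏ i, g i γ x) Ω := fun γ =>
    contDiffOn_prod fun i _ => (hg i).smooth γ
  have hnn : ∀ γ, ∀ x ∈ Ω, 0 ≤ ∏ i, g i γ x := fun γ x hx =>
    Finset.prod_nonneg fun i _ => (hg i).nonneg γ x hx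
  have hpos : ∀ x ∈ Ω, ∃ γ, 0 < ∏ i, g i γ x := by
    intro x hx
    obtain ⟨γ, hγ⟩ := hK x hx
    refine ⟨γ⁻¹, Finset.prod_pos fun i _ => ?_⟩
    have h1 := (hg i).equi γ⁻¹ 1 (hol γ x) (hKD hγ)
    rw [mul_one, hol_inv] at h1
    rw [h1]
    exact (hg i).pos _ hγ
  have hequi : ∀ γ δ : Γ, ∀ x ∈ Ω, ∏ i, g i (γ * δ) (hol γ x) = ∏ i, g i δ x := fun γ δ x hx =>
    Finset.prod_congr rfl fun i _ => (hg i).equi γ δ x hx
  have hlf : ∀ K : Set E, IsCompact K → K ⊆ Ω → {γ | ∃ x ∈ K, ∏ i, g i γ x ≠ 0}.Finite := by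
    intro K₁ hK₁ hK₁D
    choose c hc using fun i : Fin r => hbd i K₁ hK₁ hK₁D
    set C : ℝ := ∑ i, |c i| with hC
    have hCi : ∀ i, c i ≤ C := by
      intro i
      have h1 : |c i| ≤ ∑ i, |c i| :=
        Finset.single_le_sum (f := fun i => |c i|) (fun i _ => abs_nonneg _) (Finset.mem_univ i)
      exact (le_abs_self (c i)).trans h1
    refine (bdd_finite (linH hol) h0 hr hm hinv hsm' C).subset ?_
    rintro γ ⟨x, hx, hγ⟩
    have h1 : ∀ i, ∃ s : ℝ, i < r → 0 < s ∧ ∀ v ∈ S (i + 1),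
        (∃ w ∈ S i, ‖s • linH hol γ v - w‖ ≤ C * ‖v‖) ∧
          ∃ w ∈ S i, ‖s⁻¹ • linH hol γ⁻¹ v - w‖ ≤ C * ‖v‖ := by
      intro i
      by_cases hi : i < r
      · have h2 := (Finset.prod_ne_zero_iff.1 hγ) ⟨i, hi⟩ (Finset.mem_univ _)
        obtain ⟨s, hs, h3⟩ := (hc ⟨i, hi⟩ γ x hx h2).mono (hCi ⟨i, hi⟩)
        exact ⟨s, fun _ => ⟨hs, h3⟩⟩
      · exact ⟨1, fun h2 => absurd h2 hi⟩
    choose s hs using h1
    exact ⟨s, fun i hi => (hs i hi).1, fun i hi => (hs i hi).2⟩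
  obtain ⟨l, hl, hl'⟩ := normalise (hol := hol) h.isOpen (fun γ x => ∏ i, g i γ x) hgs hlf hnn
    hpos hequi
  refine h.no_rank hu (l := l) ⟨hl, fun x hx => ?_⟩
  have hN : ∑ j : Fin r, Module.finrank ℝ (EuclideanSpace ℝ (Fin (m' j))) <
      Module.finrank ℝ (⊤ : Submodule ℝ E) + r := by
    rw [finrank_top]
    refine lt_of_le_of_lt ?_ hdim
    rw [← Fin.sum_univ_eq_sum_range (fun i => m i) r]
    refine Finset.sum_le_sum fun i _ => ?_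
    rw [finrank_euclideanSpace_fin]
    exact hm' i
  obtain ⟨v, -, hv0, hv⟩ := exists_kernel' ⊤ hN (fun i => fderiv ℝ (F i) x) (fun i => F i x)
    fun i => hF0 i x hx
  refine ⟨v, hv0, hl' x hx v fun γ => ?_⟩
  have hdiff : ∀ {f : E → ℝ}, ContDiffOn ℝ 1 f Ω → DifferentiableAt ℝ f x :=
    fun hf => (hf.differentiableOn one_ne_zero).differentiableAt (h.isOpen.mem_nhds hx)
  have h2 := path_deriv (hdiff (hgs γ)) v
  have h3 : ∀ i ∈ (Finset.univ : Finset (Fin r)),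
      HasDerivAt (fun t : ℝ => g i γ (x + t • v)) 0 0 := by
    intro i _
    have h4 := path_deriv (hdiff ((hg i).smooth γ)) v
    obtain ⟨c, hc⟩ := hv i
    rwa [hker i x hx v c hc γ] at h4
  have h5 := HasDerivAt.fun_finsetProd (u := Finset.univ) h3
  simp only [smul_zero, Finset.sum_const_zero] at h5
  exact h2.unique h5

theorem gd_norm (h : AffAct Γ E hol Ω) {K : Set E} (hK : IsCompact K) (hKΩ : K ⊆ Ω)
    {Sa Sb : Submodule ℝ E} (hlt : Sa < Sb) (hSa : ∀ γ : Γ, ∀ v ∈ Sa, (hol γ).linear v ∈ Sa)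
    (hSb : ∀ γ : Γ, ∀ v ∈ Sb, (hol γ).linear v ∈ Sb) {Q : Submodule ℝ (E → ℝ)}
    (hQ : NormSpace hol Sa Sb Q) {m : ℕ} (hm : Module.finrank ℝ Q ≤ m) : Gd hol Ω K Sa Sb m := by
  obtain ⟨F, g, h1⟩ := TB.block_factor h hK hKΩ hlt hSa hSb hQ
  exact ⟨_, hm, F, g, h1⟩

/-- blocks of dimension `d` -/
theorem gd_dim (h : AffAct Γ E hol Ω) {K : Set E} (hK : IsCompact K) (hKΩ : K ⊆ Ω)
    {Sa Sb : Submodule ℝ E} (hlt : Sa < Sb) (hSa : ∀ γ : Γ, ∀ v ∈ Sa, (hol γ).linear v ∈ Sa)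
    (hSb : ∀ γ : Γ, ∀ v ∈ Sb, (hol γ).linear v ∈ Sb) :
    Gd hol Ω K Sa Sb ((Module.finrank ℝ Sb - Module.finrank ℝ Sa + 1).choose 2) :=
  gd_norm h hK hKΩ hlt hSa hSb (QF_norm _ _ hlt.le hSa hSb) (QF_finrank _ _ hlt.le).2

/-- positive definite forms on a block which are preserved up to scalars -/
def Conf (hol : Γ →* (E ≃ᵃ[ℝ] E)) (Sa Sb : Submodule ℝ E) : Prop :=
  ∃ B : E →ₗ[ℝ] E →ₗ[ℝ] ℝ, (∀ v ∈ Sb, ∀ w ∈ Sa, B v w = 0) ∧ (∀ v ∈ Sb, ∀ w ∈ Sa, B w v = 0) ∧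
    (∀ v ∈ Sb, v ∉ Sa → 0 < B v v) ∧
    ∀ γ : Γ, ∃ c : ℝ, ∀ v ∈ Sb, B ((hol γ).linear v) ((hol γ).linear v) = c * B v v

theorem gd_conf (h : AffAct Γ E hol Ω) {K : Set E} (hK : IsCompact K) (hKΩ : K ⊆ Ω)
    {Sa Sb : Submodule ℝ E} (hlt : Sa < Sb) (hSa : ∀ γ : Γ, ∀ v ∈ Sa, (hol γ).linear v ∈ Sa)
    (hSb : ∀ γ : Γ, ∀ v ∈ Sb, (hol γ).linear v ∈ Sb) (hC : Conf hol Sa Sb) :
    Gd hol Ω K Sa Sb 1 := by
  classical
  obtain ⟨B, hB1, hB1', hB2, hB3⟩ := hC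
  let f : E → ℝ := fun v => if v ∈ Sb then B v v else 0
  have hf1 : ∀ v ∈ Sb, f v = B v v := fun v hv => if_pos hv
  have hf2 : ∀ v, v ∉ Sb → f v = 0 := fun v hv => if_neg hv
  have hfc : ContinuousOn f Sb := by
    have h1 : Continuous fun v : E => B v v := by
      let b := Module.finBasis ℝ E
      have h2 : (fun v : E => B v v) = fun v => ∑ i, b.repr v i * B (b i) v := by
        funext v
        have h3 : B v = ∑ i, b.repr v i • B (b i) := by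
          conv_lhs => rw [← b.sum_repr v]
          rw [map_sum]
          exact Finset.sum_congr rfl fun i _ => by rw [map_smul]
        rw [h3, LinearMap.sum_apply]
        exact Finset.sum_congr rfl fun i _ => rfl
      rw [h2]
      refine continuous_finsetSum _ fun i _ => Continuous.mul ?_ ?_
      · exact (b.coord i).continuous_of_finiteDimensional
      · exact (B (b i)).continuous_of_finiteDimensional
    exact h1.continuousOn.congr fun v hv => hf1 v hv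
  refine gd_norm h hK hKΩ hlt hSa hSb (Q := Submodule.span ℝ {f}) ⟨?_, ?_, ?_, ?_, ?_, ?_⟩ ?_
  · exact Module.Finite.span_singleton ℝ f
  · intro γ f' hf'
    obtain ⟨a, rfl⟩ := Submodule.mem_span_singleton.1 hf'
    obtain ⟨c, hc⟩ := hB3 γ
    refine Submodule.mem_span_singleton.2 ⟨a * c, funext fun v => ?_⟩
    rw [Pi.smul_apply, Pi.smul_apply, smul_eq_mul, smul_eq_mul]
    by_cases hv : v ∈ Sb
    · rw [hf1 v hv, hf1 _ (hSb γ v hv), hc v hv]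
      ring
    · have hv' : (hol γ).linear v ∉ Sb := by
        intro h1
        apply hv
        have h2 := hSb γ⁻¹ _ h1
        rwa [TB.lin_inv] at h2
      rw [hf2 v hv, hf2 _ hv', mul_zero, mul_zero]
  · intro f' hf'
    obtain ⟨a, rfl⟩ := Submodule.mem_span_singleton.1 hf'
    exact hfc.const_smul a
  · intro f' hf' t v hv
    obtain ⟨a, rfl⟩ := Submodule.mem_span_singleton.1 hf'
    rw [Pi.smul_apply, Pi.smul_apply, hf1 v hv, hf1 _ (Sb.smul_mem t hv), B.map_smul₂, map_smul]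
    simp only [smul_eq_mul]
    ring
  · intro f' hf' v hv w hw
    obtain ⟨a, rfl⟩ := Submodule.mem_span_singleton.1 hf'
    rw [Pi.smul_apply, Pi.smul_apply, hf1 v hv, hf1 _ (Sb.add_mem hv (hlt.le hw)), B.map_add₂,
      map_add, map_add, hB1 v hv w hw, hB1' v hv w hw, hB1 w (hlt.le hw) w hw]
    simp
  · refine ⟨f, Submodule.mem_span_singleton_self f, fun v hv hva => ?_⟩
    rw [hf1 v hv]
    exact hB2 v hv hva
  · exact (finrank_span_le_card {f}).trans (by simp)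

end Run7.h262.TB
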