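import Pool.Agent.Run7.h262.TB.Gd

/-!
Irreducible blocks with invariant cones.
-/

set_option autoImplicit false

open Filter Topology

namespace Run7.h262.TB

open Run7.h262.SV

section cone
variable {U : Type} [NormedAddCommGroup U] [NormedSpace ℝ U] [FiniteDimensional ℝ U]

theorem pointed_bdd {C : Set U} (hC : IsClosed C) (hsm : ∀ t : ℝ, 0 < t → ∀ u ∈ C, t • u ∈ C)
    (hpt : ∀ u ∈ C, -u ∈ C → u = 0) {A : Set U} (hA : IsCompact A) :
    ∃ R > 0, ∀ a ∈ A, ∀ w, a + w ∈ C → a - w ∈ C → ‖w‖ ≤ R := by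
  let Z : Set (U × ℝ × U) := (A ×ˢ (Set.Icc (0 : ℝ) 1 ×ˢ Metric.sphere (0 : U) 1)) ∩
    ({z | z.2.1 • z.1 + z.2.2 ∈ C} ∩ {z | z.2.1 • z.1 - z.2.2 ∈ C})
  have hZ : IsCompact Z := by
    haveI : ProperSpace U := FiniteDimensional.proper ℝ U
    refine (hA.prod (isCompact_Icc.prod (isCompact_sphere (0 : U) 1))).inter_right ?_
    refine IsClosed.inter ?_ ?_
    · exact hC.preimage (((continuous_fst.comp continuous_snd).smul continuous_fst).add
        (continuous_snd.comp continuous_snd))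
    · exact hC.preimage (((continuous_fst.comp continuous_snd).smul continuous_fst).sub
        (continuous_snd.comp continuous_snd))
  have key : ∀ a ∈ A, ∀ w, a + w ∈ C → a - w ∈ C → 1 < ‖w‖ →
      (a, ‖w‖⁻¹, ‖w‖⁻¹ • w) ∈ Z := by
    intro a ha w h1 h2 h3
    have h4 : 0 < ‖w‖ := lt_trans one_pos h3
    refine ⟨⟨ha, ⟨(inv_pos.2 h4).le, inv_le_one_of_one_le₀ h3.le⟩, ?_⟩, ?_, ?_⟩
    · rw [mem_sphere_zero_iff_norm, norm_smul, norm_inv, norm_norm, inv_mul_cancel₀ h4.ne']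
    · change ‖w‖⁻¹ • a + ‖w‖⁻¹ • w ∈ C
      rw [← smul_add]
      exact hsm _ (inv_pos.2 h4) _ h1
    · change ‖w‖⁻¹ • a - ‖w‖⁻¹ • w ∈ C
      rw [← smul_sub]
      exact hsm _ (inv_pos.2 h4) _ h2
  rcases Z.eq_empty_or_nonempty with h0 | h0
  · refine ⟨1, one_pos, fun a ha w h1 h2 => ?_⟩
    by_contra h3
    push Not at h3
    have h4 := key a ha w h1 h2 h3
    rw [h0] at h4
    exact h4
  · obtain ⟨⟨a₀, τ₀, w₀⟩, hz, hmin⟩ := hZ.exists_isMinOn h0
      (f := fun z : U × ℝ × U => z.2.1) (continuous_fst.comp continuous_snd).continuousOn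
    have hτ : 0 < τ₀ := by
      obtain ⟨⟨-, ⟨h1, -⟩, h2⟩, h3, h4⟩ := hz
      change 0 ≤ τ₀ at h1
      change w₀ ∈ Metric.sphere (0 : U) 1 at h2
      change τ₀ • a₀ + w₀ ∈ C at h3
      change τ₀ • a₀ - w₀ ∈ C at h4
      rcases h1.eq_or_lt with h5 | h5
      · rw [← h5, zero_smul, zero_add] at h3
        rw [← h5, zero_smul, zero_sub] at h4
        rw [hpt w₀ h3 h4, mem_sphere_zero_iff_norm, norm_zero] at h2
        exact absurd h2 zero_ne_one
      · exact h5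
    refine ⟨max 1 τ₀⁻¹, by positivity, fun a ha w h1 h2 => ?_⟩
    by_contra h3
    push Not at h3
    have h4 := key a ha w h1 h2 ((le_max_left _ _).trans_lt h3)
    have h5 : τ₀ ≤ ‖w‖⁻¹ := hmin h4
    have h6 : τ₀⁻¹ < ‖w‖ := (le_max_right _ _).trans_lt h3
    have h7 : ‖w‖⁻¹ < τ₀ := inv_lt_of_inv_lt₀ hτ h6
    exact absurd h5 (not_le.2 h7)

theorem prop_bdd {C O : Set U} (hC : IsClosed C) (hsm : ∀ t : ℝ, 0 < t → ∀ u ∈ C, t • u ∈ C)
    (hpt : ∀ u ∈ C, -u ∈ C → u = 0) (hO : IsOpen O) (hOC : O ⊆ C) {A : Set U} (hA : IsCompact A)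
    (hAO : A ⊆ O) : ∃ c > 0, ∀ g : U →ₗ[ℝ] U, (∀ u ∈ C, g u ∈ C) → ∀ u ∈ A, ∀ t : ℝ, 0 < t →
      t • g u ∈ A → ∀ v, ‖t • g v‖ ≤ c * ‖v‖ := by
  obtain ⟨R, hR, hR1⟩ := pointed_bdd hC hsm hpt hA
  obtain ⟨ε, hε, hεO⟩ := hA.exists_cthickening_subset_open hO hAO
  refine ⟨R / ε, by positivity, fun g hg u hu t ht hgu v => ?_⟩
  by_cases hv : v = 0
  · rw [hv, map_zero, smul_zero, norm_zero, mul_zero]
  have hv0 : 0 < ‖v‖ := norm_pos_iff.2 hv
  set v' : U := (ε / ‖v‖) • v with hv'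
  have hn : ‖v'‖ = ε := by
    rw [hv', norm_smul, Real.norm_of_nonneg (by positivity), div_mul_cancel₀ _ hv0.ne']
  have h1 : u + v' ∈ C := by
    refine hOC (hεO (Metric.mem_cthickening_of_dist_le _ u ε A hu ?_))
    rw [dist_eq_norm, add_sub_cancel_left, hn]
  have h2 : u - v' ∈ C := by
    refine hOC (hεO (Metric.mem_cthickening_of_dist_le _ u ε A hu ?_))
    rw [dist_eq_norm, sub_sub_cancel_left, norm_neg, hn]
  have h3 := hR1 _ hgu (t • g v') (by
    rw [← smul_add, ← map_add]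
    exact hsm t ht _ (hg _ h1)) (by
    rw [← smul_sub, ← map_sub]
    exact hsm t ht _ (hg _ h2))
  rw [hv', map_smul, smul_comm, norm_smul, Real.norm_of_nonneg (by positivity)] at h3
  rw [div_mul_eq_mul_div, div_le_iff₀ hv0] at h3
  rw [div_mul_eq_mul_div, le_div_iff₀ hε, mul_comm]
  exact h3

end cone

variable {Γ E : Type} [Group Γ] [NormedAddCommGroup E] [NormedSpace ℝ E] [FiniteDimensional ℝ E]
  {hol : Γ →* (E ≃ᵃ[ℝ] E)} {Ω : Set E}

/-- orbits in half spaces -/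
def HalfOrbit (hol : Γ →* (E ≃ᵃ[ℝ] E)) (Sa Sb : Submodule ℝ E) : Prop :=
  ∃ (v : E) (f : E →ₗ[ℝ] ℝ), v ∈ Sb ∧ v ∉ Sa ∧ (∀ w ∈ Sa, f w = 0) ∧ (∃ u ∈ Sb, f u ≠ 0) ∧
    ∀ γ : Γ, 0 ≤ f ((hol γ).linear v)

/-- irreducible blocks -/
def Irr (hol : Γ →* (E ≃ᵃ[ℝ] E)) (Sa Sb : Submodule ℝ E) : Prop :=
  ∀ W : Submodule ℝ E, Sa ≤ W → W ≤ Sb → (∀ γ : Γ, ∀ v ∈ W, (hol γ).linear v ∈ W) →
    W = Sa ∨ W = Sb

theorem gd_cone (h : AffAct Γ E hol Ω) {K : Set E} (hK : IsCompact K) (hKΩ : K ⊆ Ω)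
    {Sa Sb : Submodule ℝ E} (hlt : Sa < Sb) (hSa : ∀ γ : Γ, ∀ v ∈ Sa, (hol γ).linear v ∈ Sa)
    (hSb : ∀ γ : Γ, ∀ v ∈ Sb, (hol γ).linear v ∈ Sb) (hirr : Irr hol Sa Sb)
    (hC : HalfOrbit hol Sa Sb) :
    Gd hol Ω K Sa Sb (Module.finrank ℝ Sb - Module.finrank ℝ Sa) := by
  classical
  obtain ⟨v₀, f, hv₀, hv₀', hf0, ⟨u₀, hu₀, hfu₀⟩, hpos⟩ := hC
  obtain ⟨W, hWSb, hsup, hfr⟩ := compl_within Sa Sb hlt.le
  have hdis : Sa ⊓ W = ⊥ := by
    have h1 := Submodule.finrank_sup_add_finrank_inf_eq Sa W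
    have h2 := Submodule.finrank_mono (R := ℝ) hlt.le
    rw [hsup] at h1
    exact Submodule.finrank_eq_zero.1 (by omega)
  have hone : ∀ v : E, (hol 1).linear v = v := by
    intro v
    rw [map_one]
    rfl
  -- the projection
  obtain ⟨Z, hZ⟩ := Sb.exists_isCompl
  have hWZ : IsCompl W (Sa ⊔ Z) := by
    constructor
    · rw [disjoint_iff, eq_bot_iff]
      rintro w ⟨hw, hw'⟩
      obtain ⟨a, ha, z, hz, rfl⟩ := Submodule.mem_sup.1 hw'
      have h1 : z ∈ Sb := by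
        have : z = (a + z) - a := by abel
        rw [this]
        exact Sb.sub_mem (hWSb hw) (hlt.le ha)
      have h2 : z ∈ Sb ⊓ Z := ⟨h1, hz⟩
      rw [hZ.inf_eq_bot, Submodule.mem_bot] at h2
      have h3 : a + z ∈ Sa ⊓ W := ⟨by rw [h2, add_zero]; exact ha, hw⟩
      rw [hdis] at h3
      exact h3
    · rw [codisjoint_iff, ← sup_assoc, sup_comm W Sa, hsup, hZ.sup_eq_top]
  let π : E →ₗ[ℝ] W := W.linearProjOfIsCompl (Sa ⊔ Z) hWZ
  have hπW : ∀ w : W, π w = w := fun w => Submodule.linearProjOfIsCompl_apply_left hWZ w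
  have hπa : ∀ a ∈ Sa, π a = 0 := by
    intro a ha
    exact (Submodule.linearProjOfIsCompl_apply_eq_zero_iff hWZ).2 (Submodule.mem_sup_left ha)
  have hπd : ∀ v ∈ Sb, v - (π v : E) ∈ Sa := by
    intro v hv
    rw [← hsup] at hv
    obtain ⟨a, ha, w, hw, rfl⟩ := Submodule.mem_sup.1 hv
    rw [map_add, hπa a ha, zero_add, hπW ⟨w, hw⟩]
    change a + w - w ∈ Sa
    rwa [add_sub_cancel_right]
  have hWb : ∀ w : W, (w : E) ∈ Sb := fun w => hWSb w.2
  have hmod : ∀ (γ : Γ), ∀ v ∈ Sb, π ((hol γ).linear (π v : E)) = π ((hol γ).linear v) := by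
    intro γ v hv
    have h1 : (hol γ).linear v = (hol γ).linear (π v : E) + (hol γ).linear (v - (π v : E)) := by
      rw [← map_add, add_sub_cancel]
    rw [h1, map_add π, hπa _ (hSa γ _ (hπd v hv)), add_zero]
  let σ : Γ → W →L[ℝ] W := fun γ => LinearMap.toContinuousLinearMap
    (π ∘ₗ ((hol γ).linear : E →ₗ[ℝ] E) ∘ₗ W.subtype)
  have hσ : ∀ γ (w : W), σ γ w = π ((hol γ).linear (w : E)) := fun γ w => rfl
  have hσm : ∀ γ δ u, σ (γ * δ) u = σ γ (σ δ u) := by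
    intro γ δ u
    rw [hσ, hσ, hσ, hmod γ _ (hSb δ _ (hWb u)), lin_mul']
  have hσ1 : ∀ u, σ 1 u = u := by
    intro u
    rw [hσ, hone, hπW]
  have hσi : ∀ γ u, σ γ⁻¹ (σ γ u) = u := by
    intro γ u
    rw [← hσm, inv_mul_cancel, hσ1]
  have hσi' : ∀ γ u, σ γ (σ γ⁻¹ u) = u := by
    intro γ u
    rw [← hσm, mul_inv_cancel, hσ1]
  have hfπ : ∀ (γ : Γ), ∀ v ∈ Sb, f ((hol γ).linear (π v : E)) = f ((hol γ).linear v) := by
    intro γ v hv
    have h1 : (hol γ).linear v = (hol γ).linear (π v : E) + (hol γ).linear (v - (π v : E)) := by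
      rw [← map_add, add_sub_cancel]
    rw [h1, map_add f, hf0 _ (hSa γ _ (hπd v hv)), add_zero]
  -- the cone
  let C : Set W := {u | ∀ γ : Γ, 0 ≤ f ((hol γ).linear (u : E))}
  have hCcl : IsClosed C := by
    have h1 : C = ⋂ γ : Γ, {u : W | 0 ≤ f ((hol γ).linear (u : E))} := by
      ext u
      simp [C]
    rw [h1]
    refine isClosed_iInter fun γ => ?_
    refine isClosed_le continuous_const ?_
    exact (f ∘ₗ ((hol γ).linear : E →ₗ[ℝ] E) ∘ₗ W.subtype).continuous_of_finiteDimensional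
  have hCsm : ∀ t : ℝ, 0 < t → ∀ u ∈ C, t • u ∈ C := by
    intro t ht u hu γ
    rw [Submodule.coe_smul, map_smul, map_smul, smul_eq_mul]
    exact mul_nonneg ht.le (hu γ)
  have hC0 : (0 : W) ∈ C := by
    intro γ
    rw [Submodule.coe_zero, map_zero, map_zero]
  have hCadd : ∀ u ∈ C, ∀ w ∈ C, u + w ∈ C := by
    intro u hu w hw γ
    rw [Submodule.coe_add, map_add, map_add]
    exact add_nonneg (hu γ) (hw γ)
  have hCcv : Convex ℝ C := by
    intro u hu w hw s t hs ht hst γ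
    rw [Submodule.coe_add, Submodule.coe_smul, Submodule.coe_smul, map_add, map_add, map_smul,
      map_smul, map_smul, map_smul, smul_eq_mul, smul_eq_mul]
    exact add_nonneg (mul_nonneg hs (hu γ)) (mul_nonneg ht (hw γ))
  have hCσ : ∀ γ, ∀ u ∈ C, σ γ u ∈ C := by
    intro γ u hu δ
    rw [hσ, hfπ δ _ (hSb γ _ (hWb u)), ← lin_mul']
    exact hu _
  -- pointed
  let N : Submodule ℝ E :=
    { carrier := {u | u ∈ Sb ∧ ∀ γ : Γ, f ((hol γ).linear u) = 0}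
      add_mem' := fun {a b} ha hb => ⟨Sb.add_mem ha.1 hb.1, fun γ => by
        rw [map_add, map_add, ha.2, hb.2, add_zero]⟩
      zero_mem' := ⟨Sb.zero_mem, fun γ => by rw [map_zero, map_zero]⟩
      smul_mem' := fun r a ha => ⟨Sb.smul_mem r ha.1, fun γ => by
        rw [map_smul, map_smul, ha.2, smul_zero]⟩ }
  have hN : N = Sa := by
    rcases hirr N (fun w hw => ⟨hlt.le hw, fun γ => hf0 _ (hSa γ w hw)⟩) (fun w hw => hw.1)
      (fun γ v hv => ⟨hSb γ v hv.1, fun δ => by rw [← lin_mul']; exact hv.2 _⟩) with h1 | h1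
    · exact h1
    · exfalso
      have h2 : u₀ ∈ N := by rw [h1]; exact hu₀
      have h3 := h2.2 1
      rw [hone] at h3
      exact hfu₀ h3
  have hpt : ∀ u ∈ C, -u ∈ C → u = 0 := by
    intro u hu hu'
    have h1 : (u : E) ∈ N := by
      refine ⟨hWb u, fun γ => le_antisymm ?_ (hu γ)⟩
      have h2 := hu' γ
      rw [Submodule.coe_neg, map_neg, map_neg] at h2
      linarith
    rw [hN] at h1
    have h2 : (u : E) ∈ Sa ⊓ W := ⟨h1, u.2⟩
    rw [hdis, Submodule.mem_bot] at h2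
    exact Subtype.ext h2
  -- the interior
  have hspan : Submodule.span ℝ C = ⊤ := by
    let M : Submodule ℝ E := Submodule.span ℝ {u : E | u ∈ Sb ∧ ∀ γ : Γ, 0 ≤ f ((hol γ).linear u)}
    have hM0 : ∀ γ : Γ, ∀ v ∈ M, (hol γ).linear v ∈ M := by
      intro γ
      have h1 : M ≤ M.comap ((hol γ).linear : E →ₗ[ℝ] E) := by
        refine Submodule.span_le.2 fun u hu => ?_
        refine Submodule.subset_span ⟨hSb γ u hu.1, fun δ => ?_⟩
        change 0 ≤ f ((hol δ).linear ((hol γ).linear u))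
        rw [← lin_mul']
        exact hu.2 _
      exact fun v hv => h1 hv
    have hM1 : Sa ≤ M := fun w hw =>
      Submodule.subset_span ⟨hlt.le hw, fun γ => (hf0 _ (hSa γ w hw)).ge⟩
    have hM2 : M ≤ Sb := Submodule.span_le.2 fun u hu => hu.1
    have hM : M = Sb := by
      rcases hirr M hM1 hM2 hM0 with h1 | h1
      · exfalso
        apply hv₀'
        rw [← h1]
        exact Submodule.subset_span ⟨hv₀, hpos⟩
      · exact h1
    rw [eq_top_iff]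
    intro w _
    have h1 : M ≤ (Submodule.span ℝ C).comap π := by
      refine Submodule.span_le.2 fun u hu => ?_
      refine Submodule.subset_span fun γ => ?_
      rw [hfπ γ u hu.1]
      exact hu.2 γ
    have h2 : (w : E) ∈ M := by rw [hM]; exact hWb w
    have h3 := h1 h2
    rw [Submodule.mem_comap, hπW] at h3
    exact h3
  have hint : (interior C).Nonempty := by
    rw [hCcv.interior_nonempty_iff_affineSpan_eq_top,
      AffineSubspace.affineSpan_eq_top_iff_vectorSpan_eq_top_of_nonempty ℝ W W ⟨0, hC0⟩, eq_top_iff,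
      ← hspan, Submodule.span_le]
    intro u hu
    have h1 := vsub_mem_vectorSpan ℝ hu hC0
    rwa [vsub_eq_sub, sub_zero] at h1
  have hO0 : (0 : W) ∉ interior C := by
    intro h1
    have hsub : ∀ u : W, u = 0 := by
      intro u
      obtain ⟨ε, hε, hball⟩ := Metric.isOpen_iff.1 isOpen_interior 0 h1
      by_contra hu
      have hu0 : 0 < ‖u‖ := norm_pos_iff.2 hu
      have h2 : ∀ w : W, ‖w‖ = ε / 2 → w ∈ C := by
        intro w hw
        refine interior_subset (hball ?_)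
        rw [mem_ball_zero_iff, hw]
        linarith
      have h3 : ‖(ε / 2 / ‖u‖) • u‖ = ε / 2 := by
        rw [norm_smul, Real.norm_of_nonneg (by positivity), div_mul_cancel₀ _ hu0.ne']
      have h4 := hpt _ (h2 _ h3) (h2 _ (by rw [norm_neg, h3]))
      rw [h4, norm_zero] at h3
      linarith
    have h2 : (π u₀ : E) = 0 := by rw [hsub (π u₀)]; rfl
    have h3 := hfπ 1 u₀ hu₀
    rw [hone, hone, h2, map_zero] at h3
    exact hfu₀ h3.symm
  have hOσ : ∀ γ, ∀ u ∈ interior C, σ γ u ∈ interior C := by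
    intro γ u hu
    refine mem_interior.2 ⟨(σ γ⁻¹) ⁻¹' (interior C), ?_, isOpen_interior.preimage (σ γ⁻¹).continuous,
      ?_⟩
    · intro w hw
      rw [← hσi' γ w]
      exact hCσ γ _ (interior_subset hw)
    · rw [Set.mem_preimage, hσi]
      exact hu
  have hOsm : ∀ t : ℝ, 0 < t → ∀ u ∈ interior C, t • u ∈ interior C := by
    intro t ht u hu
    refine mem_interior.2 ⟨(fun w => t⁻¹ • w) ⁻¹' (interior C), ?_,
      isOpen_interior.preimage (continuous_const_smul _), ?_⟩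
    · intro w hw
      have h1 := hCsm t ht _ (interior_subset hw)
      simp only at h1
      rwa [smul_smul, mul_inv_cancel₀ ht.ne', one_smul] at h1
    · rw [Set.mem_preimage, smul_smul, inv_mul_cancel₀ ht.ne', one_smul]
      exact hu
  obtain ⟨F, g, h1, h2, h3, h4, h5⟩ := rep_factor' h hK hKΩ σ hσm hσ1 isOpen_interior
    hCcv.interior hint hO0 hOsm hOσ
  let T := toEuclidean (E := W)
  refine ⟨Module.finrank ℝ W, hfr.le, fun x => T (F x), g, h1, T.contDiff.comp_contDiffOn h2,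
    fun x hx h0 => ?_, fun x hx v c hv => ?_, fun K₁ hK₁ hK₁Ω => ?_⟩
  · exact h3 x hx (T.injective (h0.trans (map_zero T).symm))
  · refine h4 x hx v c ?_
    have h6 : HasFDerivAt F (fderiv ℝ F x) x :=
      ((h2.differentiableOn one_ne_zero).differentiableAt (h.isOpen.mem_nhds hx)).hasFDerivAt
    have h7 : fderiv ℝ (fun x => T (F x)) x = T.toContinuousLinearMap.comp (fderiv ℝ F x) :=
      (T.toContinuousLinearMap.hasFDerivAt.comp x h6).fderiv
    rw [h7] at hv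
    have h8 : T (fderiv ℝ F x v) = T (c • F x) := by
      rw [map_smul]
      exact hv
    exact T.injective h8
  · obtain ⟨A, hA, hAC, hA1⟩ := h5 K₁ hK₁ hK₁Ω
    obtain ⟨c, hc, hc1⟩ := prop_bdd hCcl hCsm hpt isOpen_interior interior_subset hA hAC
    let πc : E →L[ℝ] W := LinearMap.toContinuousLinearMap π
    refine ⟨c * ‖πc‖, fun γ x hx hg => ?_⟩
    obtain ⟨u, hu, t, ht, hut⟩ := hA1 γ x hx hg
    have hb : ∀ v, ‖(π v : W)‖ ≤ ‖πc‖ * ‖v‖ := fun v => πc.le_opNorm v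
    refine ⟨t⁻¹, inv_pos.2 ht, fun v hv => ⟨?_, ?_⟩⟩
    · refine ⟨t⁻¹ • ((hol γ).linear v - (π ((hol γ).linear v) : E)),
        Sa.smul_mem _ (hπd _ (hSb γ v hv)), ?_⟩
      rw [← smul_sub, sub_sub_cancel, ← hmod γ v hv]
      have h6 := hc1 (σ γ : W →ₗ[ℝ] W) (hCσ γ) _ hut t⁻¹ (inv_pos.2 ht) (by
        change t⁻¹ • (σ γ (t • σ γ⁻¹ u)) ∈ A
        rw [map_smul, hσi', smul_smul, inv_mul_cancel₀ ht.ne', one_smul]
        exact hu) (π v)
      calc ‖t⁻¹ • ((π ((hol γ).linear (π v : E)) : W) : E)‖ = ‖t⁻¹ • σ γ (π v)‖ := rfl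
        _ ≤ c * ‖π v‖ := h6
        _ ≤ c * (‖πc‖ * ‖v‖) := mul_le_mul_of_nonneg_left (hb v) hc.le
        _ = c * ‖πc‖ * ‖v‖ := by ring
    · rw [inv_inv]
      refine ⟨t • ((hol γ⁻¹).linear v - (π ((hol γ⁻¹).linear v) : E)),
        Sa.smul_mem _ (hπd _ (hSb γ⁻¹ v hv)), ?_⟩
      rw [← smul_sub, sub_sub_cancel, ← hmod γ⁻¹ v hv]
      have h6 := hc1 (σ γ⁻¹ : W →ₗ[ℝ] W) (hCσ γ⁻¹) u hu t ht hut (π v)
      calc ‖t • ((π ((hol γ⁻¹).linear (π v : E)) : W) : E)‖ = ‖t • σ γ⁻¹ (π v)‖ := rfl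
        _ ≤ c * ‖π v‖ := h6
        _ ≤ c * (‖πc‖ * ‖v‖) := mul_le_mul_of_nonneg_left (hb v) hc.le
        _ = c * ‖πc‖ * ‖v‖ := by ring

end Run7.h262.TB
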