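import Pool.Agent.Run7.h262.TB.Cr

/-!
Flags whose blocks have proper actions on small products of cones.
-/

set_option autoImplicit false

open Filter Topology

namespace Run7.h262.TB

open Run7.h262.SV

variable {Γ E : Type} [Group Γ] [NormedAddCommGroup E] [NormedSpace ℝ E] [FiniteDimensional ℝ E]
  {hol : Γ →* (E ≃ᵃ[ℝ] E)} {Ω : Set E}

/-- the properties of one equivariant family -/
structure Fam (hol : Γ →* (E ≃ᵃ[ℝ] E)) (Ω K : Set E) {m : ℕ} (F : E → EuclideanSpace ℝ (Fin m))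
    (g : Γ → E → ℝ) : Prop where
  factor : Factor hol Ω K g
  smooth : ContDiffOn ℝ 1 F Ω
  ne : ∀ x ∈ Ω, F x ≠ 0
  ker : ∀ x ∈ Ω, ∀ v, ∀ c : ℝ, fderiv ℝ F x v = c • F x → ∀ γ, fderiv ℝ (g γ) x v = 0

/-- equivariant families of total projective dimension at most `m` which control a block -/
def Gm (hol : Γ →* (E ≃ᵃ[ℝ] E)) (Ω K : Set E) (Sa Sb : Submodule ℝ E) (m : ℕ) : Prop :=
  ∃ (p : ℕ) (q : Fin p → ℕ) (F : ∀ j, E → EuclideanSpace ℝ (Fin (q j))) (g : Fin p → Γ → E → ℝ),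
    ∑ j, q j ≤ m + p ∧ (∀ j, Fam hol Ω K (F j) (g j)) ∧
    ∀ K₁ : Set E, IsCompact K₁ → K₁ ⊆ Ω → ∃ c : ℝ, ∀ γ, ∀ x ∈ K₁, (∀ j, g j γ x ≠ 0) →
      BddBlock hol Sa Sb c γ

theorem Gd.gm {K : Set E} {Sa Sb : Submodule ℝ E} {m : ℕ} (h : Gd hol Ω K Sa Sb (m + 1)) :
    Gm hol Ω K Sa Sb m := by
  obtain ⟨m', hm', F, g, h1, h2, h3, h4, h5⟩ := h
  refine ⟨1, fun _ => m', fun _ => F, fun _ => g, by simpa using hm', fun _ => ⟨h1, h2, h3, h4⟩,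
    fun K₁ hK₁ hK₁Ω => ?_⟩
  obtain ⟨c, hc⟩ := h5 K₁ hK₁ hK₁Ω
  exact ⟨c, fun γ x hx hg => hc γ x hx (hg 0)⟩

theorem gm_triv {K : Set E} {Sa Sb : Submodule ℝ E} (hab : Sa = Sb)
    (hSb : ∀ γ : Γ, ∀ v ∈ Sb, (hol γ).linear v ∈ Sb) : Gm hol Ω K Sa Sb 0 := by
  refine ⟨0, Fin.elim0, fun j => j.elim0, fun j => j.elim0, by simp, fun j => j.elim0,
    fun K₁ _ _ => ⟨0, fun γ x hx hg => ⟨1, one_pos,
      fun v hv => ⟨⟨(1 : ℝ) • (hol γ).linear v, ?_, ?_⟩, (1 : ℝ)⁻¹ • (hol γ⁻¹).linear v, ?_, ?_⟩⟩⟩⟩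
  · rw [hab]
    exact Sb.smul_mem _ (hSb γ v hv)
  · rw [sub_self, norm_zero, zero_mul]
  · rw [hab]
    exact Sb.smul_mem _ (hSb γ⁻¹ v hv)
  · rw [sub_self, norm_zero, zero_mul]

/-- a vector in the kernel -/
theorem exists_kernel_f {ι : Type} [Fintype ι] {U : ι → Type} [∀ j, NormedAddCommGroup (U j)]
    [∀ j, NormedSpace ℝ (U j)] [∀ j, FiniteDimensional ℝ (U j)]
    (hN : ∑ j, Module.finrank ℝ (U j) < Module.finrank ℝ E + Fintype.card ι)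
    (F' : ∀ j : ι, E →L[ℝ] U j) (y : ∀ j : ι, U j) (hy : ∀ j, y j ≠ 0) :
    ∃ v : E, v ≠ 0 ∧ ∀ j, ∃ c : ℝ, F' j v = c • y j := by
  let Φ : (E × (ι → ℝ)) →ₗ[ℝ] (∀ j : ι, U j) :=
    LinearMap.pi fun j =>
      ((F' j : E →ₗ[ℝ] U j) ∘ₗ LinearMap.fst ℝ E _) -
        (((LinearMap.proj j : (ι → ℝ) →ₗ[ℝ] ℝ) ∘ₗ LinearMap.snd ℝ E _).smulRight (y j))
  have hΦ : ∀ (z : E × (ι → ℝ)) j, Φ z j = F' j z.1 - z.2 j • y j := fun z j => rfl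
  have h1 : Module.finrank ℝ (∀ j : ι, U j) < Module.finrank ℝ (E × (ι → ℝ)) := by
    rw [Module.finrank_pi_fintype, Module.finrank_prod, Module.finrank_fintype_fun_eq_card]
    exact hN
  have h2 := LinearMap.ker_ne_bot_of_finrank_lt (f := Φ) h1
  obtain ⟨z, hz, hz0⟩ := (Submodule.ne_bot_iff _).1 h2
  rw [LinearMap.mem_ker] at hz
  have h3 : ∀ j, F' j z.1 = z.2 j • y j := by
    intro j
    have := hΦ z j
    rw [hz] at this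
    exact sub_eq_zero.1 this.symm
  refine ⟨z.1, ?_, fun j => ⟨z.2 j, h3 j⟩⟩
  intro h0
  apply hz0
  refine Prod.ext h0 (funext fun j => ?_)
  have h4 := h3 j
  rw [h0, map_zero] at h4
  exact (smul_eq_zero.1 h4.symm).resolve_right (hy j)

theorem AffAct.gm_blocks (h : AffAct Γ E hol Ω) (hinj : Function.Injective hol)
    (hu : ∀ γ : Γ, |LinearMap.det ((hol γ).linear : E →ₗ[ℝ] E)| = 1)
    (S : ℕ → Submodule ℝ E) (r : ℕ) (h0 : S 0 = ⊥) (hr : S r = ⊤)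
    (hm : ∀ i < r, S i ≤ S (i + 1))
    (hinv : ∀ i ≤ r, ∀ γ : Γ, ∀ v ∈ S i, (hol γ).linear v ∈ S i) (m : ℕ → ℕ)
    (hG : ∀ K : Set E, IsCompact K → K ⊆ Ω → ∀ i < r, Gm hol Ω K (S i) (S (i + 1)) (m i))
    (hdim : ∑ i ∈ Finset.range r, m i < Module.finrank ℝ E) :
    ∃ A : Subgroup Γ, A.Normal ∧ A ≠ ⊥ ∧ ∀ a ∈ A, ∀ b ∈ A, a * b = b * a := by
  classical
  by_cases hsm : SmallBlocks hol S r
  · exact h.small_blocks hinj S r h0 hr hm hinv hsm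
  exfalso
  have hsm' : ∃ δ > 0, ∀ γ : Γ, (∃ s : ℕ → ℝ, (∀ i, s i ≠ 0) ∧
      ∀ i < r, ∀ v ∈ S (i + 1), ∃ w ∈ S i, ‖s i • linH hol γ v - v - w‖ ≤ δ * ‖v‖) →
        γ = 1 := by
    unfold SmallBlocks at hsm
    push Not at hsm
    obtain ⟨δ, hδ, h1⟩ := hsm
    refine ⟨δ, hδ, fun γ hγ => ?_⟩
    by_contra hne
    obtain ⟨s, hs, h2⟩ := hγ
    obtain ⟨i, hi, v, hv, h3⟩ := h1 γ hne s hs
    obtain ⟨w, hw, h4⟩ := h2 i hi v hv
    exact absurd h4 (not_le.2 (h3 w hw))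
  obtain ⟨K, hKc, hKD, hK⟩ := h.cc
  have hG' := fun i : Fin r => hG K hKc hKD i i.2
  choose p q F g hq hfam hbd using hG'
  let ι : Type := Σ i : Fin r, Fin (p i)
  let G : ι → Γ → E → ℝ := fun s => g s.1 s.2
  have hg : ∀ s : ι, Fam hol Ω K (F s.1 s.2) (G s) := fun s => hfam s.1 s.2
  have hgs : ∀ γ, ContDiffOn ℝ 1 (fun x => ∏ s, G s γ x) Ω := fun γ =>
    contDiffOn_prod fun s _ => (hg s).factor.smooth γ
  have hnn : ∀ γ, ∀ x ∈ Ω, 0 ≤ ∏ s, G s γ x := fun γ x hx =>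
    Finset.prod_nonneg fun s _ => (hg s).factor.nonneg γ x hx
  have hpos : ∀ x ∈ Ω, ∃ γ, 0 < ∏ s, G s γ x := by
    intro x hx
    obtain ⟨γ, hγ⟩ := hK x hx
    refine ⟨γ⁻¹, Finset.prod_pos fun s _ => ?_⟩
    have h1 := (hg s).factor.equi γ⁻¹ 1 (hol γ x) (hKD hγ)
    rw [mul_one, hol_inv] at h1
    rw [h1]
    exact (hg s).factor.pos _ hγ
  have hequi : ∀ γ δ : Γ, ∀ x ∈ Ω, ∏ s, G s (γ * δ) (hol γ x) = ∏ s, G s δ x := fun γ δ x hx =>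
    Finset.prod_congr rfl fun s _ => (hg s).factor.equi γ δ x hx
  have hlf : ∀ K : Set E, IsCompact K → K ⊆ Ω → {γ | ∃ x ∈ K, ∏ s, G s γ x ≠ 0}.Finite := by
    intro K₁ hK₁ hK₁D
    choose c hc using fun i : Fin r => hbd i K₁ hK₁ hK₁D
    set C : ℝ := ∑ i, |c i| with hC
    have hCi : ∀ i, c i ≤ C := by
      intro i
      have h1 : |c i| ≤ ∑ i, |c i| :=
        Finset.single_le_sum (f := fun i => |c i|) (fun i _ => abs_nonneg _) (Finset.mem_univ i)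
      exact (le_abs_self (c i)).trans h1
    refine (bdd_finite (linH hol) h0 hr hm hinv hsm' C).subset ?_
    rintro γ ⟨x, hx, hγ⟩
    have h1 : ∀ i, ∃ s : ℝ, i < r → 0 < s ∧ ∀ v ∈ S (i + 1),
        (∃ w ∈ S i, ‖s • linH hol γ v - w‖ ≤ C * ‖v‖) ∧
          ∃ w ∈ S i, ‖s⁻¹ • linH hol γ⁻¹ v - w‖ ≤ C * ‖v‖ := by
      intro i
      by_cases hi : i < r
      · have h2 : ∀ j, g ⟨i, hi⟩ j γ x ≠ 0 := fun j =>
          (Finset.prod_ne_zero_iff.1 hγ) (⟨⟨i, hi⟩, j⟩ : ι) (Finset.mem_univ _)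
        obtain ⟨s, hs, h3⟩ := (hc ⟨i, hi⟩ γ x hx h2).mono (hCi ⟨i, hi⟩)
        exact ⟨s, fun _ => ⟨hs, h3⟩⟩
      · exact ⟨1, fun h2 => absurd h2 hi⟩
    choose s hs using h1
    exact ⟨s, fun i hi => (hs i hi).1, fun i hi => (hs i hi).2⟩
  obtain ⟨l, hl, hl'⟩ := normalise (hol := hol) h.isOpen (fun γ x => ∏ s, G s γ x) hgs hlf hnn
    hpos hequi
  refine h.no_rank hu (l := l) ⟨hl, fun x hx => ?_⟩
  have hN : ∑ s : ι, Module.finrank ℝ (EuclideanSpace ℝ (Fin (q s.1 s.2))) <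
      Module.finrank ℝ E + Fintype.card ι := by
    have h1 : ∑ s : ι, Module.finrank ℝ (EuclideanSpace ℝ (Fin (q s.1 s.2))) =
        ∑ i : Fin r, ∑ j : Fin (p i), q i j := by
      rw [Fintype.sum_sigma]
      simp only [finrank_euclideanSpace_fin]
    have h2 : Fintype.card ι = ∑ i : Fin r, p i := by
      rw [Fintype.card_sigma]
      simp only [Fintype.card_fin]
    rw [h1, h2]
    have h3 : ∑ i : Fin r, ∑ j : Fin (p i), q i j ≤ ∑ i : Fin r, (m i + p i) :=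
      Finset.sum_le_sum fun i _ => hq i
    rw [Finset.sum_add_distrib, Fin.sum_univ_eq_sum_range (fun i => m i) r] at h3
    omega
  obtain ⟨v, hv0, hv⟩ := exists_kernel_f hN (fun s : ι => fderiv ℝ (F s.1 s.2) x)
    (fun s => F s.1 s.2 x) fun s => (hg s).ne x hx
  refine ⟨v, hv0, hl' x hx v fun γ => ?_⟩
  have hdiff : ∀ {f : E → ℝ}, ContDiffOn ℝ 1 f Ω → DifferentiableAt ℝ f x :=
    fun hf => (hf.differentiableOn one_ne_zero).differentiableAt (h.isOpen.mem_nhds hx)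
  have h2 := path_deriv (hdiff (hgs γ)) v
  have h3 : ∀ s ∈ (Finset.univ : Finset ι),
      HasDerivAt (fun t : ℝ => G s γ (x + t • v)) 0 0 := by
    intro s _
    have h4 := path_deriv (hdiff ((hg s).factor.smooth γ)) v
    obtain ⟨c, hc⟩ := hv s
    rwa [(hg s).ker x hx v c hc γ] at h4
  have h5 := HasDerivAt.fun_finsetProd (u := Finset.univ) h3
  simp only [smul_zero, Finset.sum_const_zero] at h5
  exact h2.unique h5

/-- one invariant cone gives a family -/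
theorem fam_cone (h : AffAct Γ E hol Ω) {K : Set E} (hK : IsCompact K) (hKΩ : K ⊆ Ω) {n : ℕ}
    (σ : Γ →* ((Fin n → ℝ) ≃ₗ[ℝ] (Fin n → ℝ))) {C : Set (Fin n → ℝ)} (hC : ICone σ C) :
    ∃ (F : E → EuclideanSpace ℝ (Fin n)) (g : Γ → E → ℝ), Fam hol Ω K F g ∧
      ∀ K₁ : Set E, IsCompact K₁ → K₁ ⊆ Ω → ∃ A : Set (Fin n → ℝ), IsCompact A ∧ A ⊆ C ∧
        ∀ γ, ∀ x ∈ K₁, g γ x ≠ 0 → ∃ u ∈ A, ∃ t : ℝ, 0 < t ∧ t • σ γ⁻¹ u ∈ A := by
  obtain ⟨F, g, h1, h2, h3, h4, h5⟩ := rep_factor' h hK hKΩ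
    (fun γ => LinearMap.toContinuousLinearMap ((σ γ : (Fin n → ℝ) ≃ₗ[ℝ] (Fin n → ℝ)) :
      (Fin n → ℝ) →ₗ[ℝ] (Fin n → ℝ)))
    (fun γ δ u => by
      change σ (γ * δ) u = σ γ (σ δ u)
      rw [map_mul]
      rfl)
    (fun u => by
      change σ 1 u = u
      rw [map_one]
      rfl) hC.isOpen hC.convex hC.nonempty hC.zero hC.smul hC.inv
  let T : (Fin n → ℝ) ≃L[ℝ] EuclideanSpace ℝ (Fin n) := (EuclideanSpace.equiv (Fin n) ℝ).symm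
  refine ⟨fun x => T (F x), g, ⟨h1, T.contDiff.comp_contDiffOn h2, fun x hx h0 => ?_,
    fun x hx v c hv => ?_⟩, h5⟩
  · exact h3 x hx (T.injective (h0.trans (map_zero T).symm))
  · refine h4 x hx v c ?_
    have h6 : HasFDerivAt F (fderiv ℝ F x) x :=
      ((h2.differentiableOn one_ne_zero).differentiableAt (h.isOpen.mem_nhds hx)).hasFDerivAt
    have h7 : fderiv ℝ (fun x => T (F x)) x = T.toContinuousLinearMap.comp (fderiv ℝ F x) :=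
      (T.toContinuousLinearMap.hasFDerivAt.comp x h6).fderiv
    rw [h7] at hv
    have h8 : T (fderiv ℝ F x v) = T (c • F x) := by
      rw [map_smul]
      exact hv
    exact T.injective h8

/-- proper actions on products of cones of small dimension which factor through the action on the
block -/
def SmallAct (hol : Γ →* (E ≃ᵃ[ℝ] E)) (Sa Sb : Submodule ℝ E) : Prop :=
  ∃ (p : ℕ) (q : Fin p → ℕ) (σ : ∀ j, Γ →* ((Fin (q j) → ℝ) ≃ₗ[ℝ] (Fin (q j) → ℝ)))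
    (C : ∀ j, Set (Fin (q j) → ℝ)), (∀ j, ICone (σ j) (C j)) ∧
    (∀ γ : Γ, (∀ v ∈ Sb, (hol γ).linear v - v ∈ Sa) → ∀ j, σ j γ = 1) ∧
    (∀ A : ∀ j, Set (Fin (q j) → ℝ), (∀ j, IsCompact (A j)) → (∀ j, A j ⊆ C j) → ∃ c : ℝ,
      ∀ γ : Γ, (∀ j, ∃ u ∈ A j, ∃ t : ℝ, 0 < t ∧ t • σ j γ u ∈ A j) → BddBlock hol Sa Sb c γ) ∧
    ∑ j, q j + Module.finrank ℝ Sa < Module.finrank ℝ Sb + p

theorem gm_small (h : AffAct Γ E hol Ω) {K : Set E} (hK : IsCompact K) (hKΩ : K ⊆ Ω)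
    {Sa Sb : Submodule ℝ E} (hS : SmallAct hol Sa Sb) :
    Gm hol Ω K Sa Sb (Module.finrank ℝ Sb - Module.finrank ℝ Sa - 1) := by
  obtain ⟨p, q, σ, C, hC, -, hP, hdim⟩ := hS
  choose F g hfam hA using fun j => fam_cone h hK hKΩ (σ j) (hC j)
  refine ⟨p, q, F, g, by omega, hfam, fun K₁ hK₁ hK₁Ω => ?_⟩
  choose A hA1 hA2 hA3 using fun j => hA j K₁ hK₁ hK₁Ω
  obtain ⟨c, hc⟩ := hP A hA1 hA2
  refine ⟨c, fun γ x hx hg => BddBlock.inv (hc γ⁻¹ fun j => ?_)⟩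
  exact hA3 j γ x hx (hg j)

end Run7.h262.TB
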