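import Pool.Agent.Run7.h262.SV.Inst
import Pool.Agent.Run7.h262.TB.Core

/-!
Commutative normal subgroups of groups of affine maps dividing an open set.
-/

set_option autoImplicit false

open Filter Topology

namespace Run7.h262.TB

open Run7.h262.SV

/-- groups of affine maps dividing an open set -/
structure AffAct (Γ E : Type) [Group Γ] [NormedAddCommGroup E] [NormedSpace ℝ E]
    (hol : Γ →* (E ≃ᵃ[ℝ] E)) (Ω : Set E) : Prop where
  isOpen : IsOpen Ω
  nonempty : Ω.Nonempty
  inv : ∀ γ : Γ, ∀ x ∈ Ω, hol γ x ∈ Ω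
  pd : ∀ K : Set E, IsCompact K → K ⊆ Ω → {γ : Γ | ∃ x ∈ K, hol γ x ∈ K}.Finite
  cc : ∃ K : Set E, IsCompact K ∧ K ⊆ Ω ∧ ∀ x ∈ Ω, ∃ γ : Γ, hol γ x ∈ K

variable {Γ E : Type} [Group Γ] [NormedAddCommGroup E] [NormedSpace ℝ E] [FiniteDimensional ℝ E]
  {hol : Γ →* (E ≃ᵃ[ℝ] E)} {A : Subgroup Γ} {Ω : Set E}

/-- small elements of the lattice act trivially -/
theorem LL_small (h : AffAct Γ E hol Ω) (hA : ∀ a ∈ A, ∀ b ∈ A, a * b = b * a) :
    ∃ ε > 0, ∀ Y ∈ LL hol A hA, ‖Y‖ < ε → NormedSpace.exp Y = 1 := by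
  obtain ⟨x, hx⟩ := h.nonempty
  obtain ⟨K, hK, hxK, hKΩ⟩ := exists_compact_subset h.isOpen hx
  have hfin := h.pd K hK hKΩ
  have h1 : ∀ᶠ Y : AA E in 𝓝 0, actp (NormedSpace.exp Y) x ∈ K := by
    have h2 : Continuous fun Y : AA E => actp (NormedSpace.exp Y) x :=
      actp_cont.comp (continuous_const.prodMk exp_cont')
    refine (h2.tendsto 0).eventually ?_
    rw [NormedSpace.exp_zero]
    exact mem_interior_iff_mem_nhds.1 hxK
  have h2 : ∀ᶠ Y : AA E in 𝓝 0, NormedSpace.exp Y ∉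
      ((fun a => hat (hol a)) '' {γ : Γ | ∃ x ∈ K, hol γ x ∈ K}) \ {1} := by
    have h3 : IsClosed (((fun a => hat (hol a)) '' {γ : Γ | ∃ x ∈ K, hol γ x ∈ K}) \ {1} :
        Set (AA E)) := ((hfin.image _).subset Set.diff_subset).isClosed
    refine ((exp_cont' (R := AA E)).tendsto 0).eventually (h3.isOpen_compl.mem_nhds ?_)
    rw [NormedSpace.exp_zero]
    exact fun h4 => h4.2 rfl
  obtain ⟨ε, hε, hball⟩ := Metric.eventually_nhds_iff.1 (h1.and h2)
  refine ⟨ε, hε, fun Y hY hYε => ?_⟩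
  obtain ⟨h3, h4⟩ := hball (by rwa [dist_zero_right])
  obtain ⟨_, _, a, ha, h5⟩ := hY
  by_contra hne
  refine h4 ⟨⟨a, ⟨x, interior_subset hxK, ?_⟩, h5.symm⟩, hne⟩
  rwa [h5, actp_hat] at h3

theorem LL_closed (h : AffAct Γ E hol Ω) (hA : ∀ a ∈ A, ∀ b ∈ A, a * b = b * a) :
    IsClosed (LL hol A hA : Set (AA E)) := by
  obtain ⟨ε, hε, hsm⟩ := LL_small h hA
  refine isClosed_of_closure_subset fun X hX => ?_
  have hS : X ∈ SS hol A := by
    have h1 : IsClosed (SS hol A : Set (AA E)) := (SS hol A).closed_of_finiteDimensional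
    exact h1.closure_subset_iff.2 (fun Y (hY : Y ∈ LL hol A hA) => hY.1) hX
  have hsnd : ∀ w, (X w).2 = 0 := by
    intro w
    have h1 : IsClosed {Y : AA E | (Y w).2 = 0} :=
      isClosed_eq (continuous_snd.comp (ContinuousLinearMap.apply ℝ (E × ℝ) w).continuous)
        continuous_const
    exact h1.closure_subset_iff.2 (fun Y (hY : Y ∈ LL hol A hA) => hY.2.1 w) hX
  obtain ⟨X₁, hX₁, h1⟩ := Metric.mem_closure_iff.1 hX (ε / 2) (half_pos hε)
  have h2 : NormedSpace.exp X = NormedSpace.exp X₁ := by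
    have h3 : X ∈ closure {Y : AA E | NormedSpace.exp Y = NormedSpace.exp X₁} := by
      rw [Metric.mem_closure_iff]
      intro δ hδ
      obtain ⟨X₂, hX₂, h4⟩ := Metric.mem_closure_iff.1 hX (min δ (ε / 2))
        (lt_min hδ (half_pos hε))
      refine ⟨X₂, ?_, h4.trans_le (min_le_left _ _)⟩
      have h5 : ‖X₂ - X₁‖ < ε := by
        rw [← dist_eq_norm]
        calc dist X₂ X₁ ≤ dist X₂ X + dist X X₁ := dist_triangle _ _ _
          _ < ε / 2 + ε / 2 := by
            rw [dist_comm X₂ X]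
            exact add_lt_add (h4.trans_le (min_le_right _ _)) h1
          _ = ε := add_halves ε
      have h6 := hsm _ ((LL hol A hA).sub_mem hX₂ hX₁) h5
      have h7 : X₂ = (X₂ - X₁) + X₁ := by abel
      change NormedSpace.exp X₂ = NormedSpace.exp X₁
      rw [h7, exp_add' (SS_comm hol A hA (Submodule.sub_mem _ hX₂.1 hX₁.1) hX₁.1), h6, one_mul]
    have h4 : IsClosed {Y : AA E | NormedSpace.exp Y = NormedSpace.exp X₁} :=
      isClosed_eq exp_cont' continuous_const
    exact h4.closure_subset_iff.2 (le_refl _) h3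
  obtain ⟨_, _, a, ha, h5⟩ := hX₁
  exact ⟨hS, hsnd, a, ha, h2.trans h5⟩

/-- linear automorphisms of finite-dimensional spaces are continuous -/
noncomputable def toC {V : Type} [NormedAddCommGroup V] [NormedSpace ℝ V] [FiniteDimensional ℝ V]
    (α : V ≃ₗ[ℝ] V) : V ≃L[ℝ] V := α.toContinuousLinearEquiv

/-- conjugation on the Lie algebra of the torus -/
noncomputable def alpL (hA : ∀ a ∈ A, ∀ b ∈ A, a * b = b * a) (hN : A.Normal) (γ : Γ) :
    HH hol A hA ≃ₗ[ℝ] HH hol A hA :=
  LinearEquiv.ofLinear (cjl hA hN γ) (cjl hA hN γ⁻¹)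
    (cjl_cjl hA hN _ _ (mul_inv_cancel γ)) (cjl_cjl hA hN _ _ (inv_mul_cancel γ))

/-- conjugation on the Lie algebra of the torus -/
noncomputable def alpC (hA : ∀ a ∈ A, ∀ b ∈ A, a * b = b * a) (hN : A.Normal) (γ : Γ) :
    HH hol A hA ≃L[ℝ] HH hol A hA := toC (V := HH hol A hA) (alpL hA hN γ)

theorem alpC_coe (hA : ∀ a ∈ A, ∀ b ∈ A, a * b = b * a) (hN : A.Normal) (γ : Γ)
    (X : HH hol A hA) : ((alpC hA hN γ X : HH hol A hA) : AA E) =
      hat (hol γ) * (X : AA E) * hat (hol γ⁻¹) := rfl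

/-- the conjugation action on the Lie algebra of the torus -/
noncomputable def alp (hA : ∀ a ∈ A, ∀ b ∈ A, a * b = b * a) (hN : A.Normal) :
    Γ →* (HH hol A hA ≃L[ℝ] HH hol A hA) where
  toFun γ := alpC hA hN γ
  map_one' := by
    refine ContinuousLinearEquiv.ext (funext fun X => Subtype.ext ?_)
    change hat (hol 1) * (X : AA E) * hat (hol 1⁻¹) = X
    rw [inv_one, map_one, map_one, one_mul, mul_one]
  map_mul' γ δ := by
    refine ContinuousLinearEquiv.ext (funext fun X => Subtype.ext ?_)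
    change hat (hol (γ * δ)) * (X : AA E) * hat (hol (γ * δ)⁻¹) =
      hat (hol γ) * (hat (hol δ) * (X : AA E) * hat (hol δ⁻¹)) * hat (hol γ⁻¹)
    rw [mul_inv_rev, map_mul, map_mul, map_mul, map_mul]
    simp only [mul_assoc]

theorem alp_coe (hA : ∀ a ∈ A, ∀ b ∈ A, a * b = b * a) (hN : A.Normal) (γ : Γ)
    (X : HH hol A hA) : ((alp hA hN γ X : HH hol A hA) : AA E) =
      hat (hol γ) * (X : AA E) * hat (hol γ⁻¹) := rfl

/-- the action on points -/
abbrev actE (hol : Γ →* (E ≃ᵃ[ℝ] E)) : MulAction Γ E where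
  smul γ x := hol γ x
  one_smul x := by
    change hol 1 x = x
    rw [map_one]
    rfl
  mul_smul γ δ x := by
    change hol (γ * δ) x = hol γ (hol δ x)
    rw [map_mul]
    rfl

/-- commutative normal subgroups integrate: the one parameter groups through the squares of the
elements of a commutative normal subgroup preserve the domain -/
theorem AffAct.flow_mem (h : AffAct Γ E hol Ω) (hA : ∀ a ∈ A, ∀ b ∈ A, a * b = b * a)
    (hN : A.Normal) {X : AA E} (hX : X ∈ HH hol A hA) {x : E} (hx : x ∈ Ω) :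
    actp (NormedSpace.exp X) x ∈ Ω := by
  let _ : MulAction Γ E := actE hol
  have _ : ContinuousConstSMul Γ E := ⟨fun γ => hol_cont γ⟩
  have D : Dat Γ (HH hol A hA) E (fun X x => actp (NormedSpace.exp (X : AA E)) x)
      ((LL hol A hA).comap (HH hol A hA).subtype.toAddMonoidHom) (alp hA hN) Ω := by
    refine ⟨?_, ?_, ?_, ?_, ?_, ?_, ?_, ?_, h.isOpen, h.nonempty, h.inv, h.pd, h.cc⟩
    · have h3 : Continuous fun p : HH hol A hA × E => (p.2, NormedSpace.exp (p.1 : AA E)) :=
        continuous_snd.prodMk (exp_cont'.comp (continuous_subtype_val.comp continuous_fst))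
      exact actp_cont.comp h3
    · intro x
      change actp (NormedSpace.exp ((0 : HH hol A hA) : AA E)) x = x
      rw [Submodule.coe_zero, NormedSpace.exp_zero]
      rfl
    · intro X Y x
      exact hh_add hA X.2 Y.2 x
    · exact (LL_closed h hA).preimage continuous_subtype_val
    · exact span_cpt _ Submodule.span_span_coe_preimage
    · rintro l ⟨h1, h2, a, ha, h3⟩
      refine ⟨a, ?_, fun x => ?_⟩
      · refine ContinuousLinearEquiv.ext (funext fun X => Subtype.ext ?_)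
        rw [alp_coe]
        change _ = (X : AA E)
        rw [← SS_comm hol A hA (HH_le hol A hA X.2) (SS_hat hol A ha), mul_assoc, hat_mul_inv,
          mul_one]
      · change hol a x = actp (NormedSpace.exp (l : AA E)) x
        have h3' : NormedSpace.exp (l : AA E) = hat (hol a) := h3
        rw [h3', actp_hat]
    · intro γ l hl
      exact LL_conj hol A hA hN γ hl
    · intro γ X x
      change hol γ (actp (NormedSpace.exp (X : AA E)) x) =
        actp (NormedSpace.exp ((alp hA hN γ X : HH hol A hA) : AA E)) (hol γ x)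
      rw [hh_conj_act hA γ (alp hA hN γ X).2, alp_coe]
      have e1 : hat (hol γ⁻¹) * (hat (hol γ) * (X : AA E) * hat (hol γ⁻¹)) * hat (hol γ) = X := by
        calc hat (hol γ⁻¹) * (hat (hol γ) * (X : AA E) * hat (hol γ⁻¹)) * hat (hol γ)
            = (hat (hol γ⁻¹) * hat (hol γ)) * (X : AA E) * (hat (hol γ⁻¹) * hat (hol γ)) := by
              simp only [mul_assoc]
          _ = X := by rw [hat_inv_mul, one_mul, mul_one]
      rw [e1]
  exact D.mem x hx ⟨X, hX⟩

end Run7.h262.TB
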