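import Pool.Agent.Run7.h262.TB.Three

/-!
Dimension three, the common kernel is a line.
-/

set_option autoImplicit false

open Filter Topology

namespace Run7.h262.TB

open Run7.h262.SV

theorem le_one {V : Type} [AddCommGroup V] [Module ℝ V] [FiniteDimensional ℝ V]
    (H : Submodule ℝ V) (h : Module.finrank ℝ H ≤ 1) : ∃ x ∈ H, ∀ y ∈ H, ∃ c : ℝ, y = c • x := by
  obtain ⟨x, hx⟩ := finrank_le_one_iff.1 h
  refine ⟨x, x.2, fun y hy => ?_⟩
  obtain ⟨c, hc⟩ := hx ⟨y, hy⟩
  exact ⟨c, (congrArg Subtype.val hc).symm⟩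

section alg
variable {E : Type} [NormedAddCommGroup E] [NormedSpace ℝ E] [FiniteDimensional ℝ E]

/-- quadratic forms in two variables: the isotropic vectors lie in at most two planes -/
theorem two_planes (K : Submodule ℝ E) (B : E →ₗ[ℝ] E →ₗ[ℝ] ℝ) (hs : ∀ v w, B v w = B w v)
    (hBK : ∀ v, ∀ w ∈ K, B v w = 0) {e₁ e₂ : E} (h1 : B e₁ e₁ = 0)
    (hspan : ∀ v, ∃ a b : ℝ, ∃ k ∈ K, v = a • e₁ + b • e₂ + k)
    (hne : ∃ v, B v v ≠ 0) :
    ∃ e₃ : E, ∀ v, B v v = 0 → (∃ a : ℝ, ∃ k ∈ K, v = a • e₁ + k) ∨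
      (∃ a : ℝ, ∃ k ∈ K, v = a • e₃ + k) := by
  have hKB : ∀ v, ∀ w ∈ K, B w v = 0 := fun v w hw => by rw [hs, hBK v w hw]
  have hq : ∀ (a b : ℝ) (k : E), k ∈ K → B (a • e₁ + b • e₂ + k) (a • e₁ + b • e₂ + k) =
      b * (2 * a * B e₁ e₂ + b * B e₂ e₂) := by
    intro a b k hk
    simp only [map_add, LinearMap.add_apply, map_smul, LinearMap.smul_apply, smul_eq_mul]
    rw [hBK e₁ k hk, hBK e₂ k hk, hBK k k hk, hKB e₁ k hk, hKB e₂ k hk, h1, hs e₂ e₁]
    ring
  refine ⟨(-B e₂ e₂) • e₁ + (2 * B e₁ e₂) • e₂, fun v hv => ?_⟩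
  obtain ⟨a, b, k, hk, rfl⟩ := hspan v
  rw [hq a b k hk] at hv
  rcases mul_eq_zero.1 hv with hb | hb
  · left
    refine ⟨a, k, hk, ?_⟩
    rw [hb, zero_smul, add_zero]
  · by_cases h12 : B e₁ e₂ = 0
    · rw [h12, mul_zero, zero_add] at hb
      rcases mul_eq_zero.1 hb with hb | hb
      · left
        refine ⟨a, k, hk, ?_⟩
        rw [hb, zero_smul, add_zero]
      · exfalso
        obtain ⟨w, hw⟩ := hne
        obtain ⟨a', b', k', hk', rfl⟩ := hspan w
        apply hw
        rw [hq a' b' k' hk', h12, hb]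
        ring
    · right
      refine ⟨b / (2 * B e₁ e₂), k, hk, ?_⟩
      have h2 : a = b / (2 * B e₁ e₂) * (-B e₂ e₂) := by
        field_simp
        linear_combination hb
      have h3 : b = b / (2 * B e₁ e₂) * (2 * B e₁ e₂) := by
        field_simp
      rw [smul_add, smul_smul, smul_smul, ← h2, ← h3]

end alg

variable {Γ E : Type} [Group Γ] [NormedAddCommGroup E] [NormedSpace ℝ E] [FiniteDimensional ℝ E]
  {hol : Γ →* (E ≃ᵃ[ℝ] E)} {A : Subgroup Γ} {Ω : Set E}

theorem linv_lin (γ : Γ) (v : E) : (hol γ).linear ((hol γ⁻¹).linear v) = v := by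
  have := lin_inv (hol := hol) γ⁻¹ v
  rwa [inv_inv] at this

theorem lin_mul' (γ δ : Γ) (v : E) :
    (hol (γ * δ)).linear v = (hol γ).linear ((hol δ).linear v) := by
  rw [map_mul]
  rfl

/-- invariant lines with an invariant degenerate quadratic form up to scalars -/
theorem VolAct.conf_form (h : VolAct Γ E hol Ω) (hE : Module.finrank ℝ E = 3)
    (K : Submodule ℝ E) (hK : Module.finrank ℝ K = 1)
    (hKinv : ∀ γ : Γ, ∀ v ∈ K, (hol γ).linear v ∈ K)
    (B : E →ₗ[ℝ] E →ₗ[ℝ] ℝ) (hs : ∀ v w, B v w = B w v) (hBK : ∀ v, ∀ w ∈ K, B v w = 0)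
    (hBγ : ∀ γ : Γ, ∃ c : ℝ, c ≠ 0 ∧ ∀ v w, B ((hol γ).linear v) ((hol γ).linear w) = c * B v w)
    (hne : ∃ v, B v v ≠ 0) : Ω = Set.univ := by
  classical
  by_cases hdef : ∀ v, B v v = 0 → v ∈ K
  · -- the definite case
    refine h.line_conf ⊤ inferInstance K hK (fun γ _ => hKinv γ) ?_
    refine QC_quad ⊤ K (fun v => B v v) ?_ ?_ ?_ hdef ?_
    · have h1 : Continuous fun v : E => (LinearMap.toContinuousLinearMap (B v)) v := by
        let B' : E →ₗ[ℝ] (E →L[ℝ] ℝ) :=
          (LinearMap.toContinuousLinearMap : (E →ₗ[ℝ] ℝ) ≃ₗ[ℝ] (E →L[ℝ] ℝ)).toLinearMap ∘ₗ B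
        have hB' : Continuous B' := B'.continuous_of_finiteDimensional
        exact hB'.clm_apply continuous_id
      exact h1
    · intro r v
      simp only [map_smul, LinearMap.smul_apply, smul_eq_mul]
      ring
    · intro v w hw
      simp only [map_add, LinearMap.add_apply]
      rw [hBK v w hw, hBK w w hw, hs w v, hBK v w hw]
      ring
    · intro γ _
      obtain ⟨c, hc, h1⟩ := hBγ γ
      exact ⟨c, hc, fun v => h1 v v⟩
  · push Not at hdef
    obtain ⟨e₁, he₁, he₁K⟩ := hdef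
    set P₁ : Submodule ℝ E := K ⊔ Submodule.span ℝ {e₁} with hP₁
    have hmemP : ∀ {e v : E}, v ∈ K ⊔ Submodule.span ℝ {e} ↔ ∃ a : ℝ, ∃ k ∈ K, v = a • e + k := by
      intro e v
      rw [Submodule.mem_sup]
      constructor
      · rintro ⟨k, hk, w, hw, rfl⟩
        obtain ⟨a, rfl⟩ := Submodule.mem_span_singleton.1 hw
        exact ⟨a, k, hk, add_comm _ _⟩
      · rintro ⟨a, k, hk, rfl⟩
        exact ⟨k, hk, a • e, Submodule.mem_span_singleton.2 ⟨a, rfl⟩, add_comm _ _⟩
    have hfr1 : Module.finrank ℝ P₁ = 2 := by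
      have h1 : K < P₁ := by
        refine lt_of_le_of_ne le_sup_left fun h2 => he₁K ?_
        rw [h2]
        exact Submodule.mem_sup_right (Submodule.mem_span_singleton_self e₁)
      have h2 := Submodule.finrank_lt_finrank_of_lt h1
      have h3 := Submodule.finrank_add_le_finrank_add_finrank K (Submodule.span ℝ {e₁})
      have h4 := finrank_span_le_card (R := ℝ) ({e₁} : Set E)
      simp only [Set.toFinset_singleton, Finset.card_singleton] at h4
      rw [← hP₁] at h3
      omega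
    obtain ⟨e₂, he₂⟩ : ∃ e₂, e₂ ∉ P₁ := by
      by_contra hcon
      push Not at hcon
      have h1 : P₁ = ⊤ := Submodule.eq_top_iff'.2 hcon
      rw [h1, finrank_top] at hfr1
      omega
    have hspan : ∀ v, ∃ a b : ℝ, ∃ k ∈ K, v = a • e₁ + b • e₂ + k := by
      have h1 : P₁ ⊔ Submodule.span ℝ {e₂} = ⊤ := by
        have h2 : P₁ < P₁ ⊔ Submodule.span ℝ {e₂} := by
          refine lt_of_le_of_ne le_sup_left fun h2 => he₂ ?_
          rw [h2]
          exact Submodule.mem_sup_right (Submodule.mem_span_singleton_self e₂)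
        have h3 := Submodule.finrank_lt_finrank_of_lt h2
        exact Submodule.eq_top_of_finrank_eq (le_antisymm (Submodule.finrank_le _) (by omega))
      intro v
      have h2 : v ∈ P₁ ⊔ Submodule.span ℝ {e₂} := by
        rw [h1]
        trivial
      obtain ⟨p, hp, w, hw, rfl⟩ := Submodule.mem_sup.1 h2
      obtain ⟨a, k, hk, rfl⟩ := hmemP.1 hp
      obtain ⟨b, rfl⟩ := Submodule.mem_span_singleton.1 hw
      exact ⟨a, b, k, hk, by abel⟩
    obtain ⟨e₃, he₃⟩ := two_planes K B hs hBK he₁ hspan hne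
    -- the stabiliser of the plane
    have hmap : ∀ γ : Γ, (hol γ).linear e₁ ∈ P₁ → ∀ v ∈ P₁, (hol γ).linear v ∈ P₁ := by
      intro γ hγ v hv
      obtain ⟨a, k, hk, rfl⟩ := hmemP.1 hv
      rw [map_add, map_smul]
      exact P₁.add_mem (P₁.smul_mem _ hγ) (Submodule.mem_sup_left (hKinv γ k hk))
    have hinv : ∀ γ : Γ, (∀ v ∈ P₁, (hol γ).linear v ∈ P₁) → ∀ v ∈ P₁, (hol γ⁻¹).linear v ∈ P₁ := by
      intro γ hγ v hv
      have h1 : P₁.map ((hol γ).linear : E →ₗ[ℝ] E) = P₁ := by
        refine Submodule.eq_of_le_of_finrank_le ?_ ?_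
        · rintro _ ⟨w, hw, rfl⟩
          exact hγ w hw
        · rw [map_fr ((hol γ).linear : E →ₗ[ℝ] E) P₁ fun x _ hx => ?_]
          exact (hol γ).linear.map_eq_zero_iff.1 hx
      rw [← h1] at hv
      obtain ⟨w, hw, rfl⟩ := hv
      change (hol γ⁻¹).linear ((hol γ).linear w) ∈ P₁
      rw [lin_inv]
      exact hw
    let H : Subgroup Γ :=
      { carrier := {γ | ∀ v ∈ P₁, (hol γ).linear v ∈ P₁}
        mul_mem' := fun {γ δ} hγ hδ v hv => by
          rw [lin_mul']
          exact hγ _ (hδ v hv)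
        one_mem' := fun v hv => by
          rw [map_one]
          exact hv
        inv_mem' := fun {γ} hγ => hinv γ hγ }
    have hHmem : ∀ γ : Γ, γ ∉ H → ∃ a : ℝ, a ≠ 0 ∧ ∃ k ∈ K, (hol γ).linear e₁ = a • e₃ + k := by
      intro γ hγ
      have h1 : (hol γ).linear e₁ ∉ P₁ := fun h2 => hγ (hmap γ h2)
      obtain ⟨c, hc, h2⟩ := hBγ γ
      have h3 : B ((hol γ).linear e₁) ((hol γ).linear e₁) = 0 := by
        rw [h2, he₁, mul_zero]
      rcases he₃ _ h3 with ⟨a, k, hk, h4⟩ | ⟨a, k, hk, h4⟩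
      · exact absurd (hmemP.2 ⟨a, k, hk, h4⟩) h1
      · refine ⟨a, ?_, k, hk, h4⟩
        rintro rfl
        rw [zero_smul, zero_add] at h4
        apply h1
        rw [h4]
        exact Submodule.mem_sup_left hk
    have hfin : H.FiniteIndex := by
      have h1 : ∀ γ δ : Γ, γ ∉ H → δ ∉ H → γ⁻¹ * δ ∈ H := by
        intro γ δ hγ hδ
        obtain ⟨a, ha, k, hk, h2⟩ := hHmem γ hγ
        obtain ⟨b, hb, k', hk', h3⟩ := hHmem δ hδ
        refine hmap _ ?_
        rw [lin_mul']
        have h4 : (hol δ).linear e₁ = (b / a) • (hol γ).linear e₁ + (k' - (b / a) • k) := by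
          rw [h2, h3, smul_add, smul_smul, div_mul_cancel₀ _ ha]
          abel
        rw [h4, map_add, map_smul, lin_inv]
        refine P₁.add_mem (P₁.smul_mem _ (Submodule.mem_sup_right
          (Submodule.mem_span_singleton_self e₁))) (Submodule.mem_sup_left ?_)
        exact hKinv γ⁻¹ _ (K.sub_mem hk' (K.smul_mem _ hk))
      have h2 : Finite (Γ ⧸ H) := by
        by_cases hH : ∃ γ₀ : Γ, γ₀ ∉ H
        · obtain ⟨γ₀, hγ₀⟩ := hH
          refine Set.finite_univ_iff.1 (Set.Finite.subset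
            (s := {((1 : Γ) : Γ ⧸ H), (γ₀ : Γ ⧸ H)}) (Set.toFinite _) ?_)
          intro x _
          obtain ⟨γ, rfl⟩ := QuotientGroup.mk_surjective x
          by_cases hγ : γ ∈ H
          · left
            refine (QuotientGroup.eq.2 ?_).symm
            rw [inv_one, one_mul]
            exact hγ
          · right
            exact QuotientGroup.eq.2 (h1 γ γ₀ hγ hγ₀)
        · push Not at hH
          refine Set.finite_univ_iff.1 (Set.Finite.subset
            (s := {((1 : Γ) : Γ ⧸ H)}) (Set.toFinite _) ?_)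
          intro x _
          obtain ⟨γ, rfl⟩ := QuotientGroup.mk_surjective x
          refine (QuotientGroup.eq.2 ?_).symm
          rw [inv_one, one_mul]
          exact hH γ
      exact Subgroup.finiteIndex_of_finite_quotient
    exact h.lines H hfin K P₁ le_sup_left hK hfr1 hE (fun γ _ => hKinv γ) fun γ hγ => hγ

section fam
variable (hA : ∀ a ∈ A, ∀ b ∈ A, a * b = b * a)

/-- the common kernel is a line, which is spanned by the images -/
theorem case_line (h : VolAct Γ E hol Ω) (hN : A.Normal)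
    (hE : Module.finrank ℝ E = 3) (hK : Module.finrank ℝ (ker (LF (hol := hol) hA)) = 1)
    (hI : act (LF (hol := hol) hA) ⊤ = ker (LF (hol := hol) hA)) : Ω = Set.univ := by
  classical
  set K := ker (LF (hol := hol) hA) with hKdef
  have hKX : ∀ X ∈ HH hol A hA, ∀ v ∈ K, Lp X v = 0 := fun X hX v hv => hv _ ⟨X, hX, rfl⟩
  have hXK : ∀ v, (∀ X ∈ HH hol A hA, Lp X v = 0) → v ∈ K := by
    rintro v hv _ ⟨X, hX, rfl⟩
    exact hv X hX
  have hIX : ∀ X ∈ HH hol A hA, ∀ v, Lp X v ∈ K := by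
    intro X hX v
    rw [← hI]
    exact Submodule.subset_span ⟨_, ⟨X, hX, rfl⟩, v, trivial, rfl⟩
  have hKinv : ∀ γ : Γ, ∀ v ∈ K, (hol γ).linear v ∈ K := by
    intro γ
    exact ker_norm ((hol γ).linear : E →ₗ[ℝ] E) ((hol γ⁻¹).linear : E →ₗ[ℝ] E)
      (fun v => lin_inv γ v) (fun v => linv_lin γ v) (LF_conj hA hN γ⁻¹)
  obtain ⟨κ, k₀, hk₀, hκk, hκ⟩ := exists_fun ⊥ K bot_le (by rw [finrank_bot, hK]) (by
    intro h1
    rw [← h1, finrank_bot] at hK
    omega)
  have hKk : ∀ v ∈ K, v = κ v • k₀ := by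
    intro v hv
    have h1 : κ (v - κ v • k₀) = 0 := by
      rw [map_sub, map_smul, hκk, smul_eq_mul, mul_one, sub_self]
    rw [hκ _ (K.sub_mem hv (K.smul_mem _ hk₀)), Submodule.mem_bot, sub_eq_zero] at h1
    exact h1
  have hκ0 : ∀ v ∈ K, κ v = 0 → v = 0 := by
    intro v hv h1
    rw [hKk v hv, h1, zero_smul]
  -- the translation parts
  set T : Submodule ℝ E := K ⊔ (HH hol A hA).map tp with hT
  have hTinv : ∀ γ : Γ, ∀ v ∈ T, (hol γ).linear v ∈ T := by
    intro γ v hv
    obtain ⟨k, hk, w, ⟨X, hX, rfl⟩, rfl⟩ := Submodule.mem_sup.1 hv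
    rw [map_add]
    refine T.add_mem (Submodule.mem_sup_left (hKinv γ k hk)) ?_
    obtain ⟨X', hX', -, h2⟩ := conj_lin hA hN γ hX
    rw [h2]
    exact T.add_mem (Submodule.mem_sup_left (hIX X' hX' _))
      (Submodule.mem_sup_right ⟨X', hX', rfl⟩)
  have hTle : Module.finrank ℝ T ≤ 3 := hE ▸ Submodule.finrank_le T
  have hTge : 1 ≤ Module.finrank ℝ T := hK ▸ Submodule.finrank_mono (R := ℝ) le_sup_left
  rcases (by omega : Module.finrank ℝ T = 1 ∨ Module.finrank ℝ T = 2 ∨ Module.finrank ℝ T = 3)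
    with hT1 | hT2 | hT3
  · -- the translation parts are in the line: this contradicts freeness
    exfalso
    have hTK : K = T := Submodule.eq_of_le_of_finrank_le le_sup_left (by omega)
    have htp : ∀ X ∈ HH hol A hA, tp X ∈ K := by
      intro X hX
      rw [hTK]
      exact Submodule.mem_sup_right ⟨X, hX, rfl⟩
    have hsq : ∀ X ∈ HH hol A hA, X * X = 0 := by
      intro X hX
      refine ContinuousLinearMap.ext fun w => ?_
      rw [mul_apply_eq_comp]
      have e1 : X w = (Lp X w.1 + w.2 • tp X, 0) := form_apply (HH_snd hol A hA hX) w.1 w.2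
      rw [e1, form_apply (HH_snd hol A hA hX), zero_smul, add_zero,
        hKX X hX _ (K.add_mem (hIX X hX _) (K.smul_mem _ (htp X hX)))]
      rfl
    obtain ⟨x, hx⟩ := h.nonempty
    let mx : AA E →ₗ[ℝ] E :=
      { toFun := fun X => (X (x, 1)).1
        map_add' := fun _ _ => rfl
        map_smul' := fun _ _ => rfl }
    have hmxK : (HH hol A hA).map mx ≤ K := by
      rintro _ ⟨X, hX, rfl⟩
      change (X (x, 1)).1 ∈ K
      rw [form_apply (HH_snd hol A hA hX)]
      exact K.add_mem (hIX X hX _) (K.smul_mem _ (htp X hX))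
    have h1 : Module.finrank ℝ ((HH hol A hA).map mx) = Module.finrank ℝ (HH hol A hA) := by
      refine map_fr mx _ fun X hX hX0 => ?_
      exact h.toAffAct.free hA hN hsq hX hx (Prod.ext hX0 (HH_snd hol A hA hX _))
    have h2 := Submodule.finrank_mono (R := ℝ) hmxK
    have h3 : Module.finrank ℝ (HH hol A hA) ≤ 1 := by omega
    obtain ⟨X₁, hX₁H, hX₁⟩ := le_one _ h3
    have h4 : LinearMap.ker (Lp (X₁ : AA E)) ≤ K := by
      intro v hv
      refine hXK v fun X hX => ?_
      obtain ⟨c, h5⟩ := hX₁ X hX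
      rw [h5, map_smul, LinearMap.smul_apply, LinearMap.mem_ker.1 hv, smul_zero]
    have h5 : LinearMap.range (Lp (X₁ : AA E)) ≤ K := by
      rintro _ ⟨v, rfl⟩
      exact hIX _ hX₁H v
    have h6 := LinearMap.finrank_range_add_finrank_ker (Lp (X₁ : AA E))
    have h7 := Submodule.finrank_mono (R := ℝ) h4
    have h8 := Submodule.finrank_mono (R := ℝ) h5
    omega
  · exact h.lines ⊤ inferInstance K T le_sup_left hK hT2 hE (fun γ _ => hKinv γ)
      fun γ _ => hTinv γ
  · -- the nondegenerate case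
    have hTt : T = ⊤ := Submodule.eq_top_of_finrank_eq (hT3.trans hE.symm)
    let τ : (HH hol A hA) × K →ₗ[ℝ] E :=
      LinearMap.coprod (tp ∘ₗ (HH hol A hA).subtype) K.subtype
    have hτs : LinearMap.range τ = ⊤ := by
      rw [eq_top_iff, ← hTt, hT]
      refine sup_le ?_ ?_
      · intro k hk
        refine ⟨(0, ⟨k, hk⟩), ?_⟩
        change tp ((0 : HH hol A hA) : AA E) + k = k
        rw [Submodule.coe_zero, map_zero, zero_add]
      · rintro _ ⟨X, hX, rfl⟩
        refine ⟨(⟨X, hX⟩, 0), ?_⟩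
        change tp X + ((0 : K) : E) = tp X
        rw [Submodule.coe_zero, add_zero]
    obtain ⟨ρ, hρ⟩ := τ.exists_rightInverse_of_surjective hτs
    let σ : E →ₗ[ℝ] AA E := (HH hol A hA).subtype ∘ₗ LinearMap.fst ℝ _ _ ∘ₗ ρ
    have hσH : ∀ v, σ v ∈ HH hol A hA := fun v => (ρ v).1.2
    have hσK : ∀ v, v - tp (σ v) ∈ K := by
      intro v
      have h1 : tp (σ v) + ((ρ v).2 : E) = v := LinearMap.congr_fun hρ v
      have h2 : v - tp (σ v) = ((ρ v).2 : E) := sub_eq_of_eq_add' h1.symm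
      rw [h2]
      exact (ρ v).2.2
    -- evaluation on translation parts
    have hev : ∀ X ∈ HH hol A hA, ∀ v, Lp X v = Lp (σ v) (tp X) := by
      intro X hX v
      have h1 := hKX X hX _ (hσK v)
      rw [map_sub, sub_eq_zero] at h1
      rw [h1, Lp_tp hA hX (hσH v)]
    have huniq : ∀ X ∈ HH hol A hA, tp X ∈ K → ∀ v, Lp X v = 0 := by
      intro X hX h1 v
      rw [hev X hX v, hKX _ (hσH v) _ h1]
    let B : E →ₗ[ℝ] E →ₗ[ℝ] ℝ := LinearMap.mk₂ ℝ (fun v w => κ (Lp (σ v) w))
      (fun a b c => by simp only [map_add, LinearMap.add_apply])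
      (fun r a b => by simp only [map_smul, LinearMap.smul_apply])
      (fun a b c => by simp only [map_add])
      (fun r a b => by simp only [map_smul])
    have hB : ∀ v w, B v w = κ (Lp (σ v) w) := fun v w => rfl
    refine h.conf_form hE K hK hKinv B ?_ ?_ ?_ ?_
    · intro v w
      rw [hB, hB, hev _ (hσH v) w]
      have h1 := hKX _ (hσH w) _ (hσK v)
      rw [map_sub, sub_eq_zero] at h1
      rw [h1]
    · intro v w hw
      rw [hB, hKX _ (hσH v) w hw, map_zero]
    · intro γ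
      refine ⟨κ ((hol γ).linear k₀), ?_, fun v w => ?_⟩
      · intro h1
        have h2 := hκ0 _ (hKinv γ k₀ hk₀) h1
        have h3 : k₀ = 0 := (hol γ).linear.map_eq_zero_iff.1 h2
        rw [h3, map_zero] at hκk
        exact zero_ne_one hκk
      · obtain ⟨X', hX', h1, h2⟩ := conj_lin hA hN γ (hσH v)
        have h3 : tp (σ ((hol γ).linear v) - X') ∈ K := by
          have h4 := hσK ((hol γ).linear v)
          have h5 := hKinv γ _ (hσK v)
          rw [map_sub, h2] at h5
          have h6 : tp (σ ((hol γ).linear v) - X') =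
              ((hol γ).linear v - (Lp X' (hol γ 0) + tp X')) -
                ((hol γ).linear v - tp (σ ((hol γ).linear v))) + Lp X' (hol γ 0) := by
            rw [map_sub]
            abel
          rw [h6]
          exact K.add_mem (K.sub_mem h5 h4) (hIX X' hX' _)
        have h4 := huniq _ (Submodule.sub_mem _ (hσH _) hX') h3 ((hol γ).linear w)
        rw [map_sub, LinearMap.sub_apply, sub_eq_zero] at h4
        rw [hB, hB, h4, ← h1]
        have h5 := hKk _ (hIX _ (hσH v) w)
        conv_lhs => rw [h5]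
        rw [map_smul, map_smul, smul_eq_mul, mul_comm]
    · by_contra hcon
      push Not at hcon
      have hB0 : ∀ v w, B v w = 0 := by
        intro v w
        have h1 := hcon (v + w)
        simp only [map_add, LinearMap.add_apply] at h1
        rw [hcon v, hcon w] at h1
        have h2 : B w v = B v w := by
          rw [hB, hB, hev _ (hσH w) v]
          have h1 := hKX _ (hσH v) _ (hσK w)
          rw [map_sub, sub_eq_zero] at h1
          rw [h1]
        rw [h2] at h1
        linarith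
      have hall : ∀ v, v ∈ K := by
        intro v
        refine hXK v fun X hX => ?_
        have h1 : tp (X - σ (tp X)) ∈ K := by
          rw [map_sub]
          exact hσK (tp X)
        have h2 := huniq _ (Submodule.sub_mem _ hX (hσH _)) h1 v
        rw [map_sub, LinearMap.sub_apply, sub_eq_zero] at h2
        rw [h2]
        exact hκ0 _ (hIX _ (hσH _) v) (hB0 (tp X) v)
      have h1 : K = ⊤ := Submodule.eq_top_iff'.2 hall
      rw [h1, finrank_top] at hK
      omega

end fam

/-- dimension three -/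
theorem VolAct.three (hA : ∀ a ∈ A, ∀ b ∈ A, a * b = b * a) (h : VolAct Γ E hol Ω)
    (hc : IsPreconnected Ω) (hE : Module.finrank ℝ E = 3) (hN : A.Normal) (a : Γ) (ha : a ∈ A) (ha2 : hol (a * a) ≠ 1) :
    Ω = Set.univ := by
  classical
  obtain ⟨X₀, hX₀, hX₁⟩ := LL_square hol A hA ha
  have hX₂ : X₀ ∈ HH hol A hA := Submodule.subset_span hX₀
  have hX₀0 : X₀ ≠ 0 := by
    rintro rfl
    rw [NormedSpace.exp_zero] at hX₁
    apply ha2
    apply hat_inj
    rw [← hX₁, map_one]
  have hcm := LF_comm (hol := hol) hA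
  have hnil := LF_nil hA h hN
  by_cases h0 : ∀ X ∈ HH hol A hA, ∀ v, Lp X v = 0
  · -- translations
    refine h.codim_two hc ?_
    have h1 : X₀ = tau (tp X₀) := by
      refine ContinuousLinearMap.ext fun w => ?_
      have e1 : X₀ w = (Lp X₀ w.1 + w.2 • tp X₀, 0) := form_apply (HH_snd hol A hA hX₂) w.1 w.2
      rw [e1, h0 X₀ hX₂, zero_add, tau_apply]
    have h2 : tp X₀ ∈ Tr hol := by
      refine ⟨a * a, fun x => ?_⟩
      rw [← actp_hat, ← hX₁]
      conv_lhs => rw [h1]
      rw [exp_sq _ (tau_sq _)]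
      change (((x, 1) : E × ℝ) + tau (tp X₀) (x, 1)).1 = x + tp X₀
      rw [tau_apply, one_smul]
      rfl
    have h3 : Submodule.span ℝ (Tr hol : Set E) ≠ ⊥ := by
      intro h4
      have h5 : tp X₀ ∈ Submodule.span ℝ (Tr hol : Set E) := Submodule.subset_span h2
      rw [h4, Submodule.mem_bot] at h5
      rw [h5, map_zero] at h1
      exact hX₀0 h1
    have h4 : 0 < Module.finrank ℝ (Submodule.span ℝ (Tr hol : Set E)) := by
      rw [Nat.pos_iff_ne_zero]
      intro h5
      exact h3 (Submodule.finrank_eq_zero.1 h5)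
    omega
  · push Not at h0
    obtain ⟨X, hX, v, hv⟩ := h0
    set F := LF (hol := hol) hA with hF
    have hEne : (⊤ : Submodule ℝ E) ≠ ⊥ := by
      intro h1
      have h2 := finrank_top ℝ E
      rw [h1, finrank_bot, hE] at h2
      omega
    have hI : act F ⊤ ≠ ⊤ := nakayama F hcm hnil ⊤ (fun _ _ _ _ => trivial) hEne
    have hIfr : Module.finrank ℝ (act F ⊤) < 3 := by
      rw [← hE]
      exact Submodule.finrank_lt hI
    have hI0 : act F ⊤ ≠ ⊥ := by
      intro h1
      have h2 : Lp X v ∈ act F ⊤ := Submodule.subset_span ⟨_, ⟨X, hX, rfl⟩, v, trivial, rfl⟩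
      rw [h1, Submodule.mem_bot] at h2
      exact hv h2
    have hIpos : 0 < Module.finrank ℝ (act F ⊤) := by
      rw [Nat.pos_iff_ne_zero]
      intro h5
      exact hI0 (Submodule.finrank_eq_zero.1 h5)
    have hIF : Inv F (act F ⊤) := act_inv fun _ _ _ _ => trivial
    have hIinv : ∀ γ : Γ, ∀ v ∈ act F ⊤, (hol γ).linear v ∈ act F ⊤ := fun γ =>
      act_norm ((hol γ).linear : E →ₗ[ℝ] E) (LF_conj hA hN γ) fun _ _ => trivial
    have hI2 : act F (act F ⊤) ≠ act F ⊤ := nakayama F hcm hnil _ hIF hI0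
    have hI2le : act F (act F ⊤) ≤ act F ⊤ := act_le hIF
    have hI2lt := Submodule.finrank_lt_finrank_of_lt (lt_of_le_of_ne hI2le hI2)
    have hI2inv : ∀ γ : Γ, ∀ v ∈ act F (act F ⊤), (hol γ).linear v ∈ act F (act F ⊤) := fun γ =>
      act_norm ((hol γ).linear : E →ₗ[ℝ] E) (LF_conj hA hN γ) (hIinv γ)
    have hKinv : ∀ γ : Γ, ∀ v ∈ ker F, (hol γ).linear v ∈ ker F := by
      intro γ
      exact ker_norm ((hol γ).linear : E →ₗ[ℝ] E) ((hol γ⁻¹).linear : E →ₗ[ℝ] E)
        (fun v => lin_inv γ v) (fun v => linv_lin γ v) (LF_conj hA hN γ⁻¹)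
    have hKfr : Module.finrank ℝ (ker F) < 3 := by
      rw [← hE]
      refine Submodule.finrank_lt fun h1 => hv ?_
      have h2 : v ∈ ker F := by
        rw [h1]
        trivial
      exact h2 _ ⟨X, hX, rfl⟩
    have hIK : act F (act F ⊤) = ⊥ → act F ⊤ ≤ ker F := by
      intro h1 w hw Y hY
      have h2 : Y w ∈ act F (act F ⊤) := Submodule.subset_span ⟨Y, hY, w, hw, rfl⟩
      rw [h1, Submodule.mem_bot] at h2
      exact h2
    by_cases h2 : act F (act F ⊤) = ⊥
    · have h3 := hIK h2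
      have h4 := Submodule.finrank_mono (R := ℝ) h3
      rcases (by omega : Module.finrank ℝ (act F ⊤) = 2 ∨
        (Module.finrank ℝ (act F ⊤) = 1 ∧ Module.finrank ℝ (ker F) = 2) ∨
        (Module.finrank ℝ (act F ⊤) = 1 ∧ Module.finrank ℝ (ker F) = 1)) with h5 | ⟨h5, h6⟩ | ⟨h5, h6⟩
      · have h6 : Module.finrank ℝ (ker F) = 2 := by omega
        have h7 : act F ⊤ = ker F := Submodule.eq_of_le_of_finrank_le h3 (by omega)
        exact case_plane hA h hc hN hE h6 h7
      · exact h.lines ⊤ inferInstance _ _ h3 h5 h6 hE (fun γ _ => hIinv γ) fun γ _ => hKinv γ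
      · have h7 : act F ⊤ = ker F := Submodule.eq_of_le_of_finrank_le h3 (by omega)
        exact case_line hA h hN hE h6 h7
    · have h3 : 0 < Module.finrank ℝ (act F (act F ⊤)) := by
        rw [Nat.pos_iff_ne_zero]
        intro h5
        exact h2 (Submodule.finrank_eq_zero.1 h5)
      exact h.lines ⊤ inferInstance _ _ hI2le (by omega) (by omega) hE (fun γ _ => hI2inv γ)
        fun γ _ => hIinv γ

end Run7.h262.TB
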