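import Pool.Agent.Run7.h262.TB.Rank
import Pool.Agent.Run7.h262.TB.Line

/-!
Flags with small blocks force commutative normal subgroups.
-/

set_option autoImplicit false

open Filter Topology MeasureTheory

namespace Run7.h262.TB

open Run7.h262.SV

variable {Γ E : Type} [Group Γ] [NormedAddCommGroup E] [NormedSpace ℝ E] [FiniteDimensional ℝ E]
  {hol : Γ →* (E ≃ᵃ[ℝ] E)} {Ω : Set E}

theorem compl_within (Sa Sb : Submodule ℝ E) (h : Sa ≤ Sb) : ∃ W : Submodule ℝ E, W ≤ Sb ∧
    Sa ⊔ W = Sb ∧ Module.finrank ℝ W = Module.finrank ℝ Sb - Module.finrank ℝ Sa := by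
  obtain ⟨W₀, hW₀⟩ := Sa.exists_isCompl
  have h1 : Sa ⊔ W₀ ⊓ Sb = Sb := by
    rw [← sup_inf_assoc_of_le W₀ h, hW₀.sup_eq_top, top_inf_eq]
  refine ⟨W₀ ⊓ Sb, inf_le_right, h1, ?_⟩
  have h2 := Submodule.finrank_sup_add_finrank_inf_eq Sa (W₀ ⊓ Sb)
  have h3 : Sa ⊓ (W₀ ⊓ Sb) = ⊥ := by
    rw [← inf_assoc, hW₀.inf_eq_bot, bot_inf_eq]
  rw [h1, h3, finrank_bot] at h2
  omega

theorem QF_finrank (Sa Sb : Submodule ℝ E) (h : Sa ≤ Sb) : Module.Finite ℝ (QF Sa Sb) ∧
    Module.finrank ℝ (QF Sa Sb) ≤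
      (Module.finrank ℝ Sb - Module.finrank ℝ Sa + 1).choose 2 := by
  classical
  obtain ⟨W, hW, hsup, hfr⟩ := compl_within Sa Sb h
  rw [← hfr]
  let b := Module.finBasis ℝ W
  let e : Fin (Module.finrank ℝ W) → E := fun i => b i
  have heSb : ∀ i, e i ∈ Sb := fun i => hW (b i).2
  have hspan : W = Submodule.span ℝ (Set.range e) := by
    have h1 : Set.range e = W.subtype '' Set.range b := by
      rw [← Set.range_comp]
      rfl
    rw [h1, Submodule.span_image, b.span_eq, Submodule.map_top, Submodule.range_subtype]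
  let pt : Sym2 (Fin (Module.finrank ℝ W)) → E :=
    Sym2.lift ⟨fun i j => e i + e j, fun i j => add_comm _ _⟩
  have h1 := finrank_le_points (QF Sa Sb) pt ?_
  · rwa [Sym2.card, Fintype.card_fin] at h1
  rintro f ⟨hf0, B, hB1, hB2, hB3⟩ hf
  have hd : ∀ i, B (e i) (e i) = 0 := by
    intro i
    have h2 : f (e i + e i) = 0 := hf s(i, i)
    rw [hB2 _ (Sb.add_mem (heSb i) (heSb i)), B.map_add₂, map_add] at h2
    linarith
  have hij : ∀ i j, B (e i) (e j) = 0 := by
    intro i j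
    have h2 : f (e i + e j) = 0 := hf s(i, j)
    rw [hB2 _ (Sb.add_mem (heSb i) (heSb j)), B.map_add₂, map_add, map_add,
      hd i, hd j, hB1 (e j) (e i)] at h2
    linarith
  have h3 : ∀ j, Sb ≤ LinearMap.ker (B (e j)) := by
    intro j
    rw [← hsup, hspan]
    refine sup_le ?_ ?_
    · intro w hw
      rw [LinearMap.mem_ker]
      exact hB3 _ (heSb j) w hw
    · rw [Submodule.span_le]
      rintro _ ⟨i, rfl⟩
      exact LinearMap.mem_ker.2 (hij j i)
  have h4 : ∀ v ∈ Sb, Sb ≤ LinearMap.ker (B v) := by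
    intro v hv
    have h5 : Sb = Sa ⊔ Submodule.span ℝ (Set.range e) := by rw [← hspan, hsup]
    conv_lhs => rw [h5]
    refine sup_le ?_ ?_
    · intro w hw
      rw [LinearMap.mem_ker]
      exact hB3 _ hv w hw
    · rw [Submodule.span_le]
      rintro _ ⟨i, rfl⟩
      refine LinearMap.mem_ker.2 ?_
      rw [hB1]
      exact LinearMap.mem_ker.1 (h3 i hv)
  funext v
  by_cases hv : v ∈ Sb
  · rw [hB2 v hv]
    exact LinearMap.mem_ker.1 (h4 v hv hv)
  · exact hf0 v hv

theorem QF_norm (Sa Sb : Submodule ℝ E) (h : Sa ≤ Sb)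
    (hSa : ∀ γ : Γ, ∀ v ∈ Sa, (hol γ).linear v ∈ Sa)
    (hSb : ∀ γ : Γ, ∀ v ∈ Sb, (hol γ).linear v ∈ Sb) : NormSpace hol Sa Sb (QF Sa Sb) := by
  classical
  refine ⟨(QF_finrank Sa Sb h).1, ?_, ?_, ?_, ?_, ?_⟩
  · rintro γ f ⟨hf0, B, hB1, hB2, hB3⟩
    refine ⟨fun v hv => ?_, B.compl₁₂ ((hol γ).linear : E →ₗ[ℝ] E) ((hol γ).linear : E →ₗ[ℝ] E),
      fun v w => hB1 _ _, fun v hv => ?_, fun v hv w hw => ?_⟩
    · refine hf0 _ fun h1 => hv ?_
      have h2 := hSb γ⁻¹ _ h1
      rwa [TB.lin_inv] at h2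
    · exact hB2 _ (hSb γ v hv)
    · exact hB3 _ (hSb γ v hv) _ (hSa γ w hw)
  · rintro f ⟨hf0, B, hB1, hB2, hB3⟩
    have h1 : Continuous fun v : E => B v v := by
      let b := Module.finBasis ℝ E
      have h2 : (fun v : E => B v v) = fun v => ∑ i, b.repr v i * B (b i) v := by
        funext v
        have h3 : B v = ∑ i, b.repr v i • B (b i) := by
          conv_lhs => rw [← b.sum_repr v]
          rw [map_sum]
          exact Finset.sum_congr rfl fun i _ => by rw [map_smul]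
        rw [h3, LinearMap.sum_apply]
        exact Finset.sum_congr rfl fun i _ => rfl
      rw [h2]
      refine continuous_finsetSum _ fun i _ => Continuous.mul ?_ ?_
      · exact (b.coord i).continuous_of_finiteDimensional
      · exact (B (b i)).continuous_of_finiteDimensional
    exact h1.continuousOn.congr fun v hv => hB2 v hv
  · rintro f ⟨hf0, B, hB1, hB2, hB3⟩ t v hv
    rw [hB2 _ (Sb.smul_mem t hv), hB2 v hv, B.map_smul₂, map_smul]
    simp only [smul_eq_mul]
    ring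
  · rintro f ⟨hf0, B, hB1, hB2, hB3⟩ v hv w hw
    rw [hB2 _ (Sb.add_mem hv (h hw)), hB2 v hv, B.map_add₂, map_add, map_add,
      hB1 w v, hB3 v hv w hw, hB3 w (h hw) w hw]
    ring
  · let b := Module.finBasis ℝ (E ⧸ Sa)
    let φ : Fin (Module.finrank ℝ (E ⧸ Sa)) → E →ₗ[ℝ] ℝ := fun k => b.coord k ∘ₗ Sa.mkQ
    let B : E →ₗ[ℝ] E →ₗ[ℝ] ℝ := ∑ k, (LinearMap.mul ℝ ℝ).compl₁₂ (φ k) (φ k)
    have hB : ∀ v w, B v w = ∑ k, φ k v * φ k w := by
      intro v w
      simp only [B, LinearMap.sum_apply]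
      rfl
    refine ⟨fun v => if v ∈ Sb then B v v else 0, ⟨fun v hv => if_neg hv, B, fun v w => ?_,
      fun v hv => if_pos hv, fun v hv w hw => ?_⟩, fun v hv hva => ?_⟩
    · rw [hB, hB]
      exact Finset.sum_congr rfl fun k _ => mul_comm _ _
    · rw [hB]
      refine Finset.sum_eq_zero fun k _ => ?_
      have : φ k w = 0 := by
        change b.coord k (Sa.mkQ w) = 0
        rw [Submodule.mkQ_apply, (Submodule.Quotient.mk_eq_zero Sa).2 hw, map_zero]
      rw [this, mul_zero]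
    · simp only [if_pos hv]
      rw [hB]
      have h1 : ∃ k, φ k v ≠ 0 := by
        by_contra hno
        push Not at hno
        apply hva
        rw [← Submodule.Quotient.mk_eq_zero]
        refine b.ext_elem fun k => ?_
        have h2 : b.coord k (Sa.mkQ v) = 0 := hno k
        rw [map_zero]
        exact h2
      obtain ⟨k, hk⟩ := h1
      refine Finset.sum_pos' (fun k _ => mul_self_nonneg _) ⟨k, Finset.mem_univ _, ?_⟩
      exact mul_self_pos.2 hk

/-- flags with small blocks -/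
theorem AffAct.blocks (h : AffAct Γ E hol Ω) (hinj : Function.Injective hol)
    (hu : ∀ γ : Γ, |LinearMap.det ((hol γ).linear : E →ₗ[ℝ] E)| = 1)
    (S : ℕ → Submodule ℝ E) (r : ℕ) (h0 : S 0 = ⊥) (hr : S r = ⊤)
    (hm : ∀ i < r, S i < S (i + 1))
    (hinv : ∀ i ≤ r, ∀ γ : Γ, ∀ v ∈ S i, (hol γ).linear v ∈ S i)
    (hdim : ∑ i ∈ Finset.range r,
      (Module.finrank ℝ (S (i + 1)) - Module.finrank ℝ (S i) + 1).choose 2 <
        Module.finrank ℝ E + r) :
    ∃ A : Subgroup Γ, A.Normal ∧ A ≠ ⊥ ∧ ∀ a ∈ A, ∀ b ∈ A, a * b = b * a := by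
  rcases h.weights hinj S r h0 hr hm hinv (fun i => QF (S i) (S (i + 1)))
    (fun i hi => QF_norm _ _ (hm i hi).le (hinv i hi.le) (hinv (i + 1) hi))
    (lt_of_le_of_lt (Finset.sum_le_sum fun i hi =>
      (QF_finrank _ _ (hm i (Finset.mem_range.1 hi)).le).2) hdim) with h1 | ⟨l, hl⟩
  · exact h1
  · exact (h.no_rank hu hl).elim

/-- nontrivial commutative normal subgroups of the holonomy group do not consist of involutions -/
theorem VolAct.not_invol {A : Subgroup Γ} (h : VolAct Γ E hol Ω) (hinj : Function.Injective hol)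
    (hA : ∀ a ∈ A, ∀ b ∈ A, a * b = b * a) (hN : A.Normal) (hne : A ≠ ⊥) :
    ∃ a ∈ A, hol (a * a) ≠ 1 := by
  by_contra hno
  push Not at hno
  have hsq : ∀ a ∈ A, hat (hol a) * hat (hol a) = 1 := by
    intro a ha
    rw [← map_mul, ← map_mul, hno a ha, map_one]
  obtain ⟨w, hw1, hw2⟩ := exists_null {Y : E × ℝ →ₗ[ℝ] E × ℝ | ∃ a ∈ A,
      Y = ((hat (hol a) - 1 : AA E) : E × ℝ →ₗ[ℝ] E × ℝ)} (by
        rintro _ ⟨a, ha, rfl⟩ _ ⟨b, hb, rfl⟩ v
        have h1 : hat (hol a) * hat (hol b) = hat (hol b) * hat (hol a) := by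
          rw [← map_mul, ← map_mul, ← map_mul, ← map_mul, hA a ha b hb]
        have h2 : (hat (hol a) - 1) * (hat (hol b) - 1) =
            (hat (hol b) - 1) * (hat (hol a) - 1) := by
          simp only [sub_mul, mul_sub, mul_one, one_mul]
          rw [h1]
          abel
        exact congrArg (fun Y : AA E => Y v) h2) (LinearMap.snd ℝ E ℝ) (by
        rintro _ ⟨a, ha, rfl⟩ v
        change (hat (hol a) v).2 - v.2 = 0
        rw [hat_apply, sub_self]) (0, 1) rfl
  have hfix : ∀ a ∈ A, hat (hol a) w = w := by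
    intro a ha
    obtain ⟨m, hm⟩ := hw2 _ ⟨a, ha, rfl⟩
    have h1 : ∀ m : ℕ, (((hat (hol a) - 1 : AA E) : E × ℝ →ₗ[ℝ] E × ℝ) ^ (m + 1)) w =
        (-2 : ℝ) ^ m • (hat (hol a) w - w) := by
      intro m
      induction m with
      | zero =>
        rw [zero_add, pow_one, pow_zero, one_smul]
        rfl
      | succ m ih =>
        rw [pow_succ']
        change ((hat (hol a) - 1 : AA E) : E × ℝ →ₗ[ℝ] E × ℝ)
          ((((hat (hol a) - 1 : AA E) : E × ℝ →ₗ[ℝ] E × ℝ) ^ (m + 1)) w) = _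
        rw [ih, map_smul]
        change (-2 : ℝ) ^ m • (hat (hol a) (hat (hol a) w - w) - (hat (hol a) w - w)) = _
        have h2 : hat (hol a) (hat (hol a) w) = w := by
          have h3 := congrArg (fun Y : AA E => Y w) (hsq a ha)
          exact h3
        rw [map_sub, h2, pow_succ, mul_smul]
        congr 1
        rw [neg_smul, two_smul]
        abel
    rcases m with _ | m
    · exfalso
      have h2 : w = 0 := hm
      rw [h2] at hw1
      simp at hw1
    · rw [h1] at hm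
      rcases smul_eq_zero.1 hm with h2 | h2
      · exact absurd h2 (pow_ne_zero _ (by norm_num))
      · exact sub_eq_zero.1 h2
  have hC : {p : E | ∀ a ∈ A, hol a p = p} = Set.univ := by
    refine h.cvx ⟨w.1, fun a ha => ?_⟩ ?_ ?_
    · have h1 := hfix a ha
      have h2 : w = (w.1, 1) := Prod.ext rfl hw1
      rw [h2, hat_apply, one_smul] at h1
      have h3 := congrArg Prod.fst h1
      rw [aff_apply]
      exact h3
    · intro p hp q hq s t hs ht hst a ha
      have h1 := hp a ha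
      have h2 := hq a ha
      rw [aff_apply] at h1 h2 ⊢
      rw [map_add, map_smul, map_smul]
      have h3 : (hol a) 0 = s • (hol a) 0 + t • (hol a) 0 := by
        rw [← add_smul, hst, one_smul]
      rw [h3]
      conv_rhs => rw [← h1, ← h2]
      simp only [smul_add]
      abel
    · intro γ q hq a ha
      have h1 := hq (γ⁻¹ * a * γ) (by
        have := hN.conj_mem a ha γ⁻¹
        rwa [inv_inv] at this)
      rw [hol_mul, hol_mul] at h1
      have h2 := congrArg (hol γ) h1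
      rwa [hol_inv'] at h2
  apply hne
  rw [eq_bot_iff]
  intro a ha
  rw [Subgroup.mem_bot]
  apply hinj
  rw [map_one]
  refine AffineEquiv.ext fun p => ?_
  have : p ∈ {p : E | ∀ a ∈ A, hol a p = p} := by rw [hC]; trivial
  exact this a ha

end Run7.h262.TB
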