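import Pool.Agent.Run7.h262.TB.Inst
import Pool.Agent.Run7.h262.TB.Det

/-!
Translations, and the quotient by the space spanned by the translations.
-/

set_option autoImplicit false

open Filter Topology

namespace Run7.h262.TB

open Run7.h262.SV

theorem exp_sq {R : Type} [NormedRing R] [NormedAlgebra ℝ R] (X : R) (h : X * X = 0) :
    NormedSpace.exp X = 1 + X := by
  rw [NormedSpace.exp_eq_tsum ℝ]
  simp only
  rw [tsum_eq_sum (s := Finset.range 2)]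
  · simp [Finset.sum_range_succ]
  · intro n hn
    rw [Finset.mem_range, not_lt] at hn
    obtain ⟨k, rfl⟩ := Nat.exists_eq_add_of_le hn
    rw [pow_add, pow_two, h, zero_mul, smul_zero]

variable {Γ E : Type} [Group Γ] [NormedAddCommGroup E] [NormedSpace ℝ E] [FiniteDimensional ℝ E]
  {hol : Γ →* (E ≃ᵃ[ℝ] E)} {Ω : Set E}

theorem AffAct.range (h : AffAct Γ E hol Ω) : AffAct hol.range E hol.range.subtype Ω := by
  refine ⟨h.isOpen, h.nonempty, ?_, ?_, ?_⟩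
  · rintro ⟨_, γ, rfl⟩ x hx
    exact h.inv γ x hx
  · intro K hK hKΩ
    refine ((h.pd K hK hKΩ).image hol.rangeRestrict).subset ?_
    rintro ⟨_, γ, rfl⟩ ⟨x, hx, h1⟩
    exact ⟨γ, ⟨x, hx, h1⟩, rfl⟩
  · obtain ⟨K, hK, hKΩ, hc⟩ := h.cc
    refine ⟨K, hK, hKΩ, fun x hx => ?_⟩
    obtain ⟨γ, hγ⟩ := hc x hx
    exact ⟨hol.rangeRestrict γ, hγ⟩

/-- translations -/
def Tr (hol : Γ →* (E ≃ᵃ[ℝ] E)) : AddSubgroup E where
  carrier := {u | ∃ γ : Γ, ∀ x, hol γ x = x + u}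
  add_mem' := by
    rintro u v ⟨γ, hγ⟩ ⟨δ, hδ⟩
    refine ⟨γ * δ, fun x => ?_⟩
    rw [hol_mul, hδ, hγ]
    abel
  zero_mem' := ⟨1, fun x => by rw [map_one, add_zero]; rfl⟩
  neg_mem' := by
    rintro u ⟨γ, hγ⟩
    refine ⟨γ⁻¹, fun x => ?_⟩
    have h1 := hol_inv (hol := hol) γ (x + -u)
    rw [hγ, neg_add_cancel_right] at h1
    exact h1

theorem lin_sub (γ : Γ) (x y : E) : hol γ x - hol γ y = (hol γ).linear (x - y) := by
  rw [aff_apply (hol γ) x, aff_apply (hol γ) y, map_sub]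
  abel

theorem Tr_lin (γ : Γ) {u : E} (hu : u ∈ Tr hol) : (hol γ).linear u ∈ Tr hol := by
  obtain ⟨δ, hδ⟩ := hu
  refine ⟨γ * δ * γ⁻¹, fun x => ?_⟩
  rw [hol_mul, hol_mul, hδ]
  have h1 : hol γ (hol γ⁻¹ x) = x := by
    have := hol_inv (hol := hol) γ⁻¹ x
    rwa [inv_inv] at this
  have h2 := lin_sub (hol := hol) γ (hol γ⁻¹ x + u) (hol γ⁻¹ x)
  rw [h1, add_sub_cancel_left] at h2
  rw [← h2]
  abel

/-- infinitesimal translations -/
noncomputable def tau : E →ₗ[ℝ] AA E where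
  toFun u := (ContinuousLinearMap.inl ℝ E ℝ).comp ((ContinuousLinearMap.snd ℝ E ℝ).smulRight u)
  map_add' u v := by
    refine ContinuousLinearMap.ext fun w => ?_
    change (w.2 • (u + v), (0 : ℝ)) = (w.2 • u, 0) + (w.2 • v, 0)
    rw [smul_add, Prod.mk_add_mk, add_zero]
  map_smul' r u := by
    refine ContinuousLinearMap.ext fun w => ?_
    change (w.2 • (r • u), (0 : ℝ)) = r • (w.2 • u, 0)
    rw [smul_comm, Prod.smul_mk, smul_zero]

theorem tau_apply (u : E) (w : E × ℝ) : tau u w = (w.2 • u, 0) := rfl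

theorem tau_sq (u : E) : tau u * tau u = 0 := by
  refine ContinuousLinearMap.ext fun w => ?_
  rw [mul_apply_eq_comp, tau_apply, tau_apply, zero_smul]
  rfl

theorem tau_norm (u : E) : ‖tau u‖ ≤ ‖u‖ := by
  refine ContinuousLinearMap.opNorm_le_bound _ (norm_nonneg _) fun w => ?_
  rw [tau_apply, Prod.norm_mk, norm_zero, max_eq_left (norm_nonneg _), norm_smul, mul_comm]
  exact mul_le_mul_of_nonneg_left (norm_snd_le w) (norm_nonneg _)

theorem tau_hat {u : E} {g : E ≃ᵃ[ℝ] E} (hg : ∀ x, g x = x + u) : hat g = 1 + tau u := by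
  refine ContinuousLinearMap.ext fun w => ?_
  have h1 : g.linear w.1 = w.1 := by
    have h2 := aff_apply g w.1
    rw [hg, hg 0, zero_add] at h2
    exact (add_right_cancel h2).symm
  rw [hat_apply, h1, hg, zero_add]
  change (w.1 + w.2 • u, w.2) = w + tau u w
  rw [tau_apply]
  ext
  · rfl
  · simp

/-- the subgroup of translations -/
def TrG (G : Subgroup (E ≃ᵃ[ℝ] E)) : Subgroup G where
  carrier := {g | ∃ u, ∀ x, (g : E ≃ᵃ[ℝ] E) x = x + u}
  mul_mem' := by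
    rintro g g' ⟨u, hu⟩ ⟨v, hv⟩
    refine ⟨v + u, fun x => ?_⟩
    change (g : E ≃ᵃ[ℝ] E) ((g' : E ≃ᵃ[ℝ] E) x) = _
    rw [hv, hu, add_assoc]
  one_mem' := ⟨0, fun x => (add_zero x).symm⟩
  inv_mem' := by
    rintro g ⟨u, hu⟩
    refine ⟨-u, fun x => ?_⟩
    have h1 : (g : E ≃ᵃ[ℝ] E).symm ((g : E ≃ᵃ[ℝ] E) (x + -u)) = x + -u :=
      (g : E ≃ᵃ[ℝ] E).symm_apply_apply _
    rw [hu, neg_add_cancel_right] at h1
    exact h1

theorem TrG_comm (G : Subgroup (E ≃ᵃ[ℝ] E)) : ∀ a ∈ TrG G, ∀ b ∈ TrG G, a * b = b * a := by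
  rintro a ⟨u, hu⟩ b ⟨v, hv⟩
  refine Subtype.ext (AffineEquiv.ext fun x => ?_)
  change (a : E ≃ᵃ[ℝ] E) ((b : E ≃ᵃ[ℝ] E) x) = (b : E ≃ᵃ[ℝ] E) ((a : E ≃ᵃ[ℝ] E) x)
  rw [hu, hv, hu, hv]
  abel

theorem TrG_normal (G : Subgroup (E ≃ᵃ[ℝ] E)) : (TrG G).Normal := by
  refine ⟨?_⟩
  rintro a ⟨u, hu⟩ g
  refine ⟨(g : E ≃ᵃ[ℝ] E).linear u, fun x => ?_⟩
  change (g : E ≃ᵃ[ℝ] E) ((a : E ≃ᵃ[ℝ] E) ((g : E ≃ᵃ[ℝ] E).symm x)) = _
  rw [hu]
  have h1 := (g : E ≃ᵃ[ℝ] E).map_vadd ((g : E ≃ᵃ[ℝ] E).symm x) u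
  rw [vadd_eq_add, vadd_eq_add, add_comm u, AffineEquiv.apply_symm_apply] at h1
  rw [h1, add_comm]

theorem tau_LL {u : E} (hu : u ∈ Tr hol) :
    tau u ∈ LL hol.range.subtype (TrG hol.range) (TrG_comm _) := by
  obtain ⟨γ, hγ⟩ := hu
  have hmem : hol.rangeRestrict γ ∈ TrG hol.range := ⟨u, hγ⟩
  have hhat : hat (hol.range.subtype (hol.rangeRestrict γ)) = 1 + tau u := tau_hat hγ
  refine ⟨?_, fun w => rfl, hol.rangeRestrict γ, hmem, ?_⟩
  · have h1 := Submodule.sub_mem _ (SS_hat hol.range.subtype (TrG hol.range) hmem)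
      (SS_one hol.range.subtype (TrG hol.range))
    rwa [hhat, add_sub_cancel_left] at h1
  · rw [hhat, exp_sq _ (tau_sq u)]

theorem tau_HH {u : E} (hu : u ∈ Submodule.span ℝ (Tr hol : Set E)) :
    tau u ∈ HH hol.range.subtype (TrG hol.range) (TrG_comm _) := by
  refine Submodule.span_induction
    (p := fun u _ => tau u ∈ HH hol.range.subtype (TrG hol.range) (TrG_comm _)) ?_ ?_ ?_ ?_ hu
  · exact fun u hu => Submodule.subset_span (tau_LL hu)
  · rw [map_zero]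
    exact Submodule.zero_mem _
  · intro u v _ _ h1 h2
    rw [map_add]
    exact Submodule.add_mem _ h1 h2
  · intro r u _ h1
    rw [map_smul]
    exact Submodule.smul_mem _ _ h1

/-- the domain is invariant under the vector space spanned by the translations of the group -/
theorem AffAct.tr_mem (h : AffAct Γ E hol Ω) {u : E}
    (hu : u ∈ Submodule.span ℝ (Tr hol : Set E)) {x : E} (hx : x ∈ Ω) : x + u ∈ Ω := by
  have h1 := h.range.flow_mem (TrG_comm _) (TrG_normal _) (tau_HH hu) hx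
  rw [exp_sq _ (tau_sq u)] at h1
  have h2 : actp (1 + tau u) x = x + u := by
    change (((x, 1) : E × ℝ) + tau u (x, 1)).1 = x + u
    rw [tau_apply, one_smul]
    rfl
  rwa [h2] at h1

theorem AffAct.tr_small (h : AffAct Γ E hol Ω) : ∃ ε > 0, ∀ u ∈ Tr hol, ‖u‖ < ε → u = 0 := by
  obtain ⟨ε, hε, hs⟩ := LL_small h.range (TrG_comm hol.range)
  refine ⟨ε, hε, fun u hu hu1 => ?_⟩
  have h1 := hs _ (tau_LL hu) ((tau_norm u).trans_lt hu1)
  rw [exp_sq _ (tau_sq u)] at h1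
  have h2 := congrArg (fun Y : AA E => (Y (0, 1)).1) h1
  have h3 : ((0 : E) + (1 : ℝ) • u) = 0 := h2
  rwa [zero_add, one_smul] at h3

/-- volume preserving groups of affine maps dividing an open set -/
structure VolAct (Γ E : Type) [Group Γ] [NormedAddCommGroup E] [NormedSpace ℝ E]
    (hol : Γ →* (E ≃ᵃ[ℝ] E)) (Ω : Set E) : Prop extends AffAct Γ E hol Ω where
  unimod : ∀ γ : Γ, |LinearMap.det ((hol γ).linear : E →ₗ[ℝ] E)| = 1

section quot
variable {F : Type} [NormedAddCommGroup F] [NormedSpace ℝ F] [FiniteDimensional ℝ F]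

/-- the linear part on the quotient -/
def qlin (hol : Γ →* (E ≃ᵃ[ℝ] E)) (p : E →ₗ[ℝ] F) (s : F →ₗ[ℝ] E) (γ : Γ) : F →ₗ[ℝ] F :=
  p ∘ₗ ((hol γ).linear : E →ₗ[ℝ] E) ∘ₗ s

theorem lin_inv (γ : Γ) (v : E) : (hol γ⁻¹).linear ((hol γ).linear v) = v := by
  have h1 := lin_sub (hol := hol) γ v 0
  have h2 := lin_sub (hol := hol) γ⁻¹ (hol γ v) (hol γ 0)
  rw [sub_zero] at h1
  rw [hol_inv, hol_inv, sub_zero, h1] at h2
  exact h2.symm

theorem p_lin {p : E →ₗ[ℝ] F} {s : F →ₗ[ℝ] E} (hs : ∀ f, p (s f) = f)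
    (hU : ∀ γ : Γ, ∀ u, p u = 0 → p ((hol γ).linear u) = 0) (γ : Γ) (x : E) :
    p ((hol γ).linear (s (p x))) = p ((hol γ).linear x) := by
  rw [← sub_eq_zero, ← map_sub, ← map_sub]
  refine hU γ _ ?_
  rw [map_sub, hs, sub_self]

theorem p_hol {p : E →ₗ[ℝ] F} {s : F →ₗ[ℝ] E} (hs : ∀ f, p (s f) = f)
    (hU : ∀ γ : Γ, ∀ u, p u = 0 → p ((hol γ).linear u) = 0) (γ : Γ) (x : E) :
    p (hol γ (s (p x))) = p (hol γ x) := by
  rw [aff_apply (hol γ) (s (p x)), aff_apply (hol γ) x, map_add, map_add, p_lin hs hU]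

/-- the quotient affine maps -/
def qaff (hol : Γ →* (E ≃ᵃ[ℝ] E)) {p : E →ₗ[ℝ] F} {s : F →ₗ[ℝ] E} (hs : ∀ f, p (s f) = f)
    (hU : ∀ γ : Γ, ∀ u, p u = 0 → p ((hol γ).linear u) = 0) (γ : Γ) : F ≃ᵃ[ℝ] F where
  toFun f := p (hol γ (s f))
  invFun f := p (hol γ⁻¹ (s f))
  left_inv f := by
    simp only
    rw [p_hol hs hU, hol_inv, hs]
  right_inv f := by
    simp only
    rw [p_hol hs hU]
    have := hol_inv (hol := hol) γ⁻¹ (s f)
    rw [inv_inv] at this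
    rw [this, hs]
  linear :=
    { toFun := qlin hol p s γ
      map_add' := (qlin hol p s γ).map_add
      map_smul' := (qlin hol p s γ).map_smul
      invFun := qlin hol p s γ⁻¹
      left_inv := fun f => by
        change p ((hol γ⁻¹).linear (s (p ((hol γ).linear (s f))))) = f
        rw [p_lin hs hU, lin_inv, hs]
      right_inv := fun f => by
        change p ((hol γ).linear (s (p ((hol γ⁻¹).linear (s f))))) = f
        rw [p_lin hs hU]
        have := lin_inv (hol := hol) γ⁻¹ (s f)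
        rw [inv_inv] at this
        rw [this, hs] }
  map_vadd' f v := by
    change p (hol γ (s (v + f))) = p ((hol γ).linear (s v)) + p (hol γ (s f))
    rw [aff_apply (hol γ) (s (v + f)), aff_apply (hol γ) (s f), map_add s, map_add, map_add,
      map_add, map_add]
    abel

/-- the quotient affine action -/
def qhom (hol : Γ →* (E ≃ᵃ[ℝ] E)) {p : E →ₗ[ℝ] F} {s : F →ₗ[ℝ] E} (hs : ∀ f, p (s f) = f)
    (hU : ∀ γ : Γ, ∀ u, p u = 0 → p ((hol γ).linear u) = 0) : Γ →* (F ≃ᵃ[ℝ] F) where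
  toFun := qaff hol hs hU
  map_one' := AffineEquiv.ext fun f => by
    change p (hol 1 (s f)) = f
    rw [map_one]
    exact hs f
  map_mul' γ δ := AffineEquiv.ext fun f => by
    change p (hol (γ * δ) (s f)) = p (hol γ (s (p (hol δ (s f)))))
    rw [p_hol hs hU, hol_mul]

theorem qhom_p (hol : Γ →* (E ≃ᵃ[ℝ] E)) {p : E →ₗ[ℝ] F} {s : F →ₗ[ℝ] E} (hs : ∀ f, p (s f) = f)
    (hU : ∀ γ : Γ, ∀ u, p u = 0 → p ((hol γ).linear u) = 0) (γ : Γ) (x : E) :
    qhom hol hs hU γ (p x) = p (hol γ x) := p_hol hs hU γ x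

theorem qlin_p (hol : Γ →* (E ≃ᵃ[ℝ] E)) {p : E →ₗ[ℝ] F} {s : F →ₗ[ℝ] E} (hs : ∀ f, p (s f) = f)
    (hU : ∀ γ : Γ, ∀ u, p u = 0 → p ((hol γ).linear u) = 0) (γ : Γ) (x : E) :
    (qhom hol hs hU γ).linear (p x) = p ((hol γ).linear x) := p_lin hs hU γ x

/-- the lattice of translations has covolume preserved -/
theorem AffAct.det_tr (h : AffAct Γ E hol Ω) (γ : Γ) (W : Submodule ℝ E)
    (hW : W = Submodule.span ℝ (Tr hol : Set E))
    (he : W ≤ W.comap ((hol γ).linear : E →ₗ[ℝ] E)) :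
    |LinearMap.det (((hol γ).linear : E →ₗ[ℝ] E).restrict he)| = 1 := by
  subst hW
  set W := Submodule.span ℝ (Tr hol : Set E) with hW
  let L : AddSubgroup W := (Tr hol).comap W.subtype.toAddMonoidHom
  have he' : W ≤ W.comap ((hol γ⁻¹).linear : E →ₗ[ℝ] E) := by
    rw [hW, Submodule.span_le]
    intro u hu
    exact Submodule.subset_span (Tr_lin γ⁻¹ hu)
  refine det_lattice L ?_ Submodule.span_span_coe_preimage _
    (((hol γ⁻¹).linear : E →ₗ[ℝ] E).restrict he') ?_ ?_ ?_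
  · obtain ⟨ε, hε, hs⟩ := h.tr_small
    exact ⟨ε, hε, fun l hl hl1 => Subtype.ext (hs l hl hl1)⟩
  · intro l hl
    exact Tr_lin γ hl
  · intro l hl
    exact Tr_lin γ⁻¹ hl
  · refine LinearMap.ext fun w => Subtype.ext ?_
    change (hol γ).linear ((hol γ⁻¹).linear (w : E)) = w
    have := lin_inv (hol := hol) γ⁻¹ (w : E)
    rwa [inv_inv] at this

/-- the quotient by the space spanned by the translations -/
theorem VolAct.quot (h : VolAct Γ E hol Ω) (p : E →ₗ[ℝ] F) (hp : Function.Surjective p)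
    (hk : LinearMap.ker p = Submodule.span ℝ (Tr hol : Set E)) :
    ∃ q : Γ →* (F ≃ᵃ[ℝ] F), (∀ γ x, q γ (p x) = p (hol γ x)) ∧
      (∀ γ x, (q γ).linear (p x) = p ((hol γ).linear x)) ∧
      VolAct q.range F q.range.subtype (p '' Ω) := by
  obtain ⟨s, hs'⟩ := p.exists_rightInverse_of_surjective (LinearMap.range_eq_top.2 hp)
  have hs : ∀ f, p (s f) = f := fun f => LinearMap.congr_fun hs' f
  have hker : ∀ u, p u = 0 ↔ u ∈ Submodule.span ℝ (Tr hol : Set E) := fun u => by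
    rw [← hk, LinearMap.mem_ker]
  have hUle : ∀ γ : Γ, Submodule.span ℝ (Tr hol : Set E) ≤
      (Submodule.span ℝ (Tr hol : Set E)).comap ((hol γ).linear : E →ₗ[ℝ] E) := by
    intro γ
    rw [Submodule.span_le]
    intro u hu
    exact Submodule.subset_span (Tr_lin γ hu)
  have hU : ∀ γ : Γ, ∀ u, p u = 0 → p ((hol γ).linear u) = 0 := by
    intro γ u hu
    rw [hker] at hu ⊢
    exact hUle γ hu
  have hpc : Continuous p := p.continuous_of_finiteDimensional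
  have hsc : Continuous s := s.continuous_of_finiteDimensional
  have hpo : IsOpenMap p := p.isOpenMap_of_finiteDimensional hp
  have hΩU : ∀ x ∈ Ω, ∀ u, p u = 0 → x + u ∈ Ω := fun x hx u hu =>
    h.toAffAct.tr_mem ((hker u).1 hu) hx
  have hmem : ∀ x, p x ∈ p '' Ω ↔ x ∈ Ω := by
    intro x
    refine ⟨?_, fun hx => ⟨x, hx, rfl⟩⟩
    rintro ⟨y, hy, hyx⟩
    have h1 : x = y + (x - y) := by abel
    rw [h1]
    exact hΩU y hy _ (by rw [map_sub, hyx, sub_self])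
  refine ⟨qhom hol hs hU, qhom_p hol hs hU, qlin_p hol hs hU, ⟨?_, ?_, ?_, ?_, ?_⟩, ?_⟩
  · exact hpo _ h.isOpen
  · exact h.nonempty.image p
  · rintro ⟨_, γ, rfl⟩ _ ⟨x, hx, rfl⟩
    refine ⟨hol γ x, h.inv γ x hx, ?_⟩
    exact (qhom_p hol hs hU γ x).symm
  · intro K hK hKΩ
    obtain ⟨Q, hQ, hQL⟩ := span_cpt (V := Submodule.span ℝ (Tr hol : Set E))
      ((Tr hol).comap (Submodule.span ℝ (Tr hol : Set E)).subtype.toAddMonoidHom)
      Submodule.span_span_coe_preimage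
    let K₁ : Set E := s '' K
    let K₂ : Set E := (fun y : E × Submodule.span ℝ (Tr hol : Set E) => y.1 + (y.2 : E)) '' (K₁ ×ˢ Q)
    have hK₁ : IsCompact K₁ := hK.image hsc
    have hK₂ : IsCompact K₂ := (hK₁.prod hQ).image
      (continuous_fst.add (continuous_subtype_val.comp continuous_snd))
    have hK₁Ω : K₁ ⊆ Ω := by
      rintro _ ⟨f, hf, rfl⟩
      rw [← hmem, hs]
      exact hKΩ hf
    have hK₂Ω : K₂ ⊆ Ω := by
      rintro _ ⟨⟨y, q⟩, ⟨hy, _⟩, rfl⟩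
      exact hΩU _ (hK₁Ω hy) _ ((hker _).2 q.2)
    have hfin := h.pd (K₁ ∪ K₂) (hK₁.union hK₂) (Set.union_subset hK₁Ω hK₂Ω)
    refine (hfin.image (qhom hol hs hU).rangeRestrict).subset ?_
    rintro ⟨_, γ, rfl⟩ ⟨f, hf, h1⟩
    change qhom hol hs hU γ f ∈ K at h1
    have h2 : p (hol γ (s f)) ∈ K := h1
    -- correct by a translation
    have h3 : p (hol γ (s f) - s (p (hol γ (s f)))) = 0 := by
      rw [map_sub, hs, sub_self]
    obtain ⟨q, hq, h4⟩ := hQL ⟨_, (hker _).1 h3⟩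
    obtain ⟨δ, hδ⟩ : (hol γ (s f) - s (p (hol γ (s f)))) - (q : E) ∈ Tr hol := h4
    refine ⟨δ⁻¹ * γ, ⟨s f, Or.inl ⟨f, hf, rfl⟩, Or.inr ⟨(s (p (hol γ (s f))), q),
      ⟨⟨_, h2, rfl⟩, hq⟩, ?_⟩⟩, ?_⟩
    · have h5 : hol γ (s f) = hol δ (s (p (hol γ (s f))) + (q : E)) := by
        rw [hδ]
        abel
      rw [hol_mul]
      conv_rhs => rw [h5]
      rw [hol_inv]
    · refine Subtype.ext (AffineEquiv.ext fun f' => ?_)
      change p (hol (δ⁻¹ * γ) (s f')) = p (hol γ (s f'))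
      rw [hol_mul, ← sub_eq_zero, ← map_sub]
      obtain ⟨u, hu⟩ : ∃ u ∈ Tr hol, ∀ x, hol δ⁻¹ x = x + u := by
        have h6 := (Tr hol).neg_mem (show _ ∈ Tr hol from ⟨δ, hδ⟩)
        refine ⟨_, h6, fun x => ?_⟩
        have h7 := hol_inv (hol := hol) δ (x + -((hol γ (s f) - s (p (hol γ (s f)))) - (q : E)))
        rw [hδ, neg_add_cancel_right] at h7
        exact h7
      rw [hu.2, add_sub_cancel_left, hker]
      exact Submodule.subset_span hu.1
  · obtain ⟨K, hK, hKΩ, hc⟩ := h.cc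
    refine ⟨p '' K, hK.image hpc, Set.image_mono hKΩ, ?_⟩
    rintro _ ⟨x, hx, rfl⟩
    obtain ⟨γ, hγ⟩ := hc x hx
    refine ⟨(qhom hol hs hU).rangeRestrict γ, hol γ x, hγ, ?_⟩
    exact (qhom_p hol hs hU γ x).symm
  · rintro ⟨_, γ, rfl⟩
    have he : LinearMap.ker p ≤ (LinearMap.ker p).comap ((hol γ).linear : E →ₗ[ℝ] E) := by
      intro u hu
      exact hU γ u hu
    have h1 := LinearMap.det_eq_det_mul_det (LinearMap.ker p) ((hol γ).linear : E →ₗ[ℝ] E) he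
    have h2 := h.toAffAct.det_tr γ (LinearMap.ker p) hk he
    have h3 := h.unimod γ
    rw [h1, abs_mul, h2, one_mul] at h3
    let e := p.quotKerEquivOfSurjective hp
    have h4 : ((qhom hol hs hU γ).linear : F →ₗ[ℝ] F) =
        (e : _ →ₗ[ℝ] F) ∘ₗ ((LinearMap.ker p).mapQ (LinearMap.ker p)
          ((hol γ).linear : E →ₗ[ℝ] E) he) ∘ₗ (e.symm : F →ₗ[ℝ] _) := by
      refine LinearMap.ext fun f => ?_
      obtain ⟨x, rfl⟩ := hp f
      have h5 : e.symm (p x) = Submodule.Quotient.mk x := by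
        rw [LinearEquiv.symm_apply_eq]
        rfl
      have h6 : (qhom hol hs hU γ).linear (p x) = p ((hol γ).linear x) := qlin_p hol hs hU γ x
      change (qhom hol hs hU γ).linear (p x) = e (((LinearMap.ker p).mapQ (LinearMap.ker p)
          ((hol γ).linear : E →ₗ[ℝ] E) he) (e.symm (p x)))
      rw [h5, h6]
      rfl
    change |LinearMap.det ((qhom hol hs hU γ).linear : F →ₗ[ℝ] F)| = 1
    rw [h4, LinearMap.det_conj]
    exact h3

end quot

end Run7.h262.TB
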