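import Pool.Agent.Run7.h262.TB.Deg2

/-!
Equivariant partitions of unity of deficient rank do not exist on the domains of closed affine
manifolds with parallel volume.
-/

set_option autoImplicit false

open Filter Topology MeasureTheory

namespace Run7.h262.TB

open Run7.h262.SV

variable {Γ E : Type} [Group Γ] [NormedAddCommGroup E] [NormedSpace ℝ E] [FiniteDimensional ℝ E]
  {hol : Γ →* (E ≃ᵃ[ℝ] E)} {Ω : Set E}

theorem AffAct.no_rank (h : AffAct Γ E hol Ω)
    (hu : ∀ γ : Γ, |LinearMap.det ((hol γ).linear : E →ₗ[ℝ] E)| = 1) {l : Γ → E → ℝ}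
    (hl : RankW Γ Γ E hol Ω l) : False := by
  classical
  let G : E → E := fun x => ∑ᶠ γ, l γ x • hol γ 0
  have hG : ContDiffOn ℝ 1 G Ω := lf_smooth h.isOpen hl.smooth hl.fin _
  have hGe : ∀ γ : Γ, ∀ x ∈ Ω, G (hol γ x) = hol γ (G x) := by
    intro δ x hx
    have hf := hl.toPreW.fin1 hx
    have e0 : ∀ c : Γ → E, ∑ᶠ γ, l γ x • c γ = ∑ γ ∈ hf.toFinset, l γ x • c γ := by
      intro c
      refine finsum_eq_sum_of_support_subset _ fun s hs => ?_
      rw [Finset.mem_coe, Set.Finite.mem_toFinset]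
      exact left_ne_zero_of_smul hs
    have e1 : ∑ γ ∈ hf.toFinset, l γ x = 1 := by
      rw [← hl.one x hx]
      symm
      refine finsum_eq_sum_of_support_subset _ fun s hs => ?_
      rw [Finset.mem_coe, Set.Finite.mem_toFinset]
      exact hs
    have e2 : G (hol δ x) = ∑ᶠ γ, l γ x • hol δ (hol γ 0) := by
      change ∑ᶠ γ, l γ (hol δ x) • hol γ 0 = _
      rw [← finsum_comp_equiv (Equiv.mulLeft δ)]
      refine finsum_congr fun γ => ?_
      rw [Equiv.coe_mulLeft]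
      have h1 := hl.equi δ γ x hx
      rw [smul_eq_mul] at h1
      rw [h1, hol_mul]
    rw [e2, e0]
    change _ = hol δ (∑ᶠ γ, l γ x • hol γ 0)
    rw [e0, aff_apply (hol δ) (∑ γ ∈ hf.toFinset, l γ x • hol γ 0), map_sum]
    have e3 : ∀ γ ∈ hf.toFinset, l γ x • hol δ (hol γ 0) =
        (hol δ).linear (l γ x • hol γ 0) + l γ x • hol δ 0 := by
      intro γ _
      rw [aff_apply (hol δ) (hol γ 0), smul_add, map_smul]
    rw [Finset.sum_congr rfl e3, Finset.sum_add_distrib, ← Finset.sum_smul, e1, one_smul]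
  obtain ⟨x, hx, hd⟩ := h.degree hu G hG hGe
  obtain ⟨v, hv, hv0⟩ := hl.rank x hx
  apply hd
  obtain ⟨T, hT⟩ := lf_nhds (F := E) h.isOpen hl.fin x hx
  have h1 : G =ᶠ[𝓝 x] fun y => ∑ γ ∈ T, l γ y • hol γ 0 := by
    filter_upwards [hT] with y hy
    exact hy.2.2 _
  have hdiff : ∀ γ, HasFDerivAt (l γ) (fderiv ℝ (l γ) x) x := fun γ =>
    (((hl.smooth γ).differentiableOn one_ne_zero).differentiableAt
      (h.isOpen.mem_nhds hx)).hasFDerivAt
  have h2 : HasFDerivAt (fun y => ∑ γ ∈ T, l γ y • hol γ 0)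
      (∑ γ ∈ T, (fderiv ℝ (l γ) x).smulRight (hol γ 0)) x :=
    HasFDerivAt.fun_sum fun γ _ => (hdiff γ).smul_const _
  have h3 : fderiv ℝ G x = ∑ γ ∈ T, (fderiv ℝ (l γ) x).smulRight (hol γ 0) := by
    rw [h1.fderiv_eq]
    exact h2.fderiv
  have h4 : (fderiv ℝ G x) v = 0 := by
    rw [h3]
    simp [hv0]
  by_contra hne
  have h5 : LinearMap.ker (fderiv ℝ G x : E →ₗ[ℝ] E) = ⊥ := by
    have h6 : IsUnit (LinearMap.det (fderiv ℝ G x : E →ₗ[ℝ] E)) := isUnit_iff_ne_zero.2 hne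
    exact LinearMap.ker_eq_bot.2 ((Module.End.isUnit_iff _).1
      ((LinearMap.isUnit_iff_isUnit_det _).2 h6)).1
  exact hv ((LinearMap.ker_eq_bot'.1 h5) v h4)

/-- points determining the functions of a space bound its dimension -/
theorem finrank_le_points {k : Type} [Fintype k] (Q : Submodule ℝ (E → ℝ)) (pt : k → E)
    (hQ : ∀ f ∈ Q, (∀ i, f (pt i) = 0) → f = 0) : Module.Finite ℝ Q ∧
      Module.finrank ℝ Q ≤ Fintype.card k := by
  let e : Q →ₗ[ℝ] (k → ℝ) :=
    { toFun := fun f i => (f : E → ℝ) (pt i)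
      map_add' := fun f g => rfl
      map_smul' := fun r f => rfl }
  have he : Function.Injective e := by
    rw [injective_iff_map_eq_zero]
    intro f hf
    refine Subtype.ext (hQ f f.2 fun i => ?_)
    exact congrFun hf i
  refine ⟨Module.Finite.of_injective e he, ?_⟩
  have h1 := LinearMap.finrank_le_finrank_of_injective he
  rwa [Module.finrank_fintype_fun_eq_card] at h1

/-- quadratic forms on a block -/
def QF (Sa Sb : Submodule ℝ E) : Submodule ℝ (E → ℝ) where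
  carrier := {f | (∀ v, v ∉ Sb → f v = 0) ∧ ∃ B : E →ₗ[ℝ] E →ₗ[ℝ] ℝ, (∀ v w, B v w = B w v) ∧
    (∀ v ∈ Sb, f v = B v v) ∧ ∀ v ∈ Sb, ∀ w ∈ Sa, B v w = 0}
  zero_mem' := ⟨fun _ _ => rfl, 0, fun _ _ => rfl, fun _ _ => rfl, fun _ _ _ _ => rfl⟩
  add_mem' := by
    rintro f g ⟨hf0, B, hB1, hB2, hB3⟩ ⟨hg0, B', hB1', hB2', hB3'⟩
    refine ⟨fun v hv => ?_, B + B', fun v w => ?_, fun v hv => ?_, fun v hv w hw => ?_⟩
    · rw [Pi.add_apply, hf0 v hv, hg0 v hv, add_zero]
    · rw [LinearMap.add_apply, LinearMap.add_apply, LinearMap.add_apply, LinearMap.add_apply,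
        hB1, hB1']
    · rw [Pi.add_apply, hB2 v hv, hB2' v hv]
      rfl
    · rw [LinearMap.add_apply, LinearMap.add_apply, hB3 v hv w hw, hB3' v hv w hw, add_zero]
  smul_mem' := by
    rintro r f ⟨hf0, B, hB1, hB2, hB3⟩
    refine ⟨fun v hv => ?_, r • B, fun v w => ?_, fun v hv => ?_, fun v hv w hw => ?_⟩
    · rw [Pi.smul_apply, hf0 v hv, smul_zero]
    · rw [LinearMap.smul_apply, LinearMap.smul_apply, LinearMap.smul_apply, LinearMap.smul_apply,
        hB1]
    · rw [Pi.smul_apply, hB2 v hv]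
      rfl
    · rw [LinearMap.smul_apply, LinearMap.smul_apply, hB3 v hv w hw, smul_zero]

end Run7.h262.TB
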