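import Pool.Agent.Run7.h262.TB.Free
import Pool.Agent.Run7.h262.TB.Flg

/-!
Dimension three.
-/

set_option autoImplicit false

open Filter Topology

namespace Run7.h262.TB

open Run7.h262.SV

variable {Γ E : Type} [Group Γ] [NormedAddCommGroup E] [NormedSpace ℝ E] [FiniteDimensional ℝ E]
  {hol : Γ →* (E ≃ᵃ[ℝ] E)} {A : Subgroup Γ} {Ω : Set E}

theorem map_fr {V W : Type} [AddCommGroup V] [Module ℝ V] [AddCommGroup W] [Module ℝ W]
    (f : V →ₗ[ℝ] W) (H : Submodule ℝ V) (hf : ∀ x ∈ H, f x = 0 → x = 0) :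
    Module.finrank ℝ (H.map f) = Module.finrank ℝ H := by
  have hinj : Function.Injective (f.domRestrict H) := by
    rw [injective_iff_map_eq_zero]
    intro x hx
    exact Subtype.ext (hf x x.2 hx)
  have h2 := LinearMap.finrank_range_of_inj hinj
  rwa [LinearMap.range_domRestrict] at h2

/-- translations spanning a subspace of codimension at most two -/
theorem VolAct.codim_two (h : VolAct Γ E hol Ω) (hc : IsPreconnected Ω)
    (hU : Module.finrank ℝ E ≤
      Module.finrank ℝ (Submodule.span ℝ (Tr hol : Set E)) + 2) : Ω = Set.univ := by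
  set U := Submodule.span ℝ (Tr hol : Set E) with hUdef
  obtain ⟨W, hW⟩ := U.exists_isCompl
  let p : E →ₗ[ℝ] W := W.linearProjOfIsCompl U hW.symm
  have hk : LinearMap.ker p = U := Submodule.linearProjOfIsCompl_ker hW.symm
  have hp : Function.Surjective p := Submodule.linearProjOfIsCompl_surjective hW.symm
  obtain ⟨q, hq1, hq2, hq⟩ := h.quot p hp hk
  have hfr : Module.finrank ℝ W ≤ 2 := by
    have h1 := Submodule.finrank_add_eq_of_isCompl hW
    omega
  have h1 : p '' Ω = Set.univ :=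
    hq.plane (hc.image p p.continuous_of_finiteDimensional.continuousOn) hfr
  refine Set.eq_univ_iff_forall.2 fun x => ?_
  have h2 : p x ∈ p '' Ω := by
    rw [h1]
    trivial
  obtain ⟨y, hy, hyx⟩ := h2
  have h3 : x = y + (x - y) := by abel
  rw [h3]
  refine h.toAffAct.tr_mem ?_ hy
  rw [← hUdef, ← hk, LinearMap.mem_ker, map_sub, hyx, sub_self]

/-- the linear part -/
noncomputable def Lp : AA E →ₗ[ℝ] (E →ₗ[ℝ] E) where
  toFun X := LinearMap.fst ℝ E ℝ ∘ₗ (X : E × ℝ →ₗ[ℝ] E × ℝ) ∘ₗ LinearMap.inl ℝ E ℝ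
  map_add' _ _ := rfl
  map_smul' _ _ := rfl

/-- the translation part -/
noncomputable def tp : AA E →ₗ[ℝ] E where
  toFun X := (X (0, 1)).1
  map_add' _ _ := rfl
  map_smul' _ _ := rfl

theorem Lp_apply (X : AA E) (v : E) : Lp X v = (X (v, 0)).1 := rfl

theorem tp_apply (X : AA E) : tp X = (X (0, 1)).1 := rfl

theorem form_apply {X : AA E} (h : ∀ w, (X w).2 = 0) (v : E) (r : ℝ) :
    X (v, r) = (Lp X v + r • tp X, 0) := by
  have e1 : ((v, r) : E × ℝ) = (v, 0) + r • (0, 1) := by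
    ext
    · simp
    · simp
  refine Prod.ext ?_ (h _)
  rw [e1, map_add, map_smul]
  rfl

section fam
variable (hA : ∀ a ∈ A, ∀ b ∈ A, a * b = b * a)

theorem HH_mul_comm {X Y : AA E} (hX : X ∈ HH hol A hA) (hY : Y ∈ HH hol A hA) :
    X * Y = Y * X := SS_comm hol A hA (HH_le hol A hA hX) (HH_le hol A hA hY)

theorem Lp_comm {X Y : AA E} (hX : X ∈ HH hol A hA) (hY : Y ∈ HH hol A hA) (v : E) :
    Lp X (Lp Y v) = Lp Y (Lp X v) := by
  have h1 := congrArg (fun Z : AA E => (Z (v, 0)).1) (HH_mul_comm hA hX hY)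
  simp only [mul_apply_eq_comp] at h1
  rw [form_apply (HH_snd hol A hA hY), form_apply (HH_snd hol A hA hX),
    form_apply (HH_snd hol A hA hX), form_apply (HH_snd hol A hA hY)] at h1
  simpa using h1

theorem Lp_tp {X Y : AA E} (hX : X ∈ HH hol A hA) (hY : Y ∈ HH hol A hA) :
    Lp X (tp Y) = Lp Y (tp X) := by
  have h1 := congrArg (fun Z : AA E => (Z (0, 1)).1) (HH_mul_comm hA hX hY)
  simp only [mul_apply_eq_comp] at h1
  rw [form_apply (HH_snd hol A hA hY), form_apply (HH_snd hol A hA hX),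
    form_apply (HH_snd hol A hA hX), form_apply (HH_snd hol A hA hY)] at h1
  simpa using h1

/-- the family of linear parts -/
def LF : Set (E →ₗ[ℝ] E) := {Y | ∃ X ∈ HH hol A hA, Y = Lp X}

theorem LF_comm : ∀ Y ∈ LF (hol := hol) hA, ∀ Z ∈ LF (hol := hol) hA, ∀ v, Y (Z v) = Z (Y v) := by
  rintro _ ⟨X, hX, rfl⟩ _ ⟨Y, hY, rfl⟩ v
  exact Lp_comm hA hX hY v

theorem pow_form {X : AA E} (h : ∀ w, (X w).2 = 0) (m : ℕ) (v : E) :
    ((X : E × ℝ →ₗ[ℝ] E × ℝ) ^ m) (v, 0) = ((Lp X ^ m) v, 0) := by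
  induction m with
  | zero => rfl
  | succ m ih =>
    rw [pow_succ', pow_succ']
    change X (((X : E × ℝ →ₗ[ℝ] E × ℝ) ^ m) (v, 0)) = (Lp X ((Lp X ^ m) v), 0)
    rw [ih, form_apply h, zero_smul, add_zero]

theorem LF_nil (h : VolAct Γ E hol Ω) (hN : A.Normal) :
    ∀ Y ∈ LF (hol := hol) hA, ∃ m : ℕ, ∀ v, (Y ^ m) v = 0 := by
  rintro _ ⟨X, hX, rfl⟩
  have h1 : IsNilpotent (Lp X : Module.End ℝ E) := by
    rw [Module.End.isNilpotent_iff_of_finite]
    intro v
    obtain ⟨m, hm⟩ := h.nilp hA hN _ ⟨X, hX, rfl⟩ (v, 0)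
    rw [pow_form (HH_snd hol A hA hX)] at hm
    exact ⟨m, congrArg Prod.fst hm⟩
  obtain ⟨m, hm⟩ := h1
  exact ⟨m, fun v => LinearMap.congr_fun hm v⟩

theorem conj_lin (hN : A.Normal) (γ : Γ) {X : AA E} (hX : X ∈ HH hol A hA) :
    ∃ X' ∈ HH hol A hA, (∀ v, (hol γ).linear (Lp X v) = Lp X' ((hol γ).linear v)) ∧
      (hol γ).linear (tp X) = Lp X' (hol γ 0) + tp X' := by
  refine ⟨_, HH_conj hol A hA hN γ hX, ?_⟩
  have hX' := HH_conj hol A hA hN γ hX
  set X' := hat (hol γ) * X * hat (hol γ⁻¹) with hX'def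
  have key : ∀ w, X' (hat (hol γ) w) = hat (hol γ) (X w) := by
    intro w
    have e2 : X' * hat (hol γ) = hat (hol γ) * X := by
      rw [hX'def, mul_assoc, hat_inv_mul, mul_one]
    exact congrArg (fun Y : AA E => Y w) e2
  constructor
  · intro v
    have h1 := key (v, 0)
    rw [hat_apply, form_apply (HH_snd hol A hA hX), hat_apply] at h1
    simp only [zero_smul, add_zero] at h1
    rw [form_apply (HH_snd hol A hA hX'), zero_smul, add_zero] at h1
    exact (congrArg Prod.fst h1).symm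
  · have h1 := key (0, 1)
    rw [hat_apply, form_apply (HH_snd hol A hA hX), hat_apply] at h1
    simp only [zero_smul, add_zero, map_zero, one_smul, zero_add] at h1
    rw [form_apply (HH_snd hol A hA hX'), one_smul] at h1
    exact (congrArg Prod.fst h1).symm

theorem LF_conj (hN : A.Normal) (γ : Γ) : ∀ Y ∈ LF (hol := hol) hA,
    ∃ Z ∈ LF (hol := hol) hA, ∀ v, ((hol γ).linear : E →ₗ[ℝ] E) (Y v) =
      Z (((hol γ).linear : E →ₗ[ℝ] E) v) := by
  rintro _ ⟨X, hX, rfl⟩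
  obtain ⟨X', hX', h1, -⟩ := conj_lin hA hN γ hX
  exact ⟨_, ⟨X', hX', rfl⟩, h1⟩

/-- the common kernel is a plane, which is spanned by the images -/
theorem case_plane (h : VolAct Γ E hol Ω) (hc : IsPreconnected Ω) (hN : A.Normal)
    (hE : Module.finrank ℝ E = 3) (hK : Module.finrank ℝ (ker (LF (hol := hol) hA)) = 2)
    (hI : act (LF (hol := hol) hA) ⊤ = ker (LF (hol := hol) hA)) : Ω = Set.univ := by
  set K := ker (LF (hol := hol) hA) with hKdef
  have hKX : ∀ X ∈ HH hol A hA, ∀ v ∈ K, Lp X v = 0 := fun X hX v hv => hv _ ⟨X, hX, rfl⟩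
  have hIX : ∀ X ∈ HH hol A hA, ∀ v, Lp X v ∈ K := by
    intro X hX v
    rw [← hI]
    exact Submodule.subset_span ⟨_, ⟨X, hX, rfl⟩, v, trivial, rfl⟩
  obtain ⟨φ, e, -, he, hφ⟩ := exists_fun K ⊤ le_top (by rw [finrank_top, hE, hK]) (by
    intro h1
    rw [h1, finrank_top] at hK
    omega)
  replace hφ : ∀ v, φ v = 0 ↔ v ∈ K := fun v => hφ v trivial
  have hLX : ∀ X ∈ HH hol A hA, ∀ v, Lp X v = φ v • Lp X e := by
    intro X hX v
    have h1 : v - φ v • e ∈ K := by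
      rw [← hφ, map_sub, map_smul, he, smul_eq_mul, mul_one, sub_self]
    have h2 := hKX X hX _ h1
    rwa [map_sub, map_smul, sub_eq_zero] at h2
  let ℓ : AA E →ₗ[ℝ] E := (LinearMap.applyₗ e) ∘ₗ Lp
  have hℓ : ∀ X, ℓ X = Lp X e := fun X => rfl
  set M := (HH hol A hA).map ℓ with hM
  have hMK : K ≤ M := by
    rw [← hI, act, Submodule.span_le]
    rintro _ ⟨_, ⟨X, hX, rfl⟩, v, -, rfl⟩
    rw [hLX X hX v]
    exact M.smul_mem _ ⟨X, hX, rfl⟩
  have hφt : ∀ Z ∈ HH hol A hA, tp Z ∈ K := by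
    intro Z hZ
    by_contra hne
    rw [← hφ] at hne
    have h1 : M ≤ Submodule.span ℝ {ℓ Z} := by
      rintro _ ⟨X, hX, rfl⟩
      have h2 := Lp_tp hA hX hZ
      rw [hLX X hX, hLX Z hZ (tp X)] at h2
      rw [Submodule.mem_span_singleton]
      refine ⟨(φ (tp Z))⁻¹ * φ (tp X), ?_⟩
      rw [mul_smul, hℓ, ← h2, smul_smul, inv_mul_cancel₀ hne, one_smul, hℓ]
    have h2 := Submodule.finrank_mono (R := ℝ) (hMK.trans h1)
    have h3 := finrank_span_le_card (R := ℝ) ({ℓ Z} : Set E)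
    rw [hK] at h2
    simp only [Set.toFinset_singleton, Finset.card_singleton] at h3
    omega
  have hsq : ∀ X ∈ HH hol A hA, X * X = 0 := by
    intro X hX
    refine ContinuousLinearMap.ext fun w => ?_
    rw [mul_apply_eq_comp]
    have e1 : X w = (Lp X w.1 + w.2 • tp X, 0) := form_apply (HH_snd hol A hA hX) w.1 w.2
    rw [e1, form_apply (HH_snd hol A hA hX), zero_smul, add_zero,
      hKX X hX _ (K.add_mem (hIX X hX _) (K.smul_mem _ (hφt X hX)))]
    rfl
  refine h.hyper hc φ fun x hx u hu => ?_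
  rw [hφ] at hu
  let mx : AA E →ₗ[ℝ] E :=
    { toFun := fun X => (X (x, 1)).1
      map_add' := fun _ _ => rfl
      map_smul' := fun _ _ => rfl }
  have hmxK : (HH hol A hA).map mx ≤ K := by
    rintro _ ⟨X, hX, rfl⟩
    change (X (x, 1)).1 ∈ K
    rw [form_apply (HH_snd hol A hA hX)]
    exact K.add_mem (hIX X hX _) (K.smul_mem _ (hφt X hX))
  have h1 : Module.finrank ℝ ((HH hol A hA).map mx) = Module.finrank ℝ (HH hol A hA) := by
    refine map_fr mx _ fun X hX hX0 => ?_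
    exact h.toAffAct.free hA hN hsq hX hx (Prod.ext hX0 (HH_snd hol A hA hX _))
  have h2 : Module.finrank ℝ M ≤ Module.finrank ℝ (HH hol A hA) := Submodule.finrank_map_le ℓ _
  have h3 := Submodule.finrank_mono (R := ℝ) hMK
  have h4 : (HH hol A hA).map mx = K :=
    Submodule.eq_of_le_of_finrank_le hmxK (by omega)
  rw [← h4] at hu
  obtain ⟨X, hX, hXu⟩ := hu
  have h5 := h.toAffAct.flow_mem hA hN hX hx
  rw [exp_sq _ (hsq X hX)] at h5
  have h6 : actp (1 + X) x = x + u := by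
    rw [← hXu]
    rfl
  rwa [h6] at h5

end fam

end Run7.h262.TB
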