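import Pool.Agent.Run7.h262.TB.Gdc

/-!
Orbits of the linear holonomy in half spaces; the theorem in dimension three.
-/

set_option autoImplicit false

namespace Run7.h262.TB

open Run7.h262.SV

variable {Γ E : Type} [Group Γ] [NormedAddCommGroup E] [NormedSpace ℝ E] [FiniteDimensional ℝ E]
  {hol : Γ →* (E ≃ᵃ[ℝ] E)} {Ω : Set E}

/-- irreducible linear holonomy with a nonzero orbit in a half space -/
theorem VolAct.half (h : VolAct Γ E hol Ω) (hinj : Function.Injective hol)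
    (hirr : Irr hol ⊥ ⊤) {v : E} {f : E →ₗ[ℝ] ℝ} (hv : v ≠ 0) (hf : f ≠ 0)
    (hpos : ∀ γ : Γ, 0 ≤ f ((hol γ).linear v)) :
    ∃ A : Subgroup Γ, A.Normal ∧ A ≠ ⊥ ∧ ∀ a ∈ A, ∀ b ∈ A, a * b = b * a := by
  have hlt : (⊥ : Submodule ℝ E) < ⊤ := by
    rw [bot_lt_iff_ne_bot]
    intro h1
    have h2 : v ∈ (⊤ : Submodule ℝ E) := trivial
    rw [h1] at h2
    exact hv h2
  have hbot : ∀ γ : Γ, ∀ v ∈ (⊥ : Submodule ℝ E), (hol γ).linear v ∈ (⊥ : Submodule ℝ E) := by
    intro γ v hv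
    rw [(Submodule.mem_bot ℝ).1 hv, map_zero]
    exact Submodule.zero_mem _
  let S : ℕ → Submodule ℝ E := fun i =>
    match i with
    | 0 => ⊥
    | _ + 1 => ⊤
  refine h.toAffAct.gd_blocks hinj h.unimod S 1 rfl rfl ?_ ?_ (fun _ => Module.finrank ℝ E) ?_ ?_
  · intro i hi
    interval_cases i
    exact bot_le
  · intro i hi γ v hv
    interval_cases i
    · exact hbot γ v hv
    · trivial
  · intro K hK hKΩ i hi
    interval_cases i
    have h1 := gd_cone h.toAffAct hK hKΩ hlt hbot (fun _ _ _ => trivial) hirr ⟨v, f, trivial, hv,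
      fun w hw => by rw [(Submodule.mem_bot ℝ).1 hw, map_zero], by
        by_contra hno
        push Not at hno
        exact hf (LinearMap.ext fun u => hno u trivial), hpos⟩
    rw [finrank_top, finrank_bot, Nat.sub_zero] at h1
    exact h1
  · rw [Finset.sum_range_one]
    omega

/-- dimension three -/
theorem VolAct.dim_three (h : VolAct Γ E hol Ω) (hinj : Function.Injective hol)
    (hc : IsPreconnected Ω) (hE : Module.finrank ℝ E = 3)
    (hyp : (∃ (v : E) (f : E →ₗ[ℝ] ℝ), v ≠ 0 ∧ f ≠ 0 ∧ ∀ γ : Γ, 0 ≤ f ((hol γ).linear v)) ∨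
      (∃ N : Subgroup Γ, N.Normal ∧ N ≠ ⊥ ∧ ∃ S : Subgroup N, S.FiniteIndex ∧
        Group.IsSolvable S) ∨
      (∀ δ > 0, ∃ γ : Γ, γ ≠ 1 ∧ ∃ s : ℝ, s ≠ 0 ∧ ∀ v,
        ‖s • (hol γ).linear v - v‖ ≤ δ * ‖v‖)) : Ω = Set.univ := by
  rcases hyp with ⟨v, f, hv, hf, hpos⟩ | ⟨N, hN, hne, S, hS, hs⟩ | hs
  · by_cases hirr : Irr hol ⊥ ⊤
    · exact h.three' hinj hc hE (h.half hinj hirr hv hf hpos)
    · unfold Irr at hirr
      push Not at hirr
      obtain ⟨W, -, -, hW, h1, h2⟩ := hirr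
      exact h.three_red hinj hc hE W h1 h2 hW
  · exact h.three' hinj hc hE (h.exists_abelian hinj N hN hne S hS hs)
  · exact h.three_small hinj hc hE hs

theorem vs_range {G : Type} [Group G] {hol : Γ →* G}
    (h : ∃ N S : Subgroup Γ, N.Normal ∧ (∃ a ∈ N, hol a ≠ 1) ∧ S ≤ N ∧ S.relIndex N ≠ 0 ∧
      Group.IsSolvable (S.map hol)) :
    ∃ N : Subgroup hol.range, N.Normal ∧ N ≠ ⊥ ∧ ∃ S : Subgroup N, S.FiniteIndex ∧
      Group.IsSolvable S := by
  obtain ⟨N, S, hN, ⟨a, ha, ha1⟩, hSN, hS, hs⟩ := h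
  let f : Γ →* hol.range := hol.rangeRestrict
  have hf : Function.Surjective f := hol.rangeRestrict_surjective
  refine ⟨N.map f, hN.map f hf, ?_, (S.map f).subgroupOf (N.map f), ⟨?_⟩, ?_⟩
  · intro hbot
    apply ha1
    have h1 : f a ∈ N.map f := ⟨a, ha, rfl⟩
    rw [hbot, Subgroup.mem_bot] at h1
    exact congrArg Subtype.val h1
  · have h1 : ((S.subgroupOf N).map (f.subgroupMap N)).index ∣ (S.subgroupOf N).index :=
      Subgroup.index_map_dvd _ (f.subgroupMap_surjective N)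
    have h2 : (S.subgroupOf N).map (f.subgroupMap N) = (S.map f).subgroupOf (N.map f) := by
      ext ⟨x, hx⟩
      constructor
      · rintro ⟨⟨y, hy⟩, hy1, hy2⟩
        exact ⟨y, hy1, congrArg Subtype.val hy2⟩
      · rintro ⟨y, hy1, hy2⟩
        exact ⟨⟨y, hSN hy1⟩, hy1, Subtype.ext hy2⟩
    rw [h2] at h1
    intro h3
    rw [h3] at h1
    exact hS (zero_dvd_iff.1 h1)
  · let g : (S.map f).subgroupOf (N.map f) →* S.map hol :=
      { toFun := fun x => ⟨((x : N.map f) : hol.range), by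
          obtain ⟨⟨x, hx⟩, y, hy, hxy⟩ := x
          exact ⟨y, hy, congrArg Subtype.val hxy⟩⟩
        map_one' := rfl
        map_mul' := fun x y => rfl }
    refine Group.isSolvable_of_isSolvable_injective (f := g) ?_
    intro x y hxy
    have h4 : ((g x : S.map hol) : G) = ((g y : S.map hol) : G) := by rw [hxy]
    exact Subtype.ext (Subtype.ext (Subtype.ext h4))

end Run7.h262.TB
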