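import Pool.Agent.Run7.h262.TB.Quot
import Pool.Agent.W689.Mk.Star

/-!
Volume preserving groups dividing an open set, and affine manifolds with injective developing map.
-/

set_option autoImplicit false

open Filter Topology

namespace Run7.h262.TB

open Run7.h262.SV Pool.Agent.W689.Mk

section conv
variable {X Γ E : Type} [TopologicalSpace X] [Group Γ] [MulAction Γ X] [NormedAddCommGroup E]
  [NormedSpace ℝ E] [FiniteDimensional ℝ E] {dev : X → E} {hol : Γ →* (E ≃ᵃ[ℝ] E)}

theorem open_emb (D : AffData X Γ E dev hol) (hinj : Function.Injective dev) :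
    IsOpenEmbedding dev := D.loc.isOpenEmbedding_of_injective hinj

/-- the domain of an affine manifold with injective developing map -/
theorem of_data [Nonempty X] (D : AffData X Γ E dev hol) (hinj : Function.Injective dev) :
    VolAct Γ E hol (Set.range dev) := by
  have he := open_emb D hinj
  refine ⟨⟨he.isOpen_range, Set.range_nonempty dev, ?_, ?_, ?_⟩, D.unimod⟩
  · rintro γ _ ⟨x, rfl⟩
    exact ⟨γ • x, D.equi γ x⟩
  · intro K hK hKΩ
    have h1 : IsCompact (dev ⁻¹' K) := he.isInducing.isCompact_preimage' hK hKΩ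
    refine (D.pd _ h1).subset ?_
    rintro γ ⟨y, hy, h2⟩
    obtain ⟨x, rfl⟩ := hKΩ hy
    refine ⟨x, hy, ?_⟩
    rw [Set.mem_preimage, D.equi]
    exact h2
  · obtain ⟨K, hK, hc⟩ := D.cc
    refine ⟨dev '' K, hK.image he.continuous, Set.image_subset_range _ _, ?_⟩
    rintro _ ⟨x, rfl⟩
    obtain ⟨γ, k, hk, rfl⟩ := hc x
    refine ⟨γ⁻¹, k, hk, ?_⟩
    rw [D.equi]
    exact (hol_inv_apply γ _).symm

theorem homeo_of_univ (D : AffData X Γ E dev hol) (hinj : Function.Injective dev)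
    (h : Set.range dev = Set.univ) : IsHomeomorph dev := by
  have he := open_emb D hinj
  exact ⟨he.continuous, he.isOpenMap, hinj, Set.range_eq_univ.1 h⟩

end conv

variable {Γ E : Type} [Group Γ] [NormedAddCommGroup E] [NormedSpace ℝ E] [FiniteDimensional ℝ E]
  {hol : Γ →* (E ≃ᵃ[ℝ] E)} {Ω : Set E}

/-- the action on the domain -/
abbrev AffAct.act (h : AffAct Γ E hol Ω) : MulAction Γ Ω where
  smul γ x := ⟨hol γ x, h.inv γ x x.2⟩
  one_smul x := by
    refine Subtype.ext ?_
    change hol 1 (x : E) = x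
    rw [map_one]
    rfl
  mul_smul γ δ x := by
    refine Subtype.ext ?_
    change hol (γ * δ) (x : E) = hol γ (hol δ x)
    rw [map_mul]
    rfl

theorem VolAct.data (h : VolAct Γ E hol Ω) :
    @AffData Ω Γ E _ _ h.toAffAct.act _ _ (Subtype.val : Ω → E) hol := by
  let _ : MulAction Γ Ω := h.toAffAct.act
  refine ⟨h.isOpen.isOpenEmbedding_subtypeVal.isLocalHomeomorph, ?_, ?_, h.unimod, ?_, ?_⟩
  · intro γ
    exact Continuous.subtype_mk ((Run7.h262.SV.hol_cont γ).comp continuous_subtype_val) _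
  · intro γ x
    rfl
  · intro K hK
    refine (h.pd (Subtype.val '' K) (hK.image continuous_subtype_val) ?_).subset ?_
    · rintro _ ⟨x, _, rfl⟩
      exact x.2
    · rintro γ ⟨x, hx, h1⟩
      exact ⟨x, ⟨x, hx, rfl⟩, ⟨_, h1, rfl⟩⟩
  · obtain ⟨K, hK, hKΩ, hc⟩ := h.cc
    refine ⟨Subtype.val ⁻¹' K, ?_, ?_⟩
    · refine h.isOpen.isOpenEmbedding_subtypeVal.isInducing.isCompact_preimage' hK ?_
      rw [Subtype.range_coe]
      exact hKΩ
    · intro x
      obtain ⟨γ, hγ⟩ := hc x x.2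
      refine ⟨γ⁻¹, ⟨hol γ x, h.inv γ x x.2⟩, hγ, Subtype.ext ?_⟩
      exact hol_inv_apply γ _

/-- no proper invariant subset is star-shaped -/
theorem VolAct.star (h : VolAct Γ E hol Ω) {C : Set E} {p : E} (hp : p ∈ C)
    (hs : StarConvex ℝ p C) (hinv : ∀ γ : Γ, ∀ q ∈ C, hol γ q ∈ C) : C = Set.univ := by
  let _ : MulAction Γ Ω := h.toAffAct.act
  have : Nonempty Ω := h.nonempty.to_subtype
  exact star_univ h.data hp hs hinv

theorem VolAct.cvx (h : VolAct Γ E hol Ω) {C : Set E} (hne : C.Nonempty)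
    (hs : Convex ℝ C) (hinv : ∀ γ : Γ, ∀ q ∈ C, hol γ q ∈ C) : C = Set.univ := by
  obtain ⟨p, hp⟩ := hne
  exact h.star hp (hs.starConvex hp) hinv

/-- domains invariant under a hyperplane of translations -/
theorem VolAct.hyper (h : VolAct Γ E hol Ω) (hc : IsPreconnected Ω) (φ : E →ₗ[ℝ] ℝ)
    (hφ : ∀ x ∈ Ω, ∀ u, φ u = 0 → x + u ∈ Ω) : Ω = Set.univ := by
  refine h.cvx h.nonempty ?_ h.inv
  have h1 : Convex ℝ (φ '' Ω) := by
    have h2 : IsPreconnected (φ '' Ω) := hc.image φ φ.continuous_of_finiteDimensional.continuousOn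
    exact h2.ordConnected.convex
  have h3 : Ω = φ ⁻¹' (φ '' Ω) := by
    refine Set.Subset.antisymm (Set.subset_preimage_image φ Ω) ?_
    rintro x ⟨y, hy, hyx⟩
    have h4 : x = y + (x - y) := by abel
    rw [h4]
    exact hφ y hy _ (by rw [map_sub, hyx, sub_self])
  rw [h3]
  exact h1.linear_preimage φ

end Run7.h262.TB
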